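import Pool.Agent.MP_a25fb7_an.Cn.D

attribute [-instance] Valued.toUniformSpace NonUnitalNonAssocRing.toAddCommGroup
  TopologicalSpace.instSecondCountableTopologyOfLindelofSpaceOfPseudoMetrizableSpace
  AddGroupWithOne.toAddGroup AddQuantale.instAddLeftMono
  NonUnitalNormedRing.toNonUnitalSeminormedRing RKHS.instFunLike IdemSemiring.toCanonicallyOrderedAdd
  GrpTypeEquivalenceGrp.grpGroup RightPreLieAlgebra.toModule
  NonUnitalNormedCommRing.toNonUnitalSeminormedCommRing NonUnitalNonAssocSemiring.toAddCommMonoid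
  LeftPreLieAlgebra.toModule TotallySeparatedSpace.t2Space littleWedderburn Algebra.toSMul
  NonarchimedeanAddGroup.toIsTopologicalAddGroup continuousSub_of_discreteTopology
  LieRing.toAddCommGroup NonUnitalNonAssocSemiring.toMulZeroClass
  CategoryTheory.CountableCategory.countableObj NormedRing.toRing AddQuantale.instAddRightMono
  NumberField.to_charZero IdemSemiring.toMulLeftMono instCoeHTCTOfCoeHTC
  MulSemiringAction.toDistribMulAction TopologicalSpace.NoetherianSpace.compactSpace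
  SeminormedRing.toNonUnitalSeminormedRing ProperSMul.toContinuousSMul IsScalarTower.complexToReal
  CStarAlgebra.instOrderClosedTopology NonAssocSemiring.toAddCommMonoidWithOne
  Group.IsPerfect.subsingleton_of_isMulCommutative LinearOrderedCommMonoidWithZero.toPosMulStrictMono
  Quantale.instMulRightMono IsTopologicalTorsor.toContinuousSMul
  NonUnitalSeminormedRing.toPseudoMetricSpace CommCStarAlgebra.toNormedCommRing
  AlexandrovDiscrete.toLocallyCompactSpace SeminormedCommGroup.toPseudoMetricSpace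
  AddCommGroupWithOne.toAddCommGroup EuclideanDomain.toCommRing MulZeroOneClass.toMulZeroClass
  Action.FintypeCat.instMulActionObjFiniteOf NonUnitalRing.toNonUnitalNonAssocRing
  SeminormedCommRing.toCommRing IdemSemiring.toSemiring Quantale.instMulLeftMono
  continuousSub_of_indiscreteTopology instSMulZeroClass PolishSpace.toSecondCountableTopology
  UniformSpace.secondCountable_of_separable AlexandrovDiscrete.toFirstCountable
  Topology.IsScott.instClosedIicTopologyOfUnivSet LieAdmissibleRing.toNonUnitalNonAssocRing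
  spectralNorm.completeSpace IdemSemiring.toMulRightMono AddCommMonoidWithOne.toAddCommMonoid
  BooleanRing.toRing TopologicalSpace.UpgradedIsCompletelyPseudoMetrizableSpace.toPseudoMetricSpace
  IsTopologicalSemiring.toContinuousAdd NonUnitalAlgSemiHomClass.toDistribMulActionSemiHomClass
  AddCommGroupWithOne.toAddGroupWithOne UpgradedStandardBorel.toTopologicalSpace
  DiscreteUniformity.instCompleteSpace BooleanRing.toCommRing NonUnitalNormedRing.toNorm
  NormedDivisionRing.toDivisionRing CStarAlgebra.toNormedRing MeasureTheory.instSFiniteOfCountable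
  IsOrderedCancelMonoid.toIsOrderedMonoid NonUnitalNormedCommRing.toNonUnitalCommRing
  LieRinehartAlgebra.toIsScalarTower SemilinearIsometryClass.toSemilinearMapClass
  ENNReal.instTopologicalSpace NormedField.toNorm IsValuativeTopology.instIsTopologicalAddGroup
  NonAssocRing.toNonUnitalNonAssocRing CoalgHomClass.toSemilinearMapClass
  LinearOrderedCommMonoidWithZero.toIsBotZeroClass Torsor.toMulAction
  LinearOrderedAddCommMonoidWithTop.toAddCommMonoid
  NonUnitalNonAssocCommSemiring.toNonUnitalNonAssocSemiring completeSpace_of_cauSeq_isComplete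
  NonAssocCommSemiring.toNonAssocSemiring IdemCommSemiring.toCommSemiring
  CanonicallyOrderedAdd.toMulLeftMono LinearOrderedAddCommGroupWithTop.toSubNegMonoid
  instIsModuleTopology RightPreLieRing.instLieAdmissibleRing CStarAlgebra.toCompleteSpace
  LinearOrderedCommMonoidWithZero.toIsOrderedMonoid

section
open MeasureTheory Metric Set Filter Topology Module
open scoped InnerProductSpace Pointwise

namespace Pool.Agent.MP_a25fb7_an.T39

variable {E : Type*} [NormedAddCommGroup E] [InnerProductSpace ℝ E] [FiniteDimensional ℝ E]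
  [MeasurableSpace E] [BorelSpace E] (μ : Measure E) [μ.IsAddHaarMeasure]

section scale
variable {V : Type*} [NormedAddCommGroup V] [NormedSpace ℝ V]

lemma int_ball (F : E → V) (x : E) {s : ℝ} (hs : 0 < s) :
    ∫ y in ball x s, F y ∂μ = s ^ finrank ℝ E • ∫ z in ball (0 : E) 1, F (x + s • z) ∂μ := by
  rw [Measure.setIntegral_comp_smul_of_pos μ (fun y => F (x + y)) _ hs, smul_smul,
    mul_inv_cancel₀ (by positivity), one_smul, smul_unitBall_of_pos hs,
    ← (measurePreserving_add_left μ x).setIntegral_preimage_emb (measurableEmbedding_addLeft x)]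
  congr 2
  ext y
  simp

lemma real_ball (x : E) {s : ℝ} (hs : 0 < s) :
    μ.real (ball x s) = s ^ finrank ℝ E * μ.real (ball (0 : E) 1) := by
  simpa only [integral_const, MeasurableSet.univ, measureReal_restrict_apply, univ_inter, smul_eq_mul, mul_one] using int_ball μ (fun _ => (1 : ℝ)) x hs

lemma real_ball_pos (x : E) {s : ℝ} (hs : 0 < s) : 0 < μ.real (ball x s) :=
  ENNReal.toReal_pos (measure_ball_pos μ x hs).ne' measure_ball_lt_top.ne

lemma intOn_ball {F : E → V} (hF : Continuous F) (x : E) (s : ℝ) : IntegrableOn F (ball x s) μ :=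
  (hF.continuousOn.integrableOn_compact (isCompact_closedBall x s)).mono_set ball_subset_closedBall

lemma ae_norm_ne (x : E) {s : ℝ} (hs : s ≠ 0) : ∀ᵐ y ∂μ, ‖y - x‖ ≠ s := by
  filter_upwards [measure_eq_zero_iff_ae_notMem.1 (Measure.addHaar_sphere_of_ne_zero μ x hs)]
    with y hy
  simpa [mem_sphere_iff_norm] using hy

lemma cont_unit {X : Type*} [TopologicalSpace X] [FirstCountableTopology X] [LocallyCompactSpace X]
    {F : X → E → V} (hF : Continuous F.uncurry) :
    Continuous fun p => ∫ z in ball (0 : E) 1, F p z ∂μ := by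
  have h : ball (0 : E) 1 =ᵐ[μ] closedBall (0 : E) 1 := by
    filter_upwards [ae_norm_ne μ (0 : E) one_ne_zero] with y hy
    rw [sub_zero] at hy
    exact propext ⟨fun h => ball_subset_closedBall h, fun h =>
      mem_ball_zero_iff.2 (lt_of_le_of_ne (mem_closedBall_zero_iff.1 h) hy)⟩
  rw [Measure.restrict_congr_set h]
  exact continuous_parametric_integral_of_continuous hF (isCompact_closedBall _ _)

/-- Integrals over balls depend continuously on centre and radius. -/
lemma contOn_ball {F : E × ℝ → E → V} (hF : Continuous F.uncurry) :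
    ContinuousOn (fun p : E × ℝ => ∫ y in ball p.1 p.2, F p y ∂μ) {p | 0 < p.2} := by
  have h : Continuous fun p : E × ℝ =>
      p.2 ^ finrank ℝ E • ∫ z in ball (0 : E) 1, F p (p.1 + p.2 • z) ∂μ :=
    (continuous_snd.pow _).smul (cont_unit μ (F := fun p z => F p (p.1 + p.2 • z))
      (hF.comp (f := fun q : (E × ℝ) × E => (q.1, q.1.1 + q.1.2 • q.2)) (by fun_prop)))
  exact h.continuousOn.congr fun p hp => int_ball μ _ _ hp

lemma contOn_rad {F : E → V} (hF : Continuous F) (x : E) :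
    ContinuousOn (fun s : ℝ => ∫ y in ball x s, F y ∂μ) (Ioi 0) :=
  (contOn_ball μ (F := fun _ y => F y) (hF.comp continuous_snd)).comp
    (f := fun s : ℝ => (x, s)) (by fun_prop) fun _ hs => hs

end scale

omit [FiniteDimensional ℝ E] [MeasurableSpace E] [BorelSpace E] in
lemma taylor_pt {f : E → ℝ} {g : E → E} (hfg : ∀ x, HasFDerivAt f (innerSL ℝ (g x)) x) {K : ℝ}
    (hK : ∀ x y, ‖g x - g y‖ ≤ K * ‖x - y‖) (p v : E) :
    |f (p + v) - f p - ⟪g p, v⟫_ℝ| ≤ K * ‖v‖ ^ 2 := by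
  have h := (convex_closedBall p ‖v‖).norm_image_sub_le_of_norm_hasFDerivWithin_le'
    (f := f) (f' := fun x => innerSL ℝ (g x)) (φ := innerSL ℝ (g p)) (C := |K| * ‖v‖)
    (x := p) (y := p + v) (fun x _ => (hfg x).hasFDerivWithinAt) (fun x hx => by
      rw [← map_sub, innerSL_apply_norm]
      refine (hK x p).trans ((mul_le_mul_of_nonneg_right (le_abs_self K) (norm_nonneg _)).trans ?_)
      gcongr
      exact mem_closedBall_iff_norm.1 hx) (mem_closedBall_self (norm_nonneg _)) (by simp)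
  by_cases hv : v = 0
  · simp [hv]
  have hK0 : 0 ≤ K := by
    have := (norm_nonneg _).trans (hK (p + v) p)
    rw [add_sub_cancel_left] at this
    exact nonneg_of_mul_nonneg_left this (norm_pos_iff.2 hv)
  rw [abs_of_nonneg hK0, add_sub_cancel_left] at h
  simpa only [pow_two, ge_iff_le, coe_innerSL_apply, Real.norm_eq_abs, mul_assoc] using h

omit [FiniteDimensional ℝ E] [MeasurableSpace E] [BorelSpace E] in
lemma cont_of_lip {g : E → E} {K : ℝ} (hK : ∀ x y, ‖g x - g y‖ ≤ K * ‖x - y‖) : Continuous g :=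
  (LipschitzWith.of_dist_le' (K := K) fun x y => by simpa only [dist_eq_norm] using hK x y).continuous

lemma avg_ball (f : E → ℝ) (x : E) {s : ℝ} (hs : 0 < s) : (∫ y in ball x s, f y ∂μ) /
    μ.real (ball x s) = (∫ z in ball (0 : E) 1, f (x + s • z) ∂μ) / μ.real (ball (0 : E) 1) := by
  rw [int_ball μ f x hs, real_ball μ x hs, smul_eq_mul, mul_div_mul_left _ _ (by positivity)]

/-- (T): second order Taylor bound for ball averages in centre and radius. -/
theorem taylor {f : E → ℝ} {g : E → E} (hfg : ∀ x, HasFDerivAt f (innerSL ℝ (g x)) x) {K : ℝ}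
    (hK0 : 0 ≤ K) (hK : ∀ x y, ‖g x - g y‖ ≤ K * ‖x - y‖) (x h : E) {s k : ℝ} (hs : 0 < s)
    (hk : 0 < s + k) :
    |(∫ y in ball (x + h) (s + k), f y ∂μ) / μ.real (ball (x + h) (s + k)) -
      (∫ y in ball x s, f y ∂μ) / μ.real (ball x s) -
      (⟪h, ∫ y in ball x s, g y ∂μ⟫_ℝ + k * (∫ y in ball x s, ⟪y - x, g y⟫_ℝ ∂μ) / s) /
        μ.real (ball x s)| ≤ K * (‖h‖ + |k|) ^ 2 := by
  have hf : Continuous f := continuous_iff_continuousAt.2 fun x => (hfg x).continuousAt
  have hg := cont_of_lip hK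
  have e1 : ⟪h, ∫ y in ball x s, g y ∂μ⟫_ℝ + k * (∫ y in ball x s, ⟪y - x, g y⟫_ℝ ∂μ) / s =
      ∫ y in ball x s, ⟪g y, h + (k / s) • (y - x)⟫_ℝ ∂μ := by
    rw [← integral_inner (intOn_ball μ hg x s), mul_div_right_comm, ← integral_const_mul,
      ← integral_add (intOn_ball μ (by fun_prop) x s) (intOn_ball μ (by fun_prop) x s)]
    congr 1
    ext y
    rw [inner_add_right, real_inner_smul_right, real_inner_comm, real_inner_comm (g y)]
  have hω := real_ball_pos μ (0 : E) one_pos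
  rw [e1, avg_ball μ _ _ hk, avg_ball μ _ _ hs, avg_ball μ _ _ hs, ← sub_div, ← sub_div,
    ← integral_sub (intOn_ball μ (by fun_prop) _ _) (intOn_ball μ (by fun_prop) _ _),
    ← integral_sub (intOn_ball μ (by fun_prop) _ _) (intOn_ball μ (by fun_prop) _ _), abs_div,
    abs_of_pos hω, div_le_iff₀ hω, ← Real.norm_eq_abs]
  refine norm_setIntegral_le_of_norm_le_const measure_ball_lt_top fun z hz => ?_
  have h1 := taylor_pt hfg hK (x + s • z) (h + k • z)
  rw [show x + h + (s + k) • z = x + s • z + (h + k • z) by module, add_sub_cancel_left, smul_smul,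
    div_mul_cancel₀ _ hs.ne']
  refine h1.trans ?_
  gcongr
  refine (norm_add_le _ _).trans ?_
  rw [norm_smul, Real.norm_eq_abs]
  gcongr
  exact mul_le_of_le_one_right (abs_nonneg _) (mem_ball_zero_iff.1 hz).le

/-- The radial derivative of the ball average. -/
theorem hasDerivAt_avg {f : E → ℝ} {g : E → E} (hfg : ∀ x, HasFDerivAt f (innerSL ℝ (g x)) x)
    {K : ℝ} (hK0 : 0 ≤ K) (hK : ∀ x y, ‖g x - g y‖ ≤ K * ‖x - y‖) (x : E) {s : ℝ} (hs : 0 < s) :
    HasDerivAt (fun t => (∫ y in ball x t, f y ∂μ) / μ.real (ball x t))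
      ((∫ y in ball x s, ⟪y - x, g y⟫_ℝ ∂μ) / s / μ.real (ball x s)) s := by
  rw [hasDerivAt_iff_isLittleO_nhds_zero]
  refine Asymptotics.IsBigO.trans_isLittleO (g := fun k : ℝ => k ^ 2) ?_
    (Asymptotics.isLittleO_pow_id one_lt_two)
  refine Asymptotics.IsBigO.of_bound K ?_
  filter_upwards [Ioi_mem_nhds (neg_lt_zero.2 hs)] with k hk
  have h := taylor μ hfg hK0 hK x 0 hs (k := k) (by linarith [mem_Ioi.1 hk])
  simp only [add_zero, inner_zero_left, zero_add, norm_zero, sq_abs] at h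
  rw [Real.norm_eq_abs, Real.norm_eq_abs, abs_of_nonneg (sq_nonneg k), smul_eq_mul]
  convert h using 3
  ring

/-- Layer cake over concentric balls. -/
theorem layer {β : E → ℝ} (x : E) {a b : ℝ} (hab : a ≤ b) (hβ : IntegrableOn β (ball x b) μ)
    {φ Φ : ℝ → ℝ} (hφ : ContinuousOn φ (Icc a b)) (hΦ : ∀ t ∈ Icc a b, HasDerivAt Φ (φ t) t) :
    ∫ t in a..b, φ t * ∫ y in ball x t, β y ∂μ =
      ∫ y in ball x b, (Φ b - Φ (max a ‖y - x‖)) * β y ∂μ := by
  have hm : MeasurableSet {p : ℝ × E | ‖p.2 - x‖ < p.1} :=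
    (isOpen_lt (by fun_prop) continuous_fst).measurableSet
  have hi : Integrable ({p : ℝ × E | ‖p.2 - x‖ < p.1}.indicator fun p => φ p.1 * β p.2)
      ((volume.restrict (Ioc a b)).prod (μ.restrict (ball x b))) :=
    (Integrable.mul_prod ((hφ.integrableOn_compact isCompact_Icc).mono_set Ioc_subset_Icc_self)
      hβ).indicator hm
  have h := integral_integral_swap (f := fun t y =>
    {p : ℝ × E | ‖p.2 - x‖ < p.1}.indicator (fun p => φ p.1 * β p.2) (t, y)) hi
  rw [intervalIntegral.integral_of_le hab]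
  refine Eq.trans (setIntegral_congr_fun measurableSet_Ioc fun t ht => ?_)
    (h.trans (setIntegral_congr_fun measurableSet_ball fun y hy => ?_))
  · have e : (fun y => {p : ℝ × E | ‖p.2 - x‖ < p.1}.indicator (fun p => φ p.1 * β p.2) (t, y)) =
        (ball x t).indicator fun y => φ t * β y := by
      ext y
      simp [indicator, dist_eq_norm]
    simp only [e]
    rw [setIntegral_indicator measurableSet_ball, inter_eq_right.2 (ball_subset_ball ht.2),
      integral_const_mul]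
  · have e : (fun t => {p : ℝ × E | ‖p.2 - x‖ < p.1}.indicator (fun p => φ p.1 * β p.2) (t, y)) =
        (Ioi ‖y - x‖).indicator fun t => φ t * β y := by
      ext t
      simp [indicator]
    have h1 : max a ‖y - x‖ ≤ b := max_le hab (mem_ball_iff_norm.1 hy).le
    have h2 : uIcc (max a ‖y - x‖) b ⊆ Icc a b := by
      rw [uIcc_of_le h1]; exact Icc_subset_Icc_left (le_max_left _ _)
    simp only [e]
    rw [setIntegral_indicator measurableSet_Ioi, Ioc_inter_Ioi, integral_mul_const,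
      ← intervalIntegral.integral_of_le h1, intervalIntegral.integral_eq_sub_of_hasDerivAt
        (fun t ht => hΦ t (h2 ht)) (hφ.mono h2).intervalIntegrable]

lemma hasDerivAt_inv_pow (n : ℕ) {t : ℝ} (ht : 0 < t) :
    HasDerivAt (fun t : ℝ => -(t ^ n)⁻¹) (n * (t ^ (n + 1))⁻¹) t := by
  refine ((hasDerivAt_pow n t).inv (pow_pos ht n).ne').neg.congr_deriv ?_
  rcases n with _ | n
  · simp
  · simp only [Nat.add_sub_cancel]
    field_simp
    ring

/-- Difference of two concentric averages as an integral of the radial derivative against a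
tent. -/
theorem tent {f : E → ℝ} {g : E → E} (hfg : ∀ x, HasFDerivAt f (innerSL ℝ (g x)) x)
    {K : ℝ} (hK0 : 0 ≤ K) (hK : ∀ x y, ‖g x - g y‖ ≤ K * ‖x - y‖) (x : E) {a b : ℝ} (ha : 0 < a)
    (hab : a ≤ b) :
    ∫ y in ball x b, ((max a ‖y - x‖ ^ finrank ℝ E)⁻¹ - (b ^ finrank ℝ E)⁻¹) * ⟪y - x, g y⟫_ℝ ∂μ =
      finrank ℝ E * μ.real (ball (0 : E) 1) * ((∫ y in ball x b, f y ∂μ) / μ.real (ball x b) -
        (∫ y in ball x a, f y ∂μ) / μ.real (ball x a)) := by
  have hg := cont_of_lip hK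
  have hp : ∀ t ∈ Icc a b, 0 < t := fun t ht => ha.trans_le ht.1
  have hI := (contOn_rad μ (F := fun y => ⟪y - x, g y⟫_ℝ) (by fun_prop) x).mono hp
  have hφ : ContinuousOn (fun t : ℝ => finrank ℝ E * (t ^ (finrank ℝ E + 1))⁻¹) (Icc a b) :=
    continuousOn_const.mul ((continuousOn_id.pow _).inv₀ fun t ht => (pow_pos (hp t ht) _).ne')
  have h := layer μ x hab (intOn_ball μ (F := fun y => ⟪y - x, g y⟫_ℝ) (by fun_prop) x b) hφ
    fun t ht => hasDerivAt_inv_pow _ (hp t ht)
  have hω := real_ball_pos μ (0 : E) one_pos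
  have h2 := intervalIntegral.integral_eq_sub_of_hasDerivAt (a := a) (b := b)
    (f' := fun t => finrank ℝ E * (t ^ (finrank ℝ E + 1))⁻¹ * ∫ y in ball x t, ⟪y - x, g y⟫_ℝ ∂μ)
    (f := fun t => finrank ℝ E * μ.real (ball (0 : E) 1) *
      ((∫ y in ball x t, f y ∂μ) / μ.real (ball x t))) (fun t ht => by
      rw [uIcc_of_le hab] at ht
      have := hp t ht
      refine ((hasDerivAt_avg μ hfg hK0 hK x this).const_mul
        (finrank ℝ E * μ.real (ball (0 : E) 1))).congr_deriv ?_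
      rw [real_ball μ x this]
      field_simp
      ring) (by rw [← uIcc_of_le hab] at hφ hI; exact (hφ.mul hI).intervalIntegrable)
  rw [mul_sub, ← h2, h]
  congr 1
  ext y
  ring

/-- Integration by parts against `(s² - ‖y - x‖²)₊`. -/
lemma parts {f : E → ℝ} {g : E → E} (hfg : ∀ x, HasFDerivAt f (innerSL ℝ (g x)) x) {L : ℝ}
    (hL : ∀ x, ‖g x‖ ≤ L) (x ν : E) {s : ℝ} (hs : 0 < s) :
    ∫ y in ball x s, (s ^ 2 - ‖y - x‖ ^ 2) * ⟪ν, g y⟫_ℝ ∂μ =
      2 * ∫ y in ball x s, ⟪ν, y - x⟫_ℝ * f y ∂μ := by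
  have hf : LipschitzWith L.toNNReal f := lipschitzWith_of_nnnorm_fderiv_le (𝕜 := ℝ)
    (fun y => (hfg y).differentiableAt) fun y => by
      rw [(hfg y).fderiv, ← NNReal.coe_le_coe, coe_nnnorm, innerSL_apply_norm]
      exact (hL y).trans (Real.le_coe_toNNReal L)
  obtain ⟨ψ, hψ⟩ : ∃ ψ : E → ℝ, ψ = fun y => s ^ 2 - min ‖y - x‖ s ^ 2 := ⟨_, rfl⟩
  have hl : LipschitzWith (2 * s).toNNReal ψ := LipschitzWith.of_dist_le' fun y z => by
    have h1 : |min ‖y - x‖ s - min ‖z - x‖ s| ≤ dist y z := by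
      refine (abs_min_sub_min_le_max _ _ _ _).trans (max_le ?_ (by simp))
      simpa only [dist_eq_norm, sub_sub_sub_cancel_right] using abs_norm_sub_norm_le (y - x) (z - x)
    have h2 : ∀ w : E, 0 ≤ min ‖w - x‖ s := fun w => le_min (norm_nonneg _) hs.le
    rw [hψ, Real.dist_eq, sub_sub_sub_cancel_left, abs_sub_comm, sq_sub_sq, abs_mul,
      abs_of_nonneg (add_nonneg (h2 y) (h2 z))]
    gcongr
    linarith [min_le_right ‖y - x‖ s, min_le_right ‖z - x‖ s]
  have h0 : ∀ y, s ≤ ‖y - x‖ → ψ y = 0 := fun y hy => by rw [hψ]; simp [min_eq_right hy]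
  have hc : HasCompactSupport ψ := HasCompactSupport.intro (isCompact_closedBall x s)
    fun y hy => h0 y (not_le.1 (mt mem_closedBall_iff_norm.2 hy)).le
  have h := hf.integral_lineDeriv_mul_eq (μ := μ) hl hc ν
  rw [← integral_const_mul, ← integral_indicator measurableSet_ball,
    ← integral_indicator measurableSet_ball]
  refine Eq.trans (integral_congr_ae (Eventually.of_forall fun y => ?_))
    (h.trans (integral_congr_ae ?_))
  · rw [((hfg y).hasLineDerivAt ν).lineDeriv, innerSL_apply_apply, real_inner_comm]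
    by_cases hy : y ∈ ball x s
    · rw [indicator_of_mem hy, hψ, mul_comm]
      simp only [min_eq_left (mem_ball_iff_norm.1 hy).le]
    · rw [indicator_of_notMem hy, h0 y (not_lt.1 (mt mem_ball_iff_norm.2 hy)), mul_zero]
  · filter_upwards [ae_norm_ne μ x hs.ne'] with y hy
    rcases hy.lt_or_gt with hy | hy
    · have e : ψ =ᶠ[𝓝 y] fun z => s ^ 2 - ‖z - x‖ ^ 2 := by
        filter_upwards [isOpen_ball.mem_nhds (mem_ball_iff_norm.2 hy)] with z hz
        rw [hψ]
        simp only [min_eq_left (mem_ball_iff_norm.1 hz).le]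
      have d := ((((hasFDerivAt_id y).sub_const x).norm_sq.const_sub (s ^ 2)).congr_of_eventuallyEq
        e).hasLineDerivAt (-ν)
      rw [d.lineDeriv, indicator_of_mem (mem_ball_iff_norm.2 hy), real_inner_comm]
      simp [inner_sub_left]
      ring
    · have e : ψ =ᶠ[𝓝 y] fun _ => 0 := by
        filter_upwards [(isOpen_lt continuous_const (show Continuous fun z => ‖z - x‖ by
          fun_prop)).mem_nhds hy] with z hz
        exact h0 z (le_of_lt hz)
      rw [(((hasFDerivAt_const (0 : ℝ) y).congr_of_eventuallyEq e).hasLineDerivAt (-ν)).lineDeriv,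
        indicator_of_notMem (mt mem_ball_iff_norm.1 (not_lt.2 hy.le))]
      simp only [zero_apply, zero_mul]

/-- Radial derivative of the weighted average `∫_{B 1} ⟪ν, z⟫ f (x + t z)`. -/
lemma hasDerivAt_wavg {f : E → ℝ} {g : E → E} (hfg : ∀ x, HasFDerivAt f (innerSL ℝ (g x)) x)
    {K : ℝ} (hK0 : 0 ≤ K) (hK : ∀ x y, ‖g x - g y‖ ≤ K * ‖x - y‖) (x ν : E) (s : ℝ) :
    HasDerivAt (fun t : ℝ => ∫ z in ball (0 : E) 1, ⟪ν, z⟫_ℝ * f (x + t • z) ∂μ)
      (∫ z in ball (0 : E) 1, ⟪ν, z⟫_ℝ * ⟪z, g (x + s • z)⟫_ℝ ∂μ) s := by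
  have hf : Continuous f := continuous_iff_continuousAt.2 fun x => (hfg x).continuousAt
  have hg := cont_of_lip hK
  rw [hasDerivAt_iff_isLittleO_nhds_zero]
  refine Asymptotics.IsBigO.trans_isLittleO (g := fun k : ℝ => k ^ 2) ?_
    (Asymptotics.isLittleO_pow_id one_lt_two)
  refine Asymptotics.IsBigO.of_bound (‖ν‖ * K * μ.real (ball (0 : E) 1))
    (Eventually.of_forall fun k => ?_)
  rw [smul_eq_mul, ← integral_const_mul,
    ← integral_sub (intOn_ball μ (by fun_prop) _ _) (intOn_ball μ (by fun_prop) _ _),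
    ← integral_sub (intOn_ball μ (by fun_prop) _ _) (intOn_ball μ (by fun_prop) _ _),
    mul_right_comm, Real.norm_of_nonneg (sq_nonneg k)]
  refine norm_setIntegral_le_of_norm_le_const measure_ball_lt_top fun z hz => ?_
  have h1 := taylor_pt hfg hK (x + s • z) (k • z)
  have h2 := (mem_ball_zero_iff.1 hz).le
  rw [real_inner_smul_right, real_inner_comm, add_assoc, ← add_smul] at h1
  rw [mul_left_comm k, ← mul_sub, ← mul_sub, norm_mul, mul_assoc, Real.norm_eq_abs,
    Real.norm_eq_abs]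
  refine mul_le_mul ((abs_real_inner_le_norm _ _).trans (mul_le_of_le_one_right (norm_nonneg _) h2))
    (h1.trans ?_) (abs_nonneg _) (norm_nonneg _)
  rw [norm_smul, mul_pow, Real.norm_eq_abs, sq_abs]
  gcongr
  exact mul_le_of_le_one_right (sq_nonneg _) (pow_le_one₀ (norm_nonneg _) h2)

/-- The identity (*): `s^-(d-1) ν.G(s)` changes by an integral over the annulus. -/
theorem star {f : E → ℝ} {g : E → E} (hfg : ∀ x, HasFDerivAt f (innerSL ℝ (g x)) x) {L K : ℝ}
    (hL : ∀ x, ‖g x‖ ≤ L) (hK0 : 0 ≤ K) (hK : ∀ x y, ‖g x - g y‖ ≤ K * ‖x - y‖) (x ν : E)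
    {a b : ℝ} (ha : 0 < a) (hab : a ≤ b) :
    b * (b ^ finrank ℝ E)⁻¹ * ⟪ν, ∫ y in ball x b, g y ∂μ⟫_ℝ -
        a * (a ^ finrank ℝ E)⁻¹ * ⟪ν, ∫ y in ball x a, g y ∂μ⟫_ℝ =
      ∫ y in ball x b \ ball x a,
        (‖y - x‖ ^ (finrank ℝ E + 1))⁻¹ * (⟪ν, y - x⟫_ℝ * ⟪y - x, g y⟫_ℝ) ∂μ := by
  have hf : Continuous f := continuous_iff_continuousAt.2 fun x => (hfg x).continuousAt
  have hg := cont_of_lip hK
  obtain ⟨n, hn⟩ : ∃ n, n = finrank ℝ E := ⟨_, rfl⟩
  obtain ⟨F, hF⟩ : ∃ F : ℝ → ℝ,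
    F = fun t : ℝ => ∫ z in ball (0 : E) 1, ⟪ν, z⟫_ℝ * f (x + t • z) ∂μ := ⟨_, rfl⟩
  obtain ⟨β, hβ⟩ : ∃ β : E → ℝ, β = fun y => ⟪ν, y - x⟫_ℝ * ⟪y - x, g y⟫_ℝ := ⟨_, rfl⟩
  have cβ : Continuous β := by rw [hβ]; fun_prop
  have dF : ∀ t, 0 < t → HasDerivAt F ((t ^ (n + 2))⁻¹ * ∫ y in ball x t, β y ∂μ) t := by
    intro t ht
    rw [hF]
    refine (hasDerivAt_wavg μ hfg hK0 hK x ν t).congr_deriv ?_
    rw [int_ball μ β x ht, ← hn, hβ, smul_eq_mul, ← mul_assoc, ← integral_const_mul]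
    congr 1
    ext z
    simp only [add_sub_cancel_left, real_inner_smul_left, real_inner_smul_right]
    field_simp
    ring
  have cH : Continuous fun t : ℝ =>
      2 * t * (t ^ n * ∫ z in ball (0 : E) 1, ⟪ν, g (x + t • z)⟫_ℝ ∂μ) := by
    have := cont_unit μ (F := fun (t : ℝ) z => ⟪ν, g (x + t • z)⟫_ℝ) (by fun_prop)
    fun_prop
  have key : ∀ s, 0 < s → s * (s ^ n)⁻¹ * ⟪ν, ∫ y in ball x s, g y ∂μ⟫_ℝ =
      (n + 1 : ℕ) * F s + (s ^ (n + 1))⁻¹ * ∫ y in ball x s, β y ∂μ := by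
    intro s hs
    have e : (fun t : ℝ => ∫ r in (0 : ℝ)..t, 2 * r * (r ^ n * ∫ z in ball (0 : E) 1,
        ⟪ν, g (x + r • z)⟫_ℝ ∂μ)) =ᶠ[𝓝 s] fun t => 2 * (t ^ (n + 1) * F t) := by
      filter_upwards [Ioi_mem_nhds hs] with t (ht : 0 < t)
      have h1 := layer μ x ht.le (intOn_ball μ (F := fun y => ⟪ν, g y⟫_ℝ) (by fun_prop) x t)
        (φ := fun r => 2 * r) (Φ := fun r => r ^ 2) (by fun_prop)
        fun r _ => (hasDerivAt_pow 2 r).congr_deriv (by simp)
      simp only [max_eq_right (norm_nonneg _)] at h1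
      rw [parts μ hfg hL x ν ht, int_ball μ _ x ht, ← hn] at h1
      refine Eq.trans (intervalIntegral.integral_congr fun r hr => ?_) (h1.trans ?_)
      · rw [uIcc_of_le ht.le] at hr
        rcases hr.1.eq_or_lt with rfl | h
        · simp
        · simp only [int_ball μ _ x h, ← hn, smul_eq_mul]
      · simp only [hF, add_sub_cancel_left, real_inner_smul_right, mul_assoc, integral_const_mul,
          smul_eq_mul, pow_succ]
    have h2 := ((cH.integral_hasStrictDerivAt 0 s).hasDerivAt.congr_of_eventuallyEq e.symm).unique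
      (((hasDerivAt_pow (n + 1) s).mul (dF s hs)).const_mul 2)
    rw [← integral_inner (intOn_ball μ hg x s), int_ball μ _ x hs, ← hn, smul_eq_mul]
    simp only [Nat.add_sub_cancel] at h2
    have h3 : 0 < s ^ n := pow_pos hs n
    refine mul_left_cancel₀ (mul_pos two_pos h3).ne' ?_
    refine Eq.trans ?_ (h2.trans ?_) <;> field_simp
    ring
  have hp : ∀ t ∈ Icc a b, 0 < t := fun t ht => ha.trans_le ht.1
  have hφ : ContinuousOn (fun t : ℝ => (n + 1 : ℕ) * (t ^ (n + 1 + 1))⁻¹) (Icc a b) :=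
    continuousOn_const.mul ((continuousOn_id.pow _).inv₀ fun t ht => (pow_pos (hp t ht) _).ne')
  have h := layer μ x hab (intOn_ball μ cβ x b) hφ fun t ht => hasDerivAt_inv_pow _ (hp t ht)
  have hI := (contOn_rad μ cβ x).mono hp
  rw [intervalIntegral.integral_eq_sub_of_hasDerivAt (f := fun t => (n + 1 : ℕ) * F t)
    (fun t ht => by
      rw [uIcc_of_le hab] at ht
      exact ((dF t (hp t ht)).const_mul _).congr_deriv (mul_assoc _ _ _).symm)
    (by rw [← uIcc_of_le hab] at hφ hI; exact (hφ.mul hI).intervalIntegrable)] at h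
  have c1 : Continuous fun y : E => (max a ‖y - x‖ ^ (n + 1))⁻¹ * β y :=
    (Continuous.inv₀ (by fun_prop) fun y => (pow_pos (ha.trans_le (le_max_left _ _)) _).ne').mul cβ
  have h4 : ∫ y in ball x a, (max a ‖y - x‖ ^ (n + 1))⁻¹ * β y ∂μ =
      (a ^ (n + 1))⁻¹ * ∫ y in ball x a, β y ∂μ := by
    rw [← integral_const_mul]
    exact setIntegral_congr_fun measurableSet_ball fun y hy => by
      simp only [max_eq_left (mem_ball_iff_norm.1 hy).le]
  have h5 := setIntegral_sdiff measurableSet_ball (intOn_ball μ c1 x b) (ball_subset_ball hab)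
  simp only [neg_sub_neg, sub_mul] at h
  rw [integral_sub (intOn_ball μ c1 x b) (intOn_ball μ (by fun_prop) x b), integral_const_mul] at h
  rw [← hn, key a ha, key b (ha.trans_le hab)]
  refine Eq.trans (Eq.trans (by linarith only [h4, h]) h5.symm)
    (setIntegral_congr_fun (measurableSet_ball.diff measurableSet_ball) fun y hy => ?_)
  simp only [hβ, max_eq_right (not_lt.1 (mt mem_ball_iff_norm.2 hy.2))]

/-- (Sel) -/
theorem sel {a b q0 k A B : ℝ} {I q c : ℝ → ℝ} (hab : a < b) (hq0 : 0 < q0)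
    (hD : 0 ≤ k * A + B) (hq : ∀ s ∈ Ioc a b, q0 ≤ q s ∧ q s ≤ k * q0)
    (hc0 : ∀ s ∈ Ioc a b, 0 ≤ c s) (hc : IntervalIntegrable c volume a b)
    (hI : IntervalIntegrable (fun s => I s * q s) volume a b)
    (h1 : ∫ s in a..b, c s ≤ A * (b - a)) (h2 : -(B * (b - a) * q0) ≤ ∫ s in a..b, I s * q s) :
    ∃ s ∈ Ioc a b, -(k * A + B) ≤ I s - c s := by
  have hk : 0 ≤ k * q0 := hq0.le.trans ((hq b ⟨hab, le_rfl⟩).1.trans (hq b ⟨hab, le_rfl⟩).2)
  obtain ⟨s, hs, h⟩ := exists_setAverage_le (μ := volume) (s := Ioc a b) (by simpa only [Real.volume_Ioc, ne_eq, ENNReal.ofReal_eq_zero, tsub_le_iff_right, zero_add, not_le] using hab)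
    (by simp) (hI.sub (hc.const_mul (k * q0))).1
  refine ⟨s, hs, not_lt.1 fun hn => ?_⟩
  rw [setAverage_eq, ← intervalIntegral.integral_of_le hab.le,
    intervalIntegral.integral_sub hI (hc.const_mul _), intervalIntegral.integral_const_mul,
    Real.volume_real_Ioc_of_le hab.le, smul_eq_mul, inv_mul_le_iff₀ (sub_pos.2 hab)] at h
  obtain ⟨q1, q2⟩ := hq s hs
  have h3 : I s * q s - k * q0 * c s < -((k * A + B) * q0) := by
    linarith only [mul_lt_mul_of_pos_right hn (hq0.trans_le q1), mul_le_mul_of_nonneg_left q2 (hc0 s hs), mul_le_mul_of_nonneg_left q1 hD]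
  linarith only [mul_lt_mul_of_pos_left h3 (sub_pos.2 hab), mul_le_mul_of_nonneg_left h1 hk, h2, h]

/-- (Dil): a bounded function changes little on average under opposite small dilations. -/
theorem dil {u : E → ℝ} (hu : Measurable u) {S : ℝ} (h0 : ∀ x, 0 ≤ u x) (hS : ∀ x, u x ≤ S) (y : E)
    {R l m : ℝ} (hR : 0 < R) (hl : 0 < l) (hl1 : l ≤ 1) (hm : 1 ≤ m) :
    ∫ x in ball y R, (u (y + m • (x - y)) - u (y + l • (x - y))) ∂μ ≤
      S * ((m ^ finrank ℝ E - l ^ finrank ℝ E) * μ.real (ball y R)) := by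
  have hi : ∀ (v : E → E) (r : ℝ), Measurable v → IntegrableOn (fun x => u (v x)) (ball y r) μ :=
    fun v r hv => Measure.integrableOn_of_bounded (M := S) measure_ball_lt_top.ne
      (hu.comp hv).aestronglyMeasurable (Eventually.of_forall fun x => by
        rw [Real.norm_of_nonneg (h0 _)]; exact hS _)
  have e : ∀ c : ℝ, 0 < c → c ^ finrank ℝ E * ∫ x in ball y R, u (y + c • (x - y)) ∂μ =
      ∫ x in ball y (c * R), u x ∂μ := fun c hc => by
    rw [int_ball μ _ y hR, int_ball μ _ y (mul_pos hc hR)]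
    simp only [add_sub_cancel_left, smul_smul, smul_eq_mul, mul_pow, mul_assoc]
  have p : ∀ c : ℝ, 0 ≤ ∫ x in ball y R, u (y + c • (x - y)) ∂μ :=
    fun c => integral_nonneg fun x => h0 _
  have hm0 : 0 < m := by linarith
  have hlm : l * R ≤ m * R := mul_le_mul_of_nonneg_right (hl1.trans hm) hR.le
  have h1 := setIntegral_sdiff measurableSet_ball (hi id _ measurable_id) (ball_subset_ball hlm)
  have h2 : ∫ x in ball y (m * R) \ ball y (l * R), u x ∂μ ≤
      S * μ.real (ball y (m * R) \ ball y (l * R)) :=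
    (le_abs_self _).trans (norm_setIntegral_le_of_norm_le_const (C := S)
      ((measure_mono sdiff_subset).trans_lt measure_ball_lt_top) fun x _ =>
        (Real.norm_of_nonneg (h0 x)).trans_le (hS x))
  rw [measureReal_sdiff (ball_subset_ball hlm) measurableSet_ball measure_ball_lt_top.ne,
    real_ball μ y (mul_pos hm0 hR), real_ball μ y (mul_pos hl hR)] at h2
  rw [integral_sub (hi _ _ (by fun_prop)) (hi _ _ (by fun_prop)), real_ball μ y hR]
  simp only [id] at h1
  rw [h1, ← e m hm0, ← e l hl] at h2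
  rw [mul_pow, mul_pow] at h2
  linarith [mul_le_mul_of_nonneg_right (one_le_pow₀ (n := finrank ℝ E) hm) (p m),
    mul_le_mul_of_nonneg_right (pow_le_one₀ (n := finrank ℝ E) hl.le hl1) (p l)]

/-- A gradient field is curl free (weak form, Lipschitz test function). -/
lemma curl_weak {f : E → ℝ} {g : E → E} (hfg : ∀ x, HasFDerivAt f (innerSL ℝ (g x)) x) {K : ℝ}
    (hK : ∀ x y, ‖g x - g y‖ ≤ K * ‖x - y‖) {φ : E → ℝ} {C : NNReal} (hφ : LipschitzWith C φ)
    (hc : HasCompactSupport φ) (u v : E) :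
    ∫ y, lineDeriv ℝ φ y v * ⟪u, g y⟫_ℝ ∂μ = ∫ y, lineDeriv ℝ φ y u * ⟪v, g y⟫_ℝ ∂μ := by
  have hg : LipschitzWith K.toNNReal g :=
    LipschitzWith.of_dist_le' fun x y => by simpa only [dist_eq_norm] using hK x y
  have h1 := ((innerSL ℝ u).lipschitz.comp hg).integral_lineDeriv_mul_eq (μ := μ) hφ hc (-v)
  have h2 := ((innerSL ℝ v).lipschitz.comp hg).integral_lineDeriv_mul_eq (μ := μ) hφ hc (-u)
  rw [neg_neg] at h1 h2
  refine h1.symm.trans (Eq.trans (integral_congr_ae ?_) h2)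
  filter_upwards [hg.ae_differentiableAt (μ := μ)] with y hy
  have hs := second_derivative_symmetric_of_eventually_of_real (Eventually.of_forall hfg)
    ((innerSL ℝ (E := E)).hasFDerivAt.comp y hy.hasFDerivAt) u v
  rw [(((innerSL ℝ u).hasFDerivAt.comp y hy.hasFDerivAt).hasLineDerivAt _).lineDeriv,
    (((innerSL ℝ v).hasFDerivAt.comp y hy.hasFDerivAt).hasLineDerivAt _).lineDeriv]
  have hs' : ⟪fderiv ℝ g y u, v⟫_ℝ = ⟪fderiv ℝ g y v, u⟫_ℝ := hs
  simp only [ContinuousLinearMap.comp_apply, innerSL_apply_apply, map_neg]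
  rw [real_inner_comm, ← hs', real_inner_comm]

/-- The curl identity for radial weights. -/
theorem curl {f : E → ℝ} {g : E → E} (hfg : ∀ x, HasFDerivAt f (innerSL ℝ (g x)) x) {K : ℝ}
    (hK : ∀ x y, ‖g x - g y‖ ≤ K * ‖x - y‖) {ψ k : ℝ → ℝ} (hψ : Continuous ψ) {R : ℝ} (hR : 0 ≤ R)
    (h0 : ∀ t, R ≤ t → ψ t = 0) (hk : ∀ t, 0 ≤ t → k t = ∫ r in t..R, ψ r * r) (x u : E) :
    ∫ y, ψ ‖y - x‖ * (‖y - x‖ ^ 2 * ⟪u, g y⟫_ℝ - ⟪u, y - x⟫_ℝ * ⟪y - x, g y⟫_ℝ) ∂μ =
      (finrank ℝ E - 1) * ∫ y, k ‖y - x‖ * ⟪u, g y⟫_ℝ ∂μ := by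
  have hg := cont_of_lip hK
  have cψ : Continuous fun σ : ℝ => ψ √σ := by fun_prop
  obtain ⟨κ, hκ⟩ : ∃ κ : ℝ → ℝ, κ = fun τ => -(1 / 2) * ∫ σ in R ^ 2..τ, ψ √σ := ⟨_, rfl⟩
  have dκ : ∀ τ, HasDerivAt κ (-(1 / 2) * ψ √τ) τ := fun τ => by
    rw [hκ]; exact (cψ.integral_hasStrictDerivAt _ τ).hasDerivAt.const_mul _
  have eκ : ∀ t, 0 ≤ t → κ (t ^ 2) = k t := fun t ht => by
    have h := intervalIntegral.integral_comp_mul_deriv (a := R) (b := t) (f := fun r => r ^ 2)
      (f' := fun r => 2 * r) (fun r _ => (hasDerivAt_pow 2 r).congr_deriv (by simp))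
      (by fun_prop) cψ
    simp only [hκ]
    rw [← h, hk t ht, intervalIntegral.integral_symm R t, ← intervalIntegral.integral_const_mul,
      ← intervalIntegral.integral_neg]
    refine intervalIntegral.integral_congr fun r hr => ?_
    simp only [Function.comp_apply, Real.sqrt_sq ((le_min hR ht).trans hr.1)]
    ring
  have k0 : ∀ t, R ≤ t → k t = 0 := fun t ht => by
    rw [hk t (hR.trans ht), intervalIntegral.integral_congr (g := fun _ => 0) fun r hr => by
      rw [uIcc_of_ge ht] at hr; simp [h0 r hr.1], intervalIntegral.integral_zero]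
  have sκ : ContDiff ℝ 1 κ := contDiff_one_iff_deriv.2 ⟨fun τ => (dκ τ).differentiableAt, by
    rw [show deriv κ = _ from funext fun τ => (dκ τ).deriv]; fun_prop⟩
  have ck : Continuous fun y : E => k ‖y - x‖ := by
    simp only [← eκ _ (norm_nonneg _)]
    exact sκ.continuous.comp (by fun_prop)
  have hint : ∀ {w : ℝ → ℝ} {F : E → ℝ}, (∀ t, R ≤ t → w t = 0) → Continuous (fun y => w ‖y - x‖) →
      Continuous F → Integrable (fun y => w ‖y - x‖ * F y) μ := fun hw c1 c2 =>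
    (c1.mul c2).integrable_of_hasCompactSupport (HasCompactSupport.intro (isCompact_closedBall x R)
      fun y hy => by simp [hw _ (not_le.1 (mt mem_closedBall_iff_norm.2 hy)).le])
  have cp : Continuous fun y : E => ψ ‖y - x‖ := by fun_prop
  have hi2 : ∀ {F G : E → ℝ}, Continuous F → Continuous G →
      Integrable (fun y => k ‖y - x‖ * F y - ψ ‖y - x‖ * G y) μ :=
    fun c1 c2 => (hint k0 ck c1).sub (hint h0 cp c2)
  have key : ∀ e : E,
      ∫ y, (k ‖y - x‖ * (⟪e, e⟫_ℝ * ⟪u, g y⟫_ℝ - ⟪u, e⟫_ℝ * ⟪e, g y⟫_ℝ) - ψ ‖y - x‖ *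
        (⟪y - x, e⟫_ℝ * ⟪e, y - x⟫_ℝ * ⟪u, g y⟫_ℝ -
          ⟪u, y - x⟫_ℝ * (⟪y - x, e⟫_ℝ * ⟪e, g y⟫_ℝ))) ∂μ = 0 := by
    intro e
    have sφ : ContDiff ℝ 1 fun y : E => κ (‖y - x‖ ^ 2) * ⟪e, y - x⟫_ℝ :=
      (sκ.comp ((contDiff_id.sub contDiff_const).norm_sq ℝ)).mul
        (contDiff_const.inner ℝ (contDiff_id.sub contDiff_const))
    have hc : HasCompactSupport fun y : E => κ (‖y - x‖ ^ 2) * ⟪e, y - x⟫_ℝ :=
      HasCompactSupport.intro (isCompact_closedBall x R) fun y hy => by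
        rw [eκ _ (norm_nonneg _), k0 _ (not_le.1 (mt mem_closedBall_iff_norm.2 hy)).le, zero_mul]
    obtain ⟨C, hC⟩ := sφ.lipschitzWith_of_hasCompactSupport hc one_ne_zero
    have h := curl_weak μ hfg hK hC hc u e
    have d : ∀ y v : E, lineDeriv ℝ (fun y : E => κ (‖y - x‖ ^ 2) * ⟪e, y - x⟫_ℝ) y v =
        k ‖y - x‖ * ⟪e, v⟫_ℝ - ψ ‖y - x‖ * (⟪y - x, v⟫_ℝ * ⟪e, y - x⟫_ℝ) := fun y v => by
      have d1 := (hasFDerivAt_id (𝕜 := ℝ) y).sub_const x
      have d2 := ((dκ (‖y - x‖ ^ 2)).comp_hasFDerivAt y d1.norm_sq).mul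
        ((innerSL ℝ e).hasFDerivAt.comp y d1)
      refine (d2.hasLineDerivAt v).lineDeriv.trans ?_
      simp [eκ _ (norm_nonneg (y - x)), Real.sqrt_sq (norm_nonneg (y - x)), inner_sub_left,
        inner_sub_right]
      ring
    simp only [d, sub_mul, mul_assoc] at h
    rw [← sub_eq_zero, ← integral_sub (hi2 (by fun_prop) (by fun_prop))
      (hi2 (by fun_prop) (by fun_prop))] at h
    refine Eq.trans (integral_congr_ae (Eventually.of_forall fun y => ?_)) h
    simp only [real_inner_comm u e, real_inner_comm u (y - x), real_inner_comm e (y - x)]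
    ring
  have h := Finset.sum_eq_zero (s := Finset.univ) fun j _ => key (stdOrthonormalBasis ℝ E j)
  rw [← integral_finsetSum _ fun j _ => hi2 (by fun_prop) (by fun_prop)] at h
  simp only [Finset.sum_sub_distrib, ← Finset.mul_sum, ← Finset.sum_mul,
    OrthonormalBasis.sum_inner_mul_inner, real_inner_self_eq_norm_sq,
    OrthonormalBasis.norm_eq_one, one_pow, Finset.sum_const, Finset.card_univ, Fintype.card_fin,
    nsmul_eq_mul] at h
  rw [integral_sub (hint k0 ck (by fun_prop)) (hint h0 cp (by fun_prop)), sub_eq_zero] at h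
  rw [← h, ← integral_const_mul]
  congr 1
  ext y
  ring

end Pool.Agent.MP_a25fb7_an.T39

end

section
set_option autoImplicit false
set_option linter.unusedSectionVars false
open MeasureTheory Metric Set Module
open scoped ENNReal

namespace Pool.Agent.MP_a25fb7_an.Cn

variable {E : Type*} [NormedAddCommGroup E] [InnerProductSpace ℝ E] [FiniteDimensional ℝ E]
  [MeasurableSpace E] [BorelSpace E] (μ : Measure E) [μ.IsAddHaarMeasure]

theorem avF_eq {F : Type*} [NormedAddCommGroup F] [NormedSpace ℝ F] [CompleteSpace F] (h : E → F)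
    (x : E) {s : ℝ} (hs : 0 < s) :
    avF μ h x s = (μ.real (ball x s))⁻¹ • ∫ y in ball x s, h y ∂μ := by
  rw [avF, setAverage_eq, T39.int_ball μ h x hs, T39.real_ball μ x hs, smul_smul, mul_inv,
    mul_right_comm, inv_mul_cancel₀ (by positivity), one_mul]

lemma rad_fd {f : E → ℝ} {g : E → E} {S K : ℝ} (h : Sm f g S K) (x : E) :
    HasFDerivAt f (innerSL ℝ (g x)) x := (h.gr x).hasFDerivAt

theorem avF_shift {f : E → ℝ} {g : E → E} {S K : ℝ} (h : Sm f g S K) (x v : E) (s : ℝ) :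
    avF μ f x s + inner ℝ v (avF μ g x s) - K * ‖v‖ ^ 2 ≤ avF μ f (x + v) s := by
  have hf := h.cd.continuous
  have hg := T39.cont_of_lip h.lip
  have hω := T39.real_ball_pos μ (0 : E) one_pos
  have key : ‖∫ z in ball (0 : E) 1, (f (x + v + s • z) - f (x + s • z) -
      inner ℝ v (g (x + s • z))) ∂μ‖ ≤ K * ‖v‖ ^ 2 * μ.real (ball (0 : E) 1) :=
    norm_setIntegral_le_of_norm_le_const measure_ball_lt_top fun z _ => by
      rw [add_right_comm, real_inner_comm]
      exact T39.taylor_pt (rad_fd h) h.lip _ v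
  rw [integral_sub (T39.intOn_ball μ (by fun_prop) _ _) (T39.intOn_ball μ (by fun_prop) _ _),
    integral_sub (T39.intOn_ball μ (by fun_prop) _ _) (T39.intOn_ball μ (by fun_prop) _ _),
    integral_inner (T39.intOn_ball μ (by fun_prop) _ _)] at key
  have h1 := mul_le_mul_of_nonneg_left (abs_le.1 key).1 (inv_pos.2 hω).le
  simp only [avF, setAverage_eq, real_inner_smul_right, smul_eq_mul]
  rw [mul_neg, mul_left_comm, inv_mul_cancel₀ hω.ne'] at h1
  linarith

theorem continuous_avF {F : Type*} [NormedAddCommGroup F] [NormedSpace ℝ F] {h : E → F}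
    (hc : Continuous h) : Continuous fun p : E × ℝ => avF μ h p.1 p.2 := by
  simp only [avF, setAverage_eq]
  exact (T39.cont_unit μ (F := fun (p : E × ℝ) z => h (p.1 + p.2 • z)) (by fun_prop)).const_smul _

/-- the tent between the radii `a < b` -/
noncomputable def radT (d : ℕ) (a b t : ℝ) : ℝ :=
  max ((max a t ^ d)⁻¹ - (b ^ d)⁻¹) 0 / ((a ^ d)⁻¹ - (b ^ d)⁻¹)

section
variable {d : ℕ} {a b : ℝ}

lemma rad_anti (d : ℕ) (ha : 0 < a) {p q : ℝ} (hp : a ≤ p) (h : p ≤ q) : (q ^ d)⁻¹ ≤ (p ^ d)⁻¹ := by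
  have := ha.trans_le hp
  gcongr

lemma rad_den (hd : d ≠ 0) (ha : 0 < a) (hab : a < b) : 0 < (a ^ d)⁻¹ - (b ^ d)⁻¹ :=
  sub_pos.2 (inv_strictAnti₀ (pow_pos ha d) (pow_lt_pow_left₀ hab ha.le hd))

lemma rad_nn (hd : d ≠ 0) (ha : 0 < a) (hab : a < b) (t : ℝ) : 0 ≤ radT d a b t :=
  div_nonneg (le_max_right _ _) (rad_den hd ha hab).le

lemma rad_one (hd : d ≠ 0) (ha : 0 < a) (hab : a < b) {t : ℝ} (ht : t ≤ a) : radT d a b t = 1 := by
  rw [radT, max_eq_left ht, max_eq_left (rad_den hd ha hab).le, div_self (rad_den hd ha hab).ne']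

lemma rad_zero (ha : 0 < a) (hab : a < b) {t : ℝ} (ht : b ≤ t) : radT d a b t = 0 := by
  rw [radT, max_eq_right (hab.le.trans ht), max_eq_right (sub_nonpos.2 (rad_anti d ha hab.le ht)),
    zero_div]

lemma rad_antitone (hd : d ≠ 0) (ha : 0 < a) (hab : a < b) : Antitone (radT d a b) :=
  fun _ _ h => div_le_div_of_nonneg_right (max_le_max_right _ (sub_le_sub_right
    (rad_anti d ha (le_max_left _ _) (max_le_max_left _ h)) _)) (rad_den hd ha hab).le

lemma rad_le (hd : d ≠ 0) (ha : 0 < a) (hab : a < b) (t : ℝ) : radT d a b t ≤ 1 := by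
  rw [← rad_one hd ha hab (min_le_left a t)]
  exact rad_antitone hd ha hab (min_le_right _ _)

lemma rad_mono (hd : d ≠ 0) (ha : 0 < a) {a' : ℝ} (h : a ≤ a') (hab : a' < b) (t : ℝ) :
    radT d a b t ≤ radT d a' b t := by
  rcases le_total t a' with ht | ht
  · rw [rad_one hd (ha.trans_le h) hab ht]
    exact rad_le hd ha (h.trans_lt hab) t
  · rw [radT, radT, max_eq_right ht, max_eq_right (h.trans ht)]
    exact div_le_div_of_nonneg_left (le_max_right _ _) (rad_den hd (ha.trans_le h) hab)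
      (sub_le_sub_right (rad_anti d ha le_rfl h) _)

lemma rad_lip (hd : d ≠ 0) (ha : 0 < a) (hab : a < b) (h2 : b ≤ 2 * a) (t t' : ℝ) :
    |radT d a b t - radT d a b t'| ≤ 2 * d / (b - a) * |t - t'| := by
  have hb : 0 < b := ha.trans hab
  have hba := sub_pos.2 hab
  have hden := rad_den hd ha hab
  obtain ⟨n, rfl⟩ := Nat.exists_eq_succ_of_ne_zero hd
  have h1 : |(max a t)⁻¹ - (max a t')⁻¹| ≤ a⁻¹ * a⁻¹ * |t - t'| := by
    have p := le_max_left a t
    have p' := le_max_left a t'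
    rw [inv_sub_inv (ha.trans_le p).ne' (ha.trans_le p').ne', abs_div, abs_sub_comm,
      abs_of_pos (mul_pos (ha.trans_le p) (ha.trans_le p')), ← mul_inv, inv_mul_eq_div]
    refine div_le_div₀ (abs_nonneg _) ?_ (mul_pos ha ha) (mul_le_mul p p' ha.le (ha.le.trans p))
    rw [max_comm a t, max_comm a t']
    exact abs_max_sub_max_le_abs t t' a
  have h3 : max |(max a t)⁻¹| |(max a t')⁻¹| ≤ a⁻¹ := by
    have q : ∀ u, |(max a u)⁻¹| ≤ a⁻¹ := fun u => by
      rw [abs_of_pos (inv_pos.2 (ha.trans_le (le_max_left _ _)))]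
      exact inv_anti₀ ha (le_max_left _ _)
    exact max_le (q t) (q t')
  have h4 : a⁻¹ ^ n * (a⁻¹ - b⁻¹) ≤ (a ^ n.succ)⁻¹ - (b ^ n.succ)⁻¹ := by
    have : b⁻¹ ^ n ≤ a⁻¹ ^ n := by gcongr
    rw [← inv_pow, ← inv_pow, pow_succ, pow_succ]
    nlinarith only [inv_pos.2 hb, this]
  have h5 : a⁻¹ * a⁻¹ ≤ 2 / (b - a) * (a⁻¹ - b⁻¹) := by
    rw [inv_sub_inv ha.ne' hb.ne', div_mul_div_comm, ← mul_inv, inv_eq_one_div,
      div_le_div_iff₀ (by positivity) (by positivity)]
    nlinarith only [mul_pos hba ha, h2]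
  rw [radT, radT, ← sub_div, abs_div, abs_of_pos hden, div_le_iff₀ hden]
  refine (abs_max_sub_max_le_abs _ _ _).trans ?_
  rw [sub_sub_sub_cancel_right, ← inv_pow, ← inv_pow]
  refine (abs_pow_sub_pow_le _ _ _).trans ?_
  rw [Nat.succ_sub_one]
  calc _ ≤ 2 / (b - a) * (a⁻¹ - b⁻¹) * |t - t'| * (n.succ : ℕ) * a⁻¹ ^ n := by
        have h6 := h1.trans (mul_le_mul_of_nonneg_right h5 (abs_nonneg (t - t')))
        have h7 := (abs_nonneg _).trans h6
        gcongr
    _ = 2 * (n.succ : ℕ) / (b - a) * |t - t'| * (a⁻¹ ^ n * (a⁻¹ - b⁻¹)) := by ring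
    _ ≤ _ := by gcongr

end

lemma rad_sI [Nontrivial E] {f : E → ℝ} {g : E → E} {S K : ℝ} (h : Sm f g S K) (x : E) {s a b : ℝ}
    (hs : 0 < s) (ha : 0 < a) (hab : a < b) :
    ∃ c, 0 ≤ c ∧ sI μ g x s (radT (finrank ℝ E) a b) = c * (avF μ f x b - avF μ f x a) := by
  have hden := rad_den (finrank_pos (R := ℝ) (M := E)).ne' ha hab
  have key := T39.tent μ (rad_fd h) (abs_nonneg K) (fun x y => (h.lip x y).trans (by
    gcongr; exact le_abs_self K)) x ha hab.le
  refine ⟨s⁻¹ / ((a ^ finrank ℝ E)⁻¹ - (b ^ finrank ℝ E)⁻¹) *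
    (finrank ℝ E * μ.real (ball (0 : E) 1)), by positivity, ?_⟩
  rw [avF_eq μ f x ha, avF_eq μ f x (ha.trans hab), smul_eq_mul, smul_eq_mul,
    inv_mul_eq_div, inv_mul_eq_div, mul_assoc, ← key, ← integral_const_mul,
    ← integral_indicator measurableSet_ball, sI]
  congr 1
  ext y
  by_cases hy : y ∈ ball x b
  · rw [indicator_of_mem hy, radT, zz, real_inner_smul_left, max_eq_left (sub_nonneg.2
      (rad_anti _ ha (le_max_left _ _) (max_le hab.le (mem_ball_iff_norm.1 hy).le)))]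
    ring
  · rw [indicator_of_notMem hy, rad_zero ha hab (not_lt.1 (mt mem_ball_iff_norm.2 hy)), zero_mul]

theorem tent_exists [Nontrivial E] : ∃ Ct : ℝ, 1 ≤ Ct ∧ ∀ s ∈ Icc (1 / 2 : ℝ) 8,
    ∃ χ χp : ℕ → ℝ → ℝ, Tent s Ct χ χp ∧ ∀ {f : E → ℝ} {g : E → E} {S K : ℝ} (x : E) (J : ℕ),
      Sm f g S K →
      (avF μ f x (s - lam J) ≤ avF μ f x s → 0 ≤ sI μ g x s (χ J)) ∧
      (avF μ f x (s + lam J) ≤ avF μ f x s → sI μ g x s (χp J) ≤ 0) := by
  have hd := (finrank_pos (R := ℝ) (M := E)).ne'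
  have l0 : ∀ J, 0 < lam J := fun J => by unfold lam rho; positivity
  have l1 : ∀ J, lam J ≤ 1 / 4 := fun J =>
    pow_le_of_le_one (by norm_num) (by norm_num) (by omega)
  have l2 : ∀ J, lam (J + 1) ≤ lam J := fun J =>
    pow_le_pow_of_le_one (by norm_num) (by norm_num) (by omega)
  refine ⟨2 * finrank ℝ E, ?_, fun s hs => ?_⟩
  · have : (1 : ℝ) ≤ finrank ℝ E := Nat.one_le_cast.2 (Nat.pos_of_ne_zero hd)
    linarith
  have hs0 : 0 < s := by linarith only [hs.1]
  have p1 : ∀ J, 0 < s - lam J := fun J => by linarith [hs.1, l1 J]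
  have p2 : ∀ J, s - lam J < s := fun J => by linarith [l0 J]
  have p3 : ∀ J, s < s + lam J := fun J => by linarith [l0 J]
  refine ⟨fun J => radT (finrank ℝ E) (s - lam J) s, fun J => radT (finrank ℝ E) s (s + lam J),
    ⟨fun J => rad_nn hd (p1 J) (p2 J), fun J => rad_le hd (p1 J) (p2 J),
      fun J => rad_antitone hd (p1 J) (p2 J), fun J t t' => ?_, fun J t => rad_one hd (p1 J) (p2 J),
      fun J t => rad_zero (p1 J) (p2 J),
      fun J => rad_mono hd (p1 J) (by linarith [l2 J]) (p2 (J + 1)),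
      fun J => rad_nn hd hs0 (p3 J), fun J => rad_le hd hs0 (p3 J),
      fun J => rad_antitone hd hs0 (p3 J), fun J t t' => ?_, fun J t => rad_one hd hs0 (p3 J),
      fun J t => rad_zero hs0 (p3 J)⟩, fun x J h => ⟨fun h1 => ?_, fun h1 => ?_⟩⟩
  · simpa only [sub_sub_cancel] using rad_lip hd (p1 J) (p2 J) (by linarith only [hs.1, l1 J]) t t'
  · simpa only [add_sub_cancel_left] using rad_lip hd hs0 (p3 J) (by linarith [hs.1, l1 J]) t t'
  · obtain ⟨c, hc, e⟩ := rad_sI μ h x hs0 (p1 J) (p2 J)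
    rw [e]
    exact mul_nonneg hc (sub_nonneg.2 h1)
  · obtain ⟨c, hc, e⟩ := rad_sI μ h x hs0 hs0 (p3 J)
    rw [e]
    exact mul_nonpos_of_nonneg_of_nonpos hc (sub_nonpos.2 h1)

end Pool.Agent.MP_a25fb7_an.Cn

end

section
set_option autoImplicit false
set_option linter.unusedSectionVars false
open MeasureTheory Metric Set Module
open scoped ENNReal

namespace Pool.Agent.MP_a25fb7_an.Cn

variable {E : Type*} [NormedAddCommGroup E] [InnerProductSpace ℝ E] [FiniteDimensional ℝ E]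
  [MeasurableSpace E] [BorelSpace E] {μ : Measure E} [μ.IsAddHaarMeasure]
  {g : E → E} {n : E} {q β : ℕ → E → ℝ} {W : ℝ}

lemma g_cont {F : Type*} [NormedAddCommGroup F] {h : E → F} {Λ : ℝ}
    (hl : ∀ y y', ‖h y - h y'‖ ≤ Λ * ‖y - y'‖) : Continuous h :=
  (LipschitzWith.of_dist_le' (K := Λ) fun y y' => by simpa only [dist_eq_norm] using hl y y').continuous

lemma g_int {h : E → ℝ} {T : Set E} {R : ℝ} (hc : Continuous h) (hT : T ⊆ ball 0 R)
    (h0 : ∀ y, y ∉ T → h y = 0) : Integrable h μ :=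
  hc.integrable_of_hasCompactSupport (HasCompactSupport.intro (isCompact_closedBall 0 R)
    fun y hy => h0 y fun hy' => hy (ball_subset_closedBall (hT hy')))

lemma Wt.cont {a Λ : ℝ} {T : Set E} {ψ : E → ℝ} (h : Wt a Λ T ψ) : Continuous ψ := g_cont h.lip

lemma Wt.a_nn {a Λ : ℝ} {T : Set E} {ψ : E → ℝ} (h : Wt a Λ T ψ) : 0 ≤ a := (h.nn 0).trans (h.le 0)

lemma g_int_pI {ψ : E → ℝ} {T : Set E} {R : ℝ} (hc : Continuous ψ) (hg : Continuous g)
    (hT : T ⊆ ball 0 R) (h0 : ∀ y, y ∉ T → ψ y = 0) (v : E) :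
    Integrable (fun y => ψ y * inner ℝ v (g y)) μ :=
  g_int (by fun_prop) hT fun y hy => by rw [h0 y hy, zero_mul]

lemma rho_pos (i : ℕ) : 0 < rho i := by unfold rho; positivity

lemma Bud.int_nn (hB : Bud μ g n q β W) (i : ℕ) (T : Set E) : 0 ≤ ∫ y in T, β i y ∂μ :=
  integral_nonneg (hB.nb i)

theorem Bud.mono (hB : Bud μ g n q β W) (hg : Continuous g) {i : ℕ} {a Λ : ℝ} {T : Set E}
    {ψ φ : E → ℝ} (hT : MeasurableSet T) (hT' : T ⊆ ball 0 62) (hΛ : 0 ≤ Λ) (h1 : Wt a Λ T ψ)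
    (h2 : Wt a Λ T φ) (h : ∀ y, ψ y ≤ φ y) :
    pI μ g ψ n ≤ pI μ g φ n + 16 * (a + Λ * rho i) * ∫ y in T, β i y ∂μ := by
  have hw : Wt a (2 * Λ) T fun y => φ y - ψ y :=
    ⟨fun y => sub_nonneg.2 (h y), fun y => by linarith [h2.le y, h1.nn y], fun y y' => by
      have := h1.lip y y'; have := h2.lip y y'
      rw [abs_le] at *; constructor <;> linarith, fun y hy => by rw [h1.supp y hy, h2.supp y hy]; simp⟩
  have key := hB.lemP i a (2 * Λ) T _ 0 hT hT' (by linarith) hw (by simp)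
  have e : pI μ g (fun y => φ y - ψ y) (0 - n) = pI μ g ψ n - pI μ g φ n := by
    unfold pI
    rw [← integral_sub (g_int_pI h1.cont hg hT' h1.supp n) (g_int_pI h2.cont hg hT' h2.supp n)]
    congr 1; funext y; simp; ring
  have := hB.int_nn i T
  have := mul_nonneg hΛ (rho_pos i).le
  have := h1.a_nn
  nlinarith

lemma Bud.perp (hB : Bud μ g n q β W) (hn : ‖n‖ = 1) (hg : Continuous g) {i : ℕ} {a Λ γ : ℝ}
    {T : Set E} {ψ : E → ℝ} (hT : MeasurableSet T) (hT' : T ⊆ ball 0 62) (hΛ : 0 ≤ Λ)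
    (hγ : 0 < γ) (hγ1 : γ ≤ 1) (h1 : Wt a Λ T ψ) {u : E} (hu : inner ℝ n u = 0) (hu1 : ‖u‖ ≤ 1) :
    pI μ g ψ u ≤ γ * pI μ g ψ n + 8 * (a + Λ * rho i) / γ * ∫ y in T, β i y ∂μ := by
  have hv : ‖(1 - γ ^ 2) • n + γ • u‖ ≤ 1 := by
    have : ‖(1 - γ ^ 2) • n + γ • u‖ ^ 2 ≤ 1 := by
      rw [norm_add_sq_real, inner_smul_left, inner_smul_right, hu, norm_smul, norm_smul, hn,
        mul_pow, mul_pow, Real.norm_eq_abs, Real.norm_eq_abs, sq_abs, sq_abs]
      have : ‖u‖ ^ 2 ≤ 1 := by nlinarith only [norm_nonneg u, hu1]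
      have h2 : γ ^ 2 ≤ 1 := by nlinarith only [hγ, hγ1]
      simp only [mul_zero, add_zero, one_pow, mul_one]
      nlinarith only [this, h2]
    nlinarith only [this]
  have key := hB.lemP i a Λ T ψ _ hT hT' hΛ h1 hv
  have e : pI μ g ψ ((1 - γ ^ 2) • n + γ • u - n) = γ * pI μ g ψ u - γ ^ 2 * pI μ g ψ n := by
    unfold pI
    rw [← integral_const_mul, ← integral_const_mul, ← integral_sub
      ((g_int_pI h1.cont hg hT' h1.supp u).const_mul _)
      ((g_int_pI h1.cont hg hT' h1.supp n).const_mul _)]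
    congr 1; funext y
    simp only [inner_sub_left, inner_add_left, inner_smul_left, RCLike.conj_to_real]; ring
  rw [e] at key
  refine le_of_mul_le_mul_left ?_ hγ
  have : γ * (8 * (a + Λ * rho i) / γ * ∫ y in T, β i y ∂μ) =
      8 * (a + Λ * rho i) * ∫ y in T, β i y ∂μ := by field_simp
  linarith only [key, this]

lemma g_part {a Λ : ℝ} {T : Set E} {φ h : E → ℝ} (hφ : Wt a Λ T φ) (hle : ∀ y, |h y| ≤ φ y)
    (hl : ∀ y y', |h y - h y'| ≤ Λ * ‖y - y'‖) : Wt a Λ T fun y => max (h y) 0 :=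
  ⟨fun y => le_max_right _ _, fun y => max_le ((le_abs_self _).trans ((hle y).trans (hφ.le y)))
    hφ.a_nn, fun y y' => (abs_max_sub_max_le_abs _ _ _).trans (hl y y'), fun y hy => by
      have := hle y
      rw [hφ.supp y hy, abs_nonpos_iff] at this
      simp [this]⟩

lemma Bud.signed (hB : Bud μ g n q β W) (hn : ‖n‖ = 1) (hg : Continuous g) {i : ℕ} {a Λ γ : ℝ}
    {T : Set E} {φ h : E → ℝ} (hT : MeasurableSet T) (hT' : T ⊆ ball 0 62) (hΛ : 0 ≤ Λ)
    (hγ : 0 < γ) (hγ1 : γ ≤ 1) (hφ : Wt a Λ T φ) (hle : ∀ y, |h y| ≤ φ y)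
    (hl : ∀ y y', |h y - h y'| ≤ Λ * ‖y - y'‖) {u : E} (hu : inner ℝ n u = 0) (hu1 : ‖u‖ ≤ 1) :
    pI μ g h u ≤ 2 * (γ * pI μ g φ n + 32 * (a + Λ * rho i) / γ * ∫ y in T, β i y ∂μ) := by
  have w1 := g_part hφ hle hl
  have w2 := g_part (h := fun y => -h y) hφ (by simpa only [abs_neg] using hle) fun y y' => by
    rw [abs_sub_comm]; simpa only [sub_eq_add_neg, neg_neg, add_comm] using hl y y'
  have a1 := hB.perp (i := i) hn hg hT hT' hΛ hγ hγ1 w1 hu hu1
  have a2 := hB.perp (i := i) hn hg hT hT' hΛ hγ hγ1 w2 (u := -u) (by simp [hu]) (by simpa)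
  have b1 := hB.mono (i := i) hg hT hT' hΛ w1 hφ fun y =>
    max_le ((le_abs_self _).trans (hle y)) (hφ.nn y)
  have b2 := hB.mono (i := i) hg hT hT' hΛ w2 hφ fun y =>
    max_le ((neg_le_abs _).trans (hle y)) (hφ.nn y)
  have e : pI μ g h u = pI μ g (fun y => max (h y) 0) u + pI μ g (fun y => max (-h y) 0) (-u) := by
    unfold pI
    rw [← integral_add (g_int_pI w1.cont hg hT' w1.supp _) (g_int_pI w2.cont hg hT' w2.supp _)]
    congr 1; funext y
    rw [inner_neg_left, mul_neg, ← sub_eq_add_neg, ← sub_mul, max_zero_sub_max_neg_zero_eq_self]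
  set B := (a + Λ * rho i) * ∫ y in T, β i y ∂μ with hB'
  have hB0 : 0 ≤ B := mul_nonneg (add_nonneg hφ.a_nn (mul_nonneg hΛ (rho_pos i).le)) (hB.int_nn i T)
  have e1 : 8 * (a + Λ * rho i) / γ * ∫ y in T, β i y ∂μ = 8 * (B / γ) := by rw [hB']; ring
  have e2 : 32 * (a + Λ * rho i) / γ * ∫ y in T, β i y ∂μ = 32 * (B / γ) := by rw [hB']; ring
  have e3 : 16 * (a + Λ * rho i) * ∫ y in T, β i y ∂μ = 16 * B := by rw [hB']; ring
  have h3 : B ≤ B / γ := le_div_self hB0 hγ hγ1
  rw [e1] at a1 a2; rw [e3] at b1 b2; rw [e, e2]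
  have c1 := mul_le_mul_of_nonneg_left b1 hγ.le
  have c2 := mul_le_mul_of_nonneg_left b2 hγ.le
  nlinarith only [hγ1, a2, a1, hB0, h3, c1, c2]

lemma g_perp_le (hn : ‖n‖ = 1) (v : E) : ‖v - (inner ℝ n v : ℝ) • n‖ ≤ ‖v‖ := by
  have : ‖v - (inner ℝ n v : ℝ) • n‖ ^ 2 ≤ ‖v‖ ^ 2 := by
    rw [norm_sub_sq_real, inner_smul_right, norm_smul, hn, real_inner_comm n v, mul_one,
      Real.norm_eq_abs, sq_abs]
    nlinarith [sq_nonneg (inner ℝ n v : ℝ)]
  exact abs_le_of_sq_le_sq' this (norm_nonneg _) |>.2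

theorem Bud.field (hB : Bud μ g n q β W) (hn : ‖n‖ = 1) (hg : Continuous g) {i : ℕ} {a Λ γ : ℝ}
    {T : Set E} {φ : E → ℝ} {H : E → E} (hT : MeasurableSet T) (hT' : T ⊆ ball 0 62) (hΛ : 0 ≤ Λ)
    (hγ : 0 < γ) (hγ1 : γ ≤ 1) (hφ : Wt a Λ T φ) (hH : ∀ y y', ‖H y - H y'‖ ≤ Λ * ‖y - y'‖)
    (h0 : ∀ y, y ∉ T → H y = 0) (hle : ∀ y, ‖H y - (inner ℝ n (H y) : ℝ) • n‖ ≤ φ y) :
    ∫ y, inner ℝ (H y) (g y) ∂μ ≤ pI μ g (fun y => inner ℝ n (H y)) n +
      2 * finrank ℝ E * (γ * pI μ g φ n + 32 * (a + Λ * rho i) / γ * ∫ y in T, β i y ∂μ) := by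
  set b := stdOrthonormalBasis ℝ E
  set P : E → E := fun v => v - (inner ℝ n v : ℝ) • n with hP
  have hc := g_cont hH
  have nn : (inner ℝ n n : ℝ) = 1 := by rw [real_inner_self_eq_norm_sq, hn]; simp
  have hk : ∀ k v, |(inner ℝ (b k) v : ℝ)| ≤ ‖v‖ := fun k v => by
    simpa [b.orthonormal.1 k] using abs_real_inner_le_norm (b k) v
  have e : ∫ y, inner ℝ (H y) (g y) ∂μ = pI μ g (fun y => inner ℝ n (H y)) n +
      ∑ k, pI μ g (fun y => inner ℝ (b k) (P (H y))) (P (b k)) := by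
    have i1 : ∀ k, Integrable (fun y => inner ℝ (b k) (P (H y)) * inner ℝ (P (b k)) (g y)) μ :=
      fun k => g_int_pI (ψ := fun y => inner ℝ (b k) (P (H y))) (by simp only [hP]; fun_prop) hg hT'
        (fun y hy => by simp [hP, h0 y hy]) _
    unfold pI
    rw [← integral_finset_sum _ fun k _ => i1 k, ← integral_add
      (g_int_pI (ψ := fun y => inner ℝ n (H y)) (by fun_prop) hg hT'
        (fun y hy => by simp [h0 y hy]) _) (integrable_finset_sum _ fun k _ => i1 k)]
    congr 1; funext y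
    have h1 : ∀ k, (inner ℝ (P (b k)) (g y) : ℝ) = inner ℝ (b k) (P (g y)) := fun k => by
      simp only [hP, inner_sub_left, inner_sub_right, inner_smul_left, inner_smul_right,
        RCLike.conj_to_real, real_inner_comm n (b k)]; ring
    simp_rw [h1, real_inner_comm (P (H y))]
    rw [b.sum_inner_mul_inner]
    simp only [hP, inner_sub_left, inner_sub_right, inner_smul_left, inner_smul_right,
      RCLike.conj_to_real, real_inner_comm n (H y), nn]; ring
  rw [e]
  refine add_le_add le_rfl ((Finset.sum_le_card_nsmul _ _ _ fun k _ => hB.signed (i := i) hn hg hT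
    hT' hΛ hγ hγ1 hφ (fun y => (hk k _).trans (hle y)) (fun y y' => ?_) ?_ ?_).trans (le_of_eq ?_))
  · rw [← inner_sub_right]
    refine (hk k _).trans (le_trans ?_ ((g_perp_le hn (H y - H y')).trans (hH y y')))
    apply le_of_eq; congr 1; simp only [hP, inner_sub_right, sub_smul]; abel
  · simp [hP, inner_sub_right, inner_smul_right, hn]
  · simpa only [b.orthonormal.1 k] using g_perp_le hn (b k)
  · simp only [Finset.card_univ, Fintype.card_fin, nsmul_eq_mul]; ring

lemma Bud.fieldG' (hB : Bud μ g n q β W) (hn : ‖n‖ = 1) (hg : Continuous g) {i : ℕ} {a Λ : ℝ}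
    {T : Set E} {φ : E → ℝ} {H : E → E} (hT : MeasurableSet T) (hT' : T ⊆ ball 0 62) (hΛ : 0 ≤ Λ)
    (hφ : Wt a Λ T φ) (hH : ∀ y y', ‖H y - H y'‖ ≤ Λ * ‖y - y'‖) (hle : ∀ y, ‖H y‖ ≤ φ y) :
    ∫ y, inner ℝ (H y) (g y) ∂μ ≤ (2 * finrank ℝ E + 1) *
      (pI μ g φ n + 32 * (a + Λ * rho i) * ∫ y in T, β i y ∂μ) := by
  have h0 : ∀ y, y ∉ T → H y = 0 := fun y hy => by
    have := hle y; rwa [hφ.supp y hy, norm_le_zero_iff] at this
  have k1 := hB.field (i := i) hn hg hT hT' hΛ one_pos le_rfl hφ hH h0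
    fun y => (g_perp_le hn _).trans (hle y)
  have hin : ∀ v : E, |(inner ℝ n v : ℝ)| ≤ ‖v‖ := fun v => by
    simpa [hn] using abs_real_inner_le_norm n v
  have hw : Wt (2 * a) (2 * Λ) T fun y => φ y - inner ℝ n (H y) :=
    ⟨fun y => by linarith only [le_abs_self (inner ℝ n (H y) : ℝ), hin (H y), hle y],
      fun y => by linarith only [neg_le_abs (inner ℝ n (H y) : ℝ), hin (H y), hle y, hφ.le y],
      fun y y' => by
        have h1 := hφ.lip y y'
        have h2 := (hin (H y - H y')).trans (hH y y')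
        rw [inner_sub_right] at h2
        rw [abs_le] at *; constructor <;> linarith only [h1, h2],
      fun y hy => by simp [hφ.supp y hy, h0 y hy]⟩
  have key := hB.lemP i _ _ T _ 0 hT hT' (by linarith only [hΛ]) hw (by simp)
  have hc := g_cont hH
  have e : pI μ g (fun y => φ y - inner ℝ n (H y)) (0 - n) =
      pI μ g (fun y => inner ℝ n (H y)) n - pI μ g φ n := by
    unfold pI
    rw [← integral_sub (g_int_pI (ψ := fun y => inner ℝ n (H y)) (by fun_prop) hg hT'
      (fun y hy => by simp [h0 y hy]) n) (g_int_pI hφ.cont hg hT' hφ.supp n)]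
    congr 1; funext y; simp; ring
  have hB0 := mul_nonneg (add_nonneg hφ.a_nn (mul_nonneg hΛ (rho_pos i).le)) (hB.int_nn i T)
  rw [div_one, one_mul] at k1
  linarith only [k1, key, e, hB0]

theorem Bud.fieldG (hB : Bud μ g n q β W) (hn : ‖n‖ = 1) (hg : Continuous g) {i : ℕ} {a Λ : ℝ}
    {T : Set E} {φ : E → ℝ} {H : E → E} (hT : MeasurableSet T) (hT' : T ⊆ ball 0 62) (hΛ : 0 ≤ Λ)
    (hφ : Wt a Λ T φ) (hH : ∀ y y', ‖H y - H y'‖ ≤ Λ * ‖y - y'‖) (hle : ∀ y, ‖H y‖ ≤ φ y) :
    |∫ y, inner ℝ (H y) (g y) ∂μ| ≤ (2 * finrank ℝ E + 1) *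
      (pI μ g φ n + 32 * (a + Λ * rho i) * ∫ y in T, β i y ∂μ) := by
  have h1 := hB.fieldG' (i := i) hn hg hT hT' hΛ hφ hH hle
  have h2 := hB.fieldG' (i := i) (H := fun y => -H y) hn hg hT hT' hΛ hφ
    (fun y y' => by rw [neg_sub_neg, norm_sub_rev]; exact hH y y') (by simpa only [norm_neg] using hle)
  simp only [inner_neg_left, integral_neg] at h2
  exact abs_le.2 ⟨by linarith, h1⟩

theorem Bud.far (hB : Bud μ g n q β W) (hn : ‖n‖ = 1) (hg : Continuous g) {i : ℕ} {a Λ : ℝ}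
    {T T' : Set E} {φ : E → ℝ} {H : E → E} (hT : MeasurableSet T') (hT' : T' ⊆ ball 0 62)
    (hΛ : 0 ≤ Λ) (hφ : Wt a Λ T φ) (hH : ∀ y y', ‖H y - H y'‖ ≤ Λ * ‖y - y'‖)
    (hle : ∀ y, ‖H y‖ ≤ φ y) (hTT : ∀ y ∈ T, ball y (6 * rho i) ⊆ T') :
    |∫ y, inner ℝ (H y) (g y) ∂μ| ≤ (2 * finrank ℝ E + 1) *
      (48 * (a + Λ * rho i) * ∫ y in T', (q i y + β i y) ∂μ) := by
  have hφ' : Wt a Λ T' φ := ⟨hφ.nn, hφ.le, hφ.lip, fun y hy => hφ.supp y fun h =>
    hy (hTT y h (mem_ball_self (by linarith [rho_pos i])))⟩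
  refine (hB.fieldG (i := i) hn hg hT hT' hΛ hφ' hH hle).trans
    (mul_le_mul_of_nonneg_left ?_ (by positivity))
  have h1 := hB.lemU i a Λ T T' φ hT hT' hΛ hφ hTT
  have hi : ∀ h : E → ℝ, Continuous h → IntegrableOn h T' μ := fun h hh =>
    (hh.continuousOn.integrableOn_compact (isCompact_closedBall 0 62)).mono_set
      (hT'.trans ball_subset_closedBall)
  have h2 : ∫ y in T', β i y ∂μ ≤ ∫ y in T', (q i y + β i y) ∂μ :=
    integral_mono (hi _ (hB.cb i)) (hi _ ((hB.cq i).add (hB.cb i))) fun y => by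
      simpa only [le_add_iff_nonneg_left] using hB.nq i y
  have h3 := add_nonneg hφ.a_nn (mul_nonneg hΛ (rho_pos i).le)
  nlinarith only [h1, h2, h3]

theorem Wt.lip_smul {F : Type*} [NormedAddCommGroup F] [NormedSpace ℝ F] {a Λ b Λ' : ℝ}
    {T : Set E} {ψ : E → ℝ} (hψ : Wt a Λ T ψ) (hΛ : 0 ≤ Λ) (hΛ' : 0 ≤ Λ') (hb0 : 0 ≤ b) {h : E → F}
    (hb : ∀ y ∈ T, ‖h y‖ ≤ b) (hl : ∀ y ∈ T, ∀ y' ∈ T, ‖h y - h y'‖ ≤ Λ' * ‖y - y'‖) (y y' : E) :
    ‖ψ y • h y - ψ y' • h y'‖ ≤ (Λ * b + a * Λ') * ‖y - y'‖ := by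
  have ha := hψ.a_nn
  have key : ∀ y y', y ∈ T → ‖ψ y • h y - ψ y' • h y'‖ ≤ (Λ * b + a * Λ') * ‖y - y'‖ := by
    intro y y' hy
    have e : ψ y • h y - ψ y' • h y' = (ψ y - ψ y') • h y + ψ y' • (h y - h y') := by
      rw [sub_smul, smul_sub]; abel
    have h1 : ‖(ψ y - ψ y') • h y‖ ≤ Λ * ‖y - y'‖ * b := by
      rw [norm_smul]; exact mul_le_mul (hψ.lip y y') (hb y hy) (norm_nonneg _) (by positivity)
    have h2 : ‖ψ y' • (h y - h y')‖ ≤ a * (Λ' * ‖y - y'‖) := by
      by_cases hy' : y' ∈ T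
      · rw [norm_smul, Real.norm_of_nonneg (hψ.nn _)]
        exact mul_le_mul (hψ.le _) (hl y hy y' hy') (norm_nonneg _) ha
      · rw [hψ.supp y' hy', zero_smul, norm_zero]; positivity
    rw [e]; refine (norm_add_le _ _).trans ?_; linarith
  by_cases hy : y ∈ T
  · exact key y y' hy
  by_cases hy' : y' ∈ T
  · rw [norm_sub_rev, norm_sub_rev y]; exact key y' y hy'
  · rw [hψ.supp y hy, hψ.supp y' hy']; simp only [zero_smul, sub_self, norm_zero]; positivity

end Pool.Agent.MP_a25fb7_an.Cn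

end

section
set_option autoImplicit false
set_option linter.unusedSectionVars false
open MeasureTheory Metric Set Module
open scoped ENNReal

namespace Pool.Agent.MP_a25fb7_an.Cn

variable {E : Type*} [NormedAddCommGroup E] [InnerProductSpace ℝ E] [FiniteDimensional ℝ E]
  [MeasurableSpace E] [BorelSpace E] (μ : Measure E) [μ.IsAddHaarMeasure]

section P
variable {ψ φ : E → ℝ} {a L : ℝ} {T : Set E}

lemma p_cont (h : Wt a L T ψ) (hL : 0 ≤ L) : Continuous ψ := by
  refine (LipschitzWith.of_dist_le_mul (K := ⟨L, hL⟩) fun y z => ?_).continuous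
  rw [Real.dist_eq, dist_eq_norm]; exact h.lip y z

lemma p_a0 (h : Wt a L T ψ) : 0 ≤ a := (h.nn 0).trans (h.le 0)

lemma p_sub {a' L' : ℝ} {T' : Set E} (h : Wt a L T ψ) (h' : Wt a' L' T' φ)
    (hle : ∀ y, φ y ≤ ψ y) : Wt a (L + L') T (fun y => ψ y - φ y) :=
  ⟨fun y => sub_nonneg.2 (hle y), fun y => by linarith [h.le y, h'.nn y],
    fun y z => by
      have h1 := abs_le.1 (h.lip y z)
      have h2 := abs_le.1 (h'.lip y z)
      rw [abs_le]; constructor <;> linarith only [h1, h2],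
    fun y hy => by linarith [h.supp y hy, h'.nn y, hle y]⟩

lemma p_on {F : E → ℝ} (hF : Continuous F) {R : ℝ} (hT : T ⊆ ball 0 R) : IntegrableOn F T μ :=
  (hF.continuousOn.integrableOn_compact (isCompact_closedBall 0 R)).mono_set
    (hT.trans ball_subset_closedBall)

lemma p_int1 (h : Wt a L T ψ) (hL : 0 ≤ L) (hT : T ⊆ ball 0 62) {F : E → ℝ} (hF : Continuous F) :
    Integrable (fun y => ψ y * F y) μ :=
  (integrableOn_iff_integrable_of_support_subset (s := T) fun y hy => by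
    by_contra hn
    exact hy (by simp [h.supp y hn])).1 (p_on μ ((p_cont h hL).mul hF) hT)

lemma p_int (h : Wt a L T ψ) (hL : 0 ≤ L) (hT : T ⊆ ball 0 62) {g : E → E} (hg : Continuous g)
    (u : E) : Integrable (fun y => ψ y * inner ℝ u (g y)) μ :=
  p_int1 μ h hL hT (continuous_const.inner hg)

lemma p_del {n : E} (hn : ‖n‖ = 1) (x : E) : 0 ≤ ‖x‖ - inner ℝ n x := by
  have := real_inner_le_norm n x
  rw [hn] at this; linarith

lemma p_triv {G : E → E} (hG : Continuous G) {n : E} (hn : ‖n‖ = 1) {v : E}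
    (hS : MeasurableSet T) (hT : T ⊆ ball 0 62) (hL : 0 ≤ L) (h : Wt a L T ψ) (hv : ‖v‖ ≤ 1) :
    pI μ G ψ (v - n) ≤ a * ∫ y in T, (‖G y‖ - inner ℝ n (G y)) ∂μ := by
  rw [← integral_const_mul, ← integral_indicator hS]
  refine integral_mono (p_int μ h hL hT hG _) ((integrable_indicator_iff hS).2
    (p_on μ (by fun_prop) hT)) fun y => ?_
  by_cases hy : y ∈ T
  · simp only [indicator_of_mem hy, inner_sub_left]
    have h1 : inner ℝ v (G y) ≤ ‖G y‖ :=
      (real_inner_le_norm _ _).trans (mul_le_of_le_one_left (norm_nonneg _) hv)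
    have h2 := p_del hn (G y)
    nlinarith only [h.nn y, h.le y, h1, h2]
  · simp [indicator_of_notMem hy, h.supp y hy]

lemma p_ig (ν : Measure E) [IsProbabilityMeasure ν] {g : E → E} {S : ℝ} (hg : Continuous g)
    (hS : ∀ x, ‖g x‖ ≤ S) (y : E) : Integrable (fun z => g (y + z)) ν :=
  (integrable_const S).mono' (by fun_prop : Continuous fun z => g (y + z)).aestronglyMeasurable
    (ae_of_all _ fun _ => hS _)

/-- the adjoint weight -/
lemma p_adj (ν : Measure E) [IsProbabilityMeasure ν] {r : ℝ} (hν : ν (closedBall 0 r)ᶜ = 0)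
    {g : E → E} {S : ℝ} (hg : Continuous g) (hS : ∀ x, ‖g x‖ ≤ S) {w : E → ℝ} (hw : Wt a L T w)
    (hL : 0 ≤ L) (hT : T ⊆ ball 0 62) : ∃ w' : E → ℝ, Wt a L univ w' ∧
    (∀ y c, (∀ z, ‖z - y‖ ≤ r → w z ≤ c) → w' y ≤ c) ∧
    (∀ y c, (∀ z, ‖z - y‖ ≤ r → c ≤ w z) → c ≤ w' y) ∧
    ∀ u : E, pI μ (fun y => ∫ z, g (y + z) ∂ν) w u = pI μ g w' u := by
  have cw := p_cont hw hL
  have iw : ∀ y, Integrable (fun z => w (y - z)) ν := fun y =>
    (integrable_const a).mono' (by fun_prop : Continuous fun z => w (y - z)).aestronglyMeasurable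
      (ae_of_all _ fun z => by rw [Real.norm_eq_abs, abs_of_nonneg (hw.nn _)]; exact hw.le _)
  have aeb : ∀ᵐ z ∂ν, ‖z‖ ≤ r := by
    filter_upwards [measure_eq_zero_iff_ae_notMem.1 hν] with z hz
    simpa only [mem_compl_iff, mem_closedBall, dist_zero_right, not_le, not_lt] using hz
  have up : ∀ (F : E → ℝ) (c : ℝ), Integrable F ν → (∀ z, ‖z‖ ≤ r → F z ≤ c) →
      ∫ z, F z ∂ν ≤ c := fun F c iF h => by
    simpa using integral_mono_ae iF (integrable_const c) (aeb.mono h)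
  have lo : ∀ (F : E → ℝ) (c : ℝ), Integrable F ν → (∀ z, ‖z‖ ≤ r → c ≤ F z) →
      c ≤ ∫ z, F z ∂ν := fun F c iF h => by
    simpa only [integral_const, probReal_univ, smul_eq_mul, one_mul] using integral_mono_ae (integrable_const c) iF (aeb.mono h)
  refine ⟨fun y => ∫ z, w (y - z) ∂ν, ⟨fun y => lo _ _ (iw y) fun z _ => hw.nn _,
    fun y => up _ _ (iw y) fun z _ => hw.le _, fun y y' => ?_, fun y hy => (hy trivial).elim⟩,
    fun y c h => up _ _ (iw y) fun z hz => h _ (by simpa using hz),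
    fun y c h => lo _ _ (iw y) fun z hz => h _ (by simpa using hz), fun u => ?_⟩
  · rw [← integral_sub (iw y) (iw y'), abs_le]
    have k : ∀ z, |w (y - z) - w (y' - z)| ≤ L * ‖y - y'‖ := fun z => by
      simpa only [sub_sub_sub_cancel_right] using hw.lip (y - z) (y' - z)
    exact ⟨lo _ _ ((iw y).sub (iw y')) fun z _ => (abs_le.1 (k z)).1,
      up _ _ ((iw y).sub (iw y')) fun z _ => (abs_le.1 (k z)).2⟩
  have i0 : Integrable w μ := by simpa using p_int1 μ hw hL hT (F := fun _ => 1) continuous_const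
  have i3 : Integrable (fun p : E × E => w p.2 * inner ℝ u (g (p.2 + p.1))) (ν.prod μ) :=
    (i0.comp_snd ν).mul_bdd (c := ‖u‖ * S)
      (by fun_prop : Continuous fun p : E × E => inner ℝ u (g (p.2 + p.1))).aestronglyMeasurable
      (ae_of_all _ fun z => (norm_inner_le_norm _ _).trans
        (mul_le_mul_of_nonneg_left (hS _) (norm_nonneg _)))
  have i2 : Integrable (fun p : E × E => w (p.2 - p.1) * inner ℝ u (g p.2)) (ν.prod μ) := by
    refine ((measurePreserving_prod_add ν μ).integrable_comp (by fun_prop : Continuous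
      fun p : E × E => w (p.2 - p.1) * inner ℝ u (g p.2)).aestronglyMeasurable).1 ?_
    simpa only [Function.comp_def, add_sub_cancel_left, add_comm] using i3
  calc pI μ (fun y => ∫ z, g (y + z) ∂ν) w u
      = ∫ y, ∫ z, w y * inner ℝ u (g (y + z)) ∂ν ∂μ := by
        simp only [pI, integral_const_mul, integral_inner (p_ig ν hg hS _)]
    _ = ∫ z, ∫ y, w (y - z) * inner ℝ u (g y) ∂μ ∂ν := by
        rw [← integral_integral_swap i3]
        congr 1
        ext z
        rw [← integral_add_right_eq_self (fun y => w (y - z) * inner ℝ u (g y)) z]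
        simp
    _ = _ := by
        rw [integral_integral_swap i2]
        simp only [pI, integral_mul_const]

lemma p_rho (i : ℕ) : 0 < rho i := by unfold rho; positivity

variable {σ κ : ℕ → Measure E} {N : ℕ} {g : E → E} {S K : ℝ} {n : E}

lemma p_cg (hK : ∀ x y, ‖g x - g y‖ ≤ K * ‖x - y‖) : Continuous g := by
  refine (LipschitzWith.of_dist_le_mul (K := ⟨|K|, abs_nonneg K⟩) fun y z => ?_).continuous
  rw [dist_eq_norm, dist_eq_norm]
  exact (hK y z).trans (mul_le_mul_of_nonneg_right (le_abs_self K) (norm_nonneg _))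

lemma p_cgs (hF : Fam σ κ N) (hS : ∀ x, ‖g x‖ ≤ S) (hK : ∀ x y, ‖g x - g y‖ ≤ K * ‖x - y‖)
    (i : ℕ) : Continuous (gs κ g i) := by
  have := hF.pk i
  refine p_cg (K := K) fun x y => ?_
  rw [gs, gs, ← integral_sub (p_ig _ (p_cg hK) hS x) (p_ig _ (p_cg hK) hS y)]
  simpa only [probReal_univ, mul_one] using norm_integral_le_of_norm_le_const (μ := κ i) (f := fun u => g (x + u) - g (y + u))
    (C := K * ‖x - y‖) (ae_of_all _ fun u => by simpa only [add_sub_add_right_eq_sub] using hK (x + u) (y + u))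

/-- the weighted sum of the defects of the finer levels -/
noncomputable def pBet (κ : ℕ → Measure E) (g : E → E) (n : E) (N i : ℕ) (y : E) : ℝ :=
  ∑ m ∈ Finset.range (N - i + 1), (1 / 2) ^ m * del κ g n (i + m) y

lemma p_bet (hn : ‖n‖ = 1) (i : ℕ) (y : E) : del κ g n i y ≤ pBet κ g n N i y ∧
    (i < N → pBet κ g n N i y = del κ g n i y + pBet κ g n N (i + 1) y / 2) := by
  unfold pBet
  rw [Finset.sum_range_succ']
  refine ⟨?_, fun hi => ?_⟩
  · have : 0 ≤ ∑ m ∈ Finset.range (N - i), (1 / 2 : ℝ) ^ (m + 1) * del κ g n (i + (m + 1)) y :=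
      Finset.sum_nonneg fun m _ => mul_nonneg (by positivity) (p_del hn _)
    simpa only [one_div, inv_pow, pow_zero, add_zero, one_mul, le_add_iff_nonneg_left, ge_iff_le] using this
  · rw [show N - (i + 1) + 1 = N - i by omega, Finset.sum_div, add_comm]
    congr 1
    · simp
    · exact Finset.sum_congr rfl fun m _ => by rw [add_assoc, add_comm 1 m]; ring

lemma p_core (hF : Fam σ κ N) (hS : ∀ x, ‖g x‖ ≤ S) (hK : ∀ x y, ‖g x - g y‖ ≤ K * ‖x - y‖)
    (hn : ‖n‖ = 1) (hm : MeasurableSet T) (hT : T ⊆ ball 0 62) {v : E} (hv : ‖v‖ ≤ 1) (j : ℕ) :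
    ∀ (i : ℕ) (a L : ℝ) (ψ : E → ℝ), N ≤ i + j → 0 ≤ L → Wt a L T ψ →
    pI μ g ψ (v - n) ≤ a * ∫ y in T, del κ g n i y ∂μ +
      8 * (L * rho i) * (∫ y in T, pBet κ g n N i y ∂μ - ∫ y in T, del κ g n i y ∂μ) := by
  have cg := p_cg hK
  have cd : ∀ i, Continuous (del κ g n i) := fun i =>
    (p_cgs hF hS hK i).norm.sub (continuous_const.inner (p_cgs hF hS hK i))
  have cb : ∀ i, Continuous (pBet κ g n N i) := fun i =>
    continuous_finsetSum _ fun m _ => continuous_const.mul (cd _)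
  have base : ∀ (i : ℕ) (a L : ℝ) (ψ : E → ℝ), N ≤ i → 0 ≤ L → Wt a L T ψ →
      pI μ g ψ (v - n) ≤ a * ∫ y in T, del κ g n i y ∂μ +
      8 * (L * rho i) * (∫ y in T, pBet κ g n N i y ∂μ - ∫ y in T, del κ g n i y ∂μ) :=
    fun i a L ψ hi hL hψ => by
    have k := p_triv μ cg hn hm hT hL hψ hv
    have e : ∀ y, del κ g n i y = ‖g y‖ - inner ℝ n (g y) := fun y => by
      simp [del, gs, hF.fin i hi]
    have k2 := integral_mono (p_on μ (cd i) hT) (p_on μ (cb i) hT) fun y => (p_bet hn i y).1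
    have := mul_nonneg (mul_nonneg hL (p_rho i).le) (sub_nonneg.2 k2)
    simp only [← e] at k
    linarith only [this, k]
  induction j with
  | zero => exact base
  | succ j ih =>
    intro i a L ψ hi hL hψ
    rcases le_or_gt N i with hN | hN
    · exact base i a L ψ hN hL hψ
    have := hF.pk i
    have hLρ : 0 ≤ L * rho i := mul_nonneg hL (p_rho i).le
    have w0 : Wt a L T (fun y => max (ψ y - 2 * (L * rho i)) 0) :=
      ⟨fun y => le_max_right _ _, fun y => max_le (by linarith only [hψ.le y, hLρ]) (p_a0 hψ),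
        fun y z => (abs_max_sub_max_le_abs _ _ _).trans (by simpa only [sub_sub_sub_cancel_right] using hψ.lip y z),
        fun y hy => by simp only [hψ.supp y hy, zero_sub, Left.neg_nonpos_iff, Nat.ofNat_pos, mul_nonneg_iff_of_pos_left, hLρ, sup_of_le_right]⟩
    obtain ⟨w', hw', up, lo, e⟩ := p_adj μ (κ i) (hF.sk i) cg hS w0 hL hT
    have near : ∀ y z, ‖z - y‖ ≤ 2 * rho i → |ψ z - ψ y| ≤ 2 * (L * rho i) := fun y z hz =>
      (hψ.lip z y).trans (by nlinarith only [hL, hz])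
    have hle : ∀ y, w' y ≤ ψ y := fun y => up y _ fun z hz =>
      max_le (by linarith only [(abs_le.1 (near y z hz)).2]) (hψ.nn y)
    have hge : ∀ y, ψ y - 4 * (L * rho i) ≤ w' y := fun y => lo y _ fun z hz =>
      le_max_of_le_left (by linarith only [(abs_le.1 (near y z hz)).1])
    have w1 : Wt (4 * (L * rho i)) (L + L) T (fun y => ψ y - w' y) :=
      ⟨(p_sub hψ hw' hle).nn, fun y => by linarith only [hge y], (p_sub hψ hw' hle).lip,
        (p_sub hψ hw' hle).supp⟩
    have k1 := p_triv μ (p_cgs hF hS hK i) hn hm hT hL w0 hv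
    have k2 := ih (i + 1) _ _ _ (by omega) (by linarith only [hL]) w1
    have k3 : pI μ g (fun y => ψ y - w' y) (v - n) = pI μ g ψ (v - n) - pI μ g w' (v - n) := by
      simp only [pI, sub_mul]
      exact integral_sub (p_int μ hψ hL hT cg _) (p_int μ (T := T) ⟨hw'.nn, hw'.le, hw'.lip,
        fun y hy => le_antisymm ((hle y).trans (hψ.supp y hy).le) (hw'.nn y)⟩ hL hT cg _)
    have k5 : ∫ y in T, pBet κ g n N i y ∂μ =
        ∫ y in T, del κ g n i y ∂μ + (∫ y in T, pBet κ g n N (i + 1) y ∂μ) / 2 := by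
      rw [← integral_div, ← integral_add (p_on μ (cd i) hT) ((p_on μ (cb _) hT).div_const 2)]
      exact integral_congr_ae (ae_of_all _ fun y => (p_bet hn i y).2 hN)
    have e4 : 8 * ((L + L) * rho (i + 1)) = 4 * (L * rho i) := by simp only [rho]; ring
    rw [e4, k3, ← e] at k2
    rw [k5]
    change pI μ (gs κ g i) _ _ ≤ a * ∫ y in T, del κ g n i y ∂μ at k1
    change _ - pI μ (gs κ g i) _ _ ≤ _ at k2
    linarith only [k1, k2]

end P

theorem blockP {σ κ : ℕ → Measure E} {N : ℕ} (hF : Fam σ κ N) {g : E → E} {S K W : ℝ}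
    (hS : ∀ x, ‖g x‖ ≤ S) (hK : ∀ x y, ‖g x - g y‖ ≤ K * ‖x - y‖) {n : E} (hn : ‖n‖ = 1)
    (hW : 0 ≤ W) (hD : DelBd μ κ g n W) : ∃ q β, Bud μ g n q β (3 * W) := by
  have cg := p_cg hK
  have cG := p_cgs hF hS hK
  have cd : ∀ i, Continuous (del κ g n i) := fun i =>
    (cG i).norm.sub (continuous_const.inner (cG i))
  have cb : ∀ i, Continuous (pBet κ g n N i) := fun i =>
    continuous_finsetSum _ fun m _ => continuous_const.mul (cd _)
  have nb : ∀ i y, 0 ≤ pBet κ g n N i y := fun i y => (p_del hn _).trans (p_bet hn i y).1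
  have lemP : ∀ (i : ℕ) (a Λ : ℝ) (T : Set E) (ψ : E → ℝ) (v : E), MeasurableSet T →
      T ⊆ ball 0 62 → 0 ≤ Λ → Wt a Λ T ψ → ‖v‖ ≤ 1 →
      pI μ g ψ (v - n) ≤ 8 * (a + Λ * rho i) * ∫ y in T, pBet κ g n N i y ∂μ :=
    fun i a L T ψ v hm hT hL hψ hv => by
    have k := p_core μ hF hS hK hn hm hT hv N i a L ψ (by omega) hL hψ
    have k1 : 0 ≤ ∫ y in T, del κ g n i y ∂μ := integral_nonneg fun y => p_del hn _
    have k2 := integral_mono (p_on μ (cd i) hT) (p_on μ (cb i) hT) fun y => (p_bet hn i y).1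
    have := p_a0 hψ
    have := mul_nonneg hL (p_rho i).le
    nlinarith
  have mono : ∀ (i : ℕ) (a L a' L' : ℝ) (T T' : Set E) (φ ψ : E → ℝ), MeasurableSet T →
      T ⊆ ball 0 62 → 0 ≤ L → 0 ≤ L' → Wt a L T φ → Wt a' L' T' ψ → (∀ y, ψ y ≤ φ y) →
      pI μ g ψ n ≤ pI μ g φ n + 8 * (a + (L + L') * rho i) * ∫ y in T, pBet κ g n N i y ∂μ :=
    fun i a L a' L' T T' φ ψ hm hT hL hL' hφ hψ hle => by
    have k := lemP i _ _ _ _ 0 hm hT (by linarith) (p_sub hφ hψ hle) (by simp)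
    simp only [pI, zero_sub, inner_neg_left, mul_neg, integral_neg, sub_mul] at k
    rw [integral_sub (p_int μ hφ hL hT cg _) (p_int μ (T := T) ⟨hψ.nn, hψ.le, hψ.lip,
      fun y hy => le_antisymm ((hle y).trans (hφ.supp y hy).le) (hψ.nn y)⟩ hL' hT cg _)] at k
    simp only [pI]
    linarith
  refine ⟨fun i y => ‖gs κ g i y‖, pBet κ g n N, fun i => (cG i).norm, cb, fun i y => norm_nonneg _,
    nb, fun i => ?_, lemP, fun i a L S T φ hT hT' hL hφ hST => ?_,
    fun i L R S φ x hm hS' hL hφ h1 => ?_⟩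
  · unfold pBet
    rw [integral_finsetSum _ fun m _ => (p_on μ (cd _) subset_rfl).const_mul _]
    have k : ∀ m ∈ Finset.range (N - i + 1),
        ∫ y in ball (0 : E) 64, (1 / 2 : ℝ) ^ m * del κ g n (i + m) y ∂μ ≤
          W * (20 / 19) ^ i * (10 / 19) ^ m := fun m _ => by
      rw [integral_const_mul]
      have t := (setIntegral_mono_set (p_on μ (cd (i + m)) subset_rfl)
        (ae_of_all _ fun y => p_del hn _) (ball_subset_ball (by norm_num : (64 : ℝ) ≤ 66)).eventuallyLE).trans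
        (hD (i + m))
      refine (mul_le_mul_of_nonneg_left t (by positivity)).trans (le_of_eq ?_)
      rw [pow_add, show (10 / 19 : ℝ) = 1 / 2 * (20 / 19) by norm_num, mul_pow]; ring
    refine (Finset.sum_le_sum k).trans ?_
    rw [← Finset.mul_sum]
    have t := (summable_geometric_of_lt_one (r := 10 / 19) (by norm_num) (by norm_num)).sum_le_tsum
      (Finset.range (N - i + 1)) fun m _ => by positivity
    rw [tsum_geometric_of_lt_one (by norm_num) (by norm_num)] at t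
    have : 0 ≤ W * (20 / 19) ^ i := by positivity
    norm_num only [] at t
    nlinarith only [this, t]
  · have := hF.pk i
    set ρ := rho i with hρ
    have a0 := p_a0 hφ
    have h0 : 0 < ρ := p_rho i
    have l0 : 0 ≤ L * ρ := mul_nonneg hL h0.le
    have i0 : 0 ≤ ∫ y in T, pBet κ g n N i y ∂μ := integral_nonneg (nb i)
    have q0 : 0 ≤ ∫ y in T, ‖gs κ g i y‖ ∂μ := integral_nonneg fun y => norm_nonneg _
    rw [integral_add (p_on μ (cG i).norm hT') (p_on μ (cb i) hT')]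
    rcases S.eq_empty_or_nonempty with rfl | hne
    · have : ∀ y, φ y = 0 := fun y => hφ.supp y (notMem_empty y)
      simp only [pI, this, zero_mul, integral_zero]
      positivity
    have c0 : 0 ≤ a / ρ := by positivity
    have cρ : a / ρ * ρ = a := div_mul_cancel₀ a h0.ne'
    set w : E → ℝ := fun y => min a (max (a / ρ * (3 * ρ - infDist y S)) 0) with hw
    have w0 : ∀ y, 3 * ρ ≤ infDist y S → w y = 0 := fun y hy => by
      simp only [hw]
      rw [max_eq_right (mul_nonpos_of_nonneg_of_nonpos c0 (by linarith only [hy])), min_eq_right a0]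
    have inT : ∀ y, y ∉ T → 6 * ρ ≤ infDist y S := fun y hy => by
      by_contra hlt
      obtain ⟨z, hz, hd⟩ := (infDist_lt_iff hne).1 (not_le.1 hlt)
      exact hy (hST z hz hd)
    have li : ∀ y z, |infDist y S - infDist z S| ≤ ‖y - z‖ := fun y z => by
      simpa [Real.dist_eq, dist_eq_norm] using (lipschitz_infDist_pt S).dist_le_mul y z
    have hwt : Wt a (a / ρ) T w :=
      ⟨fun y => le_min a0 (le_max_right _ _), fun y => min_le_left _ _, fun y z => by
        refine (abs_min_sub_min_le_max _ _ _ _).trans (max_le (by simp only [sub_self, abs_zero]; positivity) ?_)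
        refine (abs_max_sub_max_le_abs _ _ _).trans ?_
        rw [← mul_sub, abs_mul, abs_of_nonneg c0, sub_sub_sub_cancel_left, abs_sub_comm]
        exact mul_le_mul_of_nonneg_left (li y z) c0, fun y hy => w0 y (by linarith only [inT y hy, h0])⟩
    obtain ⟨w', hw', up, lo, e⟩ := p_adj μ (κ i) (hF.sk i) cg hS hwt c0 hT'
    have hwT : Wt a (a / ρ) T w' := ⟨hw'.nn, hw'.le, hw'.lip, fun y hy =>
      le_antisymm (up y 0 fun z hz => (w0 z (by linarith only [inT y hy, (abs_le.1 (li z y)).1, h0, hz])).le)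
        (hw'.nn y)⟩
    have hle : ∀ y, φ y ≤ w' y := fun y => by
      by_cases hy : y ∈ S
      · refine (hφ.le y).trans (lo y a fun z hz => le_min le_rfl (le_max_of_le_left ?_))
        have : infDist z S ≤ ‖z - y‖ := by rw [← dist_eq_norm]; exact infDist_le_dist_of_mem hy
        nlinarith only [c0, cρ, hz, this]
      · rw [hφ.supp y hy]; exact hw'.nn y
    have k1 := mono i _ _ _ _ _ _ _ _ hT hT' c0 hL hwT hφ hle
    have k2 : pI μ (gs κ g i) w n ≤ a * ∫ y in T, ‖gs κ g i y‖ ∂μ := by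
      rw [← integral_const_mul, ← integral_indicator hT]
      refine integral_mono (p_int μ hwt c0 hT' (cG i) _) ((integrable_indicator_iff hT).2
        (p_on μ (continuous_const.mul (cG i).norm) hT')) fun y => ?_
      by_cases hy : y ∈ T
      · simp only [indicator_of_mem hy]
        nlinarith only [hwt.nn y, hwt.le y, p_del hn (gs κ g i y), norm_nonneg (gs κ g i y)]
      · simp [indicator_of_notMem hy, hwt.supp y hy]
    rw [← e, add_mul, cρ] at k1
    change _ ≤ pI μ (gs κ g i) _ _ + _ at k1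
    linarith only [mul_nonneg l0 i0, mul_nonneg l0 q0, mul_nonneg a0 q0, k2, k1]
  · have := hF.pk i
    set ρ := rho i with hρ
    have h0 : 0 < ρ := p_rho i
    have l0 : 0 ≤ L * ρ := mul_nonneg hL h0.le
    have i0 : 0 ≤ ∫ y in S, pBet κ g n N i y ∂μ := integral_nonneg (nb i)
    have i1 : ∫ y in S, pBet κ g n N i y ∂μ ≤ ∫ y in ball (0 : E) 64, pBet κ g n N i y ∂μ :=
      setIntegral_mono_set (p_on μ (cb i) subset_rfl) (ae_of_all _ (nb i))
        (hS'.trans (ball_subset_ball (by norm_num))).eventuallyLE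
    have c0 : 0 < (2 * ρ)⁻¹ := by positivity
    have cρ : (2 * ρ)⁻¹ * ρ = 1 / 2 := by field_simp
    have inS : ∀ y, ‖y - x‖ < R → y ∈ S := fun y hy => by
      by_contra hlt
      have := h1 y (mem_ball_iff_norm.2 hy)
      rw [hφ.supp y hlt] at this
      exact zero_ne_one this
    set w : E → ℝ := fun y => min 1 (max ((2 * ρ)⁻¹ * (R - 2 * ρ - ‖y - x‖)) 0) with hw
    have w0 : ∀ y, R - 2 * ρ ≤ ‖y - x‖ → w y = 0 := fun y hy => by
      simp only [hw]
      rw [max_eq_right (mul_nonpos_of_nonneg_of_nonpos c0.le (by linarith only [hy])),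
        min_eq_right zero_le_one]
    have hwt : Wt 1 (2 * ρ)⁻¹ S w :=
      ⟨fun y => le_min zero_le_one (le_max_right _ _), fun y => min_le_left _ _, fun y z => by
        refine (abs_min_sub_min_le_max _ _ _ _).trans (max_le (by simp only [sub_self, abs_zero, mul_inv_rev]; positivity) ?_)
        refine (abs_max_sub_max_le_abs _ _ _).trans ?_
        rw [← mul_sub, abs_mul, abs_of_nonneg c0.le, sub_sub_sub_cancel_left, abs_sub_comm]
        refine mul_le_mul_of_nonneg_left ?_ c0.le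
        simpa using abs_norm_sub_norm_le (y - x) (z - x), fun y hy => w0 y (by
          by_contra hlt
          exact hy (inS y (by linarith only [h0, hlt])))⟩
    obtain ⟨w', hw', up, lo, e⟩ := p_adj μ (κ i) (hF.sk i) cg hS hwt c0.le hS'
    have hle : ∀ y, w' y ≤ φ y := fun y => by
      by_cases hy : ‖y - x‖ < R
      · rw [h1 y (mem_ball_iff_norm.2 hy)]; exact hw'.le y
      · refine (up y 0 fun z hz => (w0 z ?_).le).trans (hφ.nn y)
        have := norm_sub_le_norm_sub_add_norm_sub y z x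
        rw [norm_sub_rev y z] at this
        linarith only [hy, hz, this]
    have k1 := mono i _ _ _ _ _ _ _ _ hm hS' hL c0.le hφ hw' hle
    have j1 := (integrable_indicator_iff measurableSet_ball).2 (p_on μ (cG i).norm
      (T := ball x (R - 4 * ρ)) fun y hy => hS' (inS y (by linarith only [mem_ball_iff_norm.1 hy, h0])))
    have j2 := (integrable_indicator_iff hm).2 (p_on μ (cb i) hS')
    have k2 : ∫ y in ball x (R - 4 * ρ), ‖gs κ g i y‖ ∂μ - ∫ y in S, pBet κ g n N i y ∂μ ≤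
        pI μ (gs κ g i) w n := by
      rw [← integral_indicator hm, ← integral_indicator measurableSet_ball, ← integral_sub j1 j2]
      refine integral_mono (j1.sub j2) (p_int μ hwt c0.le hS' (cG i) _) fun y => ?_
      have t1 : (ball x (R - 4 * ρ)).indicator (fun y => ‖gs κ g i y‖) y ≤ w y * ‖gs κ g i y‖ := by
        by_cases hy : y ∈ ball x (R - 4 * ρ)
        · have : w y = 1 := by
            refine min_eq_left (le_max_of_le_left ?_)
            rw [le_inv_mul_iff₀ (by positivity)]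
            linarith only [mem_ball_iff_norm.1 hy]
          simp only [indicator_of_mem hy, this, one_mul, Std.le_refl]
        · rw [indicator_of_notMem hy]; exact mul_nonneg (hwt.nn y) (norm_nonneg _)
      have t2 : w y * del κ g n i y ≤ S.indicator (pBet κ g n N i) y := by
        by_cases hy : y ∈ S
        · rw [indicator_of_mem hy]
          nlinarith only [hwt.nn y, hwt.le y, nb i y, (p_bet (κ := κ) (g := g) (N := N) hn i y).1]
        · simp [indicator_of_notMem hy, hwt.supp y hy]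
      simp only [del] at t2 ⊢
      linarith only [t1, t2]
    rw [← e, add_mul, cρ] at k1
    change pI μ (gs κ g i) _ _ ≤ _ at k1
    linarith only [mul_nonneg l0 i0, mul_nonneg l0 (sub_nonneg.2 i1), i0, i1, k2, k1]

end Pool.Agent.MP_a25fb7_an.Cn

end

section
set_option autoImplicit false
set_option linter.unusedSectionVars false
open MeasureTheory Metric Set Filter Module ProbabilityTheory
open scoped InnerProductSpace Pointwise

namespace Pool.Agent.MP_a25fb7_an.Cn

variable {E : Type*} [NormedAddCommGroup E] [InnerProductSpace ℝ E] [FiniteDimensional ℝ E]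
  [MeasurableSpace E] [BorelSpace E] (μ : Measure E) [μ.IsAddHaarMeasure]

namespace HH

variable {V : Type*} [NormedAddCommGroup V] [NormedSpace ℝ V] [CompleteSpace V]

/-- ball average -/
noncomputable def Av (ρ : ℝ) (h : E → V) (y : E) : V := ⨍ z in ball y ρ, h z ∂μ

lemma rb_pos (x : E) {s : ℝ} (hs : 0 < s) : 0 < μ.real (ball x s) :=
  ENNReal.toReal_pos (measure_ball_pos μ x hs).ne' measure_ball_lt_top.ne

lemma rb_eq (x : E) (s : ℝ) : μ.real (ball x s) = μ.real (ball (0 : E) s) := by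
  simp only [Measure.real, Measure.addHaar_ball_center]

lemma Av_eq (ρ : ℝ) (h : E → V) (y : E) :
    Av μ ρ h y = (μ.real (ball (0 : E) ρ))⁻¹ • ∫ z in ball y ρ, h z ∂μ := by
  rw [Av, setAverage_eq, rb_eq]

lemma ker_int {ρ : ℝ} {h : E → V} (hh : Integrable h μ) {φ : E → ℝ} (hφ : AEStronglyMeasurable φ μ)
    {a : ℝ} (ha : ∀ y, |φ y| ≤ a) :
    Integrable (fun p : E × E => φ p.1 • (ball p.1 ρ).indicator h p.2) (μ.prod μ) := by
  have h1 : Integrable ((ball (0 : E) ρ).indicator fun _ => (1 : ℝ)) μ :=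
    (integrable_indicator_iff measurableSet_ball).2 (integrableOn_const measure_ball_lt_top.ne)
  have h2 := hh.convolution_integrand (ContinuousLinearMap.lsmul ℝ ℝ).flip h1
  have h3 : Integrable (fun p : E × E => (ball p.1 ρ).indicator h p.2) (μ.prod μ) := by
    refine h2.congr (Eventually.of_forall fun p => ?_)
    by_cases hp : p.2 ∈ ball p.1 ρ
    · have : p.1 - p.2 ∈ ball (0 : E) ρ := by
        rw [mem_ball_zero_iff, ← dist_eq_norm, dist_comm]; exact hp
      simp [hp, this]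
    · have : p.1 - p.2 ∉ ball (0 : E) ρ := by
        rw [mem_ball_zero_iff, ← dist_eq_norm, dist_comm]; exact hp
      simp [hp, this]
  exact h3.bdd_smul a hφ.comp_fst (Eventually.of_forall fun p => ha p.1)

lemma int_smul_Av {ρ : ℝ} {h : E → V} (hh : Integrable h μ) {φ : E → ℝ}
    (hφ : AEStronglyMeasurable φ μ) {a : ℝ} (ha : ∀ y, |φ y| ≤ a) :
    Integrable (fun y => φ y • Av μ ρ h y) μ := by
  refine ((ker_int μ (ρ := ρ) hh hφ ha).integral_prod_left.smul
    (μ.real (ball (0 : E) ρ))⁻¹).congr (Eventually.of_forall fun y => ?_)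
  simp only [Pi.smul_apply, integral_smul, integral_indicator measurableSet_ball, Av_eq]
  rw [smul_comm]

lemma int_Av {ρ : ℝ} {h : E → V} (hh : Integrable h μ) : Integrable (Av μ ρ h) μ := by
  simpa using int_smul_Av μ (ρ := ρ) hh (φ := fun _ => 1) aestronglyMeasurable_const (a := 1)
    (by simp)

/-- `Av` is self-adjoint. -/
lemma adj {ρ : ℝ} {h : E → V} (hh : Integrable h μ) {φ : E → ℝ}
    (hφ : AEStronglyMeasurable φ μ) {a : ℝ} (ha : ∀ y, |φ y| ≤ a) :
    ∫ y, φ y • Av μ ρ h y ∂μ = ∫ y, Av μ ρ φ y • h y ∂μ := by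
  have h1 := integral_integral_swap (f := fun y z => φ y • (ball y ρ).indicator h z)
    (ker_int μ (ρ := ρ) hh hφ ha)
  have h2 : ∀ z, ∫ y, φ y • (ball y ρ).indicator h z ∂μ = (∫ y in ball z ρ, φ y ∂μ) • h z := by
    intro z
    rw [← integral_indicator measurableSet_ball, ← integral_smul_const]
    congr 1
    ext y
    by_cases hp : z ∈ ball y ρ
    · simp [hp, mem_ball_comm.1 hp]
    · have : y ∉ ball z ρ := fun h => hp (mem_ball_comm.1 h)
      simp [hp, this]
  simp only [integral_smul, integral_indicator measurableSet_ball, h2] at h1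
  simp only [Av_eq, smul_comm (φ _), smul_assoc, integral_smul, h1]

lemma Av_const {ρ : ℝ} (hρ : 0 < ρ) (c : V) (y : E) : Av μ ρ (fun _ => c) y = c :=
  setAverage_const (measure_ball_pos μ y hρ).ne' measure_ball_lt_top.ne c

lemma Av_congr {ρ : ℝ} {h k : E → V} {y : E} (he : ∀ z ∈ ball y ρ, h z = k z) :
    Av μ ρ h y = Av μ ρ k y := by
  rw [Av_eq, Av_eq, setIntegral_congr_fun measurableSet_ball he]

lemma integral_Av {ρ : ℝ} (hρ : 0 < ρ) {h : E → V} (hh : Integrable h μ) :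
    ∫ y, Av μ ρ h y ∂μ = ∫ y, h y ∂μ := by
  simpa [Av_const μ hρ] using adj μ (ρ := ρ) hh (φ := fun _ => 1) aestronglyMeasurable_const
    (a := 1) (by simp)

lemma norm_Av_le (ρ : ℝ) (h : E → V) (y : E) : ‖Av μ ρ h y‖ ≤ Av μ ρ (fun z => ‖h z‖) y := by
  rw [Av_eq, Av_eq, norm_smul, smul_eq_mul, Real.norm_eq_abs, abs_of_nonneg (by positivity)]
  gcongr
  exact norm_integral_le_integral_norm _

lemma Av_mono {ρ : ℝ} {h k : E → ℝ} {y : E} (hh : IntegrableOn h (ball y ρ) μ)
    (hk : IntegrableOn k (ball y ρ) μ) (hle : ∀ z ∈ ball y ρ, h z ≤ k z) :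
    Av μ ρ h y ≤ Av μ ρ k y := by
  rw [Av_eq, Av_eq, smul_eq_mul, smul_eq_mul]
  exact mul_le_mul_of_nonneg_left (setIntegral_mono_on hh hk measurableSet_ball hle) (by positivity)

lemma Av_nonneg {ρ : ℝ} {h : E → ℝ} {y : E} (hle : ∀ z ∈ ball y ρ, 0 ≤ h z) : 0 ≤ Av μ ρ h y := by
  rw [Av_eq, smul_eq_mul]
  exact mul_nonneg (by positivity) (setIntegral_nonneg measurableSet_ball hle)

lemma norm_Av_le_const {ρ : ℝ} (hρ : 0 < ρ) {h : E → V} {y : E} {a : ℝ}
    (hle : ∀ z ∈ ball y ρ, ‖h z‖ ≤ a) : ‖Av μ ρ h y‖ ≤ a := by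
  rw [Av_eq, norm_smul, Real.norm_eq_abs, abs_of_nonneg (by positivity),
    inv_mul_le_iff₀ (rb_pos μ _ hρ), mul_comm, ← rb_eq μ y]
  exact norm_setIntegral_le_of_norm_le_const measure_ball_lt_top hle

lemma Av_sub {ρ : ℝ} {h k : E → V} {y : E} (hh : IntegrableOn h (ball y ρ) μ)
    (hk : IntegrableOn k (ball y ρ) μ) :
    Av μ ρ (fun z => h z - k z) y = Av μ ρ h y - Av μ ρ k y := by
  rw [Av_eq, Av_eq, Av_eq, integral_sub hh hk, smul_sub]

lemma inner_Av {ρ : ℝ} {h : E → E} {y : E} (hh : IntegrableOn h (ball y ρ) μ) (n : E) :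
    ⟪n, Av μ ρ h y⟫_ℝ = Av μ ρ (fun z => ⟪n, h z⟫_ℝ) y := by
  rw [Av_eq, Av_eq, integral_inner hh, real_inner_smul_right, smul_eq_mul]

/-- mass of `Av h` on a ball dominates the mass of `h` on the shrunk ball -/
lemma ball_le {ρ : ℝ} (hρ : 0 < ρ) {h : E → ℝ} (hh : Integrable h μ) (h0 : ∀ z, 0 ≤ h z) (x : E)
    (R : ℝ) : ∫ z in ball x (R - ρ), h z ∂μ ≤ ∫ z in ball x R, Av μ ρ h z ∂μ := by
  have h1 := adj μ (ρ := ρ) hh (φ := (ball x R).indicator fun _ => 1)
    (aestronglyMeasurable_const.indicator measurableSet_ball) (a := 1)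
    (fun y => by by_cases hy : y ∈ ball x R <;> simp [hy])
  have h2 : ∀ y, |Av μ ρ ((ball x R).indicator fun _ => (1 : ℝ)) y| ≤ 1 := fun y =>
    norm_Av_le_const μ (V := ℝ) hρ fun z _ => by
      by_cases hz : z ∈ ball x R <;> simp [indicator, hz]
  have h3 : Integrable ((ball x R).indicator fun _ => (1 : ℝ)) μ :=
    (integrable_indicator_iff measurableSet_ball).2 (integrableOn_const measure_ball_lt_top.ne)
  simp only [smul_eq_mul, ← indicator_mul_left, one_mul] at h1
  rw [← integral_indicator measurableSet_ball, ← integral_indicator measurableSet_ball]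
  refine le_trans ?_ h1.ge
  refine integral_mono (hh.indicator measurableSet_ball)
    (hh.bdd_mul (c := 1) (int_Av μ h3).1 (Eventually.of_forall h2)) fun y => ?_
  by_cases hy : y ∈ ball x (R - ρ)
  · have : Av μ ρ ((ball x R).indicator fun _ => (1 : ℝ)) y = 1 := by
      refine (Av_congr μ fun z hz => indicator_of_mem ?_ _).trans (Av_const μ hρ (1 : ℝ) y)
      exact mem_ball.2 (by linarith [dist_triangle z y x, mem_ball.1 hz, mem_ball.1 hy])
    simp [hy, this]
  · simp only [hy, not_false_eq_true, indicator_of_notMem]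
    exact mul_nonneg (Av_nonneg μ fun z _ => indicator_nonneg (fun _ _ => zero_le_one) z) (h0 y)

/-- scales `ρ_i = 4^{-i}` -/
noncomputable def rz (i : ℤ) : ℝ := (4 : ℝ) ^ (-i)

lemma rz_pos (i : ℤ) : 0 < rz i := zpow_pos (by norm_num) _

lemma rz_add (i j : ℤ) : rz (i + j) = rz i * rz j := by
  rw [rz, rz, rz, neg_add, zpow_add₀ (by norm_num)]

lemma rz_succ (i : ℤ) : rz (i + 1) = rz i / 4 := by
  rw [rz_add, rz, rz]; norm_num [div_eq_mul_inv]

/-- `Pn i m = A_i A_{i+1} ⋯ A_{i+m-1}` -/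
noncomputable def Pn : ℕ → ℤ → (E → V) → E → V
  | 0, _, h => h
  | m + 1, i, h => Av μ (rz i) (Pn m (i + 1) h)

lemma Pn_add (m m' : ℕ) (i : ℤ) (h : E → V) :
    Pn μ (m + m') i h = Pn μ m i (Pn μ m' (i + m) h) := by
  induction m generalizing i with
  | zero => simp [Pn]
  | succ m ih =>
    rw [Nat.add_right_comm, Pn, Pn, ih]
    congr 3
    push_cast; ring

lemma int_Pn {h : E → V} (hh : Integrable h μ) (m : ℕ) (i : ℤ) : Integrable (Pn μ m i h) μ := by
  induction m generalizing i with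
  | zero => exact hh
  | succ m ih => exact int_Av μ (ih _)

lemma integral_Pn {h : E → V} (hh : Integrable h μ) (m : ℕ) (i : ℤ) :
    ∫ y, Pn μ m i h y ∂μ = ∫ y, h y ∂μ := by
  induction m generalizing i with
  | zero => rfl
  | succ m ih => exact (integral_Av μ (rz_pos i) (int_Pn μ hh _ _)).trans (ih _)

lemma Pn_nonneg {h : E → ℝ} (h0 : ∀ y, 0 ≤ h y) (m : ℕ) (i : ℤ) (y : E) : 0 ≤ Pn μ m i h y := by
  induction m generalizing i y with
  | zero => exact h0 y
  | succ m ih => exact Av_nonneg μ fun z _ => ih _ z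

lemma Pn_sub {h k : E → V} (hh : Integrable h μ) (hk : Integrable k μ) (m : ℕ) (i : ℤ) :
    Pn μ m i (fun z => h z - k z) = fun y => Pn μ m i h y - Pn μ m i k y := by
  induction m generalizing i with
  | zero => rfl
  | succ m ih =>
    ext y
    rw [Pn, ih]
    exact Av_sub μ (int_Pn μ hh _ _).integrableOn (int_Pn μ hk _ _).integrableOn

lemma inner_Pn {h : E → E} (hh : Integrable h μ) (n : E) (m : ℕ) (i : ℤ) :
    Pn μ m i (fun z => ⟪n, h z⟫_ℝ) = fun y => ⟪n, Pn μ m i h y⟫_ℝ := by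
  induction m generalizing i with
  | zero => rfl
  | succ m ih =>
    ext y
    rw [Pn, ih]
    exact (inner_Av μ (int_Pn μ hh _ _).integrableOn n).symm

lemma norm_Pn_le {h : E → V} (hh : Integrable h μ) (m : ℕ) (i : ℤ) (y : E) :
    ‖Pn μ m i h y‖ ≤ Pn μ m i (fun z => ‖h z‖) y := by
  induction m generalizing i y with
  | zero => exact le_rfl
  | succ m ih =>
    exact (norm_Av_le μ _ _ y).trans (Av_mono μ (int_Pn μ hh _ _).norm.integrableOn
      (int_Pn μ hh.norm _ _).integrableOn fun z _ => ih _ z)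

lemma ball_le_Pn {h : E → ℝ} (hh : Integrable h μ) (h0 : ∀ z, 0 ≤ h z) (x : E) (m : ℕ) (i : ℤ)
    (R : ℝ) : ∫ z in ball x (R - 4 / 3 * rz i), h z ∂μ ≤ ∫ z in ball x R, Pn μ m i h z ∂μ := by
  induction m generalizing i R with
  | zero =>
    exact setIntegral_mono_set hh.integrableOn (Eventually.of_forall h0)
      (ball_subset_ball (by linarith [rz_pos i])).eventuallyLE
  | succ m ih =>
    refine le_trans ?_ (ball_le μ (rz_pos i) (int_Pn μ hh _ _) (Pn_nonneg μ h0 _ _) x R)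
    refine le_trans (le_of_eq ?_) (ih _ _)
    rw [rz_succ]
    congr 3
    ring

lemma norm_Pn_le_const {h : E → V} {a : ℝ} (ha : ∀ y, ‖h y‖ ≤ a) (m : ℕ) (i : ℤ) (y : E) :
    ‖Pn μ m i h y‖ ≤ a := by
  induction m generalizing i y with
  | zero => exact ha y
  | succ m ih => exact norm_Av_le_const μ (rz_pos i) fun z _ => ih _ z

lemma exists_le_tsum {s : Set E} (h0 : μ s ≠ 0) (hs : μ s ≠ ⊤) {F : ℕ → E → ℝ}
    (hF : ∀ j, Integrable (F j) μ) {b : ℕ → ℝ} (hb : Summable b) (hFb : ∀ j x, |F j x| ≤ b j) :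
    ∃ x ∈ s, μ.real s * ∑' j, F j x ≤ ∑' j, ∫ y in s, F j y ∂μ := by
  have h1 : IntegrableOn (fun x => ∑' j, F j x) s μ :=
    Measure.integrableOn_of_bounded (M := ∑' j, b j) hs
      (AEMeasurable.tsum fun j => (hF j).1.aemeasurable).aestronglyMeasurable
      (Eventually.of_forall fun x => tsum_of_norm_bounded hb.hasSum fun j => hFb j x)
  obtain ⟨x, hx, h2⟩ := exists_le_setAverage h0 hs h1
  refine ⟨x, hx, ?_⟩
  have hp : 0 < μ.real s := ENNReal.toReal_pos h0 hs
  rw [integral_tsum_of_summable_integral_norm fun j => (hF j).integrableOn, ← le_inv_mul_iff₀ hp]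
  · rwa [setAverage_eq] at h2
  · refine (hb.mul_right (μ.real s)).of_nonneg_of_le (fun j => integral_nonneg fun _ => norm_nonneg _)
      fun j => (le_abs_self _).trans ?_
    exact norm_setIntegral_le_of_norm_le_const (f := fun x => ‖F j x‖) hs.lt_top fun x _ =>
      (norm_norm _).trans_le (hFb j x)

lemma tele {t : ℤ → ℝ} (hm : Monotone t) {T : ℝ} (h0 : ∀ j, 0 ≤ t j) (hT : ∀ j, t j ≤ T) (p : ℕ)
    (B : Finset ℤ) : ∑ b ∈ B, (t (b + p) - t b) ≤ p * T := by
  have h1 : ∀ (u : ℤ) (B : Finset ℤ) (c : ℤ), (∀ b ∈ B, b < c) →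
      ∑ b ∈ B, (t (b + 1 + u) - t (b + u)) ≤ t (c + u) := by
    intro u B
    induction B using Finset.induction_on_max with
    | empty => simpa only [Finset.notMem_empty, IsEmpty.forall_iff, implies_true, Finset.sum_sub_distrib, Finset.sum_empty, sub_self, forall_const] using fun c => h0 _
    | insert a s ha ih =>
      intro c hc
      rw [Finset.sum_insert fun h => lt_irrefl _ (ha a h)]
      have := hm (show a + 1 + u ≤ c + u by linarith [hc a (Finset.mem_insert_self _ _)])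
      linarith [ih a ha]
  induction p with
  | zero => simp
  | succ p ih =>
    obtain ⟨c, hc⟩ := B.bddAbove
    have h2 := (h1 p B (c + 1) fun b hb => Int.lt_add_one_of_le (hc hb)).trans (hT _)
    have h3 : ∀ b : ℤ, t (b + (p + 1 : ℕ)) - t b =
        (t (b + 1 + p) - t (b + p)) + (t (b + p) - t b) := fun b => by
      rw [show b + (p + 1 : ℕ) = b + 1 + p by push_cast; ring]; ring
    simp only [h3, Finset.sum_add_distrib]
    push_cast
    linarith

lemma overlap {ι : Type*} (s : Finset ι) {B : ι → Set E} (hB : ∀ Q, MeasurableSet (B Q)) {n0 : ℕ}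
    (hn : ∀ y, ∀ s' ⊆ s, (∀ Q ∈ s', y ∈ B Q) → s'.card ≤ n0) {h : E → ℝ} (hh : Integrable h μ)
    (h0 : ∀ y, 0 ≤ h y) : ∑ Q ∈ s, ∫ y in B Q, h y ∂μ ≤ n0 * ∫ y, h y ∂μ := by
  classical
  simp only [← integral_indicator (hB _)]
  rw [← integral_finsetSum _ fun Q _ => hh.indicator (hB Q), ← integral_const_mul]
  refine integral_mono (integrable_finsetSum _ fun Q _ => hh.indicator (hB Q)) (hh.const_mul _)
    fun y => ?_
  simp only [indicator_apply]
  rw [← Finset.sum_filter, Finset.sum_const, nsmul_eq_mul]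
  exact mul_le_mul_of_nonneg_right (Nat.cast_le.2 (hn y _ (Finset.filter_subset _ _)
    fun Q hQ => (Finset.mem_filter.1 hQ).2)) (h0 y)

lemma scale (H : E → V) (c : E) {r : ℝ} (hr : 0 < r) (R : ℝ) :
    r ^ finrank ℝ E • ∫ y in ball (0 : E) R, H (c + r • y) ∂μ = ∫ z in ball c (r * R), H z ∂μ := by
  rw [Measure.setIntegral_comp_smul_of_pos μ (fun y => H (c + y)) _ hr, smul_smul,
    mul_inv_cancel₀ (by positivity), one_smul, _root_.smul_ball hr.ne', smul_zero,
    Real.norm_of_nonneg hr.le, ← (measurePreserving_add_left μ c).setIntegral_preimage_emb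
      (measurableEmbedding_addLeft c) H]
  congr 2
  ext y
  simp

lemma rb_scale (c : E) {r : ℝ} (hr : 0 < r) (R : ℝ) :
    μ.real (ball c (r * R)) = r ^ finrank ℝ E * μ.real (ball (0 : E) R) := by
  simpa only [integral_const, MeasurableSet.univ, measureReal_restrict_apply, univ_inter, smul_eq_mul, mul_one] using (scale μ (fun _ => (1 : ℝ)) c hr R).symm

/-- the uniform law on the ball of radius `rho i` -/
noncomputable def un (i : ℕ) : Measure E := cond μ (ball 0 (rho i))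

lemma rho_pos (i : ℕ) : 0 < rho i := pow_pos (by norm_num) _

instance un_prob (i : ℕ) : IsProbabilityMeasure (un μ i) :=
  cond_isProbabilityMeasure_of_finite (measure_ball_pos μ _ (rho_pos i)).ne' measure_ball_lt_top.ne

lemma un_supp (i : ℕ) : ∀ᵐ u ∂un μ i, u ∈ closedBall (0 : E) (rho i) :=
  (ae_cond_mem measurableSet_ball).mono fun _ h => ball_subset_closedBall h

/-- iterated kernels -/
noncomputable def kap : ℕ → ℕ → Measure E
  | 0, _ => Measure.dirac 0
  | m + 1, i => (un μ i).conv (kap m (i + 1))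

instance kap_prob (m i : ℕ) : IsProbabilityMeasure (kap μ m i) := by
  induction m generalizing i with
  | zero => rw [kap]; infer_instance
  | succ m ih => rw [kap]; infer_instance

lemma kap_supp (m i : ℕ) : ∀ᵐ u ∂kap μ m i, u ∈ closedBall (0 : E) (2 * rho i) := by
  induction m generalizing i with
  | zero => simpa only [mem_closedBall, dist_zero_right, kap, ae_dirac_eq, pure_zero, eventually_zero, norm_zero, Nat.ofNat_pos, mul_nonneg_iff_of_pos_left] using (rho_pos i).le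
  | succ m ih =>
    refine (ae_map_iff (f := fun p : E × E => p.1 + p.2) (by fun_prop)
      measurableSet_closedBall).2 ?_
    filter_upwards [Measure.quasiMeasurePreserving_fst.ae (un_supp μ i),
      Measure.quasiMeasurePreserving_snd.ae (ih (i + 1))] with p h1 h2
    rw [mem_closedBall_zero_iff] at h1 h2
    rw [dist_zero_right]
    have : rho (i + 1) = rho i / 4 := by rw [rho, rho, pow_succ]; ring
    linarith only [norm_add_le p.1 p.2, rho_pos i, h1, h2, this]

lemma fam (n N : ℕ) (hn : n ≤ N) :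
    Fam (fun i => if i < n then un μ i else Measure.dirac 0) (fun i => kap μ (n - i) i) N := by
  refine ⟨fun i => ?_, fun i => inferInstance, fun i => ?_, fun i => kap_supp μ _ i, fun i => ?_,
    fun i hi => ?_⟩
  · split_ifs <;> infer_instance
  · split_ifs
    · exact un_supp μ i
    · simpa only [Measure.dirac_apply, indicator_apply_eq_zero, mem_compl_iff, mem_closedBall, dist_self, not_le, Pi.one_apply, one_ne_zero, imp_false, not_lt] using (rho_pos i).le
  · split_ifs with h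
    · rw [show n - i = n - (i + 1) + 1 by omega, kap]
    · rw [show n - i = 0 by omega, show n - (i + 1) = 0 by omega, kap, kap, Measure.dirac_zero_conv]
  · rw [show n - i = 0 by omega, kap]

lemma rz_eq (k : ℤ) (i : ℕ) : rz (i - k) = (4 : ℝ) ^ k * rho i := by
  rw [rz, rho, neg_sub, zpow_sub₀ (by norm_num), zpow_natCast, one_div, inv_pow, div_eq_mul_inv]

lemma kap_int {gt : E → E} {S : ℝ} (hm : Measurable gt) (hS : ∀ y, ‖gt y‖ ≤ S) (c : E) (k : ℤ)
    (m i : ℕ) (y : E) : ∫ u, gt (c + (4 : ℝ) ^ k • (y + u)) ∂kap μ m i =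
      Pn μ m (i - k) gt (c + (4 : ℝ) ^ k • y) := by
  induction m generalizing i y with
  | zero => simp [kap, Pn]
  | succ m ih =>
    have hr : 0 < (4 : ℝ) ^ k := by positivity
    rw [kap, integral_conv (Integrable.of_bound (Measurable.aestronglyMeasurable (by fun_prop)) S
      (Eventually.of_forall fun _ => hS _))]
    simp only [← add_assoc y, ih]
    rw [Pn, Av_eq, rz_eq, ← scale μ _ _ hr, rb_scale μ _ hr, smul_smul, un,
      ProbabilityTheory.cond, integral_smul_measure,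
      show ((i + 1 : ℕ) : ℤ) - k = i - k + 1 by push_cast; ring]
    simp only [smul_add, add_assoc, ENNReal.toReal_inv]
    congr 1
    rw [← measureReal_def]
    field_simp

section core
variable (N : ℤ) (gt : E → E)

/-- the global hierarchy -/
noncomputable def gl (j : ℤ) : E → E := Pn μ (N - j).toNat j gt

/-- the energy gained between levels `a ≤ j` -/
noncomputable def DD (a j : ℤ) (x : E) : ℝ :=
  Pn μ (min j N - a).toNat a (fun y => ‖gl μ N gt j y‖) x - ‖gl μ N gt a x‖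

lemma gl_eq {a j : ℤ} (h : a ≤ j) : gl μ N gt a = Pn μ (min j N - a).toNat a (gl μ N gt j) := by
  rcases le_total j N with h1 | h1
  · rw [gl, gl, min_eq_left h1, show (N - a).toNat = (j - a).toNat + (N - j).toNat by omega, Pn_add,
      show a + ((j - a).toNat : ℤ) = j by omega]
  · rw [gl, gl, min_eq_right h1, show (N - j).toNat = 0 by omega, Pn]

variable {gt} (hi : Integrable gt μ)
include hi

lemma int_gl (j : ℤ) : Integrable (gl μ N gt j) μ := int_Pn μ hi _ _

lemma DD_nonneg {a j : ℤ} (h : a ≤ j) (x : E) : 0 ≤ DD μ N gt a j x := by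
  rw [DD, sub_nonneg, gl_eq μ N gt h]
  exact norm_Pn_le μ (int_gl μ N hi j) _ _ x

lemma int_DD (a j : ℤ) : Integrable (DD μ N gt a j) μ :=
  (int_Pn μ (int_gl μ N hi j).norm _ _).sub (int_gl μ N hi a).norm

lemma integral_DD (a j : ℤ) : ∫ x, DD μ N gt a j x ∂μ =
    ∫ y, ‖gl μ N gt j y‖ ∂μ - ∫ y, ‖gl μ N gt a y‖ ∂μ := by
  simp only [DD]
  rw [integral_sub (int_Pn μ (int_gl μ N hi j).norm _ _) (int_gl μ N hi a).norm,
    integral_Pn μ (int_gl μ N hi j).norm]

lemma DD_tele (p : ℕ) (B : Finset ℤ) :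
    ∑ b ∈ B, ∫ x, DD μ N gt b (b + p) x ∂μ ≤ p * ∫ y, ‖gt y‖ ∂μ := by
  simp only [integral_DD μ N hi]
  refine tele (t := fun j => ∫ y, ‖gl μ N gt j y‖ ∂μ) (fun a j h => ?_)
    (fun j => integral_nonneg fun _ => norm_nonneg _) (fun j => ?_) p B
  · exact sub_nonneg.1 ((integral_nonneg (DD_nonneg μ N hi h)).trans (integral_DD μ N hi a j).le)
  · rw [← integral_Pn μ hi.norm (N - j).toNat j]
    exact integral_mono (int_gl μ N hi j).norm (int_Pn μ hi.norm _ _) (norm_Pn_le μ hi _ _)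

lemma DD_ge {a j : ℤ} (h : a < j) (hN : a < N) {x n : E} (hn : ‖n‖ = 1)
    (hx : ⟪n, gl μ N gt a x⟫_ℝ = ‖gl μ N gt a x‖) {s : Set E} (hs : s ⊆ ball x (2 / 3 * rz a)) :
    ∫ y in s, (‖gl μ N gt j y‖ - ⟪n, gl μ N gt j y⟫_ℝ) ∂μ ≤
      μ.real (ball (0 : E) (rz a)) * DD μ N gt a j x := by
  have h1 := int_gl μ N hi j
  have h2 := h1.const_inner (𝕜 := ℝ) n
  have h0 : ∀ y, 0 ≤ ‖gl μ N gt j y‖ - ⟪n, gl μ N gt j y⟫_ℝ := fun y => by
    simpa only [sub_nonneg, hn, one_mul] using real_inner_le_norm n (gl μ N gt j y)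
  have h3 : DD μ N gt a j x = Pn μ (min j N - a).toNat a
      (fun y => ‖gl μ N gt j y‖ - ⟪n, gl μ N gt j y⟫_ℝ) x := by
    rw [Pn_sub μ h1.norm h2, inner_Pn μ h1, ← gl_eq μ N gt h.le, DD, ← hx]
  rw [h3, show (min j N - a).toNat = (min j N - a - 1).toNat + 1 by omega, Pn, Av_eq, smul_eq_mul,
    mul_inv_cancel_left₀ (rb_pos μ _ (rz_pos a)).ne']
  refine le_trans (setIntegral_mono_set (h1.norm.sub h2).integrableOn (Eventually.of_forall h0)
    (hs.trans (ball_subset_ball ?_)).eventuallyLE) (ball_le_Pn μ (h1.norm.sub h2) h0 x _ _ _)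
  rw [rz_succ]
  linarith

lemma cell [Nontrivial E] {S : ℝ} (hS : ∀ y, ‖gt y‖ ≤ S) {k : ℤ} (hk : -k ≤ N) (c : E) :
    ∃ n : E, ‖n‖ = 1 ∧ ∀ i : ℕ, (19 / 20 : ℝ) ^ i * ∫ y in ball c ((4 : ℝ) ^ k * 66),
      (‖gl μ N gt (i - k) y‖ - ⟪n, gl μ N gt (i - k) y⟫_ℝ) ∂μ ≤ 256 ^ finrank ℝ E * ∑' i : ℕ,
        ∫ y in ball c ((4 : ℝ) ^ k), (19 / 20 : ℝ) ^ i * DD μ N gt (-k - 4) (i - k) y ∂μ := by
  have hr : 0 < (4 : ℝ) ^ k := by positivity
  have h0 : ∀ (i : ℕ) x, 0 ≤ (19 / 20 : ℝ) ^ i * DD μ N gt (-k - 4) (i - k) x := fun i x =>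
    mul_nonneg (by positivity) (DD_nonneg μ N hi (by omega) x)
  have hb : Summable fun i : ℕ => (19 / 20 : ℝ) ^ i * S :=
    (summable_geometric_of_lt_one (by norm_num) (by norm_num)).mul_right S
  have h1 : ∀ (i : ℕ) x, (19 / 20 : ℝ) ^ i * DD μ N gt (-k - 4) (i - k) x ≤ (19 / 20) ^ i * S := by
    intro i x
    gcongr
    exact (sub_le_self _ (norm_nonneg _)).trans ((le_abs_self _).trans (norm_Pn_le_const μ (V := ℝ)
      (fun y => by rw [norm_norm]; exact norm_Pn_le_const μ hS _ _ y) _ _ x))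
  obtain ⟨x, hx, h2⟩ := exists_le_tsum μ (measure_ball_pos μ c hr).ne' measure_ball_lt_top.ne
    (fun i => (int_DD μ N hi (-k - 4) (i - k)).const_mul _) hb
    fun i x => (abs_of_nonneg (h0 i x)).trans_le (h1 i x)
  obtain ⟨n, hn, hn'⟩ : ∃ n : E, ‖n‖ = 1 ∧
      ⟪n, gl μ N gt (-k - 4) x⟫_ℝ = ‖gl μ N gt (-k - 4) x‖ := by
    by_cases h : gl μ N gt (-k - 4) x = 0
    · obtain ⟨n, hn⟩ := exists_norm_eq E zero_le_one
      exact ⟨n, hn, by simp [h]⟩
    · refine ⟨‖gl μ N gt (-k - 4) x‖⁻¹ • gl μ N gt (-k - 4) x, norm_smul_inv_norm h, ?_⟩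
      rw [real_inner_smul_left, real_inner_self_eq_norm_sq]
      field_simp
  have ha : rz (-k - 4) = 256 * (4 : ℝ) ^ k := by
    rw [rz, show -(-k - 4) = 4 + k by ring, zpow_add₀ (by norm_num)]; norm_num
  refine ⟨n, hn, fun i => ?_⟩
  have h3 := DD_ge μ N hi (a := -k - 4) (j := i - k) (by omega) (by omega) hn hn'
    (s := ball c ((4 : ℝ) ^ k * 66)) fun y hy => mem_ball.2 (by
      linarith only [dist_triangle_right y x c, mem_ball.1 hy, mem_ball.1 hx, hr, ha])
  have h4 := (hb.of_nonneg_of_le (h0 · x) (h1 · x)).le_tsum i fun j _ => h0 j x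
  rw [ha, rb_scale μ _ (by norm_num), ← rb_eq μ c] at h3
  calc _ ≤ (19 / 20 : ℝ) ^ i * _ := mul_le_mul_of_nonneg_left h3 (by positivity)
    _ = 256 ^ finrank ℝ E * (μ.real (ball c ((4 : ℝ) ^ k)) *
      ((19 / 20 : ℝ) ^ i * DD μ N gt (-k - 4) (i - k) x)) := by ring
    _ ≤ _ := by
      refine mul_le_mul_of_nonneg_left (le_trans ?_ h2) (by positivity)
      gcongr

end core

end HH

open HH in
theorem blockH [Nontrivial E] : ∃ C : ℝ, 0 ≤ C ∧ ∀ (gt : E → E) (S : ℝ) (𝒬 : Finset (ℤ × E))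
    (n0 : ℕ), Measurable gt → (∀ y, ‖gt y‖ ≤ S) → Integrable gt μ →
    (∀ (k : ℤ) (y : E) (s : Finset (ℤ × E)), s ⊆ 𝒬 →
      (∀ Q ∈ s, Q.1 = k ∧ y ∈ ball Q.2 ((4 : ℝ) ^ k)) → s.card ≤ n0) →
    ∃ (σ κ : ℤ × E → ℕ → Measure E) (N : ℕ) (n : ℤ × E → E) (W : ℤ × E → ℝ),
      (∀ Q ∈ 𝒬, Fam (σ Q) (κ Q) N ∧ ‖n Q‖ = 1 ∧ 0 ≤ W Q ∧
        DelBd μ (κ Q) (fun y => gt (Q.2 + (4 : ℝ) ^ Q.1 • y)) (n Q) (W Q)) ∧
      ∑ Q ∈ 𝒬, ((4 : ℝ) ^ Q.1) ^ finrank ℝ E * W Q ≤ C * n0 * ∫ y, ‖gt y‖ ∂μ := by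
  have hω : Summable fun i : ℕ => (19 / 20 : ℝ) ^ i * ((i + 4 : ℕ) : ℝ) := by
    have h1 : ‖(19 / 20 : ℝ)‖ < 1 := by norm_num
    refine ((summable_pow_mul_geometric_of_norm_lt_one 1 h1).add
      ((summable_geometric_of_norm_lt_one h1).mul_right 4)).congr fun i => ?_
    push_cast; ring
  refine ⟨256 ^ finrank ℝ E * ∑' i : ℕ, (19 / 20 : ℝ) ^ i * ((i + 4 : ℕ) : ℝ), by positivity,
    fun gt S 𝒬 n0 hm hS hi hov => ?_⟩
  obtain ⟨M, hM⟩ : ∃ M : ℕ, ∀ Q ∈ 𝒬, Q.1.natAbs ≤ M :=
    ⟨𝒬.sup fun Q => Q.1.natAbs, fun Q hQ => Finset.le_sup (f := fun Q : ℤ × E => Q.1.natAbs) hQ⟩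
  choose! n hn hn' using fun (Q : ℤ × E) (hQ : Q ∈ 𝒬) =>
    cell μ M hi hS (k := Q.1) (by have := hM Q hQ; omega) Q.2
  set U : ℤ × E → ℕ → ℝ := fun Q i => ∫ y in ball Q.2 ((4 : ℝ) ^ Q.1),
    (19 / 20 : ℝ) ^ i * DD μ M gt (-Q.1 - 4) (i - Q.1) y ∂μ with hU
  have hU0 : ∀ Q i, 0 ≤ U Q i := fun Q i => integral_nonneg fun y =>
    mul_nonneg (by positivity) (DD_nonneg μ M hi (by omega) y)
  have hs : ∀ i, ∑ Q ∈ 𝒬, U Q i ≤
      (19 / 20 : ℝ) ^ i * ((i + 4 : ℕ) : ℝ) * (n0 * ∫ y, ‖gt y‖ ∂μ) := by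
    intro i
    simp only [hU, integral_const_mul, ← Finset.mul_sum, mul_assoc]
    gcongr
    rw [mul_left_comm, ← Finset.sum_fiberwise_of_maps_to (g := fun Q : ℤ × E => -Q.1 - 4)
      fun Q hQ => Finset.mem_image_of_mem _ hQ]
    refine le_trans ?_ (mul_le_mul_of_nonneg_left (DD_tele μ M hi (i + 4)
      (𝒬.image fun Q : ℤ × E => -Q.1 - 4)) (by positivity))
    rw [Finset.mul_sum]
    refine Finset.sum_le_sum fun b _ => le_trans (le_of_eq (Finset.sum_congr rfl fun Q hQ => ?_))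
      (overlap μ _ (B := fun Q : ℤ × E => ball Q.2 ((4 : ℝ) ^ Q.1)) (fun _ => measurableSet_ball)
        (fun y s' h1 h2 => hov (-b - 4) y s' (h1.trans (Finset.filter_subset _ _)) fun Q hQ => ?_)
        (int_DD μ M hi _ _) (DD_nonneg μ M hi (by omega)))
    · rw [← (Finset.mem_filter.1 hQ).2, show -Q.1 - 4 + ((i + 4 : ℕ) : ℤ) = i - Q.1 by omega]
    · have h3 : Q.1 = -b - 4 := by have := (Finset.mem_filter.1 (h1 hQ)).2; omega
      exact ⟨h3, h3 ▸ h2 Q hQ⟩
  have hsum : ∀ Q ∈ 𝒬, Summable (U Q) := fun Q hQ => (hω.mul_right _).of_nonneg_of_le (hU0 Q)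
    fun i => (Finset.single_le_sum (fun Q _ => hU0 Q i) hQ).trans (hs i)
  refine ⟨fun Q i => if i < (M + Q.1).toNat then un μ i else Measure.dirac 0,
    fun Q i => kap μ ((M + Q.1).toNat - i) i, 2 * M, n,
    fun Q => 256 ^ finrank ℝ E * (∑' i, U Q i) / ((4 : ℝ) ^ Q.1) ^ finrank ℝ E, fun Q hQ => ?_, ?_⟩
  · have hr : 0 < (4 : ℝ) ^ Q.1 := by positivity
    have := hM Q hQ
    refine ⟨fam μ _ _ (by omega), hn Q hQ, div_nonneg (mul_nonneg (by positivity)
      (tsum_nonneg (hU0 Q))) (by positivity), fun i => ?_⟩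
    have h1 := hn' Q hQ i
    rw [← scale μ _ _ hr, smul_eq_mul] at h1
    simp only [del, gs, kap_int μ hm hS]
    rw [show (M + Q.1).toNat - i = (M - (i - Q.1) : ℤ).toNat by omega, div_mul_eq_mul_div,
      le_div_iff₀' (by positivity), show (20 / 19 : ℝ) = (19 / 20)⁻¹ by norm_num, inv_pow,
      ← div_eq_mul_inv, le_div_iff₀' (by positivity)]
    exact h1
  · calc _ = 256 ^ finrank ℝ E * ∑' i, ∑ Q ∈ 𝒬, U Q i := by
          rw [Summable.tsum_finsetSum hsum, Finset.mul_sum]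
          exact Finset.sum_congr rfl fun Q _ => mul_div_cancel₀ _ (by positivity)
      _ ≤ _ := by
          rw [mul_assoc, mul_assoc, ← tsum_mul_right]
          exact mul_le_mul_of_nonneg_left ((summable_sum hsum).tsum_le_tsum hs (hω.mul_right _))
            (by positivity)

end Pool.Agent.MP_a25fb7_an.Cn

end

section
set_option autoImplicit false
set_option linter.unusedSectionVars false
open MeasureTheory Metric Set Module
open scoped ENNReal

namespace Pool.Agent.MP_a25fb7_an.Cn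

variable {E : Type*} [NormedAddCommGroup E] [InnerProductSpace ℝ E] [FiniteDimensional ℝ E]
  [MeasurableSpace E] [BorelSpace E] (μ : Measure E) [μ.IsAddHaarMeasure]

/-- the smoothed function -/
noncomputable def chF (κ : ℕ → Measure E) (f : E → ℝ) (i : ℕ) (y : E) : ℝ :=
  ∫ u, f (y + u) ∂(κ i)

lemma ch_restrict {ν : Measure E} {R : ℝ} (h : ν (closedBall 0 R)ᶜ = 0) :
    ν.restrict (closedBall 0 R) = ν :=
  Measure.restrict_eq_self_of_ae_mem h

lemma ch_int {F : Type*} [NormedAddCommGroup F] {ν : Measure E} [IsFiniteMeasure ν] {R : ℝ}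
    (h : ν (closedBall 0 R)ᶜ = 0) {φ : E → F} (hφ : Continuous φ) : Integrable φ ν := by
  rw [← ch_restrict h]
  exact hφ.continuousOn.integrableOn_compact (isCompact_closedBall _ _)

lemma ch_cont {F : Type*} [NormedAddCommGroup F] [NormedSpace ℝ F] {ν : Measure E}
    [IsFiniteMeasure ν] {R : ℝ} (h : ν (closedBall 0 R)ᶜ = 0) {φ : E → F} (hφ : Continuous φ) :
    Continuous fun y => ∫ u, φ (y + u) ∂ν := by
  rw [← ch_restrict h]
  exact continuous_parametric_integral_of_continuous (f := fun y u => φ (y + u))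
    (hφ.comp (continuous_fst.add continuous_snd)) (isCompact_closedBall _ _)

lemma ch_cone {n e v : E} (hn : ‖n‖ = 1) (hen : ‖e - n‖ ≤ 1 / 10) (hv : ‖v‖ / 5 ≤ inner ℝ e v)
    (G : E) : -inner ℝ v G ≤ 5 * ‖v‖ * (‖G‖ - inner ℝ n G) := by
  have h1 : ‖v‖ / 10 ≤ inner ℝ n v := by
    have h := real_inner_le_norm (e - n) v
    rw [inner_sub_left] at h
    nlinarith [norm_nonneg v]
  have hδ : 0 ≤ ‖G‖ - inner ℝ n G := by
    have := real_inner_le_norm n G
    rw [hn] at this; linarith only [this]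
  have h2 : ‖G - ‖G‖ • n‖ ≤ ‖G‖ / 10 + 5 * (‖G‖ - inner ℝ n G) := by
    refine abs_le_of_sq_le_sq' ?_ (by positivity) |>.2
    rw [norm_sub_sq_real, norm_smul, hn, inner_smul_right, real_inner_comm, Real.norm_eq_abs,
      abs_norm]
    nlinarith [sq_nonneg (‖G‖ / 10 - 5 * (‖G‖ - inner ℝ n G))]
  have h3 := abs_real_inner_le_norm v (G - ‖G‖ • n)
  rw [inner_sub_right, inner_smul_right, real_inner_comm n v] at h3
  have h4 := (abs_le.1 h3).1
  have h5 := mul_le_mul_of_nonneg_left h2 (norm_nonneg v)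
  have h6 := mul_le_mul_of_nonneg_left h1 (norm_nonneg G)
  linarith only [h4, h5, h6]

lemma ch_ofReal {A : Type*} [MeasurableSpace A] {ν : Measure A} {h : A → ℝ} (hi : Integrable h ν) :
    ENNReal.ofReal (∫ a, h a ∂ν) ≤ ∫⁻ a, ENNReal.ofReal (h a) ∂ν := by
  have h1 : ∫ a, h a ∂ν ≤ ∫ a, max (h a) 0 ∂ν :=
    integral_mono hi hi.pos_part fun a => le_max_left _ _
  refine (ENNReal.ofReal_le_ofReal h1).trans ?_
  rw [ofReal_integral_eq_lintegral_ofReal hi.pos_part (ae_of_all _ fun a => le_max_right _ _)]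
  exact lintegral_mono fun a => by simp only [ENNReal.ofReal_max, ENNReal.ofReal_zero, zero_le, sup_of_le_left, Std.le_refl]

lemma ch_swap {A : Type*} [MeasurableSpace A] (ν : Measure A) [IsProbabilityMeasure ν] (T : Set E)
    {X : E → ℝ} {H : E → A → ℝ} (hH : Measurable (Function.uncurry H))
    (hi : ∀ z, Integrable (H z) ν) (hX : ∀ z, X z ≤ ∫ a, H z a ∂ν) {B : ℝ≥0∞}
    (hB : ∀ᵐ a ∂ν, ∫⁻ z in T, ENNReal.ofReal (H z a) ∂μ ≤ B) :
    ∫⁻ z in T, ENNReal.ofReal (X z) ∂μ ≤ B := by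
  calc _ ≤ ∫⁻ z in T, ∫⁻ a, ENNReal.ofReal (H z a) ∂ν ∂μ :=
        lintegral_mono fun z => (ENNReal.ofReal_le_ofReal (hX z)).trans (ch_ofReal (hi z))
    _ = ∫⁻ a, ∫⁻ z in T, ENNReal.ofReal (H z a) ∂μ ∂ν :=
        lintegral_lintegral_swap (hH.ennreal_ofReal).aemeasurable
    _ ≤ ∫⁻ _, B ∂ν := lintegral_mono_ae hB
    _ = B := by simp only [lintegral_const, measure_univ, mul_one]

lemma ch_trans {R : ℝ} {b : E} (hb : R + ‖b‖ ≤ 66) (h : E → ℝ≥0∞) :
    ∫⁻ z in ball (0 : E) R, h (z + b) ∂μ ≤ ∫⁻ z in ball (0 : E) 66, h z ∂μ := by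
  rw [← (measurePreserving_add_right μ b).setLIntegral_comp_preimage_emb
    (measurableEmbedding_addRight b) h (ball 0 66)]
  refine lintegral_mono_set fun z hz => ?_
  rw [mem_ball_zero_iff] at hz
  simp only [mem_preimage, mem_ball_zero_iff]
  linarith [norm_add_le z b]

section
variable {μ} {σ κ : ℕ → Measure E} {N : ℕ} {f : E → ℝ} {g : E → E} {S K W : ℝ} {n e : E}

lemma ch_gc (h : Sm f g S K) : Continuous g := by
  refine continuous_iff_continuousAt.2 fun x => ?_
  refine tendsto_iff_norm_sub_tendsto_zero.2 (squeeze_zero (fun _ => norm_nonneg _)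
    (fun y => h.lip y x) ?_)
  have : Continuous fun y => K * ‖y - x‖ := by fun_prop
  simpa using this.tendsto x

lemma ch_ftc0 (h : Sm f g S K) (p v : E) :
    f (p + v) - f p = ∫ t in Ioc (0 : ℝ) 1, inner ℝ v (g (p + t • v)) := by
  have hg := ch_gc h
  rw [← intervalIntegral.integral_of_le zero_le_one,
    intervalIntegral.integral_eq_sub_of_hasDerivAt (f := fun t : ℝ => f (p + t • v))]
  · simp
  · intro t _
    have h1 : HasDerivAt (fun t : ℝ => p + t • v) v t := by
      simpa using ((hasDerivAt_id t).smul_const v).const_add p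
    have h2 := (h.gr (p + t • v)).hasFDerivAt.comp_hasDerivAt t h1
    rw [real_inner_comm]
    simpa [Function.comp_def] using h2
  · exact Continuous.intervalIntegrable (by fun_prop) _ _

lemma ch_ftc (hF : Fam σ κ N) (h : Sm f g S K) (i : ℕ) (p v : E) :
    chF κ f i (p + v) - chF κ f i p = ∫ t in Ioc (0 : ℝ) 1, inner ℝ v (gs κ g i (p + t • v)) := by
  have := hF.pk i
  have hg := ch_gc h
  have hf := h.cd.continuous
  unfold chF gs
  rw [← integral_sub (ch_int (hF.sk i) (by fun_prop)) (ch_int (hF.sk i) (by fun_prop))]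
  have h1 : ∀ u, f (p + v + u) - f (p + u) =
      ∫ t in Ioc (0 : ℝ) 1, inner ℝ v (g (p + t • v + u)) := fun u => by
    rw [add_right_comm, ch_ftc0 h]
    simp only [add_right_comm p u]
  simp only [h1]
  rw [integral_integral_swap]
  · exact integral_congr_ae (ae_of_all _ fun t => integral_inner (ch_int (hF.sk i) (by fun_prop)) v)
  · refine Integrable.of_bound (Continuous.aestronglyMeasurable ?_) (‖v‖ * S)
      (ae_of_all _ fun q => ?_)
    · exact (by fun_prop : Continuous fun q : E × ℝ => inner ℝ v (g (p + q.2 • v + q.1)))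
    · exact (norm_inner_le_norm _ _).trans (mul_le_mul_of_nonneg_left (h.bd _) (norm_nonneg _))

lemma ch_Fc (hF : Fam σ κ N) (h : Sm f g S K) (i : ℕ) : Continuous (chF κ f i) :=
  have := hF.pk i
  ch_cont (hF.sk i) h.cd.continuous

lemma ch_seg (hF : Fam σ κ N) (h : Sm f g S K) (hn : ‖n‖ = 1) (hen : ‖e - n‖ ≤ 1 / 10)
    (hD : DelBd μ κ g n W) (i : ℕ) {R : ℝ} {b v : E} (hv : ‖v‖ / 5 ≤ inner ℝ e v)
    (hb : R + ‖b‖ + ‖v‖ ≤ 66) :
    ∫⁻ z in ball (0 : E) R, ENNReal.ofReal (chF κ f i (z + b) - chF κ f i (z + b + v)) ∂μ ≤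
      ENNReal.ofReal (5 * ‖v‖ * (W * (20 / 19) ^ i)) := by
  have := hF.pk i
  have hgs : Continuous (gs κ g i) := ch_cont (hF.sk i) (ch_gc h)
  have hd : Continuous (del κ g n i) := by unfold del; fun_prop
  have hd0 : ∀ y, 0 ≤ del κ g n i y := fun y => by
    have := real_inner_le_norm n (gs κ g i y)
    rw [hn] at this; unfold del; linarith only [this]
  have : IsProbabilityMeasure (volume.restrict (Ioc (0 : ℝ) 1)) := ⟨by simp only [MeasurableSet.univ, Measure.restrict_apply, univ_inter, Real.volume_Ioc, sub_zero, ENNReal.ofReal_one]⟩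
  refine ch_swap μ (volume.restrict (Ioc (0 : ℝ) 1)) _
    (H := fun z t => 5 * ‖v‖ * del κ g n i (z + b + t • v)) ?_ ?_ ?_ ?_
  · exact (by fun_prop :
      Continuous fun q : E × ℝ => 5 * ‖v‖ * del κ g n i (q.1 + b + q.2 • v)).measurable
  · exact fun z => Continuous.integrableOn_Ioc (by fun_prop)
  · intro z
    rw [← neg_sub, ch_ftc hF h, ← integral_neg]
    exact integral_mono (Continuous.integrableOn_Ioc (by fun_prop))
      (Continuous.integrableOn_Ioc (by fun_prop)) fun t => ch_cone hn hen hv _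
  · filter_upwards [ae_restrict_mem measurableSet_Ioc] with t ht
    simp only [add_assoc]
    refine (ch_trans μ (b := b + t • v) ?_
      (fun y => ENNReal.ofReal (5 * ‖v‖ * del κ g n i y))).trans ?_
    · have h1 := norm_add_le b (t • v)
      rw [norm_smul, Real.norm_eq_abs, abs_of_pos ht.1] at h1
      nlinarith only [norm_nonneg v, ht.2, hb, h1]
    · have hI : IntegrableOn (del κ g n i) (ball 0 66) μ :=
        (hd.continuousOn.integrableOn_compact (isCompact_closedBall 0 66)).mono_set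
          ball_subset_closedBall
      rw [← ofReal_integral_eq_lintegral_ofReal (hI.const_mul _)
        (ae_of_all _ fun y => mul_nonneg (by positivity) (hd0 y)), integral_const_mul]
      exact ENNReal.ofReal_le_ofReal (mul_le_mul_of_nonneg_left (hD i) (by positivity))

lemma ch_segs (hF : Fam σ κ N) (h : Sm f g S K) (hn : ‖n‖ = 1) (hen : ‖e - n‖ ≤ 1 / 10)
    (hD : DelBd μ κ g n W) (i : ℕ) {s : ℝ} (hs : s = 1 ∨ s = -1) {b c v : E}
    (hv : ‖v‖ / 5 ≤ inner ℝ e v) (hb : ‖b‖ ≤ 5) (hv4 : ‖v‖ ≤ 4) (hc : c = b + s • v) :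
    ∫⁻ z in ball (0 : E) 35, ENNReal.ofReal (s * (chF κ f i (z + b) - chF κ f i (z + c))) ∂μ ≤
      ENNReal.ofReal (5 * ‖v‖ * (W * (20 / 19) ^ i)) := by
  rcases hs with rfl | rfl
  · simpa only [hc, one_mul, one_smul, add_assoc] using
      ch_seg hF h hn hen hD i (R := 35) (b := b) hv (by linarith only [hb, hv4])
  · have h1 : ‖b - v‖ ≤ 9 := by linarith only [norm_sub_le b v, hb, hv4]
    simpa only [hc, neg_smul, one_smul, sub_eq_add_neg, neg_mul, one_mul, neg_add_rev, neg_neg, Nat.ofNat_pos, mul_nonneg_iff_of_pos_left, norm_nonneg, ENNReal.ofReal_mul, Nat.ofNat_nonneg, ENNReal.ofReal_ofNat, ofReal_norm, ge_iff_le, add_assoc, neg_add_cancel, add_zero] using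
      ch_seg hF h hn hen hD i (R := 35) (b := b - v) hv (by linarith only [hv4, h1])

lemma ch_rho (i : ℕ) : 0 < rho i ∧ rho i ≤ 1 ∧ rho (i + 1) = rho i / 4 ∧
    rho i * (20 / 19) ^ i ≤ (1 / 2) ^ i := by
  unfold rho
  refine ⟨by positivity, pow_le_one₀ (by norm_num) (by norm_num), by ring, ?_⟩
  rw [← mul_pow]
  exact pow_le_pow_left₀ (by norm_num) (by norm_num) _

lemma ch_chain (hF : Fam σ κ N) (h : Sm f g S K) (hn : ‖n‖ = 1) (he : ‖e‖ = 1)
    (hen : ‖e - n‖ ≤ 1 / 10) (hW : 0 ≤ W) (hD : DelBd μ κ g n W) {s : ℝ} (hs : s = 1 ∨ s = -1)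
    (j : ℕ) : ∀ i, N ≤ i + j → ∫⁻ z in ball (0 : E) 35,
      ENNReal.ofReal (s * (chF κ f i (z + -(4 * s * rho i) • e) - f z)) ∂μ ≤
      ENNReal.ofReal (44 * W * (1 / 2) ^ i) := by
  have hee : inner ℝ e e = (1 : ℝ) := by rw [real_inner_self_eq_norm_sq, he]; norm_num
  have hs1 : |s| = 1 := by rcases hs with rfl | rfl <;> simp
  have hs2 : s * s = 1 := by rcases hs with rfl | rfl <;> simp
  have hne : ∀ c : ℝ, ‖c • e‖ = |c| := fun c => by rw [norm_smul, he, mul_one, Real.norm_eq_abs]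
  have hb : ∀ i, ‖-(4 * s * rho i) • e‖ = 4 * rho i := fun i => by
    rw [hne, abs_neg, abs_mul, abs_mul, hs1, abs_of_pos (ch_rho i).1]; norm_num
  induction j with
  | zero =>
    intro i hi
    obtain ⟨r0, r1, -, r3⟩ := ch_rho i
    have hv : ‖(4 * rho i) • e‖ = 4 * rho i := by rw [hne, abs_of_pos (by positivity)]
    have h1 := ch_segs hF h hn hen hD i hs (b := -(4 * s * rho i) • e) (c := 0)
      (v := (4 * rho i) • e) (by rw [hv, inner_smul_right, hee]; linarith only [r0]) (by rw [hb]; linarith only [r1])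
      (by rw [hv]; linarith only [r1]) (by module)
    have h2 : ∀ z, chF κ f i (z + 0) = f z := fun z => by simp [chF, hF.fin i hi]
    simp only [h2, hv] at h1
    refine h1.trans (ENNReal.ofReal_le_ofReal ?_)
    linarith only [mul_le_mul_of_nonneg_left r3 hW, mul_nonneg hW (by positivity : (0:ℝ) ≤ (1 / 2) ^ i)]
  | succ j ih =>
    intro i hi
    obtain ⟨r0, r1, r2, r3⟩ := ch_rho i
    have := hF.ps i
    have := hF.pk (i + 1)
    have hc := ch_Fc hF h (i + 1)
    have hc' := ch_Fc hF h i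
    have hf := h.cd.continuous
    have h1 : ∫⁻ z in ball (0 : E) 35, ENNReal.ofReal (s * (chF κ f i (z + -(4 * s * rho i) • e) -
        chF κ f (i + 1) (z + -(4 * s * rho (i + 1)) • e))) ∂μ ≤
        ENNReal.ofReal (22 * W * (1 / 2) ^ i) := by
      refine ch_swap μ (σ i) _ (H := fun z a => s * (chF κ f (i + 1) (z + (-(4 * s * rho i) • e + a)) -
        chF κ f (i + 1) (z + -(4 * s * rho (i + 1)) • e))) ?_ ?_ ?_ ?_
      · exact (by fun_prop : Continuous fun q : E × E => s * (chF κ f (i + 1)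
          (q.1 + (-(4 * s * rho i) • e + q.2)) -
          chF κ f (i + 1) (q.1 + -(4 * s * rho (i + 1)) • e))).measurable
      · exact fun z => ch_int (hF.ss i) (by fun_prop)
      · intro z
        rw [integral_const_mul, integral_sub (ch_int (hF.ss i) (by fun_prop)) (integrable_const _)]
        have h3 : chF κ f i (z + -(4 * s * rho i) • e) =
            ∫ a, chF κ f (i + 1) (z + (-(4 * s * rho i) • e + a)) ∂σ i := by
          have := hF.pk i
          have h4 : Integrable (fun u => f (z + -(4 * s * rho i) • e + u)) (κ i) :=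
            ch_int (hF.sk i) (by fun_prop)
          unfold chF
          rw [hF.cv i] at h4 ⊢
          rw [integral_conv h4]
          simp only [add_assoc]
        rw [h3]
        simp
      · filter_upwards [(hF.ss i : ∀ᵐ a ∂σ i, a ∈ closedBall (0 : E) (rho i))] with a ha
        rw [mem_closedBall_zero_iff] at ha
        have hsa : ‖s • a‖ ≤ rho i := by rw [norm_smul, Real.norm_eq_abs, hs1, one_mul]; exact ha
        have hv : ‖(3 * rho i) • e - s • a‖ ≤ 4 * rho i := by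
          have := norm_sub_le ((3 * rho i) • e) (s • a)
          rw [hne, abs_of_pos (by positivity)] at this
          linarith only [hsa, this]
        refine (ch_segs hF h hn hen hD (i + 1) hs (v := (3 * rho i) • e - s • a) ?_ ?_
          (by linarith only [r1, hv]) ?_).trans (ENNReal.ofReal_le_ofReal ?_)
        · have := real_inner_le_norm e (s • a)
          rw [inner_sub_right, inner_smul_right, hee]
          rw [he] at this
          linarith only [r0, hsa, hv, this]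
        · linarith only [norm_add_le (-(4 * s * rho i) • e) a, hb i, r1, ha]
        · rw [r2, smul_sub, smul_smul s s, hs2]; module
        · have h5 : 0 ≤ W * (20 / 19) ^ (i + 1) := by positivity
          have h6 := mul_le_mul_of_nonneg_right hv h5
          have h7 := mul_le_mul_of_nonneg_left r3 hW
          have h8 : 0 ≤ W * (1 / 2) ^ i := by positivity
          rw [pow_succ] at h6 ⊢
          linarith only [h6, h7, h8]
    have h2 := ih (i + 1) (by omega)
    calc _ ≤ ∫⁻ z in ball (0 : E) 35,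
          (ENNReal.ofReal (s * (chF κ f i (z + -(4 * s * rho i) • e) -
            chF κ f (i + 1) (z + -(4 * s * rho (i + 1)) • e))) + ENNReal.ofReal
            (s * (chF κ f (i + 1) (z + -(4 * s * rho (i + 1)) • e) - f z))) ∂μ :=
          lintegral_mono fun z => le_trans (le_of_eq (by ring_nf)) ENNReal.ofReal_add_le
      _ ≤ ENNReal.ofReal (22 * W * (1 / 2) ^ i) + ENNReal.ofReal (44 * W * (1 / 2) ^ (i + 1)) := by
          rw [lintegral_add_left (Measurable.ennreal_ofReal (Continuous.measurable (by fun_prop)))]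
          exact add_le_add h1 h2
      _ = _ := by
          rw [← ENNReal.ofReal_add (by positivity) (by positivity)]
          congr 1; ring

lemma ch_wd (he : ‖e‖ = 1) {z : E} (hz : z ∈ Wd e) :
    ‖z‖ ≤ inner ℝ e z + 1 ∧ 19 ≤ inner ℝ e z ∧ inner ℝ e z ≤ 33 := by
  obtain ⟨h1, h2, h3⟩ := hz
  refine ⟨?_, h1, h2⟩
  have h4 := norm_add_le (z - (inner ℝ e z : ℝ) • e) ((inner ℝ e z : ℝ) • e)
  rw [sub_add_cancel, norm_smul, he, Real.norm_eq_abs, abs_of_pos (by linarith)] at h4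
  linarith

lemma ch_mid (hF : Fam σ κ N) (h : Sm f g S K) (hn : ‖n‖ = 1) (he : ‖e‖ = 1)
    (hen : ‖e - n‖ ≤ 1 / 10) (hW : 0 ≤ W) (hD : DelBd μ κ g n W) :
    ∫⁻ w in ball (0 : E) 10, ∫⁻ z in Wd e,
      ENNReal.ofReal (chF κ f 1 (w + e) - chF κ f 1 (z + -e)) ∂μ ∂μ ≤
      μ (ball (0 : E) 50) * ENNReal.ofReal (250 * W) := by
  have hc := ch_Fc hF h 1
  have hee : inner ℝ e e = (1 : ℝ) := by rw [real_inner_self_eq_norm_sq, he]; norm_num
  set T : Set E := {v | ‖v‖ ≤ 46 ∧ ‖v‖ / 5 ≤ inner ℝ e v} with hT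
  have hTm : MeasurableSet T := by
    rw [hT, ofPred_and]
    exact (measurableSet_le (by fun_prop) (by fun_prop)).inter
      (measurableSet_le (by fun_prop) (by fun_prop))
  calc _ ≤ ∫⁻ w in ball (0 : E) 10, ∫⁻ v in T,
        ENNReal.ofReal (chF κ f 1 (w + e) - chF κ f 1 (w + e + v)) ∂μ ∂μ := by
        refine setLIntegral_mono' measurableSet_ball fun w hw => ?_
        rw [mem_ball_zero_iff] at hw
        rw [← (measurePreserving_add_left μ (-(w + e + e))).setLIntegral_comp_preimage_emb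
          (measurableEmbedding_addLeft _) _ T]
        have h1 : ∀ z, w + e + (-(w + e + e) + z) = z + -e := fun z => by abel
        simp only [h1]
        refine lintegral_mono_set fun z hz => ?_
        obtain ⟨h2, h3, h4⟩ := ch_wd he hz
        have h5 : ‖-(w + e + e) + z‖ ≤ ‖w‖ + ‖z - (2 : ℝ) • e‖ := by
          rw [show -(w + e + e) + z = -w + (z - (2 : ℝ) • e) by module]
          simpa only [norm_neg] using norm_add_le (-w) (z - (2 : ℝ) • e)
        have h6 := norm_sub_le z ((2 : ℝ) • e)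
        rw [norm_smul, he, Real.norm_two] at h6
        have h7 := real_inner_le_norm e w
        rw [he] at h7
        refine ⟨by linarith only [hw, h2, h4, h5, h6], ?_⟩
        show ‖-(w + e + e) + z‖ / 5 ≤ inner ℝ e (-(w + e + e) + z)
        rw [inner_add_right, inner_neg_right, inner_add_right, inner_add_right, hee]
        linarith only [hw, h2, h3, h5, h6, h7]
    _ = ∫⁻ v in T, ∫⁻ w in ball (0 : E) 10,
        ENNReal.ofReal (chF κ f 1 (w + e) - chF κ f 1 (w + e + v)) ∂μ ∂μ :=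
        lintegral_lintegral_swap (Measurable.aemeasurable (Measurable.ennreal_ofReal
          (Continuous.measurable (by fun_prop : Continuous fun q : E × E =>
            chF κ f 1 (q.1 + e) - chF κ f 1 (q.1 + e + q.2)))))
    _ ≤ ∫⁻ _ in T, ENNReal.ofReal (250 * W) ∂μ := by
        refine setLIntegral_mono' hTm fun v hv => (ch_seg hF h hn hen hD 1 hv.2
          (by rw [he]; linarith [hv.1])).trans (ENNReal.ofReal_le_ofReal ?_)
        nlinarith only [hv.1, hW]
    _ ≤ _ := by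
        rw [setLIntegral_const, mul_comm]
        gcongr
        exact fun v hv => mem_ball_zero_iff.2 (by linarith [hv.1])

end

lemma ch_av {f : E → ℝ} (hf : Continuous f) (a : ℝ) {y : E} (hy : y ∈ ball (0 : E) 2) {s : ℝ}
    (hs : s ∈ Icc (1 / 2 : ℝ) 8) : avF μ f y s ≤
      a + (μ.real (ball (0 : E) (1 / 2)))⁻¹ * ∫ w in ball (0 : E) 10, max (f w - a) 0 ∂μ := by
  have hI : ∀ {φ : E → ℝ}, Continuous φ → ∀ (x : E) (r : ℝ), IntegrableOn φ (ball x r) μ :=
    fun hφ x r => (hφ.continuousOn.integrableOn_compact (isCompact_closedBall x r)).mono_set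
      ball_subset_closedBall
  have h0 : 0 < μ.real (ball (0 : E) (1 / 2)) :=
    ENNReal.toReal_pos (measure_ball_pos μ _ (by norm_num)).ne' measure_ball_lt_top.ne
  have h1 : μ.real (ball (0 : E) (1 / 2)) ≤ μ.real (ball y s) := by
    rw [Measure.real, ← Measure.addHaar_ball_center μ y]
    exact measureReal_mono (ball_subset_ball hs.1) measure_ball_lt_top.ne
  have h2 : ∫ w in ball y s, f w ∂μ - μ.real (ball y s) * a ≤
      ∫ w in ball (0 : E) 10, max (f w - a) 0 ∂μ := by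
    calc _ = ∫ w in ball y s, (f w - a) ∂μ := by
          rw [integral_sub (hI hf _ _) (hI continuous_const _ _)]; simp only [integral_const, MeasurableSet.univ, measureReal_restrict_apply, univ_inter, smul_eq_mul]
      _ ≤ ∫ w in ball y s, max (f w - a) 0 ∂μ :=
          integral_mono (hI (by fun_prop) _ _) (hI (by fun_prop) _ _) fun w => le_max_left _ _
      _ ≤ _ := by
          refine setIntegral_mono_set (hI (by fun_prop) _ _) (ae_of_all _ fun w => le_max_right _ _)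
            (LE.le.eventuallyLE (ball_subset_ball' ?_))
          linarith only [mem_ball.1 hy, hs.2]
  have h3 : 0 ≤ ∫ w in ball (0 : E) 10, max (f w - a) 0 ∂μ :=
    integral_nonneg fun w => le_max_right _ _
  rw [avF_eq μ f y (by linarith only [hs.1]), smul_eq_mul]
  have h4 := mul_le_mul_of_nonneg_right (inv_anti₀ h0 h1) h3
  have h5 := mul_le_mul_of_nonneg_left h2 (inv_nonneg.2 (h0.le.trans h1))
  rw [mul_sub, ← mul_assoc, inv_mul_cancel₀ (h0.trans_le h1).ne'] at h5
  linarith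

theorem blockCh : ∃ C : ℝ, 0 ≤ C ∧ ∀ {σ κ : ℕ → Measure E} {N : ℕ} {f : E → ℝ} {g : E → E}
    {S K W : ℝ} {n e : E}, Fam σ κ N → Sm f g S K → ‖n‖ = 1 → ‖e‖ = 1 → ‖e - n‖ ≤ 1 / 10 →
    0 ≤ W → DelBd μ κ g n W →
    ∃ t : ℝ, (∀ y ∈ ball (0 : E) 2, ∀ s ∈ Icc (1 / 2 : ℝ) 8, avF μ f y s ≤ t) ∧
      ∫⁻ z in Wd e, ENNReal.ofReal (t - f z) ∂μ ≤ ENNReal.ofReal (C * W) := by
  set c := (μ.real (ball (0 : E) (1 / 2)))⁻¹ with hc
  have hc0 : 0 ≤ c := by positivity
  refine ⟨c * (μ.real (ball (0 : E) 50) * 294), by positivity, ?_⟩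
  intro σ κ N f g S K W n e hF h hn he hen hW hD
  have hf := h.cd.continuous
  have hφ := ch_Fc hF h 1
  set Y : E → ℝ := fun z => f z + c * ∫ w in ball (0 : E) 10, max (f w - f z) 0 ∂μ with hY
  have hb : BddBelow (range Y) := ⟨avF μ f 0 1, by
    rintro _ ⟨z, rfl⟩; exact ch_av μ hf (f z) (by simp) (by norm_num)⟩
  refine ⟨⨅ z, Y z, fun y hy s hs => le_ciInf fun z => ch_av μ hf (f z) hy hs, ?_⟩
  have hWd : Wd e ⊆ ball 0 35 := fun z hz => mem_ball_zero_iff.2 (by
    obtain ⟨h2, h3, h4⟩ := ch_wd he hz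
    linarith only [h2, h4])
  have h1 := ch_chain hF h hn he hen hW hD (Or.inl rfl) N 1 (by omega)
  have h2 := ch_chain hF h hn he hen hW hD (Or.inr rfl) N 1 (by omega)
  have e1 : -(4 * 1 * rho 1) • e = -e := by simp [rho]
  have e2 : -(4 * -1 * rho 1) • e = e := by simp [rho]
  have e3 : 44 * W * (1 / 2) ^ 1 = 22 * W := by ring
  simp only [e1, e2, e3, one_mul, neg_mul, neg_sub] at h1 h2
  have h3 := ch_mid hF h hn he hen hW hD
  have hm : ∀ {φ : E → ℝ}, Continuous φ → Measurable fun z => ENNReal.ofReal (φ z) :=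
    fun hφ => hφ.measurable.ennreal_ofReal
  calc _ ≤ ∫⁻ z in Wd e, ENNReal.ofReal c *
        ∫⁻ w in ball (0 : E) 10, ENNReal.ofReal (f w - f z) ∂μ ∂μ := by
        refine lintegral_mono fun z => ?_
        have h4 : (⨅ z, Y z) - f z ≤ c * ∫ w in ball (0 : E) 10, max (f w - f z) 0 ∂μ := by
          linarith only [ciInf_le hb z]
        refine (ENNReal.ofReal_le_ofReal h4).trans ?_
        rw [ENNReal.ofReal_mul hc0]
        gcongr
        refine (ch_ofReal ?_).trans (lintegral_mono fun w => by simp only [ENNReal.ofReal_max, ENNReal.ofReal_zero, zero_le, sup_of_le_left, Std.le_refl])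
        exact ((by fun_prop : Continuous fun w => max (f w - f z) 0).continuousOn.integrableOn_compact
          (isCompact_closedBall 0 10)).mono_set ball_subset_closedBall
    _ = ENNReal.ofReal c * ∫⁻ w in ball (0 : E) 10, ∫⁻ z in Wd e,
          ENNReal.ofReal (f w - f z) ∂μ ∂μ := by
        rw [lintegral_const_mul' _ _ ENNReal.ofReal_ne_top, lintegral_lintegral_swap]
        exact ((by fun_prop : Continuous fun q : E × E =>
          f q.2 - f q.1).measurable.ennreal_ofReal).aemeasurable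
    _ ≤ ENNReal.ofReal c * ∫⁻ w in ball (0 : E) 10,
          (μ (ball (0 : E) 50) * ENNReal.ofReal (f w - chF κ f 1 (w + e)) + (ENNReal.ofReal (22 * W) +
          ∫⁻ z in Wd e, ENNReal.ofReal (chF κ f 1 (w + e) - chF κ f 1 (z + -e)) ∂μ)) ∂μ := by
        gcongr with w
        calc _ ≤ ∫⁻ z in Wd e, (ENNReal.ofReal (f w - chF κ f 1 (w + e)) +
              (ENNReal.ofReal (chF κ f 1 (z + -e) - f z) +
              ENNReal.ofReal (chF κ f 1 (w + e) - chF κ f 1 (z + -e)))) ∂μ :=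
              lintegral_mono fun z => le_trans (le_trans (le_of_eq (by ring_nf))
                ENNReal.ofReal_add_le) (add_le_add le_rfl ENNReal.ofReal_add_le)
          _ ≤ _ := by
              rw [lintegral_add_left measurable_const, lintegral_add_left (hm (by fun_prop)),
                setLIntegral_const, mul_comm]
              gcongr
              · exact hWd.trans (ball_subset_ball (by norm_num))
              · exact (lintegral_mono_set hWd).trans h1
    _ ≤ ENNReal.ofReal c * (μ (ball (0 : E) 50) * ENNReal.ofReal (22 * W) +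
          (μ (ball (0 : E) 50) * ENNReal.ofReal (22 * W) +
          μ (ball (0 : E) 50) * ENNReal.ofReal (250 * W))) := by
        rw [lintegral_add_left ((hm (by fun_prop)).const_mul _), lintegral_add_left measurable_const,
          setLIntegral_const, lintegral_const_mul _ (hm (by fun_prop)),
          mul_comm (ENNReal.ofReal (22 * W))]
        gcongr
        · exact (lintegral_mono_set (ball_subset_ball (by norm_num))).trans h2
        · norm_num
    _ = _ := by
        rw [← mul_add, ← mul_add, ← ENNReal.ofReal_add (by positivity) (by positivity),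
          ← ENNReal.ofReal_add (by positivity) (by positivity),
          ← ofReal_measureReal (μ := μ) (s := ball (0 : E) 50) measure_ball_lt_top.ne,
          ← ENNReal.ofReal_mul (by positivity), ← ENNReal.ofReal_mul hc0]
        congr 1; ring

end Pool.Agent.MP_a25fb7_an.Cn

end

section
set_option autoImplicit false
set_option linter.unusedSectionVars false
open MeasureTheory Metric Set Module
open scoped ENNReal

namespace Pool.Agent.MP_a25fb7_an.Cn

variable {E : Type*} [NormedAddCommGroup E] [InnerProductSpace ℝ E] [FiniteDimensional ℝ E]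
  [MeasurableSpace E] [BorelSpace E] (μ : Measure E) [μ.IsAddHaarMeasure]

theorem curl_ibp {Φ f : E → ℝ} (hΦ : ContDiff ℝ 1 Φ) (hs : HasCompactSupport Φ)
    (hf : ContDiff ℝ 2 f) (u v : E) :
    ∫ y, Φ y * fderiv ℝ (fderiv ℝ f) y u v ∂μ = - ∫ y, fderiv ℝ Φ y u * fderiv ℝ f y v ∂μ := by
  have h1 : ContDiff ℝ 1 (fderiv ℝ f) := hf.fderiv_right (by norm_num)
  have h2 : ContDiff ℝ 1 fun y => fderiv ℝ f y v := h1.clm_apply contDiff_const
  have h3 : ∀ y, fderiv ℝ (fun y => fderiv ℝ f y v) y u = fderiv ℝ (fderiv ℝ f) y u v := by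
    intro y
    rw [fderiv_clm_apply (h1.differentiable one_ne_zero y) (differentiableAt_const v)]
    simp
  have c1 : Continuous fun y => fderiv ℝ Φ y u :=
    (hΦ.continuous_fderiv one_ne_zero).clm_apply continuous_const
  have c2 : Continuous fun y => fderiv ℝ (fun y => fderiv ℝ f y v) y u :=
    (h2.continuous_fderiv one_ne_zero).clm_apply continuous_const
  have := integral_mul_fderiv_eq_neg_fderiv_mul_of_integrable (μ := μ) (f := Φ)
    (g := fun y => fderiv ℝ f y v) (v := u)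
    ((c1.mul h2.continuous).integrable_of_hasCompactSupport
      (hs.fderiv_apply ℝ u).mul_right)
    ((hΦ.continuous.mul c2).integrable_of_hasCompactSupport hs.mul_right)
    ((hΦ.continuous.mul h2.continuous).integrable_of_hasCompactSupport hs.mul_right)
    (fun y _ => hΦ.differentiable one_ne_zero y) (fun y _ => h2.differentiable one_ne_zero y)
  simpa only [h3] using this

theorem curl_sym {Φ f : E → ℝ} (hΦ : ContDiff ℝ 1 Φ) (hs : HasCompactSupport Φ)
    (hf : ContDiff ℝ 2 f) (u v : E) :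
    ∫ y, fderiv ℝ Φ y u * fderiv ℝ f y v ∂μ = ∫ y, fderiv ℝ Φ y v * fderiv ℝ f y u ∂μ := by
  have h1 := curl_ibp μ hΦ hs hf u v
  have h2 := curl_ibp μ hΦ hs hf v u
  have h3 : ∀ y, fderiv ℝ (fderiv ℝ f) y u v = fderiv ℝ (fderiv ℝ f) y v u := fun y =>
    (hf.contDiffAt (x := y)).isSymmSndFDerivAt (by simp) u v
  simp only [h3] at h1
  linarith

theorem curl_K {s l : ℝ} (hs : s ∈ Icc (1 / 2 : ℝ) 8) (hl : 0 < l) (hl' : l ≤ 1 / 8)
    {ψ : ℝ → ℝ} (hc : Continuous ψ) (h0 : ∀ t, 0 ≤ ψ t) (h2 : ∀ t, ψ t ≤ 1)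
    (hsupp : ∀ t, l < |t - s| → ψ t = 0) :
    ∃ K : ℝ → ℝ, (∀ u, HasDerivAt K (-((2 * s ^ 2)⁻¹ * ψ √u)) u) ∧
      (∀ t, s + l ≤ t → K (t ^ 2) = 0) ∧ (∀ t t', |K (t ^ 2) - K (t' ^ 2)| ≤ 4 * |t - t'|) ∧
      ∀ t, ∃ c, t ≤ c ∧ 0 ≤ K (t ^ 2) ∧ K (t ^ 2) ≤ 8 * l * ψ c := by
  obtain ⟨hs1, hs2⟩ := hs
  have hs0 : 0 < s := by linarith only [hs1]
  have hp : Continuous fun u : ℝ => (2 * s ^ 2)⁻¹ * ψ √u := by fun_prop
  set K : ℝ → ℝ := fun u => ∫ v in u..(s + l) ^ 2, (2 * s ^ 2)⁻¹ * ψ √v with hK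
  have hd : ∀ u, HasDerivAt K (-((2 * s ^ 2)⁻¹ * ψ √u)) u := fun u =>
    intervalIntegral.integral_hasDerivAt_left (hp.intervalIntegrable _ _)
      (hp.stronglyMeasurableAtFilter _ _) hp.continuousAt
  have hk : ∀ t, HasDerivAt (fun t => K (t ^ 2)) (-((s ^ 2)⁻¹ * t * ψ |t|)) t := by
    intro t
    have := (hd (t ^ 2)).comp t (hasDerivAt_pow 2 t)
    rw [Real.sqrt_sq_eq_abs] at this
    refine HasDerivAt.congr_deriv this ?_
    field_simp
    simp [mul_comm]
  have hb : K ((s + l) ^ 2) = 0 := by simp only [hK, mul_inv_rev, intervalIntegral.integral_const_mul, intervalIntegral.integral_same, mul_zero]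
  have hq : ∀ t, 0 ≤ t → t ≤ s + l → (s ^ 2)⁻¹ * t ≤ 4 := by
    intro t h h'
    rw [inv_mul_le_iff₀ (by positivity)]
    nlinarith only [hl', hs1, h']
  have mv : ∀ a b, a < b → ∃ c ∈ Ioo a b,
      K (a ^ 2) = K (b ^ 2) + (b - a) * ((s ^ 2)⁻¹ * c * ψ |c|) := by
    intro a b hab
    obtain ⟨c, hc, e⟩ := exists_hasDerivAt_eq_slope (fun t => K (t ^ 2)) _ hab
      (fun t _ => (hk t).continuousAt.continuousWithinAt) fun t _ => hk t
    refine ⟨c, hc, ?_⟩
    rw [eq_div_iff (by linarith only [hab])] at e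
    linarith only [e]
  have hz : ∀ t, s + l ≤ t → K (t ^ 2) = 0 := by
    intro t ht
    rcases ht.eq_or_lt with rfl | ht
    · exact hb
    · obtain ⟨c, hc, e⟩ := mv _ _ ht
      rw [hsupp |c| (by
        rw [abs_of_pos (a := c) (by linarith only [hc.1, hl, hs1])]
        exact lt_abs.2 (Or.inl (by linarith only [hc.1]))), hb] at e
      linarith only [e]
  refine ⟨K, hd, hz, ?_, ?_⟩
  · intro t t'
    have := Convex.norm_image_sub_le_of_norm_hasDerivWithin_le (C := 4) (s := univ)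
      (fun t _ => (hk t).hasDerivWithinAt) (fun t _ => ?_) convex_univ (mem_univ t') (mem_univ t)
    · simpa only [Real.norm_eq_abs] using this
    · rw [norm_neg, Real.norm_eq_abs, abs_mul, abs_mul, abs_of_nonneg (h0 _),
        abs_of_nonneg (a := (s ^ 2)⁻¹) (by positivity)]
      by_cases h : |t| ≤ s + l
      · have := hq _ (abs_nonneg t) h
        have h3 : 0 ≤ (s ^ 2)⁻¹ * |t| := by positivity
        nlinarith only [h0 |t|, h2 |t|, this]
      · rw [hsupp |t| (lt_abs.2 (Or.inl (by linarith only [h])))]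
        norm_num
  · have key : ∀ t, s - l ≤ t → ∃ c, t ≤ c ∧ 0 ≤ K (t ^ 2) ∧ K (t ^ 2) ≤ 8 * l * ψ c := by
      intro t ht
      by_cases h : s + l ≤ t
      · exact ⟨t, le_rfl, by rw [hz t h], by rw [hz t h]; have := h0 t; positivity⟩
      · obtain ⟨c, hc, e⟩ := mv _ _ (not_le.1 h)
        have hc0 : 0 ≤ c := by linarith only [hc.1, hl', hs1, ht]
        rw [hb, zero_add, abs_of_nonneg hc0] at e
        have h3 := hq c hc0 hc.2.le
        have h4 : 0 ≤ (s ^ 2)⁻¹ * c := by positivity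
        have h5 := h0 c
        have h6 : 0 ≤ s + l - t := by linarith only [h]
        refine ⟨c, hc.1.le, by rw [e]; positivity, ?_⟩
        rw [e]
        calc (s + l - t) * ((s ^ 2)⁻¹ * c * ψ c) ≤ (2 * l) * (4 * ψ c) := by
              gcongr
              linarith only [ht]
          _ = 8 * l * ψ c := by ring
    intro t
    by_cases h : s - l ≤ |t|
    · obtain ⟨c, h1, h3⟩ := key _ h
      rw [sq_abs] at h3
      exact ⟨c, (le_abs_self t).trans h1, h3⟩
    · obtain ⟨c, h1, h3⟩ := key _ le_rfl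
      obtain ⟨c', hc', e⟩ := mv _ _ (not_le.1 h)
      rw [hsupp |c'| (by
        rw [abs_of_nonneg (a := c') (by linarith only [hc'.1, abs_nonneg t])]
        exact lt_abs.2 (Or.inr (by linarith only [hc'.2]))), sq_abs] at e
      rw [mul_zero, mul_zero, add_zero] at e
      rw [e]
      exact ⟨c, by linarith only [le_abs_self t, h, h1], h3⟩

theorem curl {f : E → ℝ} {g : E → E} {S K : ℝ} (h : Sm f g S K) (x : E) {s l : ℝ}
    (hs : s ∈ Icc (1 / 2 : ℝ) 8) (hl : 0 < l) (hl' : l ≤ 1 / 8) {ψ ω : ℝ → ℝ} (hc : Continuous ψ)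
    (h0 : ∀ t, 0 ≤ ψ t) (h1 : ∀ t, ψ t ≤ ω t) (h2 : ∀ t, ψ t ≤ 1) (hω : Antitone ω)
    (hsupp : ∀ t, l < |t - s| → ψ t = 0) :
    ∃ k : ℝ → ℝ, (∀ t, 0 ≤ k t) ∧ (∀ t, k t ≤ 8 * l * ω t) ∧ (∀ t, k t ≤ 8 * l) ∧
      (∀ t t', |k t - k t'| ≤ 4 * |t - t'|) ∧ (∀ t, s + l ≤ t → k t = 0) ∧
      ∀ u : E, ∫ y, ψ ‖y - x‖ * (‖zz x s y‖ ^ 2 * inner ℝ u (g y) -
          inner ℝ u (zz x s y) * inner ℝ (zz x s y) (g y)) ∂μ =
        ((finrank ℝ E : ℝ) - 1) * pI μ g (fun y => k ‖y - x‖) u := by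
  obtain ⟨L, hd, hz, hlip, hbd⟩ := curl_K hs hl hl' hc h0 h2 hsupp
  refine ⟨fun t => L (t ^ 2), fun t => (hbd t).choose_spec.2.1, fun t => ?_, fun t => ?_, hlip,
    hz, fun u => ?_⟩
  · obtain ⟨c, e1, -, e2⟩ := hbd t
    exact e2.trans (mul_le_mul_of_nonneg_left ((h1 c).trans (hω e1)) (by positivity))
  · obtain ⟨c, -, -, e2⟩ := hbd t
    have := h2 c
    nlinarith only [hl, e2, this]
  have hs0 : 0 < s := by linarith only [hs.1, hl, hl']
  have hL : ContDiff ℝ 1 L := by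
    rw [contDiff_one_iff_deriv]
    refine ⟨fun u => (hd u).differentiableAt, ?_⟩
    have : deriv L = fun u => -((2 * s ^ 2)⁻¹ * ψ √u) := funext fun u => (hd u).deriv
    rw [this]
    fun_prop
  have hgc : Continuous g := by
    have : g = fun y => (InnerProductSpace.toDual ℝ E).symm (fderiv ℝ f y) := by
      funext y
      rw [(h.gr y).hasFDerivAt.fderiv]
      simp
    rw [this]
    exact (InnerProductSpace.toDual ℝ E).symm.continuous.comp
      (h.cd.continuous_fderiv (by norm_num))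
  have hf : ∀ y v, fderiv ℝ f y v = inner ℝ v (g y) := by
    intro y v
    rw [(h.gr y).hasFDerivAt.fderiv, InnerProductSpace.toDual_apply_apply, real_inner_comm]
  have hw : ContDiff ℝ 1 fun y : E => y - x := contDiff_id.sub contDiff_const
  have hΦ : ∀ b : E, ContDiff ℝ 1 fun y => L (‖y - x‖ ^ 2) * inner ℝ b (y - x) := fun b =>
    (hL.comp (hw.norm_sq ℝ)).mul (contDiff_const.inner ℝ hw)
  have hcs : ∀ {F : E → ℝ}, (∀ y, s + l < ‖y - x‖ → F y = 0) → HasCompactSupport F := by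
    intro F hF
    refine HasCompactSupport.intro (isCompact_closedBall x (s + l)) fun y hy => hF y ?_
    rwa [mem_closedBall, dist_eq_norm, not_le] at hy
  have hD : ∀ b y v : E, fderiv ℝ (fun y => L (‖y - x‖ ^ 2) * inner ℝ b (y - x)) y v =
      L (‖y - x‖ ^ 2) * inner ℝ b v -
        (s ^ 2)⁻¹ * ψ ‖y - x‖ * inner ℝ (y - x) v * inner ℝ b (y - x) := by
    intro b y v
    have e0 : HasFDerivAt (fun y : E => y - x) (ContinuousLinearMap.id ℝ E) y :=
      (hasFDerivAt_id y).sub_const x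
    have e1 := (hd (‖y - x‖ ^ 2)).comp_hasFDerivAt y e0.norm_sq
    have e2 := (innerSL ℝ b).hasFDerivAt.comp y e0
    have e3 := (e1.mul e2).fderiv
    rw [Real.sqrt_sq (norm_nonneg _)] at e3
    have e4 := congrArg (fun T : E →L[ℝ] ℝ => T v) e3
    refine Eq.trans e4 ?_
    simp [inner_sub_left]
    field_simp
    ring
  set B := stdOrthonormalBasis ℝ E
  have c1 : Continuous fun y => L (‖y - x‖ ^ 2) := by
    have := hL.continuous
    fun_prop
  have z1 : ∀ y, s + l < ‖y - x‖ → L (‖y - x‖ ^ 2) = 0 := fun y hy => hz _ hy.le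
  have z2 : ∀ y, s + l < ‖y - x‖ → ψ ‖y - x‖ = 0 := fun y hy =>
    hsupp _ (lt_abs.2 (Or.inl (by linarith only [hy])))
  have hI : ∀ a b c : E, Integrable (fun y => (L (‖y - x‖ ^ 2) * inner ℝ a b -
      (s ^ 2)⁻¹ * ψ ‖y - x‖ * inner ℝ (y - x) b * inner ℝ a (y - x)) * inner ℝ c (g y)) μ := by
    intro a b c
    refine Continuous.integrable_of_hasCompactSupport (by fun_prop) (hcs fun y hy => ?_)
    simp [z1 y hy, z2 y hy]
  have key : ∀ j, ∫ y, ((L (‖y - x‖ ^ 2) * inner ℝ (B j) (B j) -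
      (s ^ 2)⁻¹ * ψ ‖y - x‖ * inner ℝ (y - x) (B j) * inner ℝ (B j) (y - x)) * inner ℝ u (g y) -
      (L (‖y - x‖ ^ 2) * inner ℝ (B j) u -
      (s ^ 2)⁻¹ * ψ ‖y - x‖ * inner ℝ (y - x) u * inner ℝ (B j) (y - x)) * inner ℝ (B j) (g y))
        ∂μ = 0 := by
    intro j
    have := curl_sym μ (hΦ (B j)) (hcs fun y hy => by simp [z1 y hy]) h.cd u (B j)
    simp only [hD, hf] at this
    rw [integral_sub (hI _ _ _) (hI _ _ _), this, sub_self]
  have hsum := integral_finsetSum (μ := μ) Finset.univ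
    fun j _ => (hI (B j) (B j) u).sub (hI (B j) u (B j))
  simp only [Pi.sub_apply, key, Finset.sum_const_zero] at hsum
  have i1 : Integrable (fun y => L (‖y - x‖ ^ 2) * inner ℝ u (g y)) μ :=
    Continuous.integrable_of_hasCompactSupport (by fun_prop) (hcs fun y hy => by simp [z1 y hy])
  have i2 : Integrable (fun y => ψ ‖y - x‖ * (‖zz x s y‖ ^ 2 * inner ℝ u (g y) -
      inner ℝ u (zz x s y) * inner ℝ (zz x s y) (g y))) μ := by
    unfold zz
    exact Continuous.integrable_of_hasCompactSupport (by fun_prop)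
      (hcs fun y hy => by simp only [z2 y hy, zero_mul])
  unfold pI
  rw [← integral_const_mul, eq_comm, ← sub_eq_zero, ← integral_sub (i1.const_mul _) i2, ← hsum]
  congr 1
  funext y
  have s1 := B.sum_inner_mul_inner (y - x) (y - x)
  have s2 := B.sum_inner_mul_inner u (g y)
  have s3 := B.sum_inner_mul_inner (y - x) (g y)
  have e : ∀ j, (L (‖y - x‖ ^ 2) * inner ℝ (B j) (B j) -
      (s ^ 2)⁻¹ * ψ ‖y - x‖ * inner ℝ (y - x) (B j) * inner ℝ (B j) (y - x)) * inner ℝ u (g y) -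
      (L (‖y - x‖ ^ 2) * inner ℝ (B j) u -
      (s ^ 2)⁻¹ * ψ ‖y - x‖ * inner ℝ (y - x) u * inner ℝ (B j) (y - x)) * inner ℝ (B j) (g y) =
      L (‖y - x‖ ^ 2) * inner ℝ u (g y) -
      (s ^ 2)⁻¹ * ψ ‖y - x‖ * inner ℝ u (g y) * (inner ℝ (y - x) (B j) * inner ℝ (B j) (y - x)) -
      L (‖y - x‖ ^ 2) * (inner ℝ u (B j) * inner ℝ (B j) (g y)) +
      (s ^ 2)⁻¹ * ψ ‖y - x‖ * inner ℝ (y - x) u *
        (inner ℝ (y - x) (B j) * inner ℝ (B j) (g y)) := by
    intro j
    rw [real_inner_self_eq_norm_sq, B.orthonormal.1 j, real_inner_comm u (B j),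
      real_inner_comm (y - x) (B j)]
    ring
  rw [Finset.sum_congr rfl fun j _ => e j]
  simp only [Finset.sum_add_distrib, Finset.sum_sub_distrib, ← Finset.mul_sum, s1, s2, s3,
    Finset.sum_const, Finset.card_univ, Fintype.card_fin, nsmul_eq_mul, zz, inner_smul_left,
    inner_smul_right, norm_smul, real_inner_self_eq_norm_sq, Real.norm_eq_abs, mul_pow, sq_abs,
    conj_trivial, real_inner_comm u (y - x)]
  field_simp
  ring

end Pool.Agent.MP_a25fb7_an.Cn

end
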