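import Pool.Agent.MP_a25fb7_an.Cn.A

attribute [-instance] IdemSemiring.toCanonicallyOrderedAdd NonUnitalNonAssocRing.toAddCommGroup
  AddQuantale.instAddLeftMono AddGroupWithOne.toAddGroup Valued.toUniformSpace
  covariant_swap_mul_of_covariant_mul NonUnitalNormedRing.toNonUnitalSeminormedRing
  LieAdmissibleAlgebra.toModule Algebra.toSMul Ring.toAddCommGroup
  NonUnitalNonAssocSemiring.toAddCommMonoid AddQuantale.instAddRightMono NumberField.to_charZero
  Semiring.toAddCommMonoid GrpTypeEquivalenceGrp.grpGroup RightPreLieAlgebra.toModule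
  LeftPreLieAlgebra.toModule continuousSub_of_discreteTopology NormedField.toNormedCommRing
  LieRing.toAddCommGroup MulSemiringAction.toDistribMulAction
  TopologicalSpace.instSecondCountableTopologyOfLindelofSpaceOfPseudoMetrizableSpace
  NonUnitalNormedCommRing.toNonUnitalSeminormedCommRing Quantale.instMulRightMono
  IsOrderedMonoid.toMulLeftMono Quantale.instMulLeftMono NonUnitalNonAssocSemiring.toMulZeroClass
  IdemSemiring.toMulLeftMono NonarchimedeanAddGroup.toIsTopologicalAddGroup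
  LinearOrderedCommMonoidWithZero.toPosMulStrictMono NonAssocSemiring.toAddCommMonoidWithOne
  TotallySeparatedSpace.t2Space DivisionRing.toRing CStarAlgebra.instOrderClosedTopology
  SeminormedRing.toNonUnitalSeminormedRing littleWedderburn NormedAlgebra.toAlgebra instSMulZeroClass
  CommRing.toRing ProperSMul.toContinuousSMul NormedRing.toRing AddCommGroupWithOne.toAddCommGroup
  continuousSub_of_indiscreteTopology SeminormedRing.toPseudoMetricSpace
  TopologicalSpace.NoetherianSpace.compactSpace CanonicallyOrderedAdd.toMulLeftMono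
  NonUnitalSeminormedRing.toPseudoMetricSpace MulZeroOneClass.toMulZeroClass
  IsModuleTopology.toContinuousSMul NonUnitalNormedRing.toNorm
  SeminormedCommGroup.toPseudoMetricSpace NonUnitalRing.toNonUnitalNonAssocRing
  CommCStarAlgebra.toNormedCommRing MeasureTheory.instSFiniteOfCountable SeminormedRing.toRing
  AddCommGroupWithOne.toAddGroupWithOne AddCommMonoidWithOne.toAddCommMonoid NormedField.toNorm
  PolishSpace.toSecondCountableTopology RKHS.instFunLike NonAssocSemiring.toNonUnitalNonAssocSemiring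
  IsTopologicalTorsor.toContinuousSMul NormedRing.toNorm
  TopologicalSpace.UpgradedIsCompletelyPseudoMetrizableSpace.toPseudoMetricSpace
  IdemSemiring.toSemiring LinearOrderedAddCommGroupWithTop.toSubNegMonoid
  LinearOrderedAddCommMonoidWithTop.toAddCommMonoid UpgradedStandardBorel.toTopologicalSpace
  AlexandrovDiscrete.toLocallyCompactSpace EuclideanDomain.toCommRing SeminormedRing.toNorm
  NonUnitalSemiring.toNonUnitalNonAssocSemiring LieAdmissibleRing.toNonUnitalNonAssocRing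

section
set_option autoImplicit false
set_option linter.unusedSectionVars false
open MeasureTheory Metric Set Module Filter
open scoped ENNReal InnerProductSpace Pointwise

namespace Pool.Agent.MP_a25fb7_an.Cn

variable {E : Type*} [NormedAddCommGroup E] [InnerProductSpace ℝ E] [FiniteDimensional ℝ E]
  [MeasurableSpace E] [BorelSpace E] (μ : Measure E) [μ.IsAddHaarMeasure]

lemma rare_int_ball (F : E → ℝ) (x : E) {s : ℝ} (hs : 0 < s) :
    ∫ y in ball x s, F y ∂μ = s ^ finrank ℝ E * ∫ z in ball (0 : E) 1, F (x + s • z) ∂μ := by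
  rw [Measure.setIntegral_comp_smul_of_pos μ (fun y => F (x + y)) _ hs, smul_eq_mul, ← mul_assoc,
    mul_inv_cancel₀ (by positivity), one_mul, smul_unitBall_of_pos hs,
    ← (measurePreserving_add_left μ x).setIntegral_preimage_emb (measurableEmbedding_addLeft x)]
  congr 2
  ext y
  simp

lemma rare_real_ball (x : E) {s : ℝ} (hs : 0 < s) :
    μ.real (ball x s) = s ^ finrank ℝ E * μ.real (ball (0 : E) 1) := by
  simpa only [integral_const, MeasurableSet.univ, measureReal_restrict_apply, univ_inter, smul_eq_mul, mul_one] using rare_int_ball μ (fun _ => (1 : ℝ)) x hs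

lemma rare_norm_dil (x y0 : E) {a : ℝ} (ha : 0 ≤ a) : ‖y0 - (y0 + a • (x - y0))‖ = a * ‖y0 - x‖ := by
  rw [sub_add_cancel_left, norm_neg, norm_smul, Real.norm_of_nonneg ha, norm_sub_rev]

lemma rare_geo_in {x y0 y : E} {D t : ℝ} (hD : 0 ≤ D) (h : ‖y - x‖ < ‖y0 - x‖ - t) :
    ‖y - (y0 + (1 + D) • (x - y0))‖ < ‖y0 - (y0 + (1 + D) • (x - y0))‖ - t := by
  rw [rare_norm_dil x y0 (by linarith), show y - (y0 + (1 + D) • (x - y0)) = (y - x) + D • (y0 - x) by
    module]
  have := norm_add_le (y - x) (D • (y0 - x))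
  rw [norm_smul, Real.norm_of_nonneg hD] at this
  linarith

lemma rare_geo_far {x y0 y : E} {r l γ D : ℝ} (hr : 0 < r) (hl : 0 < l) (hγ : 0 < γ) (hD : 0 ≤ D)
    (hD1 : D ≤ 1) (hD2 : D * (γ ^ 2 * r) = 2400 * l) (h1 : 6 * l ≤ ‖y0 - x‖)
    (h2 : ‖y0 - x‖ ≤ 9 * r) (h3 : ‖y - x‖ ≤ ‖y0 - x‖ + 4 * l) (h4 : γ * r / 2 ≤ ‖y - y0‖) :
    ‖y - (y0 + (1 + D) • (x - y0))‖ < ‖y0 - (y0 + (1 + D) • (x - y0))‖ - 6 * l := by
  rw [rare_norm_dil x y0 (by linarith only [hD]), show y - (y0 + (1 + D) • (x - y0)) =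
    (y - y0) - (1 + D) • (x - y0) by abel]
  rw [show y - x = (y - y0) - (x - y0) by abel] at h3
  rw [norm_sub_rev y0 x] at h1 h2 h3 ⊢
  generalize x - y0 = p at *
  generalize y - y0 = q at *
  have e1 := norm_sub_sq_real q p
  have e2 := norm_sub_sq_real q ((1 + D) • p)
  rw [real_inner_smul_right, norm_smul, Real.norm_of_nonneg (by linarith only [hD])] at e2
  have h5 : ‖q - p‖ ^ 2 ≤ (‖p‖ + 4 * l) ^ 2 := by gcongr
  have h6 : (γ * r / 2) ^ 2 ≤ ‖q‖ ^ 2 := by gcongr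
  have h7 : D * (γ * r / 2) ^ 2 = 600 * l * r := by linear_combination r / 4 * hD2
  have h8 : D * (γ * r / 2) ^ 2 ≤ D * ‖q‖ ^ 2 := by gcongr
  have h9 : (1 + D) * (‖q‖ ^ 2 - 2 * ⟪q, p⟫_ℝ) ≤ (1 + D) * (8 * l * ‖p‖ + 16 * l ^ 2) := by
    gcongr; linarith only [e1, h5]
  have h10 : (1 + D) * (l * ‖p‖) ≤ 2 * (l * (9 * r)) := by gcongr; linarith only [hD1]
  have h11 : (1 + D) * l ^ 2 ≤ 2 * l ^ 2 := by gcongr; linarith only [hD1]
  refine lt_of_pow_lt_pow_left₀ 2 (by nlinarith only [hl, hD, h1]) ?_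
  linarith only [mul_pos hl hr, sq_nonneg l, e2, h7, h8, h9, h10, h11]

lemma rare_bern {t : ℝ} (h : t ≤ 1) (d : ℕ) : 1 - (1 - t) ^ d ≤ d * t := by
  have := one_add_mul_le_pow (a := -t) (by linarith) d
  rw [← sub_eq_add_neg] at this
  linarith

lemma rare_shell_vol (x : E) {a h : ℝ} (hh : 0 ≤ h) (ha : h < a) :
    μ.real {y | |‖y - x‖ - a| ≤ h} ≤
      (a + h) ^ finrank ℝ E * (finrank ℝ E * (2 * h / (a + h))) * μ.real (ball (0 : E) 1) := by
  have e : {y : E | |‖y - x‖ - a| ≤ h} = closedBall x (a + h) \ ball x (a - h) := by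
    ext y
    simp only [mem_ofPred_eq, abs_le, Set.mem_sdiff, mem_closedBall, mem_ball, dist_eq_norm, not_lt]
    constructor <;> rintro ⟨h1, h2⟩ <;> constructor <;> linarith
  have h0 : 0 < a + h := by linarith
  rw [e, measureReal_sdiff (ball_subset_closedBall.trans (closedBall_subset_closedBall
    (by linarith))) measurableSet_ball measure_closedBall_lt_top.ne,
    rare_real_ball μ x (by linarith : 0 < a - h), Measure.addHaar_real_closedBall μ x h0.le,
    ← sub_mul]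
  gcongr
  have := rare_bern (t := 2 * h / (a + h)) (by rw [div_le_one h0]; linarith) (finrank ℝ E)
  rw [show a - h = (a + h) * (1 - 2 * h / (a + h)) by field_simp; ring, mul_pow, ← mul_one_sub]
  gcongr

/-- (Dil) -/
lemma rare_dil {w : E → ℝ} (hw : Measurable w) {M R D : ℝ} (h0 : ∀ x, 0 ≤ w x) (hM : ∀ x, w x ≤ M)
    (hR : 0 < R) (hD : 0 ≤ D) (y0 : E) :
    ∫ x in ball y0 R, (w x - w (y0 + (1 + D) • (x - y0))) ∂μ ≤
      finrank ℝ E * D * (M * μ.real (ball y0 R)) := by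
  have hi : ∀ {v : E → ℝ}, Measurable v → (∀ x, 0 ≤ v x) → (∀ x, v x ≤ M) → ∀ t : ℝ,
      IntegrableOn v (ball y0 t) μ := fun hv h1 h2 t =>
    Measure.integrableOn_of_bounded (M := M) measure_ball_lt_top.ne hv.aestronglyMeasurable
      (Eventually.of_forall fun x => by rw [Real.norm_of_nonneg (h1 x)]; exact h2 x)
  have ha : 0 < 1 + D := by linarith
  have e : ∫ x in ball y0 R, w (y0 + (1 + D) • (x - y0)) ∂μ =
      (1 - D / (1 + D)) ^ finrank ℝ E * ∫ x in ball y0 ((1 + D) * R), w x ∂μ := by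
    rw [rare_int_ball μ _ y0 hR, rare_int_ball μ _ y0 (mul_pos ha hR), 
      ← mul_assoc, ← mul_pow, show (1 - D / (1 + D)) * ((1 + D) * R) = R by field_simp; ring]
    simp only [add_sub_cancel_left, smul_smul]
  have h1 : ∫ x in ball y0 R, w x ∂μ ≤ ∫ x in ball y0 ((1 + D) * R), w x ∂μ :=
    setIntegral_mono_set (hi hw h0 hM _) (Eventually.of_forall h0)
      (ball_subset_ball (by nlinarith only [hR, hD])).eventuallyLE
  have h2 : ∫ x in ball y0 R, w x ∂μ ≤ M * μ.real (ball y0 R) := by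
    refine (Real.le_norm_self _).trans (norm_setIntegral_le_of_norm_le_const measure_ball_lt_top
      fun x _ => ?_)
    rw [Real.norm_of_nonneg (h0 x)]; exact hM x
  have h3 : 0 ≤ ∫ x in ball y0 R, w x ∂μ := integral_nonneg h0
  have h4 : D / (1 + D) ≤ 1 := by rw [div_le_one ha]; linarith only []
  have h5 : D / (1 + D) ≤ D := div_le_self hD (by linarith only [hD])
  have h6 := rare_bern h4 (finrank ℝ E)
  have h7 : 0 ≤ (1 - D / (1 + D)) ^ finrank ℝ E := pow_nonneg (by linarith only [h4]) _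
  rw [integral_sub (hi hw h0 hM _) (hi (by fun_prop) (fun _ => h0 _) (fun _ => hM _) _), e]
  calc _ ≤ (1 - (1 - D / (1 + D)) ^ finrank ℝ E) * ∫ x in ball y0 R, w x ∂μ := by nlinarith only [h1, h7]
    _ ≤ (finrank ℝ E * (D / (1 + D))) * ∫ x in ball y0 R, w x ∂μ := by gcongr
    _ ≤ _ := by gcongr

lemma rare_dil_cheb {w : E → ℝ} (hw : Measurable w) {M R D m : ℝ} (h0 : ∀ x, 0 ≤ w x)
    (hM : ∀ x, w x ≤ M) (hR : 0 < R) (hD : 0 ≤ D) (y0 : E)
    (hm : ∀ x, w (y0 + (1 + D) • (x - y0)) ≤ w x) :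
    m * μ.real ({x | m ≤ w x - w (y0 + (1 + D) • (x - y0))} ∩ ball y0 R) ≤
      finrank ℝ E * D * (M * μ.real (ball y0 R)) := by
  refine le_trans ?_ (rare_dil μ hw h0 hM hR hD y0)
  have hU : Measurable fun x => w x - w (y0 + (1 + D) • (x - y0)) := by fun_prop
  rw [← measureReal_restrict_apply (measurableSet_le measurable_const hU)]
  refine mul_meas_ge_le_integral_of_nonneg (Eventually.of_forall fun x => sub_nonneg.2 (hm x))
    (Measure.integrableOn_of_bounded (M := M) measure_ball_lt_top.ne hU.aestronglyMeasurable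
      (Eventually.of_forall fun x => ?_)) m
  rw [Real.norm_of_nonneg (sub_nonneg.2 (hm x))]
  linarith [hM x, h0 (y0 + (1 + D) • (x - y0))]

lemma rare_fubini (β : Measure E) [IsFiniteMeasure β] {S : Set (E × E)} (hS : MeasurableSet S) {c : ℝ}
    (hc : 0 ≤ c) (h : ∀ y, μ ((fun x => (x, y)) ⁻¹' S) ≤ ENNReal.ofReal c) :
    Measurable (fun x => β.real (Prod.mk x ⁻¹' S)) ∧
      Integrable (fun x => β.real (Prod.mk x ⁻¹' S)) μ ∧
      ∫ x, β.real (Prod.mk x ⁻¹' S) ∂μ ≤ c * β.real univ := by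
  have hm := measurable_measure_prodMk_left (ν := β) hS
  have h1 : ∫⁻ x, β (Prod.mk x ⁻¹' S) ∂μ ≤ ENNReal.ofReal c * β univ := by
    rw [← Measure.prod_apply hS, Measure.prod_apply_symm hS, ← lintegral_const]
    exact lintegral_mono h
  have h2 : ENNReal.ofReal c * β univ ≠ ⊤ := by finiteness
  refine ⟨hm.ennreal_toReal, integrable_toReal_of_lintegral_ne_top hm.aemeasurable
    (ne_top_of_le_ne_top h2 h1), ?_⟩
  simp only [Measure.real]
  rw [integral_toReal hm.aemeasurable (Eventually.of_forall fun x => measure_lt_top _ _)]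
  simpa only [ENNReal.toReal_mul, hc, ENNReal.toReal_ofReal] using ENNReal.toReal_mono h2 h1

theorem rare_core (ν β : Measure E) [IsFiniteMeasure ν] [IsFiniteMeasure β] {r l l' γ m0 m1 : ℝ}
    (hr : 0 < r) (hl : 0 < l) (hl' : l ≤ l') (hl8 : 8 * l' ≤ r) (hγ : 0 < γ) (hγ1 : γ ≤ 1)
    (hlγ : 2400 * l ≤ γ ^ 2 * r) (hm0 : 0 < m0) (hm1 : 0 ≤ m1) :
    ∃ Ra : E → ℝ, Measurable Ra ∧ Integrable Ra μ ∧ (∀ x, 0 ≤ Ra x ∧ Ra x ≤ β.real univ) ∧
      ∫ x, Ra x ∂μ ≤ 2400 * finrank ℝ E * 9 ^ finrank ℝ E * μ.real (ball (0 : E) 1) *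
        r ^ finrank ℝ E * (l / (γ ^ 2 * r) * ((m0 + m1) / m0) + l' / r) * β.real univ ∧
      ∀ x s, r / 2 ≤ s → s ≤ 8 * r →
        (s - l' < r / 2 ∨ 8 * r < s + l' → β.real (Shl x s l) ≤ Ra x) ∧
        (ν.real (ball x (s - 4 * l)) ≤ m1 → β.real (Shl x s l) ≤ Ra x ∨
          ∃ y0 ∈ Shl x s l, ν.real (Shl x s l \ ball y0 (γ * r / 2)) ≤ m0) := by
  set d := finrank ℝ E
  set ω := μ.real (ball (0 : E) 1)
  have hω : 0 ≤ ω := measureReal_nonneg
  set D := 2400 * (l / (γ ^ 2 * r)) with hDe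
  have hD : 0 ≤ D := by positivity
  have hD2 : D * (γ ^ 2 * r) = 2400 * l := by rw [hDe]; field_simp
  have hD1 : D ≤ 1 := by
    rw [hDe, ← mul_div_assoc, div_le_one (by positivity)]; exact hlγ
  have hlr : 2400 * l ≤ r := by nlinarith only [pow_le_one₀ (n := 2) hγ.le hγ1, hr, hlγ]
  set N : E × E → ℝ := fun p => ν.real (ball p.1 (‖p.2 - p.1‖ - 6 * l)) with hN
  have hNm : Measurable N := by
    have := (measurable_measure_prodMk_left (ν := ν) (s := {q : (E × E) × E |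
      dist q.2 q.1.1 < ‖q.1.2 - q.1.1‖ - 6 * l})
      (measurableSet_lt (by fun_prop) (by fun_prop))).ennreal_toReal
    exact this
  have hsub : ∀ x y0 : E, ball x (‖y0 - x‖ - 6 * l) ⊆ ball (y0 + (1 + D) • (x - y0))
      (‖y0 - (y0 + (1 + D) • (x - y0))‖ - 6 * l) := fun x y0 y hy =>
    mem_ball_iff_norm.2 (rare_geo_in hD (mem_ball_iff_norm.1 hy))
  set w : E × E → ℝ := fun p => m0 + m1 - min (N p) (m0 + m1) with hw
  have hwm : Measurable w := by fun_prop
  set S : Set (E × E) := ({p | m0 ≤ w p - w (p.2 + (1 + D) • (p.1 - p.2), p.2)} ∩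
    {p | dist p.1 p.2 < 9 * r}) ∪ {p | |‖p.1 - p.2‖ - r / 2| ≤ 3 * l'} ∪
    {p | |‖p.1 - p.2‖ - 8 * r| ≤ 3 * l'} with hS
  have hSm : MeasurableSet S := (((measurableSet_le (by fun_prop) (by fun_prop)).inter
    (measurableSet_lt (by fun_prop) (by fun_prop))).union
    (measurableSet_le (by fun_prop) (by fun_prop))).union
    (measurableSet_le (by fun_prop) (by fun_prop))
  have hsh : ∀ (y : E) (a : ℝ), r / 2 ≤ a → a ≤ 8 * r →
      μ {x | |‖x - y‖ - a| ≤ 3 * l'} ≤ ENNReal.ofReal (1200 * d * 9 ^ d * ω * r ^ d * (l' / r)) := by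
    intro y a h1 h2
    have h3 : 0 ≤ l' := by linarith only [hl, hl']
    have h4 : 0 < a + 3 * l' := by linarith only [hl, hl', hlr, h1]
    refine (ofReal_measureReal (measure_ne_top_of_subset (s := closedBall y (a + 3 * l'))
      (fun x (hx : |‖x - y‖ - a| ≤ 3 * l') => mem_closedBall_iff_norm.2 (by linarith only [(abs_le.1 hx).2]))
      measure_closedBall_lt_top.ne)).symm.trans_le
      (ENNReal.ofReal_le_ofReal ((rare_shell_vol μ y (a := a) (h := 3 * l') (by positivity)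
        (by linarith only [hl, hl8, hlr, h1])).trans ?_))
    calc _ ≤ (9 * r) ^ d * (d * (2 * (3 * l') / (r / 2))) * ω := by gcongr <;> linarith only [hl, hl8, hlr, h2, hl', h1]
      _ = 12 * d * 9 ^ d * ω * r ^ d * (l' / r) := by rw [mul_pow]; field_simp; ring
      _ ≤ _ := by gcongr; norm_num
  obtain ⟨h1, h2, h3⟩ := rare_fubini μ β hSm (c := 2400 * d * 9 ^ d * ω * r ^ d *
      (l / (γ ^ 2 * r) * ((m0 + m1) / m0) + l' / r)) (by have : 0 ≤ l' := by linarith only [hl, hl']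
                                                         positivity) fun y => by
    have h4 := rare_dil_cheb μ (w := fun x => w (x, y)) (by fun_prop) (M := m0 + m1) (m := m0)
      (fun x => sub_nonneg.2 (min_le_right _ _))
      (fun x => sub_le_self _ (le_min measureReal_nonneg (by positivity)))
      (by positivity : 0 < 9 * r) hD y fun x =>
      sub_le_sub_left (min_le_min_right _ (measureReal_mono (hsub x y))) _
    rw [rare_real_ball μ y (by positivity), ← le_div_iff₀' hm0] at h4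
    refine ((measure_union_le _ _).trans (add_le_add ((measure_union_le _ _).trans (add_le_add
      (?_ : _ ≤ ENNReal.ofReal (2400 * d * 9 ^ d * ω * r ^ d *
        (l / (γ ^ 2 * r) * ((m0 + m1) / m0)))) (hsh y _ le_rfl (by linarith only [hl, hlr]))))
      (hsh y _ (by linarith only [hl, hlr]) le_rfl))).trans ?_
    · refine (ofReal_measureReal (measure_ne_top_of_subset (s := ball y (9 * r))
        inter_subset_right measure_ball_lt_top.ne)).symm.trans_le
        (ENNReal.ofReal_le_ofReal (h4.trans_eq ?_))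
      rw [hDe, mul_pow]; ring
    · have : 0 ≤ l' := by linarith only [hl, hl']
      rw [← ENNReal.ofReal_add (by positivity) (by positivity),
        ← ENNReal.ofReal_add (by positivity) (by positivity)]
      exact ENNReal.ofReal_le_ofReal (le_of_eq (by ring))
  refine ⟨_, h1, h2, fun x => ⟨measureReal_nonneg, measureReal_mono (subset_univ _)⟩, h3,
    fun x s hs1 hs2 => ⟨fun h => measureReal_mono fun y hy => ?_, fun h => ?_⟩⟩
  · have := abs_le.1 (show |‖y - x‖ - s| ≤ 2 * l from hy)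
    rw [norm_sub_rev] at this
    rcases h with h | h
    · exact Or.inl (Or.inr (show |‖x - y‖ - r / 2| ≤ 3 * l' from
        abs_le.2 ⟨by linarith only [hl', hs1, this], by linarith only [hl', this, h]⟩))
    · exact Or.inr (show |‖x - y‖ - 8 * r| ≤ 3 * l' from abs_le.2 ⟨by linarith only [hl', this, h], by linarith only [hl, hl', hs2, this]⟩)
  refine or_iff_not_imp_right.2 fun hn => measureReal_mono fun y hy => Or.inl (Or.inl ⟨?_, ?_⟩)
  swap
  · have := abs_le.1 (show |‖y - x‖ - s| ≤ 2 * l from hy)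
    exact mem_ball_iff_norm'.2 (show ‖y - x‖ < 9 * r by linarith only [hl, hlr, hs2, this])
  have hy' := abs_le.1 (show |‖y - x‖ - s| ≤ 2 * l from hy)
  push Not at hn
  have h5 : N (x, y) ≤ m1 := (measureReal_mono (ball_subset_ball (by linarith only [hy']))).trans h
  have h6 : N (x, y) + ν.real (Shl x s l \ ball y (γ * r / 2)) ≤
      N (y + (1 + D) • (x - y), y) := by
    rw [← measureReal_union₀ ?_ ?_]
    · refine measureReal_mono (union_subset (hsub x y) fun z hz => mem_ball_iff_norm.2 ?_)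
      have := abs_le.1 (show |‖z - x‖ - s| ≤ 2 * l from hz.1)
      exact rare_geo_far hr hl hγ hD hD1 hD2 (by linarith only [hl, hlr, hs1, hy']) (by linarith only [hl, hlr, hs2, hy']) (by linarith only [hy', this])
        (not_lt.1 fun h => hz.2 (mem_ball_iff_norm.2 h))
    · exact ((measurableSet_le (by fun_prop) (by fun_prop)).diff
        measurableSet_ball).nullMeasurableSet
    · refine (disjoint_left.2 fun z h1 h2 => ?_).aedisjoint
      have := abs_le.1 (show |‖z - x‖ - s| ≤ 2 * l from h2.1)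
      linarith only [mem_ball_iff_norm.1 h1, hl, hy', this]
  have h7 := hn y hy
  show m0 ≤ m0 + m1 - min (N (x, y)) (m0 + m1) -
    (m0 + m1 - min (N (y + (1 + D) • (x - y), y)) (m0 + m1))
  rw [min_eq_left (by linarith only [hm0, h5] : N (x, y) ≤ m0 + m1)]
  have : m0 + N (x, y) ≤ min (N (y + (1 + D) • (x - y), y)) (m0 + m1) :=
    le_min (by linarith only [h6, h7]) (by linarith only [h5])
  linarith only [this]

lemma rare_dens {f : E → ℝ} (hf : Continuous f) (h0 : ∀ x, 0 ≤ f x) :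
    ∃ ν : Measure E, IsFiniteMeasure ν ∧ ν.real univ = ∫ x in ball (0 : E) 64, f x ∂μ ∧
      ∀ S, MeasurableSet S → S ⊆ ball 0 64 → ν.real S = ∫ x in S, f x ∂μ := by
  have hi : IntegrableOn f (ball (0 : E) 64) μ := (hf.continuousOn.integrableOn_compact
    (isCompact_closedBall 0 64)).mono_set ball_subset_closedBall
  have h : ∀ S, MeasurableSet S → ((μ.restrict (ball 0 64)).withDensity
      fun x => ENNReal.ofReal (f x)).real S = ∫ x in S, f x ∂μ.restrict (ball 0 64) := fun S hS => by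
    rw [Measure.real, withDensity_apply _ hS, ← ofReal_integral_eq_lintegral_ofReal
      (Integrable.integrableOn hi) (Eventually.of_forall h0),
      ENNReal.toReal_ofReal (integral_nonneg h0)]
  exact ⟨_, isFiniteMeasure_withDensity_ofReal hi.2, by rw [h _ .univ, Measure.restrict_univ],
    fun S hS hS' => by rw [h S hS, Measure.restrict_restrict_of_subset hS']⟩

theorem blockRare : ∃ C : ℝ, 1 ≤ C ∧ ∀ (ν β : E → ℝ) (l l' γ m0 m1 : ℝ), Continuous ν →
    Continuous β → (∀ y, 0 ≤ ν y) → (∀ y, 0 ≤ β y) → 0 < l → l ≤ l' → l' ≤ 1 / 64 → 0 < γ →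
    γ ≤ 1 → C * l ≤ γ ^ 2 → 0 < m0 → 0 ≤ m1 →
    ∃ Ra : E → ℝ≥0∞, Measurable Ra ∧
      ∫⁻ x in ball (0 : E) 40, Ra x ∂μ ≤
        ENNReal.ofReal (C * (l / γ ^ 2 * (m1 / m0 + 1) + l') * ∫ y in ball (0 : E) 64, β y ∂μ) ∧
      ∀ x ∈ ball (0 : E) 40, ∀ s ∈ Icc (1 / 2 : ℝ) 8,
        ENNReal.ofReal (∫ y in Shl x s l, β y ∂μ) ≤ Ra x ∨ m1 < ∫ y in ball x (s - 4 * l), ν y ∂μ ∨
        ∃ y0 ∈ Shl x s l, ∫ y in Shl x s l \ ball y0 (γ / 2), ν y ∂μ ≤ m0 ∧
          1 / 2 + l' ≤ s ∧ s + l' ≤ 8 := by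
  have hc : 0 ≤ 2400 * finrank ℝ E * 9 ^ finrank ℝ E * μ.real (ball (0 : E) 1) := by positivity
  refine ⟨2400 * finrank ℝ E * 9 ^ finrank ℝ E * μ.real (ball (0 : E) 1) + 2400, by linarith,
    fun ν β l l' γ m0 m1 hν hβ ν0 β0 hl hl' hl8 hγ hγ1 hlγ hm0 hm1 => ?_⟩
  obtain ⟨ν', i1, -, e1⟩ := rare_dens μ hν ν0
  obtain ⟨β', i2, e3, e2⟩ := rare_dens μ hβ β0
  obtain ⟨Ra, h1, h2, h3, h4, h5⟩ := rare_core μ ν' β' one_pos hl hl' (by linarith only [hl, hl', hl8]) hγ hγ1
    (by nlinarith only [hc, hlγ]) hm0 hm1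
  refine ⟨fun x => ENNReal.ofReal (Ra x), h1.ennreal_ofReal, (setLIntegral_le_lintegral _ _).trans
    ?_, fun x hx s hs => ?_⟩
  · rw [← ofReal_integral_eq_lintegral_ofReal h2 (Eventually.of_forall fun x => (h3 x).1)]
    refine ENNReal.ofReal_le_ofReal (h4.trans ?_)
    have : 0 ≤ ∫ y in ball (0 : E) 64, β y ∂μ := integral_nonneg β0
    have : 0 ≤ l' := by linarith only [hl, hl']
    rw [e3, one_pow, mul_one, mul_one, div_one, add_div, div_self hm0.ne', add_comm 1]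
    gcongr
    linarith only [hl, hl', hl8]
  have hb : ball x 24 ⊆ ball 0 64 := fun y hy => mem_ball.2 (by
    linarith only [dist_triangle y x 0, mem_ball.1 hy, mem_ball.1 hx])
  have hS : Shl x s l ⊆ ball 0 64 := fun y (hy : |‖y - x‖ - s| ≤ 2 * l) =>
    hb (mem_ball_iff_norm.2 (by linarith only [(abs_le.1 hy).2, hs.2, hl, hl', hl8]))
  have hm : MeasurableSet (Shl x s l) := measurableSet_le (by fun_prop) measurable_const
  obtain ⟨h6, h7⟩ := h5 x s hs.1 (by linarith only [hs.2])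
  rw [e2 _ hm hS] at h6 h7
  rw [e1 _ measurableSet_ball ((ball_subset_ball (by linarith only [hs.2, hl, hl', hl8])).trans hb)] at h7
  by_cases h8 : s - l' < 1 / 2 ∨ 8 * 1 < s + l'
  · exact Or.inl (ENNReal.ofReal_le_ofReal (h6 h8))
  push Not at h8
  rcases lt_or_ge m1 (∫ y in ball x (s - 4 * l), ν y ∂μ) with h9 | h9
  · exact Or.inr (Or.inl h9)
  rcases h7 h9 with h | ⟨y0, h, h'⟩
  · exact Or.inl (ENNReal.ofReal_le_ofReal h)
  rw [mul_one, e1 _ (hm.diff measurableSet_ball) (sdiff_subset.trans hS)] at h'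
  exact Or.inr (Or.inr ⟨y0, h, h', by linarith only [h8.1], by linarith only [h8.2]⟩)

end Pool.Agent.MP_a25fb7_an.Cn

end

section
set_option autoImplicit false
set_option linter.unusedSectionVars false
open MeasureTheory Metric Set Module
open scoped ENNReal

namespace Pool.Agent.MP_a25fb7_an.Cn

variable {E : Type*} [NormedAddCommGroup E] [InnerProductSpace ℝ E] [FiniteDimensional ℝ E]
  [MeasurableSpace E] [BorelSpace E] (μ : Measure E) [μ.IsAddHaarMeasure]

lemma alg_add {n v w : E} {a b : ℝ} (h : Good n v a) (h' : Good n w b) : Good n (v + w) (a + b) :=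
  ⟨by rw [inner_add_right]; linarith [h.1, h'.1], fun u h1 h2 => by
    rw [inner_add_right]; linarith [h.2 u h1 h2, h'.2 u h1 h2]⟩

lemma alg_mono {n v : E} {a b : ℝ} (h : Good n v a) (hab : a ≤ b) : Good n v b :=
  ⟨by linarith [h.1], fun u h1 h2 => (h.2 u h1 h2).trans hab⟩

lemma alg_sum {n : E} {v : ℕ → E} {a : ℕ → ℝ} (s : Finset ℕ) (h : ∀ i ∈ s, Good n (v i) (a i)) :
    Good n (∑ i ∈ s, v i) (∑ i ∈ s, a i) :=
  ⟨by rw [inner_sum, ← Finset.sum_neg_distrib]; exact Finset.sum_le_sum fun i hi => (h i hi).1,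
    fun u h1 h2 => by rw [inner_sum]; exact Finset.sum_le_sum fun i hi => (h i hi).2 u h1 h2⟩

lemma alg_norm {n v : E} (hn : ‖n‖ = 1) {a : ℝ} (h : ‖v‖ ≤ a) : Good n v a := by
  have key : ∀ u : E, ‖u‖ ≤ 1 → |inner ℝ u v| ≤ a := fun u hu =>
    (abs_real_inner_le_norm u v).trans ((mul_le_of_le_one_left (norm_nonneg _) hu).trans h)
  exact ⟨(abs_le.1 (key n hn.le)).1, fun u _ hu => (abs_le.1 (key u hu)).2⟩

lemma alg_le {n v : E} (hn : ‖n‖ = 1) {a : ℝ} (ha : 0 ≤ a) (h : Good n v a) :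
    ‖v‖ ≤ inner ℝ n v + 3 * a := by
  obtain ⟨w, hw⟩ : ∃ w, w = v - (inner ℝ n v : ℝ) • n := ⟨_, rfl⟩
  have h1 : inner ℝ n w = 0 := by
    rw [hw, inner_sub_right, real_inner_smul_right, real_inner_self_eq_norm_sq, hn]; ring
  have h2 : ‖w‖ ≤ a := by
    by_cases h0 : w = 0
    · rwa [h0, norm_zero]
    have h3 := h.2 (‖w‖⁻¹ • w) (by rw [real_inner_smul_right, h1, mul_zero]) (norm_smul_inv_norm h0).le
    have h4 : inner ℝ w v = ‖w‖ ^ 2 := by
      rw [← real_inner_self_eq_norm_sq]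
      nth_rewrite 3 [hw]
      rw [inner_sub_right, real_inner_smul_right, real_inner_comm n w, h1, mul_zero, sub_zero]
    rwa [real_inner_smul_left, h4, pow_two, inv_mul_cancel_left₀ (norm_ne_zero_iff.2 h0)] at h3
  have h5 := norm_add_le w ((inner ℝ n v : ℝ) • n)
  rw [norm_smul, hn, mul_one, Real.norm_eq_abs] at h5
  nth_rewrite 1 [hw] at h5
  rw [sub_add_cancel] at h5
  have h6 : |inner ℝ n v| ≤ inner ℝ n v + 2 * a := abs_le.2 ⟨by linarith [h.1], by linarith only [ha]⟩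
  linarith

lemma alg_abel (T : ℕ → ℝ) (a : ℕ → E) {J m : ℕ} (h : J + 1 ≤ m) :
    ∑ i ∈ Finset.Ico J m, (T i - T (i + 1)) • a i =
      T J • a J + (∑ i ∈ Finset.Ico (J + 1) m, T i • (a i - a (i - 1)) + -(T m • a (m - 1))) := by
  induction m, h using Nat.le_induction with
  | base => simp only [Nat.Ico_succ_singleton, sub_eq_add_neg, add_smul, neg_smul, Finset.sum_singleton, Std.le_refl, Finset.Ico_eq_empty_of_le, smul_add, smul_neg, Finset.sum_empty, add_tsub_cancel_right, zero_add]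
  | succ m hm ih =>
    rw [Finset.sum_Ico_succ_top (by omega), Finset.sum_Ico_succ_top hm, ih, Nat.add_sub_cancel]
    module

lemma alg_idx {h : ℕ → ℝ} (h0 : ∀ i, 0 ≤ h i) {s t : Finset ℕ} (φ : ℕ → ℕ) (hi : Set.InjOn φ s)
    (hm : ∀ i ∈ s, φ i ∈ t) : ∑ i ∈ s, h (φ i) ≤ ∑ i ∈ t, h i := by
  rw [← Finset.sum_image hi]
  exact Finset.sum_le_sum_of_subset_of_nonneg (Finset.image_subset_iff.2 hm) fun i _ _ => h0 i

lemma alg_geo {J m : ℕ} (h : J ≤ m) : ∑ i ∈ Finset.Icc J m, ee i = 2 * ee J - ee m := by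
  induction m, h using Nat.le_induction with
  | base => simp [two_mul]
  | succ m hm ih => rw [Finset.sum_Icc_succ_top (by omega), ih]; unfold ee; ring

theorem blockAlg {n e G U0 V : E} (hn : ‖n‖ = 1) (he : ‖e‖ = 1) (hen : ‖e - n‖ ≤ 1 / 10)
    {J0 m : ℕ} (hm : J0 < m) {C R ε : ℝ} (hC : 1 ≤ C) (hJ0 : 10000 * C * ee J0 ≤ 1) (hε : 0 ≤ ε)
    {Gj a : ℕ → E} {T P r A : ℕ → ℝ} (hr : ∀ J, 0 ≤ r J) (hA : ∀ J, 0 ≤ A J)
    (hR : ∑ J ∈ Finset.Icc J0 m, r J ≤ R) (hAR : ∑ J ∈ Finset.Icc J0 m, ee J * A J ≤ R)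
    (hG : G = U0 + ∑ J ∈ Finset.Ico J0 m, Gj J + V)
    (hP : ∀ J ∈ Finset.Icc J0 m,
      P J = inner ℝ n U0 + ∑ i ∈ Finset.Ico J0 J, inner ℝ n (Gj i))
    (hU : Good n U0 (C * ee J0 * max (P J0) 0 + r J0))
    (h2 : ∀ J ∈ Finset.Ico J0 m, Good n (Gj J - (T J - T (J + 1)) • a J)
      (C * ee J * (max (P J) 0 + max (P (J + 1)) 0) + r J))
    (h3 : ∀ J ∈ Finset.Ico J0 m, J0 < J → Good n (T J • (a J - a (J - 1)))
      (C * ee J * (max (P (J - 1)) 0 + max (P J) 0) + r (J - 1) + r J))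
    (h30 : Good n (T J0 • a J0) 0)
    (h4 : ∀ J ∈ Finset.Ico J0 m, -A J ≤ T J * inner ℝ n (a J))
    (hT : ‖T m • a (m - 1)‖ ≤ ε) (hV : ‖V‖ ≤ ε) :
    ‖G‖ / 2 - inner ℝ e G ≤ 100 * C * (R + ε) := by
  have e0 : ∀ J, 0 < ee J := fun J => by unfold ee; positivity
  obtain ⟨x, hx⟩ : ∃ x : ℕ → ℝ, ∀ J, x J = C * ee J * max (P J) 0 := ⟨_, fun _ => rfl⟩
  have hC0 : 0 ≤ C := by linarith only [hC]
  have x0 : ∀ J, 0 ≤ x J := fun J => by
    rw [hx]; exact mul_nonneg (mul_nonneg hC0 (e0 J).le) (le_max_right _ _)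
  obtain ⟨X, hX⟩ : ∃ X, X = ∑ J ∈ Finset.Icc J0 m, x J := ⟨_, rfl⟩
  have hX0 : 0 ≤ X := hX ▸ Finset.sum_nonneg fun J _ => x0 J
  have hR0 : 0 ≤ R := (Finset.sum_nonneg fun J _ => hr J).trans hR
  have tail : ∀ J, J0 ≤ J → J < m →
      Good n (∑ i ∈ Finset.Ico J m, Gj i - T J • a J) (5 * X + 3 * R + ε) := by
    intro J j1 j2
    have i0 : ∀ {h : ℕ → ℝ}, (∀ i, 0 ≤ h i) → ∀ j, J ≤ j →
        ∑ i ∈ Finset.Ico j m, h i ≤ ∑ i ∈ Finset.Icc J0 m, h i := fun h0 j hj =>
      alg_idx h0 id (injOn_id _) fun i hi => by simp only [Finset.mem_Ico, id_eq, Finset.mem_Icc] at hi ⊢; omega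
    have i1 : ∑ i ∈ Finset.Ico J m, x (i + 1) ≤ X := hX ▸
      alg_idx x0 (· + 1) (fun _ _ _ _ h => by simpa using h) fun i hi => by simp only [Finset.mem_Ico, Finset.mem_Icc, Order.add_one_le_iff] at hi ⊢; omega
    have i2 : ∀ {h : ℕ → ℝ}, (∀ i, 0 ≤ h i) →
        ∑ i ∈ Finset.Ico (J + 1) m, h (i - 1) ≤ ∑ i ∈ Finset.Icc J0 m, h i := fun h0 =>
      alg_idx h0 (· - 1) (fun p hp q hq h => by simp only [Finset.coe_Ico, mem_Ico, Order.add_one_le_iff] at hp hq h; omega)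
        fun i hi => by simp only [Finset.mem_Ico, Order.add_one_le_iff, Finset.mem_Icc, tsub_le_iff_right] at hi ⊢; omega
    have g2 := alg_sum (Finset.Ico J m) fun i hi => alg_mono (h2 i (by simp only [Finset.mem_Ico] at hi ⊢; omega))
      (b := x i + 2 * x (i + 1) + r i) (by rw [hx, hx]; unfold ee; exact le_of_eq (by ring))
    have g3 := alg_sum (Finset.Ico (J + 1) m) fun i hi => alg_mono
      (h3 i (by simp only [Finset.mem_Ico, Order.add_one_le_iff] at hi ⊢; omega) (by simp at hi; omega))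
      (b := x (i - 1) + x i + r (i - 1) + r i) (by
        have h5 : ee i ≤ ee (i - 1) := pow_le_pow_of_le_one (by norm_num) (by norm_num) (by omega)
        rw [hx, hx, mul_add]
        gcongr)
    have g4 := alg_add g2 (alg_add g3 (alg_norm hn ((norm_neg _).trans_le hT)))
    rw [Finset.sum_sub_distrib, alg_abel T a j2] at g4
    convert alg_mono g4 (b := 5 * X + 3 * R + ε) ?_ using 1
    · abel
    · simp only [Finset.sum_add_distrib, ← Finset.mul_sum]
      linarith only [i0 x0 J le_rfl, i0 hr J le_rfl, i0 x0 (J + 1) (by omega), i0 hr (J + 1) (by omega), i2 x0, i2 hr, hR, hX, i1]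
  have nG : inner ℝ n G ≤ ‖G‖ := by simpa [hn] using real_inner_le_norm n G
  have nV := (alg_norm hn hV).1
  have hPle : ∀ J ∈ Finset.Icc J0 m, max (P J) 0 ≤ ‖G‖ + 5 * X + 3 * R + 2 * ε + A J := by
    intro J hJ
    have hJ' := Finset.mem_Icc.1 hJ
    refine max_le ?_ (by linarith only [norm_nonneg G, hA J, hε, hX0, hR0])
    have e1 : inner ℝ n G = P J + inner ℝ n (∑ i ∈ Finset.Ico J m, Gj i) + inner ℝ n V := by
      rw [hP J hJ, hG, ← Finset.sum_Ico_consecutive _ hJ'.1 hJ'.2, ← inner_sum]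
      simp only [inner_add_right, add_assoc]
    rcases hJ'.2.eq_or_lt with rfl | h
    · simp only [Finset.Ico_self, Finset.sum_empty, inner_zero_right] at e1
      linarith only [hA J, hε, hX0, hR0, nG, nV, e1]
    · have t1 := (tail J hJ'.1 h).1
      rw [inner_sub_right, real_inner_smul_right] at t1
      linarith only [h4 J (Finset.mem_Ico.2 ⟨hJ'.1, h⟩), nG, nV, e1, t1]
  have hXle : X ≤ 2 * (C * ee J0) * (‖G‖ + 5 * X + 3 * R + 2 * ε) + C * R := by
    have hB : 0 ≤ ‖G‖ + 5 * X + 3 * R + 2 * ε := by positivity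
    calc X ≤ ∑ J ∈ Finset.Icc J0 m, (C * (‖G‖ + 5 * X + 3 * R + 2 * ε) * ee J + C * (ee J * A J)) := by
          nth_rewrite 1 [hX]
          refine Finset.sum_le_sum fun J hJ => ?_
          rw [hx]
          linarith only [mul_le_mul_of_nonneg_left (hPle J hJ) (mul_nonneg hC0 (e0 J).le)]
      _ ≤ _ := by
          rw [Finset.sum_add_distrib, ← Finset.mul_sum, ← Finset.mul_sum, alg_geo hm.le]
          linarith only [mul_le_mul_of_nonneg_left hAR hC0, mul_nonneg (mul_nonneg hC0 hB) (e0 m).le]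
  have hm0 : J0 ∈ Finset.Icc J0 m := Finset.mem_Icc.2 ⟨le_rfl, hm.le⟩
  have gG : Good n G (6 * X + 4 * R + 2 * ε) := by
    have g := alg_add (alg_add hU (alg_add h30 (tail J0 le_rfl hm))) (alg_norm hn hV)
    rw [add_sub_cancel, ← hG, ← hx] at g
    refine alg_mono g ?_
    linarith only [Finset.single_le_sum (fun i _ => x0 i) hm0, Finset.single_le_sum (fun i _ => hr i) hm0, hR, hX]
  have f1 := alg_le hn (by positivity) gG
  have f2 : -(1 / 10 * ‖G‖) ≤ inner ℝ (e - n) G :=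
    (abs_le.1 ((abs_real_inner_le_norm _ _).trans (by gcongr))).1
  rw [inner_sub_left] at f2
  have f3 : 2 * (C * ee J0) * (‖G‖ + 5 * X + 3 * R + 2 * ε) ≤
      1 / 5000 * (‖G‖ + 5 * X + 3 * R + 2 * ε) :=
    mul_le_mul_of_nonneg_right (by linarith only [hJ0]) (by positivity)
  linarith only [mul_le_mul_of_nonneg_right hC hR0, mul_le_mul_of_nonneg_right hC hε, norm_nonneg G, hε, hX0, hXle, f1, f2, f3]

end Pool.Agent.MP_a25fb7_an.Cn

end

section
set_option autoImplicit false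
set_option linter.unusedSectionVars false
open MeasureTheory Metric Set Module
open scoped ENNReal

namespace Pool.Agent.MP_a25fb7_an.Cn

variable {E : Type*} [NormedAddCommGroup E] [InnerProductSpace ℝ E] [FiniteDimensional ℝ E]
  [MeasurableSpace E] [BorelSpace E] (μ : Measure E) [μ.IsAddHaarMeasure]

theorem locs_lam_pos (J : ℕ) : 0 < lam J := by unfold lam rho; positivity

theorem locs_lam_succ (J : ℕ) : 4 * lam (J + 1) ≤ lam J := by
  have := locs_lam_pos J
  unfold lam rho at *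
  rw [show 11 * (J + 1 + 1) = 11 * (J + 1) + 11 by ring, pow_add _ _ 11]
  linarith only [this]

theorem locs_lam_le (J : ℕ) : lam J ≤ 1 := pow_le_one₀ (by norm_num) (by norm_num)

theorem locs_lam_lim {t : ℝ} (ht : 0 < t) : ∀ᶠ m in Filter.atTop, lam m ≤ t :=
  ((tendsto_pow_atTop_nhds_zero_of_lt_one (by norm_num : (0 : ℝ) ≤ 1 / 4) (by norm_num)).comp
    (Filter.tendsto_atTop_mono (fun m : ℕ => (by omega : m ≤ 11 * (m + 1)))
      Filter.tendsto_id)).eventually_le_const ht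

theorem locs_cont {X Y : Type*} [NormedAddCommGroup X] [NormedAddCommGroup Y] {φ : X → Y} {L : ℝ}
    (h : ∀ t t', ‖φ t - φ t'‖ ≤ L * ‖t - t'‖) : Continuous φ :=
  (LipschitzWith.of_dist_le' fun t t' => by simpa only [dist_eq_norm] using h t t').continuous

theorem locs_int {F : Type*} [NormedAddCommGroup F] {h : E → F} (hc : Continuous h) (x : E) (R : ℝ)
    (h0 : ∀ y, R ≤ ‖y - x‖ → h y = 0) : Integrable h μ :=
  hc.integrable_of_hasCompactSupport (HasCompactSupport.intro (isCompact_closedBall x R)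
    fun y hy => h0 y (le_of_lt (by simpa [dist_eq_norm] using hy)))

theorem locs_intOn {h : E → ℝ} (hc : Continuous h) (x : E) (R : ℝ) :
    IntegrableOn h (ball x R) μ :=
  (hc.continuousOn.integrableOn_compact (isCompact_closedBall x R)).mono_set ball_subset_closedBall

theorem locs_zz {x y : E} {s R : ℝ} (hs : 0 < s) (h : ‖y - x‖ ≤ R * s) : ‖zz x s y‖ ≤ R := by
  rw [zz, norm_smul, norm_inv, Real.norm_of_nonneg hs.le, inv_mul_le_iff₀ hs, mul_comm]
  exact h

theorem locs_zz_lip {x : E} {s : ℝ} (hs : 1 / 2 ≤ s) (y y' : E) :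
    ‖zz x s y - zz x s y'‖ ≤ 2 * ‖y - y'‖ := by
  rw [zz, zz, ← smul_sub, sub_sub_sub_cancel_right]
  have := norm_nonneg (y - y')
  exact locs_zz (x := y') (by linarith) (by nlinarith only [hs, this])

section
variable {μ} {g : E → E} {x : E} {s R : ℝ} {φ ψ : ℝ → ℝ}

theorem locs_iv (hg : Continuous g) (hφ : Continuous φ) (h : ∀ t, R ≤ t → φ t = 0) :
    Integrable (fun y => φ ‖y - x‖ • g y) μ :=
  locs_int μ (by fun_prop) x R fun y hy => by rw [h _ hy, zero_smul]

theorem locs_is (hg : Continuous g) (hφ : Continuous φ) (h : ∀ t, R ≤ t → φ t = 0) :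
    Integrable (fun y => φ ‖y - x‖ * inner ℝ (zz x s y) (g y)) μ :=
  locs_int μ (by unfold zz; fun_prop) x R fun y hy => by rw [h _ hy, zero_mul]

theorem locs_inner (hg : Continuous g) (hφ : Continuous φ) (h : ∀ t, R ≤ t → φ t = 0) (u : E) :
    inner ℝ u (vI μ g x φ) = pI μ g (fun y => φ ‖y - x‖) u := by
  rw [vI, ← integral_inner (locs_iv hg hφ h)]
  simp only [inner_smul_right, pI]

theorem locs_vsub (hg : Continuous g) (hφ : Continuous φ) (h : ∀ t, R ≤ t → φ t = 0)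
    (hψ : Continuous ψ) (h' : ∀ t, R ≤ t → ψ t = 0) :
    vI μ g x (fun t => φ t - ψ t) = vI μ g x φ - vI μ g x ψ := by
  simp only [vI, sub_smul]
  exact integral_sub (locs_iv hg hφ h) (locs_iv hg hψ h')

theorem locs_ssub (hg : Continuous g) (hφ : Continuous φ) (h : ∀ t, R ≤ t → φ t = 0)
    (hψ : Continuous ψ) (h' : ∀ t, R ≤ t → ψ t = 0) :
    sI μ g x s (fun t => φ t - ψ t) = sI μ g x s φ - sI μ g x s ψ := by
  simp only [sI, sub_mul]
  exact integral_sub (locs_is hg hφ h) (locs_is hg hψ h')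

end

theorem locId {g : E → E} {n : E} {q β : ℕ → E → ℝ} {W : ℝ} {x : E} {s : ℝ} {χ χp : ℕ → ℝ → ℝ}
    {f : E → ℝ} {S K Ct : ℝ} (h : Ctx μ g n q β W x s χ χp f S K Ct) :
    (∀ J, vI μ g x (χ (J + 1)) = vI μ g x (χ J) + GG μ g x χ J) ∧
    (∀ J, PP μ g n x χ J = inner ℝ n (vI μ g x (χ J))) ∧
    (∀ J, sI μ g x s (χp J) = (sI μ g x s fun t => χp J t - χ J t) - TT μ g x s χ J) ∧
    ∀ ε : ℝ, 0 < ε → ∀ᶠ m in Filter.atTop,
      ‖(∫ y in ball x s, g y ∂μ) - vI μ g x (χ m)‖ ≤ ε ∧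
      |sI μ g x s fun t => χp m t - χ m t| ≤ ε := by
  have hg := locs_cont h.sm.lip
  have ht := h.tent
  have hχ : ∀ J, Continuous (χ J) := fun J => locs_cont (ht.lip J)
  have hp : ∀ J, Continuous (χp J) := fun J => locs_cont (ht.plip J)
  have hz : ∀ J t, s + 1 ≤ t → χ J t = 0 := fun J t h => ht.zero J t (by linarith)
  have hpz : ∀ J t, s + 1 ≤ t → χp J t = 0 := fun J t h =>
    ht.pzero J t (by linarith [locs_lam_le J])
  have hs0 : 0 < s := by linarith [h.hs.1]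
  refine ⟨fun J => ?_, fun J => (locs_inner hg (hχ J) (hz J) n).symm, fun J => ?_, fun ε hε => ?_⟩
  · rw [GG, locs_vsub hg (hχ _) (hz _) (hχ _) (hz _), add_sub_cancel]
  · rw [TT, locs_ssub hg (hp _) (hpz _) (hχ _) (hz _), sub_neg_eq_add, sub_add_cancel]
  have hb : Integrable ((ball x (s + 1)).indicator fun _ => 3 * S) μ :=
    (integrable_indicator_iff measurableSet_ball).2 (locs_intOn μ continuous_const _ _)
  have hS := (norm_nonneg _).trans (h.sm.bd x)
  have h1 : Filter.Tendsto (fun m => vI μ g x (χ m)) Filter.atTop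
      (nhds (∫ y in ball x s, g y ∂μ)) := by
    rw [← integral_indicator measurableSet_ball]
    refine tendsto_integral_of_dominated_convergence _
      (fun m => (locs_iv hg (hχ m) (hz m)).aestronglyMeasurable) hb
      (fun m => .of_forall fun y => ?_) (.of_forall fun y => ?_)
    · by_cases hy : y ∈ ball x (s + 1)
      · rw [indicator_of_mem hy, norm_smul, Real.norm_of_nonneg (ht.nn _ _)]
        nlinarith only [ht.le m ‖y - x‖, h.sm.bd y, norm_nonneg (g y)]
      · rw [indicator_of_notMem hy, hz m _ (by simpa [dist_eq_norm] using hy)]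
        simp
    · refine tendsto_const_nhds.congr' ?_
      by_cases hy : y ∈ ball x s
      · filter_upwards [locs_lam_lim (sub_pos.2 (mem_ball_iff_norm.1 hy))] with m hm
        rw [indicator_of_mem hy, ht.one m _ (by linarith), one_smul]
      · refine .of_forall fun m => ?_
        simp only [indicator_of_notMem hy, ht.zero m _ (by simpa [dist_eq_norm] using hy :
          s ≤ ‖y - x‖), zero_smul]
  have h2 : Filter.Tendsto (fun m => sI μ g x s fun t => χp m t - χ m t) Filter.atTop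
      (nhds (∫ _, (0 : ℝ) ∂μ)) := by
    refine tendsto_integral_of_dominated_convergence _
      (fun m => (locs_is (R := s + 1) hg ((hp m).sub (hχ m)) fun t h => by
        simp [hz m t h, hpz m t h]).aestronglyMeasurable) hb (fun m => .of_forall fun y => ?_) ?_
    · by_cases hy : y ∈ ball x (s + 1)
      · rw [indicator_of_mem hy, norm_mul]
        have h3 : ‖χp m ‖y - x‖ - χ m ‖y - x‖‖ ≤ 1 := abs_le.2
          ⟨by linarith [ht.pnn m ‖y - x‖, ht.le m ‖y - x‖],
            by linarith [ht.ple m ‖y - x‖, ht.nn m ‖y - x‖]⟩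
        have h4 : ‖zz x s y‖ ≤ 3 := locs_zz hs0 (by linarith [mem_ball_iff_norm.1 hy, h.hs.1])
        have h5 := (norm_inner_le_norm (𝕜 := ℝ) (zz x s y) (g y)).trans
          (mul_le_mul h4 (h.sm.bd y) (norm_nonneg _) (by norm_num))
        exact (mul_le_of_le_one_left (norm_nonneg _) h3).trans h5
      · have : s + 1 ≤ ‖y - x‖ := by simpa [dist_eq_norm] using hy
        simp [indicator_of_notMem hy, hz m _ this, hpz m _ this]
    · filter_upwards [compl_mem_ae_iff.2 (Measure.addHaar_sphere_of_ne_zero μ x hs0.ne')] with y hy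
      refine tendsto_const_nhds.congr' ?_
      rcases lt_or_gt_of_ne (fun h => hy (mem_sphere_iff_norm.2 h)) with h' | h'
      · filter_upwards [locs_lam_lim (sub_pos.2 h')] with m hm
        rw [ht.one m _ (by linarith), ht.pone m _ h'.le, sub_self, zero_mul]
      · filter_upwards [locs_lam_lim (sub_pos.2 h')] with m hm
        rw [ht.zero m _ h'.le, ht.pzero m _ (by linarith), sub_self, zero_mul]
  rw [integral_zero] at h2
  filter_upwards [Metric.tendsto_nhds.1 h1 ε hε, Metric.tendsto_nhds.1 h2 ε hε] with m h3 h4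
  rw [dist_comm, dist_eq_norm] at h3
  rw [dist_zero_right] at h4
  exact ⟨h3.le, h4.le⟩

theorem locs_mono {a a' Λ Λ' : ℝ} {T : Set E} {ψ : E → ℝ} (h : Wt a Λ T ψ) (ha : a ≤ a')
    (hΛ : Λ ≤ Λ') : Wt a' Λ' T ψ :=
  ⟨h.nn, fun y => (h.le y).trans ha,
    fun y y' => (h.lip y y').trans (mul_le_mul_of_nonneg_right hΛ (norm_nonneg _)), h.supp⟩

theorem locs_wt {Λ : ℝ} {T : Set E} {φ : ℝ → ℝ} {x : E} (hΛ : 0 ≤ Λ) (h0 : ∀ t, 0 ≤ φ t)
    (h1 : ∀ t, φ t ≤ 1) (hl : ∀ t t', |φ t - φ t'| ≤ Λ * |t - t'|)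
    (hT : ∀ y, y ∉ T → φ ‖y - x‖ = 0) : Wt 1 Λ T fun y => φ ‖y - x‖ :=
  ⟨fun _ => h0 _, fun _ => h1 _, fun y y' => (hl _ _).trans (mul_le_mul_of_nonneg_left
    ((abs_norm_sub_norm_le _ _).trans_eq (by rw [sub_sub_sub_cancel_right])) hΛ), hT⟩

section
variable {μ} {g : E → E} {n : E} {q β : ℕ → E → ℝ} {W : ℝ} {i : ℕ} {Λ γ M : ℝ} {T : Set E}
  {φ : E → ℝ}

theorem locs_p0 (hB : Bud μ g n q β W) (hg : Continuous g) (hT : MeasurableSet T)
    (hT' : T ⊆ ball 0 62) (hΛ : 0 ≤ Λ) (hM : 2 + Λ * rho i ≤ M) (h : Wt 2 Λ T φ) :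
    -(16 * M * ∫ y in T, β i y ∂μ) ≤ pI μ g φ n := by
  have h1 := hB.mono hg (i := i) hT hT' hΛ (ψ := fun _ => 0)
    ⟨fun _ => le_rfl, fun _ => zero_le_two, fun y y' => by simp only [sub_self, abs_zero]; positivity, fun _ _ => rfl⟩ h h.nn
  have h2 : 0 ≤ ∫ y in T, β i y ∂μ := integral_nonneg (hB.nb i)
  simp only [pI, zero_mul, integral_zero] at h1
  unfold pI
  nlinarith only [hM, h2, h1]

theorem locs_perp {v : E} (hn : ‖n‖ = 1) : ‖v - (inner ℝ n v : ℝ) • n‖ ≤ ‖v‖ := by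
  refine (sq_le_sq₀ (norm_nonneg _) (norm_nonneg v)).1 ?_
  rw [norm_sub_sq_real, inner_smul_right, norm_smul, hn, real_inner_comm, mul_one,
    Real.norm_eq_abs, sq_abs]
  nlinarith [sq_nonneg (inner ℝ n v : ℝ)]

theorem locs_u (hB : Bud μ g n q β W) (hn : ‖n‖ = 1) (hg : Continuous g) (hT : MeasurableSet T)
    (hT' : T ⊆ ball 0 62) (hΛ : 0 ≤ Λ) (hM : 2 + Λ * rho i ≤ M) (hγ : 0 < γ) (hγ1 : γ ≤ 1)
    (h : Wt 2 Λ T φ) {u : E} (hu : inner ℝ n u = (0 : ℝ)) (hu1 : ‖u‖ ≤ 1) :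
    pI μ g φ u ≤ 2 * finrank ℝ E * (γ * pI μ g φ n + 32 * M * ((∫ y in T, β i y ∂μ) / γ)) := by
  have h1 := hB.field hn hg (i := i) hT hT' hΛ hγ hγ1 h (H := fun y => φ y • u) (fun y y' => by
      rw [← sub_smul, norm_smul]
      exact (mul_le_of_le_one_right (norm_nonneg _) hu1).trans (h.lip y y'))
    (fun y hy => by rw [h.supp y hy, zero_smul]) fun y => by
      rw [inner_smul_right, hu, mul_zero, zero_smul, sub_zero, norm_smul,
        Real.norm_of_nonneg (h.nn y)]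
      exact mul_le_of_le_one_right (h.nn y) hu1
  simp only [real_inner_smul_left, inner_smul_right, hu, mul_zero] at h1
  rw [pI.eq_1 μ g fun _ => 0] at h1
  simp only [zero_mul, integral_zero, zero_add] at h1
  refine le_trans h1 ?_
  have h2 : 0 ≤ ∫ y in T, β i y ∂μ := integral_nonneg (hB.nb i)
  rw [div_mul_eq_mul_div, mul_div_assoc]
  unfold pI
  gcongr

end

theorem locS (Ct : ℝ) : ∃ C : ℝ, 1 ≤ C ∧ ∀ {g : E → E} {n : E} {q β : ℕ → E → ℝ} {W : ℝ} {x : E}
    {s : ℝ} {χ χp : ℕ → ℝ → ℝ} {f : E → ℝ} {S K : ℝ}, Ctx μ g n q β W x s χ χp f S K Ct →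
    ∀ J : ℕ,
      bb μ β x s J ≤ C * AA W J ∧
      |TT μ g x s χ J| ≤ C * (max (PP μ g n x χ J) 0 + AA W J) ∧
      ∫ y in ball x (s - 4 * lam J), (q (lev J) y + β (lev J) y) ∂μ ≤
        PP μ g n x χ J + C * AA W J ∧
      Good n (vI μ g x (χ J)) (C * (ee J * max (PP μ g n x χ J) 0 + AA W J / ee J)) ∧
      ∀ c : ℝ, c = 0 ∨ c = 1 →
        Good n (GG μ g x χ J + (c * (TT μ g x s χ J - TT μ g x s χ (J + 1))) • n)
          (C * (ee J * (max (PP μ g n x χ (J + 1)) 0 + AA W J) + bb μ β x s J / ee J)) := by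
  refine ⟨2000 * (2 * finrank ℝ E + 1) * max Ct 1, ?_, fun {g n q β W x s χ χp f S K} h J => ?_⟩
  · nlinarith only [le_max_right Ct 1]
  have hC := h.hC
  rw [max_eq_left hC]
  obtain ⟨d, hd⟩ : ∃ d : ℝ, d = finrank ℝ E := ⟨_, rfl⟩
  have hd0 : 0 ≤ d := hd ▸ Nat.cast_nonneg _
  have hg := locs_cont h.sm.lip
  have ht := h.tent
  have hB := h.bud
  have hn := h.hn
  have hχ : ∀ J, Continuous (χ J) := fun J => locs_cont (ht.lip J)
  have hs0 : 0 < s := by linarith only [h.hs.1]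
  have hl := locs_lam_pos J
  have hl' := locs_lam_pos (J + 1)
  have hl4 := locs_lam_succ J
  have hl1 := locs_lam_le J
  have hx := mem_ball_zero_iff.1 h.hx
  have hsub : ∀ y : E, ‖y - x‖ ≤ s + 2 → y ∈ ball (0 : E) 62 := fun y hy => by
    have := norm_le_norm_add_norm_sub' y x
    exact mem_ball_zero_iff.2 (by linarith [h.hs.2])
  have hT1 : ball x s ⊆ ball 0 62 := fun y hy => hsub y (by linarith [mem_ball_iff_norm.1 hy])
  have hT2 : Shl x s (lam J) ⊆ ball 0 62 := fun y hy =>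
    hsub y (by linarith [(abs_le.1 (show |‖y - x‖ - s| ≤ 2 * lam J from hy)).2])
  have hm2 : MeasurableSet (Shl x s (lam J)) :=
    (isClosed_le (by fun_prop) continuous_const).measurableSet
  set A := AA W J with hA
  have hA0 : 0 < A := by have := h.hW; rw [hA, AA]; positivity
  have htot : ∫ y in ball (0 : E) 64, β (lev J) y ∂μ ≤ 4 * A := by
    refine (hB.tot _).trans ?_
    have := h.hW
    rw [hA, AA, lev, pow_mul]
    calc _ ≤ W * (9 / 5) ^ (J + 2) := by gcongr; norm_num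
      _ ≤ _ := by rw [pow_add]; linarith only [mul_pos this (pow_pos (by norm_num : (0 : ℝ) < 9 / 5) J)]
  have hβ : ∀ T : Set E, T ⊆ ball 0 62 → ∫ y in T, β (lev J) y ∂μ ≤ 4 * A := fun T hT =>
    (setIntegral_mono_set (locs_intOn μ (hB.cb _) _ _) (.of_forall (hB.nb _))
      (hT.trans (ball_subset_ball (by norm_num))).eventuallyLE).trans htot
  have hβ0 : ∀ T : Set E, 0 ≤ ∫ y in T, β (lev J) y ∂μ := fun T => integral_nonneg (hB.nb _)
  obtain ⟨Λ, hΛ⟩ : ∃ Λ, Λ = Ct / lam (J + 1) := ⟨_, rfl⟩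
  have hΛ0 : 0 ≤ Λ := by rw [hΛ]; positivity
  have hΛρ : Λ * rho (lev J) = Ct := by rw [hΛ]; exact div_mul_cancel₀ _ hl'.ne'
  have hM : 2 + (4 * Λ + 2) * rho (lev J) ≤ 8 * Ct := by
    have : rho (lev J) ≤ 1 := locs_lam_le (J + 1)
    linarith only [hC, hΛρ, this]
  have hΛ1 : 0 ≤ 4 * Λ + 2 := by positivity
  have hlip : ∀ t t', |χ J t - χ J t'| ≤ Λ * |t - t'| := fun t t' => (ht.lip J t t').trans (by
    rw [hΛ]; gcongr; linarith only [hl', hl4])
  have hout : ∀ y, y ∉ ball x s → s ≤ ‖y - x‖ := fun y hy => by simpa [dist_eq_norm] using hy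
  have hz1 : ∀ y ∈ ball x s, ‖zz x s y‖ ≤ 1 := fun y hy =>
    locs_zz hs0 (by linarith only [mem_ball_iff_norm.1 hy])
  have w1 : Wt 1 Λ (ball x s) fun y => χ J ‖y - x‖ :=
    locs_wt hΛ0 (ht.nn J) (ht.le J) hlip fun y hy => ht.zero J _ (hout y hy)
  have w2 := locs_mono w1 one_le_two (by linarith only [hl', hl4, hl1, hΛ0] : Λ ≤ 4 * Λ + 2)
  have hγ : 0 < ee J := by unfold ee; positivity
  have hγ1 : ee J ≤ 1 := pow_le_one₀ (by norm_num) (by norm_num)
  have hP0 : -(512 * Ct * A) ≤ PP μ g n x χ J := by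
    refine le_trans ?_ (locs_p0 hB hg measurableSet_ball hT1 hΛ1 hM w2)
    nlinarith only [hβ _ hT1, hC]
  have hCA : A ≤ Ct * A := le_mul_of_one_le_left hA0.le hC
  have hdA : 0 ≤ d * (Ct * A) := by positivity
  rw [← hd]
  refine ⟨(hβ _ hT2).trans (by linarith only [hA0, hCA, hdA]), ?_, ?_, ⟨?_, fun u hu hu1 => ?_⟩, fun c hc => ?_⟩
  · have h1 := hB.fieldG hn hg (i := lev J) measurableSet_ball hT1 hΛ1 w2
      (H := fun y => χ J ‖y - x‖ • zz x s y) (fun y y' => (w1.lip_smul hΛ0 zero_le_two zero_le_one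
        hz1 (fun y _ y' _ => locs_zz_lip h.hs.1 y y') y y').trans
        (mul_le_mul_of_nonneg_right (by linarith only [hΛ0]) (norm_nonneg _))) fun y => by
      rw [norm_smul, Real.norm_of_nonneg (ht.nn _ _)]
      by_cases hy : y ∈ ball x s
      · exact mul_le_of_le_one_right (ht.nn _ _) (hz1 y hy)
      · rw [ht.zero J _ (hout y hy), zero_mul]
    simp only [real_inner_smul_left, ← hd] at h1
    rw [TT, abs_neg]
    refine le_trans h1 ?_
    have h2 : (2 + (4 * Λ + 2) * rho (lev J)) * ∫ y in ball x s, β (lev J) y ∂μ ≤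
      8 * Ct * (4 * A) := mul_le_mul hM (hβ _ hT1) (hβ0 _) (by positivity)
    have h3 := le_max_left (PP μ g n x χ J) 0
    have h4 := le_mul_of_one_le_left (le_max_right (PP μ g n x χ J) 0) hC
    rw [mul_assoc 2000, mul_comm 2000, mul_assoc, mul_assoc, mul_assoc]
    refine mul_le_mul_of_nonneg_left ?_ (by positivity)
    unfold PP at *
    linarith only [le_max_right (pI μ g (fun y => χ J ‖y - x‖) n) 0, hA0, hCA, h2, h3, h4]
  · have h1 := hB.lemLo (lev J) Λ (s - lam J) _ _ x measurableSet_ball hT1 hΛ0 w1 fun y hy =>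
      ht.one J _ (mem_ball_iff_norm.1 hy).le
    have h2 : ∫ y in ball x (s - 4 * lam J), q (lev J) y ∂μ ≤
        ∫ y in ball x (s - lam J - 4 * rho (lev J)), q (lev J) y ∂μ :=
      setIntegral_mono_set (locs_intOn μ (hB.cq _) _ _) (.of_forall (hB.nq _))
        (ball_subset_ball (by change _ ≤ _ - 4 * lam (J + 1); linarith only [hl', hl4])).eventuallyLE
    have h3 := hβ _ ((ball_subset_ball (by linarith only [hl', hl4] : s - 4 * lam J ≤ s)).trans hT1)
    rw [integral_add (locs_intOn μ (hB.cq _) _ _) (locs_intOn μ (hB.cb _) _ _)]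
    rw [hΛρ] at h1
    have h4 := mul_le_mul_of_nonneg_left htot (by positivity : 0 ≤ 16 * (1 + Ct))
    unfold PP
    linarith only [hA0, hCA, hdA, h1, h2, h3, h4]
  · rw [locs_inner hg (hχ J) (ht.zero J)]
    refine le_trans (neg_le_neg ?_) hP0
    have h1 : A ≤ ee J * max (PP μ g n x χ J) 0 + A / ee J :=
      le_add_of_nonneg_of_le (by positivity) (le_div_self hA0.le hγ hγ1)
    exact mul_le_mul (by nlinarith only [hC, hd]) h1 hA0.le (by positivity)
  · rw [locs_inner hg (hχ J) (ht.zero J)]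
    refine (locs_u hB hn hg measurableSet_ball hT1 hΛ1 hM hγ hγ1 w2 hu hu1).trans ?_
    rw [← hd]
    have h1 : (∫ y in ball x s, β (lev J) y ∂μ) / ee J ≤ 4 * (A / ee J) := by
      rw [← mul_div_assoc]; gcongr; exact hβ _ hT1
    have h2 := mul_le_mul_of_nonneg_left (le_max_left (PP μ g n x χ J) 0) hγ.le
    have h3 : 0 ≤ ee J * max (PP μ g n x χ J) 0 := by positivity
    have h4 : 0 ≤ A / ee J := by positivity
    calc _ ≤ 2 * d * (2000 * Ct * (ee J * max (PP μ g n x χ J) 0 + A / ee J)) := by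
          refine mul_le_mul_of_nonneg_left ?_ (by positivity)
          unfold PP at *
          nlinarith only [hC, h1, h2, h3, h4]
      _ ≤ _ := by linarith only [mul_nonneg (zero_le_one.trans hC) (add_nonneg h3 h4)]
  obtain ⟨ψ, hψ⟩ : ∃ ψ : ℝ → ℝ, ψ = fun t => χ (J + 1) t - χ J t := ⟨_, rfl⟩
  have hψ0 : ∀ t, 0 ≤ ψ t := fun t => by simpa [hψ] using ht.mono J t
  have hψ1 : ∀ t, ψ t ≤ 1 := fun t => by
    simp only [hψ]; linarith only [ht.le (J + 1) t, ht.nn J t]
  have hψl : ∀ t t', |ψ t - ψ t'| ≤ 2 * Λ * |t - t'| := fun t t' => by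
    have h1 := abs_le.1 (hlip t t')
    have h2 := abs_le.1 (ht.lip (J + 1) t t')
    rw [← hΛ] at h2
    simp only [hψ]
    exact abs_le.2 ⟨by linarith only [h1.2, h2.1], by linarith only [h1.1, h2.2]⟩
  have hψz : ∀ t, s ≤ t → ψ t = 0 := fun t h => by simp [hψ, ht.zero _ t h]
  have hψc : Continuous ψ := locs_cont hψl
  have wB : Wt 1 (2 * Λ) (ball x s) fun y => ψ ‖y - x‖ :=
    locs_wt (by positivity) hψ0 hψ1 hψl fun y hy => hψz _ (hout y hy)
  have hS0 : ∀ y, y ∉ Shl x s (lam J) → ψ ‖y - x‖ = 0 := fun y hy => by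
    rcases lt_abs.1 (not_le.1 (show ¬ |‖y - x‖ - s| ≤ 2 * lam J from hy)) with h1 | h1
    · exact hψz _ (by linarith only [hl', hl4, h1])
    · simp only [hψ]
      rw [ht.one J _ (by linarith only [hl', hl4, h1]), ht.one (J + 1) _ (by linarith only [hl', hl4, h1]), sub_self]
  have wS := locs_mono (locs_wt (T := Shl x s (lam J)) (by positivity) hψ0 hψ1 hψl hS0) one_le_two
    (by linarith only [hl', hl4, hl1, hΛ0] : 2 * Λ ≤ 4 * Λ + 2)
  have hTT : TT μ g x s χ J - TT μ g x s χ (J + 1) = sI μ g x s ψ := by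
    rw [hψ, locs_ssub hg (hχ _) (ht.zero _) (hχ _) (ht.zero _), TT, TT]; ring
  have hPP : pI μ g (fun y => ψ ‖y - x‖) n ≤ max (PP μ g n x χ (J + 1)) 0 + 512 * Ct * A := by
    rw [← locs_inner hg hψc hψz, hψ, locs_vsub hg (hχ _) (ht.zero _) (hχ _) (ht.zero _),
      inner_sub_right, locs_inner hg (hχ _) (ht.zero _), locs_inner hg (hχ _) (ht.zero _)]
    have := le_max_left (PP μ g n x χ (J + 1)) 0
    unfold PP at *
    linarith only [hP0, this]
  have hb0 : 0 ≤ bb μ β x s J := hβ0 _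
  have hb1 := le_div_self hb0 hγ hγ1
  have hm0 := le_max_right (PP μ g n x χ (J + 1)) 0
  obtain ⟨X, hX⟩ : ∃ X, X = ee J * (max (PP μ g n x χ (J + 1)) 0 + A) + bb μ β x s J / ee J :=
    ⟨_, rfl⟩
  have hX0 : 0 ≤ ee J * (max (PP μ g n x χ (J + 1)) 0 + A) := by positivity
  have hX1 : Ct * bb μ β x s J ≤ Ct * X := by gcongr; linarith only [hb1, hX, hX0]
  have hfin : 2 * d * (ee J * pI μ g (fun y => ψ ‖y - x‖) n +
      32 * (8 * Ct) * (bb μ β x s J / ee J)) ≤ 2 * d * (512 * (Ct * X)) := by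
    refine mul_le_mul_of_nonneg_left ?_ (by positivity)
    have h1 := mul_le_mul_of_nonneg_left hPP hγ.le
    have h2 := mul_le_mul_of_nonneg_left (le_mul_of_one_le_left hm0 hC) hγ.le
    have h3 : 0 ≤ Ct * (bb μ β x s J / ee J) := by positivity
    have h4 : 0 ≤ ee J * (Ct * max (PP μ g n x χ (J + 1)) 0) := by positivity
    rw [hX]
    linarith only [h1, h2, h3, h4]
  have hX2 : 0 ≤ Ct * X := le_trans (by positivity) hX1
  have hX3 : 0 ≤ d * (Ct * X) := by positivity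
  rw [hTT, GG, ← hψ, ← hX]
  refine ⟨?_, fun u hu hu1 => ?_⟩
  · have hc0 : 0 ≤ c := by rcases hc with h | h <;> simp [h]
    have hc1 : c ≤ 1 := by rcases hc with h | h <;> simp [h]
    have hcz : ∀ y ∈ ball x s, ‖c • zz x s y‖ ≤ 1 := fun y hy => by
      rw [norm_smul, Real.norm_of_nonneg hc0]
      exact mul_le_one₀ hc1 (norm_nonneg _) (hz1 y hy)
    have hnn : inner ℝ n n = (1 : ℝ) := by rw [real_inner_self_eq_norm_sq, hn, one_pow]
    have hH : ∀ y y', ‖ψ ‖y - x‖ • (-(n + c • zz x s y)) - ψ ‖y' - x‖ • (-(n + c • zz x s y'))‖ ≤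
        (4 * Λ + 2) * ‖y - y'‖ := fun y y' =>
      (wB.lip_smul (by positivity) zero_le_two zero_le_two (h := fun y => -(n + c • zz x s y))
        (fun y hy => by
          rw [norm_neg]; exact (norm_add_le _ _).trans (by linarith only [hcz y hy, hn]))
        (fun y _ y' _ => by
          rw [neg_sub_neg, add_sub_add_left_eq_sub, ← smul_sub, norm_smul, Real.norm_of_nonneg hc0,
            norm_sub_rev]
          exact (mul_le_of_le_one_left (norm_nonneg _) hc1).trans (locs_zz_lip h.hs.1 y y'))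
        y y').trans_eq (by ring)
    have h1 := hB.field hn hg (i := lev J) hm2 hT2 hΛ1 hγ hγ1 wS hH
      (fun y hy => by rw [hS0 y hy, zero_smul]) fun y => by
        by_cases hy : y ∈ ball x s
        · rw [inner_smul_right, mul_smul, ← smul_sub, norm_smul, Real.norm_of_nonneg (hψ0 _)]
          refine mul_le_of_le_one_right (hψ0 _) ?_
          rw [inner_neg_right, neg_smul, neg_sub_neg, norm_sub_rev, inner_add_right, hnn, add_smul,
            one_smul, add_sub_add_left_eq_sub]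
          exact (locs_perp hn).trans (hcz y hy)
        · simp [hψz _ (hout y hy)]
    have hin : ∀ y ∈ ball x s, |inner ℝ n (c • zz x s y)| ≤ 1 := fun y hy =>
      (abs_real_inner_le_norm _ _).trans (by rw [hn, one_mul]; exact hcz y hy)
    have h2 := locs_p0 hB hg hm2 hT2 hΛ1 hM
      (φ := fun y => -inner ℝ n (ψ ‖y - x‖ • (-(n + c • zz x s y)))) ⟨fun y => ?_, fun y => ?_,
        fun y y' => ?_, fun y hy => by simp only [hS0 y hy, neg_add_rev, smul_add, smul_neg, zero_smul, neg_zero, add_zero, inner_zero_right]⟩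
    · have h3 : ∫ y, inner ℝ (ψ ‖y - x‖ • (-(n + c • zz x s y))) (g y) ∂μ =
          -(pI μ g (fun y => ψ ‖y - x‖) n + c * sI μ g x s ψ) := by
        rw [pI, sI, ← integral_const_mul, ← integral_add (locs_int μ (by fun_prop) x s fun y hy => by
          rw [hψz _ hy, zero_mul]) ((locs_is hg hψc hψz).const_mul c), ← integral_neg]
        congr 1
        funext y
        simp only [real_inner_smul_left, inner_neg_left, inner_add_left]
        ring
      rw [inner_add_right, inner_smul_right, hnn, mul_one, locs_inner hg hψc hψz]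
      rw [h3, ← hd, div_mul_eq_mul_div, mul_div_assoc] at h1
      simp only [pI, neg_mul, integral_neg] at h1 h2 hfin ⊢
      have h4 : 2 * d * (32 * (2 + (4 * Λ + 2) * rho (lev J)) * (bb μ β x s J / ee J)) ≤
          2 * d * (32 * (8 * Ct) * (bb μ β x s J / ee J)) := by gcongr
      unfold bb at *
      linarith only [hX1, hfin, hX2, hX3, h1, h2, h4]
    · rw [inner_smul_right, inner_neg_right, mul_neg, neg_neg, inner_add_right, hnn]
      by_cases hy : y ∈ ball x s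
      · exact mul_nonneg (hψ0 _) (by linarith only [(abs_le.1 (hin y hy)).1])
      · rw [hψz _ (hout y hy), zero_mul]
    · rw [inner_smul_right, inner_neg_right, mul_neg, neg_neg, inner_add_right, hnn]
      by_cases hy : y ∈ ball x s
      · nlinarith only [abs_le.1 (hin y hy), hψ1 ‖y - x‖]
      · rw [hψz _ (hout y hy), zero_mul]; exact zero_le_two
    · rw [neg_sub_neg, ← inner_sub_right]
      refine (abs_real_inner_le_norm _ _).trans ?_
      rw [hn, one_mul, norm_sub_rev]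
      exact hH y y'
  · rw [inner_add_right, inner_smul_right, real_inner_comm n u, hu, mul_zero, add_zero,
      locs_inner hg hψc hψz]
    refine (locs_u hB hn hg hm2 hT2 hΛ1 hM hγ hγ1 wS hu hu1).trans ?_
    rw [← hd]
    refine le_trans hfin ?_
    linarith only [hX2, hX3]

end Pool.Agent.MP_a25fb7_an.Cn

end

section
set_option autoImplicit false
set_option linter.unusedSectionVars false
open MeasureTheory Metric Set Module
open scoped ENNReal

namespace Pool.Agent.MP_a25fb7_an.Cn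

variable {E : Type*} [NormedAddCommGroup E] [InnerProductSpace ℝ E] [FiniteDimensional ℝ E]
  [MeasurableSpace E] [BorelSpace E] (μ : Measure E) [μ.IsAddHaarMeasure]

lemma loct_lam_pos (J : ℕ) : 0 < lam J := by unfold lam rho; positivity

lemma loct_ee_pos (J : ℕ) : 0 < ee J := by unfold ee; positivity

lemma loct_ee_succ (J : ℕ) : ee (J + 1) = ee J / 2 := by unfold ee; ring

lemma loct_ee_le (J : ℕ) : ee J ≤ 1 := pow_le_one₀ (by norm_num) (by norm_num)

lemma loct_rho (J : ℕ) : rho (lev J) = lam (J + 1) := rfl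

lemma loct_lam_succ (J : ℕ) : 100 * lam (J + 1) ≤ lam J := by
  unfold lam rho
  rw [show 11 * (J + 1 + 1) = 11 * (J + 1) + 11 by ring, pow_add]
  have : (0 : ℝ) < (1 / 4) ^ (11 * (J + 1)) := by positivity
  linarith only [this]

lemma loct_lam_le (J : ℕ) : 100 * lam J ≤ ee J ^ 3 := by
  induction J with
  | zero => unfold lam rho ee; norm_num
  | succ J ih =>
    have h1 := loct_lam_succ J
    have h2 := loct_lam_pos (J + 1)
    rw [loct_ee_succ]
    linarith only [ih, h1, h2]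

lemma loct_AA (W : ℝ) (J : ℕ) : AA W (J + 1) = 9 / 5 * AA W J := by unfold AA; ring

lemma loct_tot {W : ℝ} (hW : 0 < W) (J : ℕ) : W * (20 / 19) ^ lev J ≤ 4 * AA W J := by
  unfold AA lev
  rw [pow_mul]
  have h1 : ((20 / 19 : ℝ) ^ 11) ^ (J + 2) ≤ (9 / 5) ^ (J + 2) :=
    pow_le_pow_left₀ (by positivity) (by norm_num) _
  have h2 : (0 : ℝ) < (9 / 5) ^ J := by positivity
  rw [pow_add (9 / 5 : ℝ)] at h1
  nlinarith only [mul_pos hW h2, hW, h1]

lemma loct_cont {F : Type*} [NormedAddCommGroup F] {H : E → F} {Λ : ℝ}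
    (h : ∀ y y', ‖H y - H y'‖ ≤ Λ * ‖y - y'‖) : Continuous H :=
  (LipschitzWith.of_dist_le' (K := Λ) fun x y => by simpa only [dist_eq_norm] using h x y).continuous

lemma loct_int {φ : E → ℝ} {T : Set E} (hφ : Continuous φ) (hT : T ⊆ ball 0 62)
    (h0 : ∀ y, y ∉ T → φ y = 0) : Integrable φ μ :=
  hφ.integrable_of_hasCompactSupport (HasCompactSupport.intro (isCompact_closedBall 0 62)
    fun y hy => h0 y fun h => hy (ball_subset_closedBall (hT h)))

lemma Wt.loct_cont {a Λ : ℝ} {T : Set E} {ψ : E → ℝ} (h : Wt a Λ T ψ) : Continuous ψ :=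
  Cn.loct_cont (Λ := Λ) h.lip

lemma Wt.loct_int {a Λ : ℝ} {T : Set E} {ψ : E → ℝ} (h : Wt a Λ T ψ) (hT : T ⊆ ball 0 62)
    {φ : E → ℝ} (hφ : Continuous φ) : Integrable (fun y => ψ y * φ y) μ :=
  Cn.loct_int μ (h.loct_cont.mul hφ) hT fun y hy => by simp [h.supp y hy]

lemma Wt.loct_mul {Λ Λ' : ℝ} {T T' : Set E} {ψ η : E → ℝ} (h : Wt 1 Λ T ψ) (h0 : ∀ y, 0 ≤ η y)
    (h1 : ∀ y, η y ≤ 1) (hl : ∀ y y', |η y - η y'| ≤ Λ' * ‖y - y'‖)
    (hs : ∀ y, y ∈ T → y ∉ T' → η y = 0) : Wt 1 (Λ + Λ') T' fun y => ψ y * η y := by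
  refine ⟨fun y => mul_nonneg (h.nn y) (h0 y), fun y => mul_le_one₀ (h.le y) (h0 y) (h1 y),
    fun y y' => ?_, fun y hy => ?_⟩
  · have e : ψ y * η y - ψ y' * η y' = (ψ y - ψ y') * η y + ψ y' * (η y - η y') := by ring
    have a1 := mul_le_of_le_one_right (abs_nonneg (ψ y - ψ y')) (h1 y)
    have a2 := mul_le_of_le_one_left (abs_nonneg (η y - η y')) (h.le y')
    rw [e]
    refine (abs_add_le _ _).trans ?_
    rw [abs_mul, abs_mul, abs_of_nonneg (h0 y), abs_of_nonneg (h.nn y')]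
    linarith [h.lip y y', hl y y']
  · by_cases hT : y ∈ T
    · rw [hs y hT hy, mul_zero]
    · rw [h.supp y hT, zero_mul]

lemma Wt.loct_const {Λ Λ' a c : ℝ} {T : Set E} {ψ : E → ℝ} (h : Wt 1 Λ T ψ) (hc : 0 ≤ c)
    (ha : c ≤ a) (hΛ : c * Λ ≤ Λ') : Wt a Λ' T fun y => c * ψ y := by
  refine ⟨fun y => mul_nonneg hc (h.nn y), fun y => (mul_le_of_le_one_right hc (h.le y)).trans ha,
    fun y y' => ?_, fun y hy => by rw [h.supp y hy, mul_zero]⟩
  rw [← mul_sub, abs_mul, abs_of_nonneg hc]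
  refine (mul_le_mul_of_nonneg_left (h.lip y y') hc).trans ?_
  rw [← mul_assoc]
  exact mul_le_mul_of_nonneg_right hΛ (norm_nonneg _)

lemma loct_pI_mul (g : E → E) (ψ : E → ℝ) (c : ℝ) (v : E) :
    pI μ g (fun y => c * ψ y) v = c * pI μ g ψ v := by
  unfold pI
  simp only [mul_assoc, integral_const_mul]

/-- the cutoff near `y0` -/
noncomputable def loctEta (γ : ℝ) (y0 y : E) : ℝ := max 0 (min 1 (2 - ‖y - y0‖ / γ))

lemma loct_eta {γ : ℝ} (hγ : 0 < γ) (y0 : E) : (∀ y, 0 ≤ loctEta γ y0 y) ∧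
    (∀ y, loctEta γ y0 y ≤ 1) ∧ (∀ y y', |loctEta γ y0 y - loctEta γ y0 y'| ≤ γ⁻¹ * ‖y - y'‖) ∧
    (∀ y, 2 * γ < ‖y - y0‖ → loctEta γ y0 y = 0) ∧ ∀ y, ‖y - y0‖ < γ → loctEta γ y0 y = 1 := by
  refine ⟨fun y => le_max_left _ _, fun y => max_le zero_le_one (min_le_left _ _), fun y y' => ?_,
    fun y hy => ?_, fun y hy => ?_⟩
  · unfold loctEta
    rw [max_comm, max_comm 0]
    refine (abs_max_sub_max_le_abs _ _ _).trans ((abs_min_sub_min_le_max _ _ _ _).trans ?_)
    rw [sub_self, abs_zero, max_eq_right (abs_nonneg _), sub_sub_sub_cancel_left, ← sub_div,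
      abs_div, abs_of_pos hγ, div_eq_inv_mul, abs_sub_comm]
    refine mul_le_mul_of_nonneg_left ((abs_norm_sub_norm_le _ _).trans (le_of_eq ?_)) (by positivity)
    rw [sub_sub_sub_cancel_right]
  · exact max_eq_left (min_le_of_right_le (by rw [sub_nonpos, le_div_iff₀ hγ]; exact hy.le))
  · have : ‖y - y0‖ / γ ≤ 1 := (div_le_one hγ).2 hy.le
    unfold loctEta
    rw [min_eq_left (by linarith), max_eq_right zero_le_one]

lemma loct_theta {s Ct : ℝ} {χ χp : ℕ → ℝ → ℝ} (h : Tent s Ct χ χp) (J : ℕ) :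
    (∀ t, 0 ≤ χp J t - χ J t) ∧ (∀ t, χp J t - χ J t ≤ 1) ∧
    (∀ t t', |χp J t - χ J t - (χp J t' - χ J t')| ≤ 2 * Ct / lam J * |t - t'|) ∧
    ∀ t, lam J < |t - s| → χp J t - χ J t = 0 := by
  have hl := loct_lam_pos J
  refine ⟨fun t => ?_, fun t => by linarith [h.ple J t, h.nn J t], fun t t' => ?_, fun t ht => ?_⟩
  · rcases le_total t s with a | a
    · linarith [h.pone J t a, h.le J t]
    · linarith [h.zero J t a, h.pnn J t]
  · have e : χp J t - χ J t - (χp J t' - χ J t') = (χp J t - χp J t') - (χ J t - χ J t') := by ring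
    rw [e, mul_div_assoc]
    linarith [abs_sub (χp J t - χp J t') (χ J t - χ J t'), h.lip J t t', h.plip J t t']
  · rcases lt_abs.1 ht with a | a
    · rw [h.zero J t (by linarith), h.pzero J t (by linarith), sub_zero]
    · rw [h.one J t (by linarith), h.pone J t (by linarith), sub_self]

lemma loct_rad {φ : ℝ → ℝ} {a Λ : ℝ} {T : Set E} (x : E) (hΛ : 0 ≤ Λ) (h0 : ∀ t, 0 ≤ φ t)
    (h1 : ∀ t, φ t ≤ a) (hl : ∀ t t', |φ t - φ t'| ≤ Λ * |t - t'|)
    (hs : ∀ y, y ∉ T → φ ‖y - x‖ = 0) : Wt a Λ T fun y => φ ‖y - x‖ := by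
  refine ⟨fun y => h0 _, fun y => h1 _, fun y y' => (hl _ _).trans
    (mul_le_mul_of_nonneg_left ((abs_norm_sub_norm_le _ _).trans (le_of_eq ?_)) hΛ), hs⟩
  rw [sub_sub_sub_cancel_right]

lemma loct_shl {x : E} (hx : x ∈ ball (0 : E) 40) {s l : ℝ} (hs : s ≤ 8) (hl : l ≤ 1) :
    Shl x s l ⊆ ball 0 62 := by
  intro y hy
  have h1 : ‖y - x‖ - s ≤ 2 * l := (abs_le.1 hy).2
  have h2 := norm_add_le (y - x) x
  rw [sub_add_cancel] at h2
  rw [mem_ball_zero_iff] at hx ⊢
  linarith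

lemma loct_meas (x : E) (s l : ℝ) : MeasurableSet (Shl x s l) :=
  (isClosed_le (by fun_prop) continuous_const).measurableSet

lemma loct_zz {x : E} {s : ℝ} (hs : 1 / 2 ≤ s) : (∀ y y', ‖zz x s y - zz x s y'‖ ≤ 2 * ‖y - y'‖) ∧
    ∀ y, ‖y - x‖ - s ≤ 1 / 2 → ‖zz x s y‖ ≤ 2 := by
  have h0 : 0 < s := by linarith
  have h1 : s⁻¹ ≤ 2 := by rw [inv_le_comm₀ h0 two_pos]; linarith
  refine ⟨fun y y' => ?_, fun y hy => ?_⟩
  · unfold zz
    rw [← smul_sub, sub_sub_sub_cancel_right, norm_smul, Real.norm_of_nonneg (by positivity)]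
    exact mul_le_mul_of_nonneg_right h1 (norm_nonneg _)
  · unfold zz
    rw [norm_smul, Real.norm_of_nonneg (by positivity), inv_mul_le_iff₀ h0]
    linarith

lemma loct_dir {x y0 : E} {s l : ℝ} (hs : 1 / 2 ≤ s) (hl : l ≤ 1 / 8) (hy : y0 ∈ Shl x s l) :
    ‖dir x y0‖ = 1 ∧ ‖zz x s y0 - dir x y0‖ ≤ 4 * l := by
  have h0 : 0 < s := by linarith only [hs]
  have h1 : |‖y0 - x‖ - s| ≤ 2 * l := hy
  have h2 : 0 < ‖y0 - x‖ := by linarith only [(abs_le.1 h1).1, hs, hl]
  refine ⟨by rw [dir, norm_smul, norm_inv, norm_norm, inv_mul_cancel₀ h2.ne'], ?_⟩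
  rw [zz, dir, ← sub_smul, norm_smul, Real.norm_eq_abs, ← abs_of_pos h2, ← abs_mul, abs_of_pos h2,
    show (s⁻¹ - ‖y0 - x‖⁻¹) * ‖y0 - x‖ = (‖y0 - x‖ - s) / s by field_simp, abs_div, abs_of_pos h0,
    div_le_iff₀ h0]
  nlinarith only [abs_nonneg (‖y0 - x‖ - s), hs, h1]

/-- the test direction of Lemma T -/
noncomputable def loctZ (n : E) (κ : ℝ) (z : E) : E :=
  z + κ • (‖z‖ ^ 2 • n - (inner ℝ n z : ℝ) • z)

lemma loct_Z {n : E} (hn : ‖n‖ = 1) {κ : ℝ} (hκ : 2 ≤ κ) {z z' : E} (hz : ‖z‖ ≤ 2)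
    (hz' : ‖z'‖ ≤ 2) : ‖loctZ n κ z - loctZ n κ z'‖ ≤ 9 * κ * ‖z - z'‖ := by
  have e : loctZ n κ z - loctZ n κ z' = (z - z') + κ • (((‖z‖ - ‖z'‖) * (‖z‖ + ‖z'‖)) • n -
      ((inner ℝ n (z - z') : ℝ) • z + (inner ℝ n z' : ℝ) • (z - z'))) := by
    unfold loctZ
    rw [inner_sub_right]
    module
  have a1 : ‖((‖z‖ - ‖z'‖) * (‖z‖ + ‖z'‖)) • n‖ ≤ 4 * ‖z - z'‖ := by
    rw [norm_smul, hn, mul_one, Real.norm_eq_abs, abs_mul, abs_of_nonneg (a := ‖z‖ + ‖z'‖)
      (by positivity), mul_comm]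
    exact mul_le_mul (by linarith) (abs_norm_sub_norm_le _ _) (abs_nonneg _) (by norm_num)
  have a2 : ‖(inner ℝ n (z - z') : ℝ) • z‖ ≤ 2 * ‖z - z'‖ := by
    rw [norm_smul, mul_comm]
    exact mul_le_mul hz ((norm_inner_le_norm _ _).trans (by rw [hn, one_mul])) (norm_nonneg _)
      (by norm_num)
  have a3 : ‖(inner ℝ n z' : ℝ) • (z - z')‖ ≤ 2 * ‖z - z'‖ := by
    rw [norm_smul]
    exact mul_le_mul_of_nonneg_right ((norm_inner_le_norm _ _).trans (by rwa [hn, one_mul]))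
      (norm_nonneg _)
  rw [e]
  refine (norm_add_le _ _).trans ?_
  rw [norm_smul, Real.norm_of_nonneg (by linarith only [hκ])]
  have a4 := (norm_sub_le _ _).trans (add_le_add a1 ((norm_add_le _ _).trans (add_le_add a2 a3)))
  nlinarith only [mul_le_mul_of_nonneg_left a4 (show 0 ≤ κ by linarith), norm_nonneg (z - z'), hκ]

lemma loct_Z1 {n a : E} (hn : ‖n‖ = 1) (ha : ‖a‖ = 1) {h : ℝ} (h0 : 0 < h) (hh : h ≤ ‖a + n‖) :
    1 / 2 ≤ inner ℝ n (loctZ n (6 / h ^ 2) a) := by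
  have e : inner ℝ n (loctZ n (6 / h ^ 2) a) =
      inner ℝ n a + 6 / h ^ 2 * ((1 - inner ℝ n a) * (1 + inner ℝ n a)) := by
    unfold loctZ
    rw [inner_add_right, inner_smul_right, inner_sub_right, inner_smul_right, inner_smul_right,
      real_inner_self_eq_norm_sq, hn, ha]
    ring
  have a1 : h ^ 2 ≤ 2 + 2 * inner ℝ n a := by
    have := norm_add_sq_real a n
    rw [hn, ha, real_inner_comm] at this
    nlinarith only [h0, hh, this]
  have a2 := abs_le.1 ((abs_real_inner_le_norm n a).trans (le_of_eq (by rw [hn, ha, mul_one])))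
  have a3 : 0 < h ^ 2 := by positivity
  rw [e]
  rcases le_total (1 / 2 : ℝ) (inner ℝ n a) with b | b
  · have : 0 ≤ 6 / h ^ 2 * ((1 - inner ℝ n a) * (1 + inner ℝ n a)) :=
      mul_nonneg (by positivity) (mul_nonneg (by linarith only [a2]) (by linarith only [b]))
    linarith
  · have : 3 / 2 ≤ 6 / h ^ 2 * ((1 - inner ℝ n a) * (1 + inner ℝ n a)) := by
      rw [div_mul_eq_mul_div, le_div_iff₀ a3]
      nlinarith only [a1, b]
    linarith only [a1, a3, this]

section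
variable {μ} {g : E → E} {n : E} {q β : ℕ → E → ℝ} {W : ℝ}

lemma loct_far (hB : Bud μ g n q β W) (hn : ‖n‖ = 1) (hg : Continuous g) {i : ℕ} {Λ Ct B m : ℝ}
    {T T' : Set E} {w : E → ℝ} {Z : E → E} (hT : MeasurableSet T') (hT' : T' ⊆ ball 0 62)
    (hΛ : 0 ≤ Λ) (hw : Wt 1 Λ T w) (hC : 1 ≤ Ct) (hρ : Λ * rho i ≤ 3 * Ct) (hB0 : 0 ≤ B)
    (hb : ∀ y ∈ T, ‖Z y‖ ≤ B) (hl : ∀ y ∈ T, ∀ y' ∈ T, ‖Z y - Z y'‖ ≤ 2 * B * ‖y - y'‖)
    (hTT : ∀ y ∈ T, ball y (6 * rho i) ⊆ T') (hm : ∫ y in T', (q i y + β i y) ∂μ ≤ m) :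
    |∫ y, w y * inner ℝ (Z y) (g y) ∂μ| ≤ (2 * finrank ℝ E + 1) * 288 * Ct * B * m := by
  have h1 := hB.far hn hg (i := i) (H := fun y => w y • Z y) hT hT' (by positivity)
    (hw.loct_const hB0 le_rfl (Λ' := Λ * B + 1 * (2 * B)) (by linarith))
    (hw.lip_smul hΛ (by positivity) hB0 hb hl) (fun y => ?_) hTT
  · simp only [real_inner_smul_left] at h1
    have h2 : 0 ≤ ∫ y in T', (q i y + β i y) ∂μ :=
      integral_nonneg fun y => add_nonneg (hB.nq i y) (hB.nb i y)
    have h3 : rho i ≤ 1 := pow_le_one₀ (by norm_num) (by norm_num)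
    have h4 : B + (Λ * B + 1 * (2 * B)) * rho i ≤ 6 * Ct * B := by
      linarith only [mul_le_mul_of_nonneg_right hρ hB0, mul_le_mul_of_nonneg_right hC hB0, mul_le_mul_of_nonneg_right h3 hB0]
    refine h1.trans (le_trans (mul_le_mul_of_nonneg_left (mul_le_mul
      (mul_le_mul_of_nonneg_left h4 (by norm_num)) hm h2 (by positivity)) (by positivity))
      (le_of_eq (by ring)))
  · by_cases hy : y ∈ T
    · rw [norm_smul, Real.norm_of_nonneg (hw.nn y), mul_comm]
      exact mul_le_mul_of_nonneg_right (hb y hy) (hw.nn y)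
    · simp [hw.supp y hy]

lemma loct_near (hB : Bud μ g n q β W) (hn : ‖n‖ = 1) (hg : Continuous g) {i : ℕ} {Λ Ct B : ℝ}
    {T T' : Set E} {w : E → ℝ} {Z : E → E} (hT : MeasurableSet T') (hT' : T' ⊆ ball 0 62)
    (hTT : T ⊆ T') (hΛ : 0 ≤ Λ) (hw : Wt 1 Λ T w) (hC : 1 ≤ Ct) (hρ : Λ * rho i ≤ 3 * Ct)
    (hB1 : 1 ≤ B) (hb : ∀ y ∈ T, ‖Z y‖ ≤ B)
    (hl : ∀ y ∈ T, ∀ y' ∈ T, ‖Z y - Z y'‖ ≤ 2 * B * ‖y - y'‖)
    (hq : ∀ y ∈ T, 1 / 4 ≤ inner ℝ n (Z y)) :
    -(64 * Ct * ∫ y in T', β i y ∂μ) ≤ pI μ g w n ∧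
    pI μ g w n / 8 - 30000 * (finrank ℝ E + 1) ^ 2 * Ct * B ^ 2 * ∫ y in T', β i y ∂μ ≤
      ∫ y, w y * inner ℝ (Z y) (g y) ∂μ := by
  set d : ℝ := (finrank ℝ E : ℝ) with hd
  have d0 : 0 ≤ d := Nat.cast_nonneg _
  set b := ∫ y in T', β i y ∂μ with hbd
  have b0 : 0 ≤ b := integral_nonneg fun y => hB.nb i y
  have h3 : rho i ≤ 1 := pow_le_one₀ (by norm_num) (by norm_num)
  have hw' : Wt 1 Λ T' w := ⟨hw.nn, hw.le, hw.lip, fun y hy => hw.supp y fun h => hy (hTT h)⟩
  have p0 : -(64 * Ct * b) ≤ pI μ g w n := by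
    have := hB.mono hg (i := i) hT hT' hΛ (hw'.loct_const le_rfl zero_le_one (by linarith)) hw'
      fun y => by rw [zero_mul]; exact hw.nn y
    rw [loct_pI_mul, ← hbd] at this
    linarith only [mul_le_mul_of_nonneg_right hρ b0, mul_le_mul_of_nonneg_right hC b0, this]
  refine ⟨p0, ?_⟩
  have hB0 : 0 ≤ B := by linarith
  have hL := hw.lip_smul hΛ (by positivity) hB0 hb hl
  set Λ2 := 2 * (Λ * B + 1 * (2 * B)) with hΛ2
  have L0 : 0 ≤ Λ * B + 1 * (2 * B) := by positivity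
  have h4 : 2 * B + Λ2 * rho i ≤ 12 * Ct * B := by
    linarith only [mul_le_mul_of_nonneg_right hρ hB0, mul_le_mul_of_nonneg_right hC hB0, mul_le_mul_of_nonneg_right h3 hB0]
  have hin : ∀ v : E, |inner ℝ n v| ≤ ‖v‖ := fun v =>
    (abs_real_inner_le_norm _ _).trans (by rw [hn, one_mul])
  have hwz : ∀ y, ‖w y • Z y‖ ≤ B * w y := fun y => by
    by_cases hy : y ∈ T
    · rw [norm_smul, Real.norm_of_nonneg (hw.nn y), mul_comm]
      exact mul_le_mul_of_nonneg_right (hb y hy) (hw.nn y)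
    · simp [hw.supp y hy]
  have hq' : ∀ y, 1 / 4 * w y ≤ inner ℝ n (w y • Z y) := fun y => by
    rw [inner_smul_right, mul_comm]
    by_cases hy : y ∈ T
    · exact mul_le_mul_of_nonneg_left (hq y hy) (hw.nn y)
    · simp [hw.supp y hy]
  have w2 : Wt (2 * B) Λ2 T' fun y => inner ℝ n (w y • Z y) := by
    refine ⟨fun y => le_trans (by linarith only [hw.nn y]) (hq' y), fun y => ?_, fun y y' => ?_,
      fun y hy => by simp [hw'.supp y hy]⟩
    · have := mul_le_of_le_one_right hB0 (hw.le y)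
      linarith only [(le_abs_self _).trans ((hin _).trans (hwz y)), hB1, this]
    · rw [← inner_sub_right]
      refine (hin _).trans ((hL y y').trans (mul_le_mul_of_nonneg_right ?_ (norm_nonneg _)))
      linarith
  have m1 := hB.mono hg (i := i) hT hT' (by positivity) (hw'.loct_const (c := 1 / 4) (by norm_num)
    (by linarith only [hB1]) (by linarith only [mul_le_mul_of_nonneg_left hB1 hΛ, hB1, L0])) w2 hq'
  have g0 : 0 < 32 * (d + 1) * B := by positivity
  have m2 := hB.field hn hg (i := i) (γ := (32 * (d + 1) * B)⁻¹) (H := fun y => -(w y • Z y)) hT hT'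
    (show 0 ≤ Λ2 by positivity) (by positivity) (inv_le_one_of_one_le₀ (by nlinarith))
    (hw'.loct_const (c := 2 * B) (by positivity) le_rfl (by linarith only [hB1]))
    (fun y y' => by
      rw [neg_sub_neg, norm_sub_rev]
      exact (hL y y').trans (mul_le_mul_of_nonneg_right (by linarith only [L0]) (norm_nonneg _)))
    (fun y hy => by simp [hw'.supp y hy])
    (fun y => by
      refine (norm_sub_le _ _).trans ?_
      rw [norm_smul _ n, hn, mul_one, Real.norm_eq_abs]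
      have := hin (-(w y • Z y))
      rw [norm_neg] at this ⊢
      linarith only [hwz y, this])
  have e1 : pI μ g (fun y => inner ℝ n (-(w y • Z y))) n =
      -1 * pI μ g (fun y => inner ℝ n (w y • Z y)) n := by
    rw [← loct_pI_mul]; simp only [inner_neg_right, neg_mul, one_mul]
  simp only [inner_neg_left, integral_neg, real_inner_smul_left] at m2
  rw [e1, loct_pI_mul, ← hbd, ← hd, div_inv_eq_mul] at m2
  rw [loct_pI_mul, ← hbd] at m1
  set p := pI μ g w n with hp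
  have e2 : 2 * d * ((32 * (d + 1) * B)⁻¹ * (2 * B * p)) = p / 8 - p / (8 * (d + 1)) := by
    field_simp; ring
  have e3 : -(64 * Ct * b) ≤ p / (8 * (d + 1)) := by
    rw [le_div_iff₀ (by positivity)]
    have : 0 ≤ Ct * b := by positivity
    nlinarith
  have k0 : 0 ≤ Ct * B * b := by positivity
  have k1 := mul_le_mul_of_nonneg_right h4 b0
  have k2 : 2 * d * (32 * (2 * B + Λ2 * rho i) * (32 * (d + 1) * B) * b) ≤
      24576 * (d + 1) ^ 2 * Ct * B ^ 2 * b := by
    have := mul_le_mul_of_nonneg_left k1 (show 0 ≤ 2048 * d * (d + 1) * B by positivity)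
    have k3 : 0 ≤ (d + 1) * Ct * B ^ 2 * b := by positivity
    linarith only [this, k3]
  have k4 : Ct * B * b ≤ (d + 1) ^ 2 * Ct * B ^ 2 * b := by
    have : 1 ≤ (d + 1) ^ 2 * B := by nlinarith
    linarith only [mul_le_mul_of_nonneg_right this k0]
  have k5 : Ct * b ≤ Ct * B * b := by
    have : 0 ≤ Ct * b := by positivity
    nlinarith only [hB1, this]
  rw [mul_add, e2] at m2
  linarith only [m1, m2, e3, k0, k1, k2, k4, k5]

lemma loct_split {s Ct γ : ℝ} {χ χp : ℕ → ℝ → ℝ} (h : Tent s Ct χ χp) (hC : 1 ≤ Ct) (J : ℕ)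
    (hγ : lam J ≤ γ) (x y0 : E) : ∃ (wn wf : E → ℝ) (Λ : ℝ), 0 ≤ Λ ∧ Λ * lam J ≤ 3 * Ct ∧
      Wt 1 Λ (Shl x s (lam J / 2) ∩ {y | ‖y - y0‖ ≤ 2 * γ}) wn ∧
      Wt 1 Λ (Shl x s (lam J / 2) ∩ {y | γ ≤ ‖y - y0‖}) wf ∧
      ∀ y, χp J ‖y - x‖ - χ J ‖y - x‖ = wn y + wf y := by
  have hl := loct_lam_pos J
  have g0 : 0 < γ := by linarith
  obtain ⟨t0, t1, t2, t3⟩ := loct_theta h J
  obtain ⟨e0, e1, e2, e3, e4⟩ := loct_eta g0 y0
  have hΘ := loct_rad (φ := fun t => χp J t - χ J t) (T := Shl x s (lam J / 2)) x (by positivity)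
    t0 t1 t2 fun y hy => t3 _ (by
      have : ¬ |‖y - x‖ - s| ≤ 2 * (lam J / 2) := hy
      linarith only [this])
  refine ⟨_, _, 2 * Ct / lam J + γ⁻¹, by positivity, ?_,
    hΘ.loct_mul e0 e1 e2 fun y a b => e3 y (not_le.1 fun c => b ⟨a, c⟩),
    hΘ.loct_mul (η := fun y => 1 - loctEta γ y0 y) (fun y => by linarith [e1 y])
      (fun y => by linarith [e0 y])
      (fun y y' => by rw [sub_sub_sub_cancel_left, abs_sub_comm]; exact e2 y y')
      fun y a b => by rw [e4 y (not_le.1 fun c => b ⟨a, c⟩), sub_self], fun y => by ring⟩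
  have : γ⁻¹ * lam J ≤ 1 := by rw [inv_mul_le_iff₀ g0]; linarith
  rw [add_mul, div_mul_cancel₀ _ hl.ne']
  linarith

lemma loct_nbhd {x y0 : E} {s l l' γ ρ : ℝ} (h1 : l + 6 * ρ ≤ 2 * l') (h2 : 12 * ρ ≤ γ) {y : E}
    (hy : y ∈ Shl x s (l / 2)) (hy' : γ ≤ ‖y - y0‖) :
    ball y (6 * ρ) ⊆ Shl x s l' \ ball y0 (γ / 2) := by
  intro z hz
  rw [mem_ball_iff_norm] at hz
  have a1 : |‖y - x‖ - s| ≤ 2 * (l / 2) := hy
  have a2 := abs_norm_sub_norm_le (z - x) (y - x)
  have a3 := abs_norm_sub_norm_le (z - y0) (y - y0)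
  rw [sub_sub_sub_cancel_right, abs_le] at a2 a3
  rw [abs_le] at a1
  refine ⟨show |‖z - x‖ - s| ≤ 2 * l' from
    abs_le.2 ⟨by linarith only [a1.1, a2.1, h1, hz], by linarith only [a1.2, a2.2, h1, hz]⟩, fun h => ?_⟩
  rw [mem_ball_iff_norm] at h
  linarith only [a3.1, h2, hy', hz, h]

end

lemma loct_alg {Ct D H l e b A P P' p pf pk N F sI : ℝ} (hC : 1 ≤ Ct) (D1 : 1 ≤ D) (H1 : 1 ≤ H)
    (l0 : 0 < l) (l1 : 100 * l ≤ e) (u1 : 10 ^ 9 * D * (e * H) ≤ 1) (b0 : 0 ≤ b) (A0 : 0 < A)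
    (e0 : 0 < e) (P1 : P' ≤ P) (P0 : 0 ≤ P) (n1 : -(64 * Ct * b) ≤ p)
    (n2 : p / 8 - 30000 * (D + 1) ^ 2 * Ct * (108 * H) ^ 2 * b ≤ N)
    (f1 : |F| ≤ (2 * D + 1) * 288 * Ct * (108 * H) * (8 * e * A))
    (f2 : |pf| ≤ (2 * D + 1) * 288 * Ct * 1 * (8 * e * A))
    (m1 : pk ≤ 8 * l * (P' + (p + pf)) + 16 * (16 * Ct * l) * (4 * A))
    (q2 : sI + 6 * H * ((D - 1) * pk) = N + F) :
    -(10 ^ 9 * (D + 1) ^ 2 * Ct * (H * (e * A) + H ^ 2 * b + H ^ 2 * (l * (P + A)))) ≤ sI := by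
  have D0 : 0 ≤ D := by linarith only [D1]
  rw [abs_le] at f1 f2
  rw [← mul_assoc] at q2
  have θ0 : 0 ≤ 6 * H * (D - 1) := mul_nonneg (by linarith only [H1]) (by linarith only [D1])
  have θ1 : 6 * H * (D - 1) * (8 * l) ≤ 1 / 8 := by
    have := mul_le_mul_of_nonneg_left l1 (show 0 ≤ H * D by positivity)
    linarith only [mul_pos l0 (show 0 < H by linarith only [H1]), u1, this]
  have θ3 : 6 * H * (D - 1) ≤ 6 * D * H ^ 2 := by
    linarith only [mul_le_mul_of_nonneg_left H1 (show 0 ≤ H * D by positivity), H1]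
  generalize 6 * H * (D - 1) = θ at *
  have θ2 : 0 ≤ θ * (8 * l) := by positivity
  have r1 := mul_le_mul_of_nonneg_left m1 θ0
  have r2 : -(8 * Ct * b) ≤ (1 / 8 - θ * (8 * l)) * p := by
    linarith only [mul_le_mul_of_nonneg_left n1 (sub_nonneg.2 θ1), mul_nonneg θ2 (show 0 ≤ Ct * b by positivity)]
  have r3 : θ * (8 * l) * pf ≤ (2 * D + 1) * 288 * Ct * (e * A) := by
    linarith only [mul_le_mul_of_nonneg_left f2.2 θ2, mul_le_mul_of_nonneg_right θ1
      (show 0 ≤ (2 * D + 1) * 288 * Ct * 1 * (8 * e * A) by positivity)]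
  have r4 : θ * (8 * l * P' + 1024 * Ct * l * A) ≤ 6 * D * H ^ 2 * (1024 * Ct * (l * (P + A))) := by
    refine le_trans (mul_le_mul_of_nonneg_left ?_ θ0) (mul_le_mul_of_nonneg_right θ3 (by positivity))
    linarith only [mul_le_mul_of_nonneg_left P1 l0.le, mul_nonneg l0.le P0, mul_le_mul_of_nonneg_right hC (mul_nonneg l0.le P0)]
  have s1 : 0 ≤ Ct * (H * (e * A)) := by positivity
  have s2 : 0 ≤ Ct * (H ^ 2 * b) := by positivity
  have s3 : 0 ≤ Ct * (H ^ 2 * (l * (P + A))) := by positivity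
  have s4 := mul_le_mul_of_nonneg_right (one_le_pow₀ H1 (n := 2)) (show 0 ≤ Ct * b by positivity)
  have s5 := mul_le_mul_of_nonneg_right H1 (show 0 ≤ (2 * D + 1) * (Ct * (e * A)) by positivity)
  have s6 := mul_nonneg D0 s1
  have s7 := mul_nonneg D0 s2
  have s8 := mul_nonneg D0 s3
  linarith [mul_nonneg D0 s6, mul_nonneg D0 s7, mul_nonneg D0 s8, f1.1]

theorem locT (Ct : ℝ) : ∃ C : ℝ, 1 ≤ C ∧ ∀ {g : E → E} {n : E} {q β : ℕ → E → ℝ} {W : ℝ} {x : E}
    {s : ℝ} {χ χp : ℕ → ℝ → ℝ} {f : E → ℝ} {S K : ℝ}, Ctx μ g n q β W x s χ χp f S K Ct →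
    ∀ (J J' J'' : ℕ) (y0 : E) (h : ℝ), (J' = J ∨ J' + 1 = J) → (J'' = J ∨ J'' + 1 = J) →
      CaseL μ q β W x s J' y0 → 0 < h → h ≤ 1 → h ≤ ‖dir x y0 + n‖ → C * ee J ^ 3 ≤ h ^ 2 →
      -(C / h ^ 4 * (ee J ^ 3 * h ^ 2 * AA W J + bb μ β x s J'' +
          lam J * (max (PP μ g n x χ J) 0 + AA W J))) ≤
        sI μ g x s fun t => χp J t - χ J t := by
  set D : ℝ := (finrank ℝ E : ℝ) with hD
  have D0 : 0 ≤ D := Nat.cast_nonneg _
  refine ⟨10 ^ 9 * (D + 1) ^ 2 * max Ct 1, by nlinarith [le_max_right Ct 1], ?_⟩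
  intro g n q β W x s χ χp f S K c J J' J'' y0 h hJ' hJ'' hL h0 h1 hh hsm
  have hC := c.hC
  rw [max_eq_left hC] at hsm ⊢
  have hg : Continuous g := loct_cont c.sm.lip
  have hW := c.hW
  have D1 : 1 ≤ D := by
    have : Nontrivial E := ⟨n, 0, fun h => by simpa [h] using c.hn⟩
    exact Nat.one_le_cast.2 finrank_pos
  have lv : ∀ i, (i = J ∨ i + 1 = J) → lam J ≤ lam i ∧ lam (i + 1) ≤ lam J ∧
      ee i ^ 3 ≤ 8 * ee J ^ 3 ∧ AA W i ≤ AA W J := by
    have a0 : ∀ i, 0 < AA W i := fun i => by unfold AA; positivity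
    rintro i (rfl | rfl)
    · exact ⟨le_rfl, by linarith only [loct_lam_succ i, loct_lam_pos (i + 1)],
        by linarith [pow_pos (loct_ee_pos i) 3], le_rfl⟩
    · exact ⟨by linarith [loct_lam_succ i, loct_lam_pos (i + 1)], le_rfl,
        by rw [loct_ee_succ]; linarith, by rw [loct_AA]; linarith [a0 i]⟩
  obtain ⟨a1, a2, a3, a4⟩ := lv J' hJ'
  obtain ⟨b1, b2, -, -⟩ := lv J'' hJ''
  have l0 := loct_lam_pos J
  have l1 := loct_lam_le J
  have l2 := loct_lam_le J'
  have l3 := loct_lam_succ J'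
  have l4 := loct_lam_pos (J' + 1)
  have l5 := loct_lam_le J''
  have l6 := loct_lam_succ J
  have l7 := loct_lam_pos (J + 1)
  have e1 : ∀ i, ee i ^ 3 ≤ 1 := fun i => pow_le_one₀ (loct_ee_pos i).le (loct_ee_le i)
  have e0 : 0 < ee J ^ 3 := pow_pos (loct_ee_pos J) 3
  obtain ⟨wn, wf, Λ, L0, L1, hn, hf, hsum⟩ := loct_split c.tent hC J (γ := ee J' ^ 3)
    (by linarith only [a1, l2, l3, l4]) x y0
  set H := (h ^ 2)⁻¹ with hH
  have H1 : 1 ≤ H := (one_le_inv₀ (by positivity)).2 (pow_le_one₀ h0.le h1)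
  have hsm' : 10 ^ 9 * (D + 1) ^ 2 * Ct * (ee J ^ 3 * H) ≤ 1 := by
    rw [← mul_assoc, hH, ← div_eq_mul_inv, div_le_one (by positivity)]; exact hsm
  have u0 : 0 < ee J ^ 3 * H := by positivity
  have u1 : 10 ^ 9 * D * (ee J ^ 3 * H) ≤ 1 :=
    le_trans (mul_le_mul_of_nonneg_right (by nlinarith only [hC, D1]) u0.le) hsm'
  have u2 : 10 ^ 9 * (ee J ^ 3 * H) ≤ 1 := by nlinarith only [D1, u1]
  obtain ⟨z1, z2⟩ := loct_zz (x := x) c.hs.1
  have z3 : ∀ y ∈ Shl x s (lam J / 2), ‖zz x s y‖ ≤ 2 := fun y hy => z2 y (by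
    have : |‖y - x‖ - s| ≤ 2 * (lam J / 2) := hy
    linarith only [(abs_le.1 this).2, e1 J, l1])
  set Z : E → E := fun y => loctZ n (6 * H) (zz x s y) with hZ
  have Z1 : ∀ y ∈ Shl x s (lam J / 2), ‖Z y‖ ≤ 108 * H := fun y hy => by
    have := loct_Z c.hn (κ := 6 * H) (by linarith only [H1, u0, u2]) (z3 y hy) (z' := 0) (by simp)
    simp only [loctZ, norm_zero, inner_zero_right, smul_zero, sub_zero, zero_pow two_ne_zero,
      zero_smul, add_zero] at this
    refine this.trans ?_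
    nlinarith only [z3 y hy, H1]
  have Z2 : ∀ y ∈ Shl x s (lam J / 2), ∀ y' ∈ Shl x s (lam J / 2),
      ‖Z y - Z y'‖ ≤ 2 * (108 * H) * ‖y - y'‖ := fun y hy y' hy' => by
    refine (loct_Z c.hn (κ := 6 * H) (by linarith only [H1, u0, u2]) (z3 y hy) (z3 y' hy')).trans ?_
    linarith only [mul_le_mul_of_nonneg_left (z1 y y') (show 0 ≤ H by linarith only [H1, u0, u2]), mul_nonneg (show 0 ≤ H by linarith only [H1, u0, u2]) (norm_nonneg (y - y'))]
  obtain ⟨d1, d2⟩ := loct_dir c.hs.1 (by linarith only [e1 J', l2, u0, u2]) hL.1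
  have S1 := loct_shl c.hx c.hs.2 (l := lam J'') (by linarith only [e1 J'', l5, u0, u2])
  have S2 := loct_shl c.hx c.hs.2 (l := lam J') (by linarith only [e1 J', l2, u0, u2])
  have S3 := loct_shl c.hx c.hs.2 (l := lam J / 2) (by linarith only [e1 J, l1, u0, u2])
  obtain ⟨n1, n2⟩ := loct_near c.bud c.hn hg (i := lev J'') (Z := Z) (B := 108 * H)
    (loct_meas x s (lam J'')) S1 (fun y hy => le_trans (b := 2 * (lam J / 2)) hy.1 (by linarith only [b1, l6, l7]))
    L0 hn hC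
    (le_trans (mul_le_mul_of_nonneg_left b2 L0) L1) (by linarith only [H1, u0, u2]) (fun y hy => Z1 y hy.1)
    (fun y hy y' hy' => Z2 y hy.1 y' hy'.1) fun y hy => by
      have k1 := loct_Z1 c.hn d1 h0 hh
      have k2 := loct_Z c.hn (κ := 6 * H) (by linarith only [H1, u0, u2]) (z3 y hy.1) (d1.le.trans one_le_two)
      have k3 := norm_sub_le_norm_sub_add_norm_sub (zz x s y) (zz x s y0) (dir x y0)
      have k4 : ‖y - y0‖ ≤ 2 * ee J' ^ 3 := hy.2
      have k5 := abs_real_inner_le_norm n (Z y - loctZ n (6 * H) (dir x y0))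
      have k6 : ‖zz x s y - dir x y0‖ ≤ 40 * ee J ^ 3 := by linarith only [z1 y y0, a3, l1, l2, l6, l7, d2, k3, k4]
      rw [c.hn, one_mul, inner_sub_right, abs_le] at k5
      rw [div_eq_mul_inv 6, ← hH] at k1
      change ‖Z y - _‖ ≤ _ at k2
      linarith only [mul_le_mul_of_nonneg_left k6 (show 0 ≤ H by linarith only [H1, u0, u2]), k5.1, u2, k1, k2]
  have fr : ∀ (Y : E → E) (B : ℝ), 0 ≤ B → (∀ y ∈ Shl x s (lam J / 2), ‖Y y‖ ≤ B) →
      (∀ y ∈ Shl x s (lam J / 2), ∀ y' ∈ Shl x s (lam J / 2), ‖Y y - Y y'‖ ≤ 2 * B * ‖y - y'‖) →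
      |∫ y, wf y * inner ℝ (Y y) (g y) ∂μ| ≤ (2 * D + 1) * 288 * Ct * B * (8 * ee J ^ 3 * AA W J) :=
    fun Y B B0 Y1 Y2 => loct_far c.bud c.hn hg (i := lev J')
      ((loct_meas x s (lam J')).diff measurableSet_ball) (sdiff_subset.trans S2) L0 hf hC
      (le_trans (mul_le_mul_of_nonneg_left a2 L0) L1) B0 (fun y hy => Y1 y hy.1)
      (fun y hy y' hy' => Y2 y hy.1 y' hy'.1)
      (fun y hy => loct_nbhd (by rw [loct_rho]; linarith only [a1, l3, l4]) (by rw [loct_rho]; linarith only [l2, l3, l4]) hy.1 hy.2)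
      (hL.2.trans (mul_le_mul a3 a4 (by unfold AA; positivity) (by positivity)))
  have f1 := fr Z (108 * H) (by linarith only [H1, u0, u2]) Z1 Z2
  have f2 := fr (fun _ => n) 1 zero_le_one (fun _ _ => c.hn.le) fun _ _ _ _ => by simp only [sub_self, norm_zero, mul_one, Nat.ofNat_pos, mul_nonneg_iff_of_pos_left, norm_nonneg]
  obtain ⟨t0, t1, t2, t3⟩ := loct_theta c.tent J
  obtain ⟨k, k0, k1, k2, k3, k4, k5⟩ := curl μ c.sm x c.hs l0 (by linarith only [e1 J, l1, u0, u2])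
    (ψ := fun t => χp J t - χ J t) (ω := χp J)
    (LipschitzWith.of_dist_le' (K := 2 * Ct / lam J) t2).continuous t0
    (fun t => by linarith only [c.tent.nn J t]) t1 (c.tent.panti J) t3
  have T1 : closedBall x 9 ⊆ ball (0 : E) 62 := closedBall_subset_ball' (by
    linarith only [mem_ball.1 c.hx, u0, u2])
  have T2 : ∀ y, y ∉ closedBall x 9 → s + lam J ≤ ‖y - x‖ := fun y hy => by
    rw [mem_closedBall_iff_norm, not_le] at hy
    linarith only [c.hs.2, e1 J, l1, u0, u2, hy]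
  have w1 := loct_rad (T := closedBall x 9) x (by positivity) (c.tent.nn J) (c.tent.le J)
    (c.tent.lip J) fun y hy => c.tent.zero J _ (by linarith only [T2 y hy, l6, l7])
  have w2 := loct_rad (T := closedBall x 9) x (by positivity) (c.tent.pnn J) (c.tent.ple J)
    (c.tent.plip J) fun y hy => c.tent.pzero J _ (T2 y hy)
  have m1 := c.bud.mono hg (i := lev J) measurableSet_closedBall T1 (Λ := 8 * Ct) (by positivity)
    (loct_rad x (by positivity) k0 k2 (fun t t' => (k3 t t').trans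
      (mul_le_mul_of_nonneg_right (by linarith only [hC, u0, u2]) (abs_nonneg _))) fun y hy => k4 _ (T2 y hy))
    (w2.loct_const (c := 8 * lam J) (by positivity) le_rfl (le_of_eq (by field_simp)))
    fun y => k1 _
  have m2 : ∫ y in closedBall x 9, β (lev J) y ∂μ ≤ 4 * AA W J :=
    (setIntegral_mono_set (((c.bud.cb _).continuousOn.integrableOn_compact
      (isCompact_closedBall 0 64)).mono_set ball_subset_closedBall)
      (Filter.Eventually.of_forall (c.bud.nb _))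
      (T1.trans (ball_subset_ball (by norm_num))).eventuallyLE).trans
      ((c.bud.tot _).trans (loct_tot hW J))
  have cn : Continuous fun y => inner ℝ n (g y) := by fun_prop
  have cz : Continuous (zz x s) := loct_cont z1
  have cZ : Continuous fun y => inner ℝ (Z y) (g y) := by
    simp only [hZ, loctZ]; fun_prop
  have i1 := fun {φ : E → ℝ} (hφ : Continuous φ) => hn.loct_int μ (inter_subset_left.trans S3) hφ
  have i2 := fun {φ : E → ℝ} (hφ : Continuous φ) => hf.loct_int μ (inter_subset_left.trans S3) hφ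
  have q1 : pI μ g (fun y => χp J ‖y - x‖) n =
      PP μ g n x χ J + (pI μ g wn n + ∫ y, wf y * inner ℝ n (g y) ∂μ) := by
    unfold PP pI
    rw [← integral_add (i1 cn) (i2 cn)]
    refine Eq.trans (integral_congr_ae (Filter.Eventually.of_forall fun y => ?_))
      (integral_add (w1.loct_int μ T1 cn) ((i1 cn).add (i2 cn)))
    simp only [← add_mul, ← hsum]; ring
  have q2 : (sI μ g x s fun t => χp J t - χ J t) +
      6 * H * ((D - 1) * pI μ g (fun y => k ‖y - x‖) n) =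
      ∫ y, wn y * inner ℝ (Z y) (g y) ∂μ + ∫ y, wf y * inner ℝ (Z y) (g y) ∂μ := by
    have c1 : Continuous fun y => inner ℝ (zz x s y) (g y) := by fun_prop
    have c2 : Continuous fun y => ‖zz x s y‖ ^ 2 * inner ℝ n (g y) -
        inner ℝ n (zz x s y) * inner ℝ (zz x s y) (g y) := by fun_prop
    unfold sI
    rw [← k5 n, ← integral_const_mul, ← integral_add (i1 cZ) (i2 cZ)]
    simp only [hsum, add_mul]
    refine (integral_add ((i1 c1).add (i2 c1)) (((i1 c2).add (i2 c2)).const_mul _)).symm.trans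
      (integral_congr_ae (Filter.Eventually.of_forall fun y => ?_))
    simp only [hZ, loctZ, inner_add_left, inner_sub_left, real_inner_smul_left, Pi.add_apply]
    ring
  rw [loct_pI_mul, q1, loct_rho] at m1
  have b0 : 0 ≤ bb μ β x s J'' := integral_nonneg fun y => c.bud.nb _ y
  have A0 : 0 < AA W J := by unfold AA; positivity
  change -(64 * Ct * bb μ β x s J'') ≤ _ at n1
  change _ - _ * bb μ β x s J'' ≤ _ at n2
  rw [← hD] at n2
  have P1 := le_max_left (PP μ g n x χ J) 0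
  have P0 := le_max_right (PP μ g n x χ J) 0
  have m3 : 16 * (8 * lam J + 8 * Ct * lam (J + 1)) * ∫ y in closedBall x 9, β (lev J) y ∂μ ≤
      16 * (16 * Ct * lam J) * (4 * AA W J) :=
    mul_le_mul (by nlinarith only [hC, l6, l7]) m2 (integral_nonneg fun y => c.bud.nb _ y) (by positivity)
  have e : 10 ^ 9 * (D + 1) ^ 2 * Ct / h ^ 4 * (ee J ^ 3 * h ^ 2 * AA W J + bb μ β x s J'' +
      lam J * (max (PP μ g n x χ J) 0 + AA W J)) = 10 ^ 9 * (D + 1) ^ 2 * Ct *
      (H * (ee J ^ 3 * AA W J) + H ^ 2 * bb μ β x s J'' +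
        H ^ 2 * (lam J * (max (PP μ g n x χ J) 0 + AA W J))) := by
    rw [hH]; field_simp
  rw [e]
  exact loct_alg hC D1 H1 l0 l1 u1 b0 A0 e0 P1 P0 n1 n2 f1 f2 (m1.trans (add_le_add le_rfl m3)) q2

theorem locLL (Ct : ℝ) : ∃ C : ℝ, 1 ≤ C ∧ ∀ {g : E → E} {n : E} {q β : ℕ → E → ℝ} {W : ℝ} {x : E}
    {s : ℝ} {χ χp : ℕ → ℝ → ℝ} {f : E → ℝ} {S K : ℝ}, Ctx μ g n q β W x s χ χp f S K Ct →
    ∀ (J : ℕ) (y0 y1 : E), CaseL μ q β W x s J y0 → CaseL μ q β W x s (J + 1) y1 →
      C * ee J ≤ 1 → ee (J + 1) ≤ ‖dir x y1 - dir x y0‖ →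
      |sI μ g x s fun t => χp (J + 1) t - χ (J + 1) t| ≤ C * ee J ^ 3 * AA W J := by
  set D : ℝ := (finrank ℝ E : ℝ) with hD
  have D0 : 0 ≤ D := Nat.cast_nonneg _
  refine ⟨(2 * D + 1) * 1152 * max Ct 1, by nlinarith [le_max_right Ct 1], ?_⟩
  intro g n q β W x s χ χp f S K c J y0 y1 h0 h1 hsm hd
  have hC := c.hC
  rw [max_eq_left hC] at hsm ⊢
  have hg : Continuous g := loct_cont c.sm.lip
  have hW := c.hW
  have l0 := loct_lam_pos (J + 1)
  have l1 := loct_lam_le J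
  have l2 := loct_lam_le (J + 1)
  have l3 := loct_lam_succ J
  have l4 := loct_lam_succ (J + 1)
  have l5 := loct_lam_pos (J + 1 + 1)
  have e0 := loct_ee_pos J
  have e1 : ee J ≤ 1 / 4 := by
    have : 4 ≤ (2 * D + 1) * 1152 * Ct := by nlinarith
    nlinarith only [hsm, this]
  have e2 : ee J ^ 3 ≤ ee J / 16 := by nlinarith [mul_pos e0 e0]
  have e3 : ee (J + 1) ^ 3 = ee J ^ 3 / 8 := by rw [loct_ee_succ]; ring
  have A0 : 0 < AA W J := by unfold AA; positivity
  obtain ⟨wn, wf, Λ, L0, L1, hn, hf, hsum⟩ := loct_split c.tent hC (J + 1) (γ := ee (J + 1) ^ 3)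
    (by linarith only [l1, l3, l4, l5, e3]) x y1
  obtain ⟨z1, z2⟩ := loct_zz (x := x) c.hs.1
  have z3 : ∀ y ∈ Shl x s (lam (J + 1) / 2), ‖zz x s y‖ ≤ 2 := fun y hy => z2 y (by
    have : |‖y - x‖ - s| ≤ 2 * (lam (J + 1) / 2) := hy
    linarith only [(abs_le.1 this).2, l1, l3, e1, e2])
  have z4 : ∀ y y', ‖zz x s y - zz x s y'‖ ≤ 2 * 2 * ‖y - y'‖ := fun y y' => by
    linarith only [z1 y y', norm_nonneg (y - y')]
  have S1 := loct_shl c.hx c.hs.2 (l := lam J) (by linarith only [l1, e1, e2])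
  have S2 := loct_shl c.hx c.hs.2 (l := lam (J + 1)) (by linarith only [l1, l3, e1, e2])
  have S3 := loct_shl c.hx c.hs.2 (l := lam (J + 1) / 2) (by linarith only [l1, l3, e1, e2])
  have d0 := (loct_dir c.hs.1 (by linarith only [l1, e1, e2]) h0.1).2
  have d1 := (loct_dir c.hs.1 (by linarith only [l1, l3, e1, e2]) h1.1).2
  have d2 : ee J / 5 ≤ ‖y1 - y0‖ := by
    have a1 := norm_sub_le_norm_sub_add_norm_sub (dir x y1) (zz x s y1) (dir x y0)
    have a2 := norm_sub_le_norm_sub_add_norm_sub (zz x s y1) (zz x s y0) (dir x y0)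
    rw [norm_sub_rev] at d1
    rw [loct_ee_succ] at hd
    linarith only [z1 y1 y0, hd, l1, l3, l4, l5, e2, d0, d1, a1, a2]
  have f1 := loct_far c.bud c.hn hg (i := lev J) (Z := zz x s)
    ((loct_meas x s (lam J)).diff measurableSet_ball) (sdiff_subset.trans S1) L0 hn hC L1
    zero_le_two (fun y hy => z3 y hy.1) (fun y _ y' _ => z4 y y')
    (fun y hy => loct_nbhd (by rw [loct_rho]; linarith only [l3, l4, l5]) (by rw [loct_rho]; linarith only [l1, l3, l4, l5]) hy.1 (by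
      have a1 : ‖y - y1‖ ≤ 2 * ee (J + 1) ^ 3 := hy.2
      have a2 := norm_sub_le_norm_sub_add_norm_sub y1 y y0
      rw [norm_sub_rev y1 y] at a2
      linarith)) h0.2
  have f2 := loct_far c.bud c.hn hg (i := lev (J + 1)) (Z := zz x s)
    ((loct_meas x s (lam (J + 1))).diff measurableSet_ball) (sdiff_subset.trans S2) L0 hf hC
    (le_trans (mul_le_mul_of_nonneg_left (by rw [loct_rho]; linarith only [l4, l5]) L0) L1)
    zero_le_two (fun y hy => z3 y hy.1) (fun y _ y' _ => z4 y y')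
    (fun y hy => loct_nbhd (by rw [loct_rho]; linarith only [l4, l5]) (by rw [loct_rho]; linarith only [l1, l3, l4, l5, e3]) hy.1 hy.2) h1.2
  have cz : Continuous (zz x s) := loct_cont z1
  have c1 : Continuous fun y => inner ℝ (zz x s y) (g y) := by fun_prop
  unfold sI
  simp only [hsum, add_mul]
  rw [integral_add (hn.loct_int μ (inter_subset_left.trans S3) c1)
    (hf.loct_int μ (inter_subset_left.trans S3) c1)]
  refine (abs_add_le _ _).trans ((add_le_add f1 f2).trans ?_)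
  rw [e3, loct_AA, ← hD]
  have : 0 ≤ (2 * D + 1) * Ct * (ee J ^ 3 * AA W J) := by positivity
  linarith only [this]

end Pool.Agent.MP_a25fb7_an.Cn

end

section
set_option autoImplicit false
set_option linter.unusedSectionVars false
open MeasureTheory Metric Set Module
open scoped ENNReal

namespace Pool.Agent.MP_a25fb7_an.Cn

variable {E : Type*} [NormedAddCommGroup E] [InnerProductSpace ℝ E] [FiniteDimensional ℝ E]
  [MeasurableSpace E] [BorelSpace E] (μ : Measure E) [μ.IsAddHaarMeasure]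

theorem locL (Ct : ℝ) : ∃ C : ℝ, 1 ≤ C ∧ ∀ {g : E → E} {n : E} {q β : ℕ → E → ℝ} {W : ℝ} {x : E}
    {s : ℝ} {χ χp : ℕ → ℝ → ℝ} {f : E → ℝ} {S K : ℝ}, Ctx μ g n q β W x s χ χp f S K Ct →
    ∀ (J : ℕ) (y0 : E), CaseL μ q β W x s J y0 →
      ‖GG μ g x χ J - (TT μ g x s χ J - TT μ g x s χ (J + 1)) • dir x y0‖ ≤
        C * ee J * (max (PP μ g n x χ (J + 1)) 0 + AA W J) := by
  set D : ℝ := (finrank ℝ E : ℝ) with hD
  have D0 : 0 ≤ D := Nat.cast_nonneg _
  refine ⟨10 ^ 4 * (2 * D + 1) ^ 2 * max Ct 1, by nlinarith [le_max_right Ct 1], ?_⟩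
  intro g n q β W x s χ χp f S K c J y0 hL
  have hC := c.hC
  rw [max_eq_left hC]
  have hg : Continuous g := loct_cont c.sm.lip
  have hW := c.hW
  have D1 : 1 ≤ D := by
    have : Nontrivial E := ⟨n, 0, fun h => by simpa [h] using c.hn⟩
    exact Nat.one_le_cast.2 finrank_pos
  have l0 := loct_lam_pos J
  have l1 := loct_lam_le J
  have l2 := loct_lam_succ J
  have l3 := loct_lam_pos (J + 1)
  have e0 := loct_ee_pos J
  have e1 : ee J ^ 3 ≤ ee J := pow_le_of_le_one e0.le (loct_ee_le J) (by norm_num)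
  have e2 := loct_ee_le J
  have A0 : 0 < AA W J := by unfold AA; positivity
  set P := max (PP μ g n x χ (J + 1)) 0 with hP
  have P0 : 0 ≤ P := le_max_right _ _
  have T1 : closedBall x 9 ⊆ ball (0 : E) 62 := closedBall_subset_ball' (by
    linarith only [mem_ball.1 c.hx, l1, l2, l3, e1, e2])
  have w1 := fun i => loct_rad (T := closedBall x 9) x (by have := loct_lam_pos i; positivity)
    (c.tent.nn i) (c.tent.le i) (c.tent.lip i) fun y hy => c.tent.zero i _ (by
      rw [mem_closedBall_iff_norm, not_le] at hy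
      linarith [c.hs.2])
  have m2 : ∫ y in closedBall x 9, β (lev J) y ∂μ ≤ 4 * AA W J :=
    (setIntegral_mono_set (((c.bud.cb _).continuousOn.integrableOn_compact
      (isCompact_closedBall 0 64)).mono_set ball_subset_closedBall)
      (Filter.Eventually.of_forall (c.bud.nb _))
      (T1.trans (ball_subset_ball (by norm_num))).eventuallyLE).trans
      ((c.bud.tot _).trans (loct_tot hW J))
  have sm : ∀ (H : E → E) (B Λ : ℝ), 0 ≤ B → 0 ≤ Λ → Λ * lam (J + 1) ≤ 4 * Ct * B →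
      (∀ y y', ‖H y - H y'‖ ≤ Λ * ‖y - y'‖) → (∀ y, ‖H y‖ ≤ B * χ (J + 1) ‖y - x‖) →
      |∫ y, inner ℝ (H y) (g y) ∂μ| ≤ B * ((2 * D + 1) * (768 * Ct * (P + AA W J))) := by
    intro H B Λ B0 L0 L1 hl hb
    have k0 : 0 ≤ B * (Ct / lam (J + 1)) := by positivity
    have h1 := c.bud.fieldG c.hn hg (i := lev J) (Λ := Λ + B * (Ct / lam (J + 1)))
      measurableSet_closedBall T1 (by positivity) ((w1 (J + 1)).loct_const B0 le_rfl (by linarith only [L0]))
      (fun y y' => (hl y y').trans (mul_le_mul_of_nonneg_right (by linarith only [k0]) (norm_nonneg _))) hb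
    rw [loct_pI_mul, loct_rho, ← hD] at h1
    have k1 : B + (Λ + B * (Ct / lam (J + 1))) * lam (J + 1) ≤ 6 * Ct * B := by
      rw [add_mul, mul_assoc B, div_mul_cancel₀ _ l3.ne']
      linarith only [mul_le_mul_of_nonneg_right hC B0, L1]
    have k2 := mul_le_mul (mul_le_mul_of_nonneg_left k1 (show (0 : ℝ) ≤ 32 by norm_num)) m2
      (integral_nonneg fun y => c.bud.nb _ y) (by positivity)
    have k3 : B * PP μ g n x χ (J + 1) ≤ B * P := mul_le_mul_of_nonneg_left (le_max_left _ _) B0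
    refine h1.trans ?_
    rw [mul_left_comm B]
    refine mul_le_mul_of_nonneg_left ((add_le_add k3 k2).trans ?_) (by positivity)
    linarith only [mul_le_mul_of_nonneg_right hC (mul_nonneg B0 P0), mul_nonneg B0 P0]
  have t0 : ∀ t, 0 ≤ χ (J + 1) t - χ J t := fun t => sub_nonneg.2 (c.tent.mono J t)
  have t1 : ∀ t, χ (J + 1) t - χ J t ≤ χ (J + 1) t := fun t => by linarith [c.tent.nn J t]
  have t1' : ∀ t, χ (J + 1) t - χ J t ≤ 1 := fun t => (t1 t).trans (c.tent.le _ t)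
  have t2 : ∀ t t', |χ (J + 1) t - χ J t - (χ (J + 1) t' - χ J t')| ≤
      2 * Ct / lam (J + 1) * |t - t'| := fun t t' => by
    have a : Ct / lam J ≤ Ct / lam (J + 1) := div_le_div_of_nonneg_left (by linarith only [hC, l1, l2, l3, e1, e2]) l3 (by linarith)
    rw [sub_sub_sub_comm, mul_div_assoc]
    linarith [abs_sub (χ (J + 1) t - χ (J + 1) t') (χ J t - χ J t'), c.tent.lip J t t',
      c.tent.lip (J + 1) t t', mul_le_mul_of_nonneg_right a (abs_nonneg (t - t'))]
  have t3 : ∀ t, lam J < |t - s| → χ (J + 1) t - χ J t = 0 := fun t ht => by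
    rcases lt_abs.1 ht with a | a
    · rw [c.tent.zero J t (by linarith), c.tent.zero _ t (by linarith only [l2, l3, a]), sub_zero]
    · rw [c.tent.one J t (by linarith only [a]), c.tent.one _ t (by linarith), sub_self]
  have hψ := loct_rad (φ := fun t => χ (J + 1) t - χ J t) (T := Shl x s (lam J / 2)) x
    (by positivity) t0 t1' t2 fun y hy => t3 _ (by
      have : ¬ |‖y - x‖ - s| ≤ 2 * (lam J / 2) := hy
      linarith only [this])
  have g0 : 0 < ee J ^ 3 := by positivity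
  obtain ⟨η0, η1, η2, η3, η4⟩ := loct_eta g0 y0
  have hn := hψ.loct_mul (T' := Shl x s (lam J / 2) ∩ {y | ‖y - y0‖ ≤ 2 * ee J ^ 3}) η0 η1 η2
    fun y a b => η3 y (not_le.1 fun c => b ⟨a, c⟩)
  have hf := hψ.loct_mul (T' := Shl x s (lam J / 2) ∩ {y | ee J ^ 3 ≤ ‖y - y0‖})
    (η := fun y => 1 - loctEta (ee J ^ 3) y0 y) (fun y => by linarith only [η1 y])
    (fun y => by linarith only [η0 y])
    (fun y y' => by rw [sub_sub_sub_cancel_left, abs_sub_comm]; exact η2 y y')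
    fun y a b => by rw [η4 y (not_le.1 fun c => b ⟨a, c⟩), sub_self]
  have L0 : 0 ≤ 2 * Ct / lam (J + 1) + (ee J ^ 3)⁻¹ := by positivity
  have L1 : (2 * Ct / lam (J + 1) + (ee J ^ 3)⁻¹) * lam (J + 1) ≤ 3 * Ct := by
    have : (ee J ^ 3)⁻¹ * lam (J + 1) ≤ 1 := by rw [inv_mul_le_iff₀ g0]; linarith only [l1, l2, l3]
    rw [add_mul, div_mul_cancel₀ _ l3.ne']
    linarith only [hC, this]
  obtain ⟨z1, z2⟩ := loct_zz (x := x) c.hs.1
  have z3 : ∀ y ∈ Shl x s (lam J / 2), ‖zz x s y‖ ≤ 2 := fun y hy => z2 y (by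
    have : |‖y - x‖ - s| ≤ 2 * (lam J / 2) := hy
    linarith only [(abs_le.1 this).2, l1, e1, e2])
  obtain ⟨d1, d2⟩ := loct_dir c.hs.1 (by linarith only [l1, l2, l3, e1, e2]) hL.1
  have S2 := loct_shl c.hx c.hs.2 (l := lam J) (by linarith only [l1, l2, l3, e1, e2])
  have S3 := loct_shl c.hx c.hs.2 (l := lam J / 2) (by linarith only [l1, l2, l3, e1, e2])
  obtain ⟨k, k0, k1, k2, k3, k4, k5⟩ := curl μ c.sm x c.hs l0 (by linarith only [l1, l2, l3, e1, e2])
    (ψ := fun t => χ (J + 1) t - χ J t) (ω := χ (J + 1))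
    (LipschitzWith.of_dist_le' (K := 2 * Ct / lam (J + 1)) t2).continuous t0 t1 t1'
    (c.tent.anti _) t3
  have cz : Continuous (zz x s) := loct_cont z1
  have key : ∀ u : E, ‖u‖ ≤ 1 → inner ℝ u (GG μ g x χ J - (TT μ g x s χ J -
      TT μ g x s χ (J + 1)) • dir x y0) ≤ 10 ^ 4 * (2 * D + 1) ^ 2 * Ct * ee J * (P + AA W J) := by
    intro u hu
    have hi : ∀ v : E, |inner ℝ u v| ≤ ‖v‖ := fun v =>
      (abs_real_inner_le_norm u v).trans (mul_le_of_le_one_left (norm_nonneg _) hu)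
    set Z : E → E := fun y => (inner ℝ u (zz x s y - dir x y0) : ℝ) • zz x s y with hZ
    have Z0 : ∀ y ∈ Shl x s (lam J / 2), ‖Z y‖ ≤ 2 * ‖zz x s y - dir x y0‖ := fun y hy => by
      rw [hZ, norm_smul, mul_comm]
      exact mul_le_mul (z3 y hy) (hi _) (norm_nonneg _) zero_le_two
    have Z1 : ∀ y ∈ Shl x s (lam J / 2), ‖zz x s y - dir x y0‖ ≤ 3 := fun y hy => by
      linarith only [norm_sub_le (zz x s y) (dir x y0), z3 y hy, d1]
    have Z2 : ∀ y ∈ Shl x s (lam J / 2), ∀ y' ∈ Shl x s (lam J / 2),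
        ‖Z y - Z y'‖ ≤ 2 * 6 * ‖y - y'‖ := fun y hy y' hy' => by
      have e : Z y - Z y' = (inner ℝ u (zz x s y - zz x s y') : ℝ) • zz x s y +
          (inner ℝ u (zz x s y' - dir x y0) : ℝ) • (zz x s y - zz x s y') := by
        simp only [hZ, inner_sub_right]; module
      rw [e]
      refine (norm_add_le _ _).trans ?_
      rw [norm_smul, norm_smul, Real.norm_eq_abs, Real.norm_eq_abs]
      linarith only [mul_le_mul ((hi _).trans (z1 y y')) (z3 y hy) (norm_nonneg _) (by positivity), mul_le_mul ((hi _).trans (Z1 y' hy')) (z1 y y') (norm_nonneg _) (by norm_num), norm_nonneg (y - y')]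
    have Z3 : ∀ y ∈ Shl x s (lam J / 2) ∩ {y | ‖y - y0‖ ≤ 2 * ee J ^ 3},
        ‖Z y‖ ≤ 10 * ee J ^ 3 := fun y hy => by
      have a : ‖y - y0‖ ≤ 2 * ee J ^ 3 := hy.2
      linarith only [norm_sub_le_norm_sub_add_norm_sub (zz x s y) (zz x s y0) (dir x y0), z1 y y0, Z0 y hy.1, l1, l2, l3, d2, a]
    have f1 := loct_far c.bud c.hn hg (i := lev J) (Z := Z) (B := 6)
      ((loct_meas x s (lam J)).diff measurableSet_ball) (sdiff_subset.trans S2) L0 hf hC L1
      (by norm_num) (fun y hy => by linarith only [Z0 y hy.1, Z1 y hy.1])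
      (fun y hy y' hy' => Z2 y hy.1 y' hy'.1)
      (fun y hy => loct_nbhd (by rw [loct_rho]; linarith only [l2, l3]) (by rw [loct_rho]; linarith only [l1, l2, l3]) hy.1 hy.2)
      hL.2
    have f2 := sm _ (10 * ee J ^ 3) _ (by positivity) (by positivity) (by
        linarith only [mul_le_mul_of_nonneg_right L1 g0.le, mul_le_mul_of_nonneg_right hC g0.le, l1, l2, l3])
      (hn.lip_smul L0 (by norm_num) (by positivity) Z3 fun y hy y' hy' => Z2 y hy.1 y' hy'.1)
      fun y => by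
        by_cases hy : y ∈ Shl x s (lam J / 2) ∩ {y | ‖y - y0‖ ≤ 2 * ee J ^ 3}
        · rw [norm_smul, Real.norm_of_nonneg (hn.nn y), mul_comm]
          exact mul_le_mul (Z3 y hy) ((mul_le_of_le_one_right (t0 _) (η1 y)).trans (t1 _)) (hn.nn y)
            (by positivity)
        · rw [hn.supp y hy, zero_smul, norm_zero]
          exact mul_nonneg (by positivity) (c.tent.nn _ _)
    have f3 := sm (fun y => k ‖y - x‖ • u) (8 * lam J) 4 (by positivity) (by norm_num)
      (by linarith only [mul_le_mul_of_nonneg_right hC l0.le, l2, l3])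
      (fun y y' => by
        rw [← sub_smul, norm_smul]
        refine (mul_le_of_le_one_right (norm_nonneg _) hu).trans ((k3 _ _).trans ?_)
        have := abs_norm_sub_norm_le (y - x) (y' - x)
        rw [sub_sub_sub_cancel_right] at this
        linarith only [this])
      fun y => by
        rw [norm_smul, Real.norm_of_nonneg (k0 _)]
        exact (mul_le_of_le_one_right (k0 _) hu).trans (k1 _)
    have Y1 : ∀ y ∈ Shl x s (lam J / 2), ‖(1 - ‖zz x s y‖ ^ 2) • u‖ ≤ 6 * lam J := fun y hy => by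
      have a : |‖y - x‖ - s| ≤ 2 * (lam J / 2) := hy
      have s0 : 0 < s := by linarith only [c.hs.1, l1, l2, l3, e1, e2]
      have b : |1 - ‖zz x s y‖| ≤ 2 * lam J := by
        rw [zz, norm_smul, Real.norm_of_nonneg (by positivity), show 1 - s⁻¹ * ‖y - x‖ =
          -(‖y - x‖ - s) / s by field_simp; ring, abs_div, abs_neg, abs_of_pos s0, div_le_iff₀ s0]
        linarith only [mul_le_mul_of_nonneg_left c.hs.1 l0.le, a]
      rw [norm_smul, Real.norm_eq_abs, show 1 - ‖zz x s y‖ ^ 2 = (1 - ‖zz x s y‖) * (1 + ‖zz x s y‖)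
        by ring, abs_mul, abs_of_nonneg (a := 1 + ‖zz x s y‖) (by positivity)]
      refine (mul_le_of_le_one_right (by positivity) hu).trans ?_
      linarith only [mul_le_mul b (show 1 + ‖zz x s y‖ ≤ 3 by linarith only [z3 y hy]) (by positivity)
        (by positivity)]
    have f4 := sm _ (6 * lam J) _ (by positivity) (by positivity) (by
        rw [add_mul, mul_right_comm, div_mul_cancel₀ _ l3.ne']
        linarith only [mul_le_mul_of_nonneg_right hC l0.le, l2, l3])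
      (hψ.lip_smul (Λ' := 8) (by positivity) (by norm_num) (by positivity) Y1 fun y hy y' hy' => by
        rw [← sub_smul, norm_smul, Real.norm_eq_abs, show 1 - ‖zz x s y‖ ^ 2 - (1 - ‖zz x s y'‖ ^ 2) =
          -(‖zz x s y‖ - ‖zz x s y'‖) * (‖zz x s y‖ + ‖zz x s y'‖) by ring, abs_mul, abs_neg,
          abs_of_nonneg (a := ‖zz x s y‖ + ‖zz x s y'‖) (by positivity)]
        refine (mul_le_of_le_one_right (by positivity) hu).trans ?_
        linarith only [mul_le_mul ((abs_norm_sub_norm_le _ _).trans (z1 y y'))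
          (show ‖zz x s y‖ + ‖zz x s y'‖ ≤ 4 by linarith only [z3 y hy, z3 y' hy']) (by positivity)
          (by positivity)])
      fun y => by
        by_cases hy : y ∈ Shl x s (lam J / 2)
        · rw [norm_smul, Real.norm_of_nonneg (t0 _), mul_comm]
          exact mul_le_mul (Y1 y hy) (t1 _) (t0 _) (by positivity)
        · rw [hψ.supp y hy, zero_smul, norm_zero]
          exact mul_nonneg (by positivity) (c.tent.nn _ _)
    simp only [real_inner_smul_left] at f2 f3 f4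
    have c0 : Continuous fun y => inner ℝ u (g y) := by fun_prop
    have c1 : Continuous fun y => inner ℝ (zz x s y) (g y) := by fun_prop
    have c2 : Continuous fun y => ‖zz x s y‖ ^ 2 * inner ℝ u (g y) -
        inner ℝ u (zz x s y) * inner ℝ (zz x s y) (g y) := by fun_prop
    have c3 : Continuous fun y => (1 - ‖zz x s y‖ ^ 2) * inner ℝ u (g y) := by fun_prop
    have cZ : Continuous fun y => inner ℝ (Z y) (g y) := by simp only [hZ]; fun_prop
    have i1 := hn.loct_int μ (inter_subset_left.trans S3) cZ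
    have i2 := hf.loct_int μ (inter_subset_left.trans S3) cZ
    have q1 : inner ℝ u (GG μ g x χ J) = ∫ y, (χ (J + 1) ‖y - x‖ - χ J ‖y - x‖) *
        inner ℝ u (g y) ∂μ := by
      unfold GG vI
      refine (integral_inner ((hψ.loct_cont.smul hg).integrable_of_hasCompactSupport
        (HasCompactSupport.intro (isCompact_closedBall 0 62) fun y hy => by
          rw [Pi.smul_apply', hψ.supp y fun h => hy (ball_subset_closedBall (S3 h)), zero_smul]))
        u).symm.trans ?_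
      simp only [Pi.smul_apply', inner_smul_right]
    have q2 : TT μ g x s χ J - TT μ g x s χ (J + 1) = ∫ y, (χ (J + 1) ‖y - x‖ - χ J ‖y - x‖) *
        inner ℝ (zz x s y) (g y) ∂μ := by
      unfold TT sI
      simp only [sub_mul]
      rw [integral_sub ((w1 (J + 1)).loct_int μ T1 c1) ((w1 J).loct_int μ T1 c1)]
      ring
    have q3 := integral_sub (hψ.loct_int μ S3 c0) ((hψ.loct_int μ S3 c1).mul_const
      (inner ℝ u (dir x y0)))
    have q4 := integral_add (i1.add i2) ((hψ.loct_int μ S3 c2).add (hψ.loct_int μ S3 c3))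
    simp only [Pi.add_apply] at q4
    rw [integral_add i1 i2, integral_add (hψ.loct_int μ S3 c2) (hψ.loct_int μ S3 c3), k5 u] at q4
    rw [inner_sub_right, inner_smul_right, q1, q2, ← integral_mul_const, ← q3]
    refine le_trans (le_of_eq ((integral_congr_ae (Filter.Eventually.of_forall fun y => ?_)).trans
      q4)) ?_
    · simp only [hZ, real_inner_smul_left, inner_sub_right]; ring
    have R0 : 0 ≤ (2 * D + 1) * (768 * Ct * (P + AA W J)) := by positivity
    have r1 := mul_le_mul_of_nonneg_left ((le_abs_self _).trans f3) (sub_nonneg.2 D1)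
    have r2 := mul_le_mul_of_nonneg_right (show 10 * ee J ^ 3 + (D - 1) * (8 * lam J) + 6 * lam J ≤
      (2 * D + 1) * (4 * ee J) by
        linarith only [mul_le_mul_of_nonneg_right D1 e0.le, mul_le_mul_of_nonneg_left
          (show 100 * lam J ≤ ee J by linarith only [l1, e1]) D0, l1, l2, l3, e1]) R0
    have r3 : (2 * D + 1) * 288 * Ct * 6 * (ee J ^ 3 * AA W J) ≤
        1728 * ((2 * D + 1) ^ 2 * Ct * ee J * (P + AA W J)) := by
      have a := mul_le_mul e1 (show AA W J ≤ (2 * D + 1) * (P + AA W J) by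
        linarith only [mul_nonneg D0 (add_nonneg P0 A0.le), P0]) A0.le e0.le
      linarith only [mul_le_mul_of_nonneg_left a (show 0 ≤ (2 * D + 1) * Ct by positivity)]
    have r4 : 0 ≤ (2 * D + 1) ^ 2 * Ct * ee J * (P + AA W J) := by positivity
    rw [← hD] at f1 ⊢
    unfold pI
    linarith only [(le_abs_self _).trans f1, (le_abs_self _).trans f2, (le_abs_self _).trans f4, r1, r2, r3, r4]
  generalize GG μ g x χ J - (TT μ g x s χ J - TT μ g x s χ (J + 1)) • dir x y0 = V at key ⊢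
  rcases eq_or_ne V 0 with rfl | h0
  · simpa only [norm_zero, ge_iff_le, inner_self_eq_norm_sq_to_K, Real.ringHom_apply, ne_eq, OfNat.ofNat_ne_zero, not_false_eq_true, zero_pow] using key 0 (by simp)
  · have := key (‖V‖⁻¹ • V) (by rw [norm_smul, norm_inv, norm_norm, inv_mul_cancel₀ (by simpa)])
    rwa [real_inner_smul_left, real_inner_self_eq_norm_sq, sq, ← mul_assoc,
      inv_mul_cancel₀ (by simpa only [ne_eq, norm_eq_zero, inv_mul_mul_self]), one_mul] at this

end Pool.Agent.MP_a25fb7_an.Cn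

end
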