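import Mathlib

/-!
Definitions for the centered maximal function estimate.
-/

set_option autoImplicit false
set_option linter.unusedSectionVars false
open MeasureTheory Metric Set Module
open scoped ENNReal

namespace Pool.Agent.MP_a25fb7_an.Cn

variable {E : Type*} [NormedAddCommGroup E] [InnerProductSpace ℝ E] [FiniteDimensional ℝ E]
  [MeasurableSpace E] [BorelSpace E] (μ : Measure E) [μ.IsAddHaarMeasure]

/-- the average of `h` over the ball with centre `x` and radius `s` -/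
noncomputable def avF {F : Type*} [NormedAddCommGroup F] [NormedSpace ℝ F] (h : E → F) (x : E)
    (s : ℝ) : F := ⨍ z in ball (0 : E) 1, h (x + s • z) ∂μ

/-- `f` is `C²` with gradient `g`, which is bounded by `S` and `K`-Lipschitz -/
structure Sm (f : E → ℝ) (g : E → E) (S K : ℝ) : Prop where
  cd : ContDiff ℝ 2 f
  gr : ∀ x, HasGradientAt f (g x) x
  bd : ∀ x, ‖g x‖ ≤ S
  lip : ∀ x y, ‖g x - g y‖ ≤ K * ‖x - y‖

/-- smoothing radii -/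
noncomputable def rho (i : ℕ) : ℝ := (1 / 4) ^ i

/-- shell widths -/
noncomputable def lam (J : ℕ) : ℝ := rho (11 * (J + 1))

/-- the smoothing level used at scale `J` -/
def lev (J : ℕ) : ℕ := 11 * (J + 2)

/-- small parameter at scale `J` -/
noncomputable def ee (J : ℕ) : ℝ := (1 / 2) ^ J

/-- a weight: values in `[0,a]`, `Λ`-Lipschitz, vanishing off `T` -/
structure Wt (a Λ : ℝ) (T : Set E) (ψ : E → ℝ) : Prop where
  nn : ∀ y, 0 ≤ ψ y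
  le : ∀ y, ψ y ≤ a
  lip : ∀ y y', |ψ y - ψ y'| ≤ Λ * ‖y - y'‖
  supp : ∀ y, y ∉ T → ψ y = 0

/-- the pairing of a weight and a constant vector with `g` -/
noncomputable def pI (g : E → E) (ψ : E → ℝ) (v : E) : ℝ := ∫ y, ψ y * inner ℝ v (g y) ∂μ

/-- a family of smoothing kernels at unit scale -/
structure Fam (σ κ : ℕ → Measure E) (N : ℕ) : Prop where
  ps : ∀ i, IsProbabilityMeasure (σ i)
  pk : ∀ i, IsProbabilityMeasure (κ i)
  ss : ∀ i, σ i (closedBall 0 (rho i))ᶜ = 0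
  sk : ∀ i, κ i (closedBall 0 (2 * rho i))ᶜ = 0
  cv : ∀ i, κ i = (σ i).conv (κ (i + 1))
  fin : ∀ i, N ≤ i → κ i = Measure.dirac 0

/-- the smoothed field -/
noncomputable def gs (κ : ℕ → Measure E) (g : E → E) (i : ℕ) (y : E) : E := ∫ u, g (y + u) ∂(κ i)

/-- the defect of the smoothed field with respect to the direction `n` -/
noncomputable def del (κ : ℕ → Measure E) (g : E → E) (n : E) (i : ℕ) (y : E) : ℝ :=
  ‖gs κ g i y‖ - inner ℝ n (gs κ g i y)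

/-- the budget of a cell -/
def DelBd (κ : ℕ → Measure E) (g : E → E) (n : E) (W : ℝ) : Prop :=
  ∀ i, ∫ y in ball (0 : E) 66, del κ g n i y ∂μ ≤ W * (20 / 19) ^ i

/-- the weight lemmas of section 2 -/
structure Bud (g : E → E) (n : E) (q β : ℕ → E → ℝ) (W : ℝ) : Prop where
  cq : ∀ i, Continuous (q i)
  cb : ∀ i, Continuous (β i)
  nq : ∀ i y, 0 ≤ q i y
  nb : ∀ i y, 0 ≤ β i y
  tot : ∀ i, ∫ y in ball (0 : E) 64, β i y ∂μ ≤ W * (20 / 19) ^ i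
  lemP : ∀ (i : ℕ) (a Λ : ℝ) (T : Set E) (ψ : E → ℝ) (v : E), MeasurableSet T →
    T ⊆ ball 0 62 → 0 ≤ Λ → Wt a Λ T ψ → ‖v‖ ≤ 1 →
    pI μ g ψ (v - n) ≤ 8 * (a + Λ * rho i) * ∫ y in T, β i y ∂μ
  lemU : ∀ (i : ℕ) (a Λ : ℝ) (T T' : Set E) (ψ : E → ℝ), MeasurableSet T' →
    T' ⊆ ball 0 62 → 0 ≤ Λ → Wt a Λ T ψ → (∀ y ∈ T, ball y (6 * rho i) ⊆ T') →
    pI μ g ψ n ≤ 16 * (a + Λ * rho i) * ∫ y in T', (q i y + β i y) ∂μ
  lemLo : ∀ (i : ℕ) (Λ R : ℝ) (T : Set E) (ψ : E → ℝ) (x : E), MeasurableSet T →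
    T ⊆ ball 0 62 → 0 ≤ Λ → Wt 1 Λ T ψ → (∀ y ∈ ball x R, ψ y = 1) →
    ∫ y in ball x (R - 4 * rho i), q i y ∂μ ≤
      pI μ g ψ n + 16 * (1 + Λ * rho i) * ∫ y in ball (0 : E) 64, β i y ∂μ

/-- inner and outer tents at radius `s` -/
structure Tent (s C : ℝ) (χ χp : ℕ → ℝ → ℝ) : Prop where
  nn : ∀ J t, 0 ≤ χ J t
  le : ∀ J t, χ J t ≤ 1
  anti : ∀ J, Antitone (χ J)
  lip : ∀ J t t', |χ J t - χ J t'| ≤ C / lam J * |t - t'|
  one : ∀ J t, t ≤ s - lam J → χ J t = 1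
  zero : ∀ J t, s ≤ t → χ J t = 0
  mono : ∀ J t, χ J t ≤ χ (J + 1) t
  pnn : ∀ J t, 0 ≤ χp J t
  ple : ∀ J t, χp J t ≤ 1
  panti : ∀ J, Antitone (χp J)
  plip : ∀ J t t', |χp J t - χp J t'| ≤ C / lam J * |t - t'|
  pone : ∀ J t, t ≤ s → χp J t = 1
  pzero : ∀ J t, s + lam J ≤ t → χp J t = 0

/-- normalized position -/
noncomputable def zz (x : E) (s : ℝ) (y : E) : E := s⁻¹ • (y - x)

/-- vector integral against a radial weight -/
noncomputable def vI (g : E → E) (x : E) (φ : ℝ → ℝ) : E := ∫ y, φ ‖y - x‖ • g y ∂μ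

/-- radial component against a radial weight -/
noncomputable def sI (g : E → E) (x : E) (s : ℝ) (φ : ℝ → ℝ) : ℝ :=
  ∫ y, φ ‖y - x‖ * inner ℝ (zz x s y) (g y) ∂μ

/-- two-sided shell -/
def Shl (x : E) (s l : ℝ) : Set E := {y | |‖y - x‖ - s| ≤ 2 * l}

/-- `v` points in the direction `n` up to an error `ε` -/
def Good (n v : E) (ε : ℝ) : Prop :=
  -ε ≤ inner ℝ n v ∧ ∀ u : E, inner ℝ n u = 0 → ‖u‖ ≤ 1 → inner ℝ u v ≤ ε

/-- the window in direction `e` -/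
def Wd (e : E) : Set E :=
  {z | 19 ≤ inner ℝ e z ∧ inner ℝ e z ≤ 33 ∧ ‖z - (inner ℝ e z : ℝ) • e‖ ≤ 1}

/-- the conclusion of the local theorem and of the chain lemma at unit scale -/
def CellOK (f : E → ℝ) (g : E → E) (e : E) (W : ℝ) : Prop :=
  (∃ R : E → ℝ≥0∞, Measurable R ∧ ∫⁻ x in ball (0 : E) 40, R x ∂μ ≤ ENNReal.ofReal W ∧
    ∀ x ∈ ball (0 : E) 40, ∀ s ∈ Icc (1 / 2 : ℝ) 8,
      (∀ s' ∈ Icc (1 / 2 : ℝ) 8, avF μ f x s' ≤ avF μ f x s) →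
      ENNReal.ofReal (‖avF μ g x s‖ / 2 - inner ℝ e (avF μ g x s)) ≤ R x) ∧
  ∃ t : ℝ, (∀ y ∈ ball (0 : E) 2, ∀ s ∈ Icc (1 / 2 : ℝ) 8, avF μ f y s ≤ t) ∧
    ∫⁻ z in Wd e, ENNReal.ofReal (t - f z) ∂μ ≤ ENNReal.ofReal W

section Loc
variable (g : E → E) (n : E) (q β : ℕ → E → ℝ) (W : ℝ) (x : E) (s : ℝ) (χ χp : ℕ → ℝ → ℝ)

/-- absolute threshold -/
noncomputable def AA (W : ℝ) (J : ℕ) : ℝ := W * (9 / 5) ^ J
/-- `Π_J` -/
noncomputable def PP (J : ℕ) : ℝ := pI μ g (fun y => χ J ‖y - x‖) n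
/-- `T_J` -/
noncomputable def TT (J : ℕ) : ℝ := -sI μ g x s (χ J)
/-- `G_J` -/
noncomputable def GG (J : ℕ) : E := vI μ g x fun t => χ (J + 1) t - χ J t
/-- `b_J` -/
noncomputable def bb (J : ℕ) : ℝ := ∫ y in Shl x s (lam J), β (lev J) y ∂μ
/-- case L at scale `J` with point `y0` -/
def CaseL (J : ℕ) (y0 : E) : Prop := y0 ∈ Shl x s (lam J) ∧
  ∫ y in Shl x s (lam J) \ ball y0 (ee J ^ 3 / 2), (q (lev J) y + β (lev J) y) ∂μ ≤
    ee J ^ 3 * AA W J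
/-- direction of `y0` seen from `x` -/
noncomputable def dir (x y0 : E) : E := ‖y0 - x‖⁻¹ • (y0 - x)

/-- standing assumptions -/
structure Ctx (f : E → ℝ) (S K Ct : ℝ) : Prop where
  sm : Sm f g S K
  bud : Bud μ g n q β W
  hn : ‖n‖ = 1
  hW : 0 < W
  hx : x ∈ ball (0 : E) 40
  hs : s ∈ Icc (1 / 2 : ℝ) 8
  tent : Tent s Ct χ χp
  hC : 1 ≤ Ct

end Loc

end Pool.Agent.MP_a25fb7_an.Cn
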