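import Pool.Agent.MP_a25fb7_an.Mg.Sob

attribute [-instance] Valued.toUniformSpace AddQuantale.instAddLeftMono littleWedderburn
  TotallySeparatedSpace.t2Space IdemSemiring.toCanonicallyOrderedAdd ContinuousMul.measurableMul
  NonUnitalNonAssocRing.toAddCommGroup NonUnitalNonAssocSemiring.toAddCommMonoid Algebra.toSMul
  NonUnitalNormedRing.toNonUnitalSeminormedRing AlexandrovDiscrete.toFirstCountable
  LieAdmissibleAlgebra.toModule CommRing.toRing DivisionRing.toRing Semiring.toAddCommMonoid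
  NonUnitalNonAssocSemiring.toDistrib Quantale.instMulLeftMono
  AlexandrovDiscrete.toLocallyCompactSpace MulSemiringAction.toDistribMulAction
  CommMonTypeEquivalenceCommMon.commMonCommMonoid Quantale.instMulRightMono
  AddQuantale.instAddRightMono NonUnitalSeminormedRing.toPseudoMetricSpace
  NonUnitalAlgSemiHomClass.toDistribMulActionSemiHomClass NumberField.to_charZero
  RightPreLieAlgebra.toModule LeftPreLieAlgebra.toModule NonAssocSemiring.toAddCommMonoidWithOne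
  CoalgHomClass.toSemilinearMapClass GrpTypeEquivalenceGrp.grpGroup
  SeminormedRing.toPseudoMetricSpace LinearOrderedCommMonoidWithZero.toPosMulStrictMono

/-!
The centered maximal function: the fractional translation estimate, and weak gradients in `L^q`
for large `q`.
-/

set_option autoImplicit false
set_option linter.unusedSectionVars false
open MeasureTheory Metric Set Module Filter Topology
open scoped ENNReal

namespace Pool.Agent.MP_a25fb7_an

variable {E : Type*} [NormedAddCommGroup E] [InnerProductSpace ℝ E] [FiniteDimensional ℝ E]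
  [MeasurableSpace E] [BorelSpace E] (μ : Measure E) [μ.IsAddHaarMeasure]

/-- the centered maximal function with exponent `s` -/
noncomputable def Mc (s : ℝ) (Φ : E → ℝ≥0∞) (x : E) : ℝ≥0∞ :=
  ⨆ r : ℝ, ⨆ (_ : 0 < r), aB μ s Φ x r

lemma le_Mc (s : ℝ) (Φ : E → ℝ≥0∞) (x : E) {r : ℝ} (h : 0 < r) : aB μ s Φ x r ≤ Mc μ s Φ x :=
  le_iSup₂_of_le (f := fun (r : ℝ) (_ : 0 < r) => aB μ s Φ x r) r h le_rfl

lemma Mc_le_Mb (s : ℝ) (Φ : E → ℝ≥0∞) (x : E) : Mc μ s Φ x ≤ Mb μ s Φ x :=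
  iSup₂_le fun _ hr => le_Mb μ s Φ (mem_ball_self hr)

lemma measurable_Mc (s : ℝ) (Φ : E → ℝ≥0∞) : Measurable (Mc μ s Φ) := by
  refine measurable_of_Ioi fun t => IsOpen.measurableSet ?_
  rw [isOpen_iff_forall_mem_open]
  intro x hx
  simp only [mem_preimage, mem_Ioi, Mc, lt_iSup_iff] at hx
  obtain ⟨r, hr, h2⟩ := hx
  have e : ball x r = ⋃ n : ℕ, ball x (r - 1 / ((n : ℝ) + 1)) := by
    ext y
    simp only [mem_ball, mem_iUnion]
    refine ⟨fun h => ?_, fun ⟨n, h⟩ => h.trans_le (sub_le_self _ (by positivity))⟩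
    obtain ⟨n, hn⟩ := exists_nat_one_div_lt (sub_pos.2 h)
    exact ⟨n, by linarith⟩
  have hm : Monotone fun n : ℕ => ball x (r - 1 / ((n : ℝ) + 1)) := fun a b hab =>
    ball_subset_ball (by linarith only [Nat.one_div_le_one_div (α := ℝ) hab])
  have h3 : aB μ s Φ x r = ⨆ n : ℕ, (μ (ball x r) ^ s)⁻¹ *
      ∫⁻ y in ball x (r - 1 / ((n : ℝ) + 1)), Φ y ∂μ := by
    rw [← ENNReal.mul_iSup, ← setLIntegral_iUnion_of_directed _ hm.directed_le, ← e, aB]
  rw [h3, lt_iSup_iff] at h2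
  obtain ⟨n, hn⟩ := h2
  refine ⟨ball x (1 / ((n : ℝ) + 1)), fun y hy => hn.trans_le (le_trans ?_ (le_Mc μ s Φ y hr)),
    isOpen_ball, mem_ball_self (by positivity)⟩
  rw [aB, Measure.addHaar_ball_center μ x, Measure.addHaar_ball_center μ y]
  refine mul_le_mul_right (lintegral_mono_set (ball_subset_ball' ?_)) _
  rw [mem_ball, dist_comm] at hy
  linarith only [hy]

lemma Mc_le_add (s : ℝ) {Φ Ψ D : E → ℝ≥0∞} (hD : Measurable D) (h : ∀ y, Φ y ≤ Ψ y + D y) (x : E) :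
    Mc μ s Φ x ≤ Mc μ s Ψ x + Mb μ s D x := by
  refine iSup₂_le fun r hr => ?_
  refine le_trans ?_ (add_le_add (le_Mc μ s Ψ x hr) (le_Mb μ s D (mem_ball_self hr)))
  rw [aB, aB, ← mul_add, ← lintegral_add_right _ hD]
  exact mul_le_mul_right (lintegral_mono h) _

lemma aB_small {s : ℝ} (hs : 0 < s) (hd : finrank ℝ E ≠ 0) {Φ : E → ℝ≥0∞}
    (hfin : ∫⁻ y, Φ y ∂μ ≠ ∞) (z : E) {a : ℝ≥0∞} (ha : a ≠ 0) :
    ∀ᶠ R in atTop, aB μ s Φ z R < a := by
  have h1 : Tendsto (fun R : ℝ => μ (ball z R)) atTop (𝓝 ∞) := by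
    have := ENNReal.Tendsto.mul_const (b := μ (ball (0 : E) 1))
      (ENNReal.tendsto_ofReal_atTop.comp (tendsto_pow_atTop (α := ℝ) hd)) (Or.inl ENNReal.top_ne_zero)
    rw [ENNReal.top_mul (ball_pos μ 0 one_pos).ne'] at this
    refine this.congr' ?_
    filter_upwards [eventually_gt_atTop 0] with R hR
    exact (ball_vol μ z hR).symm
  have h2 := ENNReal.Tendsto.mul_const (b := ∫⁻ y, Φ y ∂μ)
    (((ENNReal.tendsto_rpow_at_top hs).comp h1).inv) (Or.inr hfin)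
  rw [ENNReal.inv_top, zero_mul] at h2
  filter_upwards [h2.eventually (gt_mem_nhds (pos_iff_ne_zero.2 ha))] with R hR
  exact lt_of_le_of_lt (mul_le_mul_right (setLIntegral_le_lintegral _ _) _) hR

lemma cfrac_select {s : ℝ} (hs : 0 < s) (hd : finrank ℝ E ≠ 0) {Φ : E → ℝ≥0∞}
    (hfin : ∫⁻ y, Φ y ∂μ ≠ ∞) {z : E} {r K : ℝ} (hr : 0 < r) (hK : 1 < K)
    (h : aB μ s Φ z r ≠ 0) :
    ∃ r', r ≤ r' ∧ aB μ s Φ z r ≤ aB μ s Φ z r' ∧ aB μ s Φ z (K * r') ≤ aB μ s Φ z r' := by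
  by_contra hcon
  push Not at hcon
  have key : ∀ n : ℕ, aB μ s Φ z r ≤ aB μ s Φ z (K ^ n * r) := by
    intro n
    induction n with
    | zero => simp
    | succ n ih =>
      rw [pow_succ', mul_assoc]
      exact ih.trans (hcon _ (le_mul_of_one_le_left hr.le (one_le_pow₀ hK.le)) ih).le
  obtain ⟨n, hn⟩ := (((tendsto_pow_atTop_atTop_of_one_lt hK).atTop_mul_const hr).eventually
    (aB_small μ hs hd hfin z h)).exists
  exact absurd (key n) (not_le.2 hn)

lemma cfrac_gain {s : ℝ} (hs0 : 0 ≤ s) (hs1 : s ≤ 1) (Φ : E → ℝ≥0∞) {x h : E} {r : ℝ}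
    (hr : 0 < r) (hM : Mc μ s Φ x ≤ aB μ s Φ (x + h) r) :
    aB μ s Φ (x + h) r ≤ Mc μ s Φ x +
      ENNReal.ofReal (‖h‖ / r * (finrank ℝ E * 2 ^ finrank ℝ E + 1)) * aB μ s Φ (x + h) r := by
  set d := finrank ℝ E with hd
  set z := x + h with hz
  have h0 : 0 ≤ ‖h‖ / r := by positivity
  have hc : (0 : ℝ) ≤ d * 2 ^ d := by positivity
  rcases le_total r ‖h‖ with hh | hh
  · refine le_trans (le_mul_of_one_le_left zero_le (ENNReal.one_le_ofReal.2 ?_)) le_add_self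
    have : 1 ≤ ‖h‖ / r := (one_le_div hr).2 hh
    nlinarith only [hc, this]
  have h1 : ‖h‖ / r ≤ 1 := (div_le_one hr).2 hh
  have h2 : μ (ball x (r + ‖h‖)) ^ s ≤ ENNReal.ofReal ((1 + ‖h‖ / r) ^ d) * μ (ball z r) ^ s := by
    refine (ENNReal.rpow_le_rpow (ball_le_mul μ x z (s := r) (c := 1 + ‖h‖ / r) (by positivity)
      (le_of_eq (by field_simp))) hs0).trans ?_
    rw [ENNReal.mul_rpow_of_nonneg _ _ hs0]
    refine mul_le_mul_left ((ENNReal.rpow_le_rpow_of_exponent_le (ENNReal.one_le_ofReal.2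
      (one_le_pow₀ (by linarith only [h0]))) hs1).trans (by simp only [ENNReal.rpow_one, hd, Std.le_refl])) _
  have h3 : (μ (ball z r) ^ s)⁻¹ ≤
      ENNReal.ofReal ((1 + ‖h‖ / r) ^ d) * (μ (ball x (r + ‖h‖)) ^ s)⁻¹ := by
    rw [← div_eq_mul_inv, ENNReal.le_div_iff_mul_le (Or.inl (ball_rpow_ne_zero μ x (by positivity) s))
      (Or.inl (ball_rpow_ne_top μ x (by positivity) s))]
    refine (mul_le_mul_right h2 _).trans (le_of_eq ?_)
    rw [mul_left_comm, ENNReal.inv_mul_cancel (ball_rpow_ne_zero μ z hr s)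
      (ball_rpow_ne_top μ z hr s), mul_one]
  have h4 : (1 + ‖h‖ / r) ^ d ≤ 1 + ‖h‖ / r * (d * 2 ^ d + 1) := by
    have := one_add_pow_le h0 h1 d
    norm_num only [] at this
    linarith only [h0, this]
  calc aB μ s Φ z r ≤ ENNReal.ofReal ((1 + ‖h‖ / r) ^ d) * aB μ s Φ x (r + ‖h‖) := by
        rw [aB, aB, ← mul_assoc]
        exact mul_le_mul' h3 (lintegral_mono_set (ball_subset_ball' (by simp [hz])))
    _ ≤ ENNReal.ofReal (1 + ‖h‖ / r * (d * 2 ^ d + 1)) * Mc μ s Φ x :=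
        mul_le_mul' (ENNReal.ofReal_le_ofReal h4) (le_Mc μ s Φ x (by positivity))
    _ ≤ _ := by
        rw [ENNReal.ofReal_add zero_le_one (by positivity), add_mul, ENNReal.ofReal_one, one_mul]
        gcongr

theorem cshift_frac {s : ℝ} (hs0 : 0 < s) (hs1 : s < 1) (hd : finrank ℝ E ≠ 0) :
    ∃ C : ℝ≥0∞, C ≠ ∞ ∧ ∀ {F : E → ℝ} {Γ : ℝ≥0∞} (h : E), Measurable F →
      ∫⁻ y, ENNReal.ofReal (F y) ∂μ ≠ ∞ → TransBd μ F univ Γ →
      ∫⁻ x, (Mc μ s (fun y => ENNReal.ofReal (F y)) (x + h) -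
        Mc μ s (fun y => ENNReal.ofReal (F y)) x) ^ s⁻¹ ∂μ ≤
        (ENNReal.ofReal ‖h‖ * (C * Γ)) ^ s⁻¹ := by
  obtain ⟨K, hK, hthin⟩ := frac_thin μ hs0.le hs1 hd
  set d := finrank ℝ E with hdd
  set v := μ (ball (0 : E) 1) with hv
  have hvt : v ≠ ∞ := ball_ne_top μ 0 1
  set C1 : ℝ≥0∞ := ENNReal.ofReal (d * 2 ^ d + 1) * (v ^ s)⁻¹ * 4 with hC1
  have hC1t : C1 ≠ ∞ := ENNReal.mul_ne_top (ENNReal.mul_ne_top ENNReal.ofReal_ne_top
    (ENNReal.inv_ne_top.2 (ball_rpow_ne_zero μ 0 one_pos s))) (by simp)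
  refine ⟨C1 * (ENNReal.ofReal (4 ^ d) * v) ^ s * (ENNReal.ofReal K * 2), ENNReal.mul_ne_top
    (ENNReal.mul_ne_top hC1t (ENNReal.rpow_ne_top_of_nonneg hs0.le (by finiteness)))
    (by finiteness), ?_⟩
  intro F Γ h hF hfin hT
  have hq : 1 ≤ s⁻¹ := (one_le_inv₀ hs0).2 hs1.le
  have hq0 : 0 ≤ s⁻¹ := by linarith only [hs0, hs1, hq]
  set Φ : E → ℝ≥0∞ := fun y => ENNReal.ofReal (F y) with hΦ
  set θ : ℤ → E → ℝ≥0∞ := fun k p => ENNReal.ofReal ((2 : ℝ) ^ k)⁻¹ *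
    ∫⁻ y in ball p (4 * 2 ^ k), Qn μ F (K * 2 ^ k) y ∂μ with hθ
  set Θ : ℤ → ℝ≥0∞ := fun k => ENNReal.ofReal ((2 : ℝ) ^ k)⁻¹ * ∫⁻ y, Qn μ F (K * 2 ^ k) y ∂μ
    with hΘ
  set T := ENNReal.ofReal K * 2 * Γ with hTd
  have hsum : ∑' k, Θ k ≤ T := by
    rw [hTd, mul_assoc]
    refine le_trans (le_of_eq ?_) (mul_le_mul_right (thin_sum μ hF hT (σ := K) (by linarith only [hs0, hs1, hK])) _)
    rw [← ENNReal.tsum_mul_left]
    refine tsum_congr fun k => ?_
    have : core (univ : Set E) (K * 2 ^ k) = univ := by ext; simp [core]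
    rw [this, Measure.restrict_univ, ← mul_assoc, ← ENNReal.ofReal_mul (by linarith only [hs0, hs1, hK]), hΘ]
    field_simp
  have hθT : ∀ k p, θ k p ≤ T := fun k p =>
    (mul_le_mul_right (setLIntegral_le_lintegral _ _) _).trans ((ENNReal.le_tsum k).trans hsum)
  have eθ : ∀ k, θ k = fun p => ENNReal.ofReal ((2 : ℝ) ^ k)⁻¹ * (μ (ball 0 (4 * 2 ^ k)) *
      avE μ (4 * 2 ^ k) (Qn μ F (K * 2 ^ k)) p) := fun k => funext fun p => by
    rw [← lint_ball_eq μ (by positivity)]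
  have mθ : ∀ k, Measurable (θ k) := fun k => by
    rw [eθ]; exact ((measurable_avE μ _ (measurable_Qn μ hF _)).const_mul _).const_mul _
  have mθ' : ∀ k, Measurable fun x => θ k (x + h) := fun k =>
    (mθ k).comp (measurable_id.add_const h)
  set A := ENNReal.ofReal ‖h‖ * C1 with hA
  set W : ℤ → ℝ≥0∞ := fun k => ENNReal.ofReal ((2 ^ k) ^ d) with hW
  have hW0 : ∀ k, W k ≠ 0 := fun k => (ENNReal.ofReal_pos.2 (by positivity)).ne'
  have hpt : ∀ x, (Mc μ s Φ (x + h) - Mc μ s Φ x) ^ s⁻¹ ≤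
      ∑' k, (A * (W k ^ s)⁻¹ * θ k (x + h)) ^ s⁻¹ := by
    intro x
    rw [ENNReal.rpow_inv_le_iff hs0, tsub_le_iff_left]
    refine iSup₂_le fun r hr => ?_
    set z := x + h with hz
    by_cases hM : Mc μ s Φ x < aB μ s Φ z r
    swap
    · exact (not_lt.1 hM).trans le_self_add
    obtain ⟨r', a1, a2, a3⟩ := cfrac_select μ hs0 hd hfin hr (K := 2 * K) (by linarith only [hs0, hs1, hK])
      (zero_le.trans_lt hM).ne'
    have hr' : 0 < r' := hr.trans_le a1
    obtain ⟨k, hk1, hk2⟩ := exists_mem_Ico_zpow hr' (one_lt_two (α := ℝ))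
    rw [zpow_add_one₀ two_ne_zero] at hk2
    have hρ : (0 : ℝ) < 2 ^ k := by positivity
    refine a2.trans ((cfrac_gain μ hs0.le hs1.le Φ hr' (hM.le.trans a2)).trans (add_le_add le_rfl ?_))
    rw [← ENNReal.rpow_inv_le_iff hs0]
    refine le_trans (ENNReal.rpow_le_rpow ?_ hq0) (ENNReal.le_tsum k)
    have b1 := hthin hF hfin hρ hk1 (by linarith only [hk2]) a3
    have b2 : (μ (ball z r') ^ s)⁻¹ ≤ (W k ^ s)⁻¹ * (v ^ s)⁻¹ := by
      rw [← ENNReal.mul_inv (Or.inr (ball_rpow_ne_top μ 0 one_pos s))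
        (Or.inr (ball_rpow_ne_zero μ 0 one_pos s)), ← ENNReal.mul_rpow_of_nonneg _ _ hs0.le,
        ENNReal.inv_le_inv]
      refine ENNReal.rpow_le_rpow ?_ hs0.le
      exact (ball_vol μ z hρ).ge.trans (measure_mono (ball_subset_ball hk1))
    have b3 : ball z r' ⊆ ball z (4 * 2 ^ k) := ball_subset_ball (by linarith only [hr, a1, hk2])
    have b4 : ENNReal.ofReal (‖h‖ / r' * (d * 2 ^ d + 1)) ≤ ENNReal.ofReal ‖h‖ *
        ENNReal.ofReal ((2 : ℝ) ^ k)⁻¹ * ENNReal.ofReal (d * 2 ^ d + 1) := by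
      rw [← ENNReal.ofReal_mul (norm_nonneg _), ← ENNReal.ofReal_mul (by positivity),
        ← div_eq_mul_inv]
      refine ENNReal.ofReal_le_ofReal ?_
      gcongr
    refine (mul_le_mul' b4 (mul_le_mul' b2 (b1.trans
      (mul_le_mul_right (lintegral_mono_set b3) _)))).trans (le_of_eq ?_)
    simp only [hA, hC1, hθ]
    ring
  have hterm : ∀ k, ∫⁻ x, (A * (W k ^ s)⁻¹ * θ k (x + h)) ^ s⁻¹ ∂μ ≤
      A ^ s⁻¹ * T ^ (s⁻¹ - 1) * (ENNReal.ofReal (4 ^ d) * v) * Θ k := by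
    intro k
    have e1 : ((W k ^ s)⁻¹) ^ s⁻¹ = (W k)⁻¹ := by
      rw [ENNReal.inv_rpow, ENNReal.rpow_rpow_inv hs0.ne']
    calc _ ≤ ∫⁻ x, A ^ s⁻¹ * (W k)⁻¹ * T ^ (s⁻¹ - 1) * θ k (x + h) ∂μ := by
          refine lintegral_mono fun x => ?_
          rw [ENNReal.mul_rpow_of_nonneg _ _ hq0, ENNReal.mul_rpow_of_nonneg _ _ hq0, e1,
            rpow_split (θ k _) hq, mul_assoc _ (T ^ _), mul_comm (T ^ _)]
          exact mul_le_mul_right (mul_le_mul_right
            (ENNReal.rpow_le_rpow (hθT _ _) (by linarith only [hq])) _) _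
      _ = _ := by
          rw [lintegral_const_mul _ (mθ' k), lintegral_add_right_eq_self (θ k) h, eθ,
            lintegral_const_mul' _ _ ENNReal.ofReal_ne_top,
            lintegral_const_mul' _ _ (ball_ne_top μ _ _),
            lintegral_avE μ (by positivity) (measurable_Qn μ hF _), ball_vol μ 0 (by positivity),
            mul_pow, ENNReal.ofReal_mul (by positivity)]
          have e2 : (W k)⁻¹ * W k = 1 := ENNReal.inv_mul_cancel (hW0 k) ENNReal.ofReal_ne_top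
          calc _ = A ^ s⁻¹ * T ^ (s⁻¹ - 1) * (ENNReal.ofReal (4 ^ d) * v) * Θ k *
                ((W k)⁻¹ * W k) := by simp only [hΘ, hW]; ring
            _ = _ := by rw [e2, mul_one]
  refine (lintegral_mono hpt).trans ?_
  rw [lintegral_tsum fun k => (((mθ' k).const_mul _).pow_const _).aemeasurable]
  refine (ENNReal.tsum_le_tsum hterm).trans ?_
  rw [ENNReal.tsum_mul_left]
  refine (mul_le_mul_right hsum _).trans (le_of_eq ?_)
  rw [show ENNReal.ofReal ‖h‖ * (C1 * (ENNReal.ofReal (4 ^ d) * v) ^ s * (ENNReal.ofReal K * 2) * Γ)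
    = A * (ENNReal.ofReal (4 ^ d) * v) ^ s * T by rw [hA, hTd]; ring,
    ENNReal.mul_rpow_of_nonneg _ T hq0, ENNReal.mul_rpow_of_nonneg A _ hq0,
    ENNReal.rpow_rpow_inv hs0.ne', rpow_split T hq]
  ring

lemma weak_limit_big {D : ℕ → E → ℝ} (hD : ∀ n, Measurable (D n)) {q : ℝ} (hq : 2 ≤ q) {A : ℝ≥0∞}
    (hA : A ≠ ∞) (h1 : ∀ n, eLpNorm (D n) (ENNReal.ofReal q) μ ≤ A) :
    ∃ G : E → ℝ, AEStronglyMeasurable G μ ∧ eLpNorm G (ENNReal.ofReal q) μ ≤ A ∧
      ∀ (φ : E → ℝ) (c : ℝ), Continuous φ → HasCompactSupport φ →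
        Tendsto (fun n => ∫ x, φ x * D n x ∂μ) atTop (𝓝 c) → ∫ x, φ x * G x ∂μ = c := by
  set ψ : E → ℝ := fun x => (1 + ‖x‖) ^ (-(finrank ℝ E + 1 : ℝ)) with hψ
  have p0 : ∀ x, 0 < ψ x := fun x => Real.rpow_pos_of_pos (by positivity) _
  have p1 : ∀ x, ψ x ≤ 1 := fun x => Real.rpow_le_one_of_one_le_of_nonpos
    (by linarith [norm_nonneg x]) (neg_nonpos.2 (by positivity))
  have pc : Continuous ψ := (continuous_const.add continuous_norm).rpow_const fun x =>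
    Or.inl (add_pos_of_pos_of_nonneg one_pos (norm_nonneg x)).ne'
  have pi : Integrable ψ μ := integrable_one_add_norm (by linarith)
  have hq1 : 1 ≤ ENNReal.ofReal q := ENNReal.one_le_ofReal.2 (by linarith)
  set R : ℝ≥0∞ := (∫⁻ x, ‖ψ x‖ₑ ∂μ + A ^ q) ^ (1 / 2 : ℝ) with hR
  have hRt : R ≠ ∞ := ENNReal.rpow_ne_top_of_nonneg (by norm_num) (ENNReal.add_ne_top.2
    ⟨pi.2.ne, ENNReal.rpow_ne_top_of_nonneg (by linarith only [hq]) hA⟩)
  have h2 : ∀ n, eLpNorm (fun x => ψ x * D n x) 2 μ ≤ R := by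
    intro n
    have h := h1 n
    rw [eLpNorm_eq_lintegral_rpow_enorm_toReal (ENNReal.ofReal_pos.2 (by linarith)).ne'
      ENNReal.ofReal_ne_top, ENNReal.toReal_ofReal (by linarith), one_div,
      ENNReal.rpow_inv_le_iff (by linarith)] at h
    rw [eLpNorm_eq_lintegral_rpow_enorm_toReal two_ne_zero ENNReal.ofNat_ne_top,
      ENNReal.toReal_ofNat]
    refine ENNReal.rpow_le_rpow (le_trans (lint_le_add pc.measurable.enorm
      (Eventually.of_forall fun x => ?_)) (add_le_add le_rfl h)) (by norm_num)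
    have a1 : ‖ψ x‖ₑ ≤ 1 := by
      rw [Real.enorm_of_nonneg (p0 x).le]; exact ENNReal.ofReal_le_one.2 (p1 x)
    rw [enorm_mul]
    rcases le_total ‖D n x‖ₑ 1 with a | a
    · refine le_trans ?_ le_self_add
      refine (ENNReal.rpow_le_rpow (mul_le_of_le_one_right' a) zero_le_two).trans ?_
      simpa using ENNReal.rpow_le_rpow_of_exponent_ge a1 (one_le_two (α := ℝ))
    · exact ((ENNReal.rpow_le_rpow (mul_le_of_le_one_left' a1) zero_le_two).trans
        (ENNReal.rpow_le_rpow_of_exponent_le a hq)).trans le_add_self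
  have hmem : ∀ n, MemLp (fun x => ψ x * D n x) 2 μ := fun n =>
    ⟨(pc.measurable.mul (hD n)).aestronglyMeasurable, (h2 n).trans_lt hRt.lt_top⟩
  set U : Ultrafilter ℕ := Ultrafilter.of atTop with hU
  obtain ⟨G, hG⟩ := exists_weak_ulim U (fun n => (hmem n).toLp _) (R := R.toReal) fun n => by
    rw [Lp.norm_toLp]; exact ENNReal.toReal_mono hRt (h2 n)
  have mi : ∀ g : Lp ℝ 2 μ, AEStronglyMeasurable (fun x => (ψ x)⁻¹ * g x) μ := fun g =>
    pc.measurable.inv.aestronglyMeasurable.mul (Lp.aestronglyMeasurable g)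
  refine ⟨fun x => (ψ x)⁻¹ * G x, mi G, weak_mem_of_closed hG
    (K := {g : Lp ℝ 2 μ | eLpNorm (fun x => (ψ x)⁻¹ * g x) (ENNReal.ofReal q) μ ≤ A}) ?_ ?_
    fun n => ?_, fun φ c hφ hc hl => ?_⟩
  · intro x hx y hy a b ha hb hab
    have e : (fun t => (ψ t)⁻¹ * (a • x + b • y) t) =ᵐ[μ]
        (a • fun t => (ψ t)⁻¹ * x t) + b • fun t => (ψ t)⁻¹ * y t := by
      filter_upwards [Lp.coeFn_add (a • x) (b • y), Lp.coeFn_smul a x, Lp.coeFn_smul b y]
        with t h1 h2 h3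
      rw [h1, Pi.add_apply, h2, h3]
      simp only [Pi.add_apply, Pi.smul_apply, smul_eq_mul]; ring
    rw [mem_ofPred_eq, eLpNorm_congr_ae e]
    refine (eLpNorm_add_le ((mi x).const_smul a) ((mi y).const_smul b) hq1).trans ?_
    rw [eLpNorm_const_smul, eLpNorm_const_smul, Real.enorm_of_nonneg ha, Real.enorm_of_nonneg hb]
    calc _ ≤ ENNReal.ofReal a * A + ENNReal.ofReal b * A :=
          add_le_add (mul_le_mul_right hx _) (mul_le_mul_right hy _)
      _ = A := by rw [← add_mul, ← ENNReal.ofReal_add ha hb, hab]; simp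
  · refine IsSeqClosed.isClosed fun x g hx hlim => ?_
    obtain ⟨ns, -, hns⟩ := (tendstoInMeasure_of_tendsto_Lp hlim).exists_seq_tendsto_ae
    refine Lp.eLpNorm_le_of_ae_tendsto (u := atTop) (Eventually.of_forall fun n => hx (ns n))
      (fun n => mi _) ?_
    filter_upwards [hns] with t ht
    exact ht.const_mul _
  · refine le_trans (le_of_eq (eLpNorm_congr_ae ?_)) (h1 n)
    filter_upwards [(hmem n).coeFn_toLp] with x hx
    rw [hx, inv_mul_cancel_left₀ (p0 x).ne']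
  · have hφ2 : MemLp (fun x => φ x * (ψ x)⁻¹) 2 μ :=
      (hφ.mul (pc.inv₀ fun x => (p0 x).ne')).memLp_of_hasCompactSupport hc.mul_right
    have hin : ∀ g : Lp ℝ 2 μ, inner ℝ g (hφ2.toLp _) = ∫ x, φ x * ((ψ x)⁻¹ * g x) ∂μ := fun g => by
      rw [L2.inner_def]
      refine integral_congr_ae ?_
      filter_upwards [hφ2.coeFn_toLp] with x hx
      rw [hx]; simp [mul_assoc]
    have t1 := hG (hφ2.toLp _)
    simp only [hin] at t1
    refine tendsto_nhds_unique t1 ((hl.mono_left (Ultrafilter.of_le _)).congr fun n => ?_)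
    refine integral_congr_ae ?_
    filter_upwards [(hmem n).coeFn_toLp] with x hx
    rw [hx, inv_mul_cancel_left₀ (p0 x).ne']

theorem weak_grad' {u : E → ℝ} (hu : Measurable u) {q : ℝ} (hq1 : 1 ≤ q) {A : ℝ≥0∞}
    (hA : A ≠ ∞) (h1 : ∀ h, eLpNorm (Dq u h) (ENNReal.ofReal q) μ ≤ A)
    (h2 : ∀ ε : ℝ≥0∞, ε ≠ 0 → ∃ L : ℝ, 0 ≤ L ∧ ∀ h, ∫⁻ x, ENNReal.ofReal (|Dq u h x| - L) ∂μ ≤ ε) :
    LocallyIntegrable u μ ∧ ∃ G : E → E, LocallyIntegrable G μ ∧
      (∀ φ : E → ℝ, ContDiff ℝ (⊤ : ℕ∞) φ → HasCompactSupport φ → ∀ v : E,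
        ∫ x, u x * fderiv ℝ φ x v ∂μ = -∫ x, φ x * inner ℝ (G x) v ∂μ) ∧
      eLpNorm G (ENNReal.ofReal q) μ ≤ finrank ℝ E * A := by
  rcases le_total q 2 with hq2 | hq2
  · exact weak_grad μ hu hq1 hq2 hA h1 h2
  obtain ⟨L, -, hL'⟩ := h2 1 one_ne_zero
  have hloc := locInt_of_Dq μ hu hL'
  have hq : 1 ≤ ENNReal.ofReal q := ENNReal.one_le_ofReal.2 hq1
  set b := stdOrthonormalBasis ℝ E with hb
  choose g mg hg1 hg2 using fun i => weak_limit_big μ
    (D := fun n : ℕ => Dq u (((n : ℝ) + 1)⁻¹ • b i)) (fun n => measurable_Dq hu _) hq2 hA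
    fun n => h1 _
  have mgi : ∀ i, AEStronglyMeasurable (fun x => g i x • b i) μ := fun i =>
    (mg i).smul_const _
  have hG : eLpNorm (∑ i, fun x => g i x • b i) (ENNReal.ofReal q) μ ≤ finrank ℝ E * A := by
    refine (eLpNorm_sum_le (fun i _ => mgi i) hq).trans ((Finset.sum_le_sum (g := fun _ => A)
      fun i _ => le_trans (eLpNorm_mono fun x => ?_) (hg1 i)).trans (by simp only [Finset.sum_const, Finset.card_univ, Fintype.card_fin, nsmul_eq_mul, Std.le_refl]))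
    rw [norm_smul, b.orthonormal.1 i, mul_one]
  have hmem : MemLp (∑ i, fun x => g i x • b i) (ENNReal.ofReal q) μ :=
    ⟨Finset.aestronglyMeasurable_sum _ fun i _ => mgi i,
      hG.trans_lt (ENNReal.mul_lt_top (ENNReal.natCast_lt_top _) hA.lt_top)⟩
  refine ⟨hloc, _, hmem.locallyIntegrable hq, fun φ hφ hc v => ?_, hG⟩
  have key : ∀ i, ∫ x, φ x * g i x ∂μ = -∫ x, u x * fderiv ℝ φ x (b i) ∂μ := fun i =>
    hg2 i φ _ hφ.continuous hc (tendsto_Dq μ hloc hφ hc (b.orthonormal.1 i))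
  have i1 : ∀ i, Integrable (fun x => u x * fderiv ℝ φ x (b i)) μ := fun i =>
    hloc.integrable_smul_right_of_hasCompactSupport
      ((hφ.continuous_fderiv (by simp)).clm_apply continuous_const) (hc.fderiv_apply ℝ _)
  have i2 : ∀ i, Integrable (fun x => φ x * g i x) μ := fun i =>
    (MemLp.locallyIntegrable ⟨mg i, (hg1 i).trans_lt hA.lt_top⟩
      hq).integrable_smul_left_of_hasCompactSupport hφ.continuous hc
  calc ∫ x, u x * fderiv ℝ φ x v ∂μ
      = ∫ x, ∑ i, inner ℝ (b i) v * (u x * fderiv ℝ φ x (b i)) ∂μ := by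
        refine integral_congr_ae (Eventually.of_forall fun x => ?_)
        conv_lhs => rw [← b.sum_repr' v]
        simp only [map_sum, map_smul, smul_eq_mul, Finset.mul_sum]
        exact Finset.sum_congr rfl fun i _ => by ring
    _ = -∫ x, ∑ i, inner ℝ (b i) v * (φ x * g i x) ∂μ := by
        rw [integral_finsetSum _ fun i _ => (i1 i).const_mul _,
          integral_finsetSum _ fun i _ => (i2 i).const_mul _, ← Finset.sum_neg_distrib]
        refine Finset.sum_congr rfl fun i _ => ?_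
        rw [integral_const_mul, integral_const_mul, key]; ring
    _ = _ := by
        congr 1
        refine integral_congr_ae (Eventually.of_forall fun x => ?_)
        simp only [Finset.sum_apply, sum_inner, inner_smul_left, conj_trivial, Finset.mul_sum]
        exact Finset.sum_congr rfl fun i _ => by ring

end Pool.Agent.MP_a25fb7_an
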